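import Pool.Agent.H43.FT.Defs
import Pool.Agent.H60.FT.AStep5
import Pool.Agent.H60.FT.Cauchy

/-!
FT-4: the A-step in the space `V n` (MP_6e521b_an, project FT).
-/

set_option autoImplicit false

open Filter Topology

namespace Pool.Agent.H43.FT

open scoped InnerProductSpace

variable {n : ℕ}

lemma ft4_split (E : Submodule ℂ (V n)) (z : V n) :
    (E.orthogonalProjectionOnto z : V n) + (Eᗮ.orthogonalProjectionOnto z : V n) = z := by
  rw [Submodule.coe_orthogonalProjectionOnto_apply, Submodule.coe_orthogonalProjectionOnto_apply,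
    Submodule.starProjection_orthogonal_val]
  abel

lemma ft4_norm (E : Submodule ℂ (V n)) (y : E) (x : Eᗮ) :
    ‖(y : V n) + (x : V n)‖ ^ 2 = ‖y‖ ^ 2 + ‖x‖ ^ 2 := by
  have h1 : ⟪(y : V n), (x : V n)⟫_ℂ = 0 := Submodule.inner_right_of_mem_orthogonal y.2 x.2
  have h2 := @norm_add_sq ℂ (V n) _ _ _ (y : V n) (x : V n)
  rw [h1] at h2
  simpa using h2

lemma ft4_inner (E : Submodule ℂ (V n)) (y y₂ : E) (x x₂ : Eᗮ) :
    ⟪(y : V n) + (x : V n), (y₂ : V n) + (x₂ : V n)⟫_ℂ = ⟪y, y₂⟫_ℂ + ⟪x, x₂⟫_ℂ := by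
  have h1 : ⟪(y : V n), (x₂ : V n)⟫_ℂ = 0 := Submodule.inner_right_of_mem_orthogonal y.2 x₂.2
  have h2 : ⟪(x : V n), (y₂ : V n)⟫_ℂ = 0 := Submodule.inner_left_of_mem_orthogonal y₂.2 x.2
  rw [inner_add_left, inner_add_right, inner_add_right, h1, h2, Submodule.coe_inner,
    Submodule.coe_inner]
  ring

lemma ft4_pr (E : Submodule ℂ (V n)) (y : E) (x : Eᗮ) :
    E.starProjection ((y : V n) + (x : V n)) = y := by
  rw [map_add, Submodule.starProjection_mem_subspace_eq_self,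
    (Submodule.starProjection_apply_eq_zero_iff E).2 x.2, add_zero]

lemma ft4_pr' (E : Submodule ℂ (V n)) (z : V n) :
    E.starProjection z = (E.orthogonalProjectionOnto z : V n) := rfl

/-- Conversion between the statements. -/
theorem astepV (E : Submodule ℂ (V n)) {δ σ ρ : ℝ} (hδ : 0 < δ) (hδ1 : δ ≤ 1 / 100)
    (hσ0 : 0 ≤ σ) (hσ : σ ≤ δ ^ 2) (hρ : 0 < ρ) (κ : ℝ → ℝ) (hpos : ∀ R, 0 < κ R)
    (hanti : ∀ R T, 0 ≤ R → R ≤ T → κ T ≤ κ R)
    (hmono : ∀ R T, 0 ≤ R → R ≤ T → R * κ R ≤ T * κ T)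
    (b Y : V n) (a a' : V n → V n)
    (hd : DifferentiableOn ℂ a {z | ‖E.starProjection (z - b)‖ < 4 * ρ})
    (ha : ∀ z, ‖E.starProjection (z - b)‖ < 4 * ρ →
      a (E.starProjection z) = a z ∧ E.starProjection (a z) = E.starProjection z)
    (ha' : ∀ z, ‖E.starProjection (z - Y)‖ < 4 * (κ ρ * ρ) →
      a' (E.starProjection z) = a' z ∧ E.starProjection (a' z) = E.starProjection z)
    (hs : ∀ z w, ‖E.starProjection (z - b)‖ < 4 * ρ → ‖E.starProjection (w - b)‖ < 4 * ρ →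
      ‖(a z - a w) - (E.starProjection z - E.starProjection w)‖
        ≤ σ / 8 * ‖E.starProjection z - E.starProjection w‖)
    (hs' : ∀ z w, ‖E.starProjection (z - Y)‖ < 4 * (κ ρ * ρ) →
      ‖E.starProjection (w - Y)‖ < 4 * (κ ρ * ρ) →
      ‖(a' z - a' w) - (E.starProjection z - E.starProjection w)‖
        ≤ σ * ‖E.starProjection z - E.starProjection w‖)
    (M : V n → ℝ) (hM : Continuous M) (hM0 : ∀ z, 0 ≤ M z) (hMb : 0 < M b)
    (ht : Touch M b Y ((1 + δ) * κ ρ) ρ)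
    (hu : ‖b - a b‖ ≤ δ ^ 4 * ρ) (hU : ‖Y - a' Y‖ ≤ δ ^ 4 * (κ ρ * ρ)) :
    ∃ b' Y' : V n, ‖b' - b‖ ≤ δ * ρ ∧ ‖Y' - Y‖ ≤ 3 * (κ ρ * ρ) ∧ ‖b' - a b'‖ ≤ δ * ρ ∧
      M b * Real.exp ((⟪Y, b' - b⟫_ℂ).re - δ ^ 3 * (κ ρ * ρ ^ 2)) ≤ M b' ∧
      ‖(Y' - a' Y') - (κ ‖b' - a b'‖ : ℂ) • (b' - a b')‖
        ≤ 50 * δ * (κ ‖b' - a b'‖ * ‖b' - a b'‖) ∧
      Touch M b' Y' ((1 + 50 * δ) * κ ‖b' - a b'‖) (ρ / 8) := by
  have hK : 0 < κ ρ := hpos ρ
  have hf : 0 < κ ρ * ρ := by positivity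
  let iE : InnerProductSpace ℝ ↥E := InnerProductSpace.rclikeToReal ℂ ↥E
  let iG : InnerProductSpace ℝ ↥Eᗮ := InnerProductSpace.rclikeToReal ℂ ↥Eᗮ
  have hiE : ∀ x y : E, ⟪x, y⟫_ℝ = (⟪x, y⟫_ℂ).re := fun x y => rfl
  have hiG : ∀ x y : Eᗮ, ⟪x, y⟫_ℝ = (⟪x, y⟫_ℂ).re := fun x y => rfl
  have hsmG : ∀ (c : ℝ) (x : Eᗮ), c • x = (c : ℂ) • x := fun c x => rfl
  -- the coordinates
  set yb : E := E.orthogonalProjectionOnto b with hyb
  set xb : Eᗮ := Eᗮ.orthogonalProjectionOnto b with hxb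
  set ηb : E := E.orthogonalProjectionOnto Y with hηb
  set Xb : Eᗮ := Eᗮ.orthogonalProjectionOnto Y with hXb
  set s : E → Eᗮ := fun y => Eᗮ.orthogonalProjectionOnto (a y) with hsdef
  set s' : E → Eᗮ := fun y => Eᗮ.orthogonalProjectionOnto (a' y) with hs'def
  have hbs : (yb : V n) + (xb : V n) = b := ft4_split E b
  have hYs : (ηb : V n) + (Xb : V n) = Y := ft4_split E Y
  have hdom : ∀ y : E, ‖E.starProjection ((y : V n) - b)‖ = ‖y - yb‖ := by
    intro y
    rw [map_sub, Submodule.starProjection_mem_subspace_eq_self, ft4_pr', ← hyb,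
      ← Submodule.coe_sub, Submodule.coe_norm]
  have hdom' : ∀ y : E, ‖E.starProjection ((y : V n) - Y)‖ = ‖y - ηb‖ := by
    intro y
    rw [map_sub, Submodule.starProjection_mem_subspace_eq_self, ft4_pr', ← hηb,
      ← Submodule.coe_sub, Submodule.coe_norm]
  have hay : ∀ y : E, ‖y - yb‖ < 4 * ρ → a y = (y : V n) + (s y : V n) := by
    intro y hy
    have h1 := (ha y (by rw [hdom]; exact hy)).2
    have h2 := ft4_split E (a y)
    rw [← h2]
    congr 1
    rw [← ft4_pr', h1, Submodule.starProjection_mem_subspace_eq_self]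
  have hay' : ∀ y : E, ‖y - ηb‖ < 4 * (κ ρ * ρ) → a' y = (y : V n) + (s' y : V n) := by
    intro y hy
    have h1 := (ha' y (by rw [hdom']; exact hy)).2
    have h2 := ft4_split E (a' y)
    rw [← h2]
    congr 1
    rw [← ft4_pr', h1, Submodule.starProjection_mem_subspace_eq_self]
  -- displacement of a point
  have hdisp : ∀ (y : E) (x : Eᗮ), ‖y - yb‖ < 4 * ρ →
      ((y : V n) + (x : V n)) - a ((y : V n) + (x : V n)) = ((x - s y : Eᗮ) : V n) := by
    intro y x hy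
    have h0 : ‖E.starProjection (((y : V n) + (x : V n)) - b)‖ < 4 * ρ := by
      rw [map_sub, ft4_pr, ← Submodule.starProjection_mem_subspace_eq_self (K := E) y,
        ← map_sub, hdom]
      exact hy
    have h1 := (ha _ h0).1
    rw [ft4_pr] at h1
    rw [← h1, hay y hy, Submodule.coe_sub]
    abel
  have hdisp' : ∀ (y : E) (x : Eᗮ), ‖y - ηb‖ < 4 * (κ ρ * ρ) →
      ((y : V n) + (x : V n)) - a' ((y : V n) + (x : V n)) = ((x - s' y : Eᗮ) : V n) := by
    intro y x hy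
    have h0 : ‖E.starProjection (((y : V n) + (x : V n)) - Y)‖ < 4 * (κ ρ * ρ) := by
      rw [map_sub, ft4_pr, ← Submodule.starProjection_mem_subspace_eq_self (K := E) y,
        ← map_sub, hdom']
      exact hy
    have h1 := (ha' _ h0).1
    rw [ft4_pr] at h1
    rw [← h1, hay' y hy, Submodule.coe_sub]
    abel
  -- differentiability
  have hsd : ∀ y : E, ‖y - yb‖ < 4 * ρ → DifferentiableAt ℂ s y := by
    intro y hy
    have hopen : IsOpen {z : V n | ‖E.starProjection (z - b)‖ < 4 * ρ} :=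
      isOpen_lt (by fun_prop) continuous_const
    have h1 : DifferentiableAt ℂ a (y : V n) :=
      (hd y (by rw [Set.mem_ofPred_eq, hdom]; exact hy)).differentiableAt
        (hopen.mem_nhds (by rw [Set.mem_ofPred_eq, hdom]; exact hy))
    have h2 : DifferentiableAt ℂ (fun y : E => (y : V n)) y := E.subtypeL.differentiableAt
    have h3 : DifferentiableAt ℂ (fun y : E => a (y : V n)) y :=
      DifferentiableAt.comp (g := a) y h1 h2
    exact (Eᗮ.orthogonalProjectionOnto).differentiableAt.comp y h3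
  have hsl : ∀ y z : E, ‖y - yb‖ < 4 * ρ → ‖z - yb‖ < 4 * ρ → ‖s y - s z‖ ≤ σ / 8 * ‖y - z‖ := by
    intro y z hy hz
    have h1 := hs y z (by rw [hdom]; exact hy) (by rw [hdom]; exact hz)
    rw [Submodule.starProjection_mem_subspace_eq_self,
      Submodule.starProjection_mem_subspace_eq_self, hay y hy, hay z hz] at h1
    have e : (y : V n) + (s y : V n) - ((z : V n) + (s z : V n)) - ((y : V n) - (z : V n))
        = ((s y - s z : Eᗮ) : V n) := by
      rw [Submodule.coe_sub]; abel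
    rw [e, ← Submodule.coe_sub] at h1
    exact h1
  have hsl' : ∀ y z : E, ‖y - ηb‖ < 4 * (κ ρ * ρ) → ‖z - ηb‖ < 4 * (κ ρ * ρ) →
      ‖s' y - s' z‖ ≤ σ * ‖y - z‖ := by
    intro y z hy hz
    have h1 := hs' y z (by rw [hdom']; exact hy) (by rw [hdom']; exact hz)
    rw [Submodule.starProjection_mem_subspace_eq_self,
      Submodule.starProjection_mem_subspace_eq_self, hay' y hy, hay' z hz] at h1
    have e : (y : V n) + (s' y : V n) - ((z : V n) + (s' z : V n)) - ((y : V n) - (z : V n))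
        = ((s' y - s' z : Eᗮ) : V n) := by
      rw [Submodule.coe_sub]; abel
    rw [e, ← Submodule.coe_sub] at h1
    exact h1
  have hyb4 : ‖yb - yb‖ < 4 * ρ := by rw [sub_self, norm_zero]; positivity
  have hηb4 : ‖ηb - ηb‖ < 4 * (κ ρ * ρ) := by rw [sub_self, norm_zero]; positivity
  have hData : Pool.Agent.H60.FT.AData κ δ σ ρ s s'
      (fun y => (fderiv ℂ s y).restrictScalars ℝ) yb ηb xb Xb := by
    refine ⟨⟨fun r _ => hpos r, hanti, hmono⟩, hδ, hδ1, hσ0, hσ, hρ, ?_, ?_, ?_, ?_, ?_, ?_, ?_⟩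
    · intro y z hy hz
      refine (hsl y z (by linarith) (by linarith)).trans ?_
      exact mul_le_mul_of_nonneg_right (by linarith) (norm_nonneg _)
    · intro y p hy hp
      exact Pool.Agent.H60.FT.fd_tay hσ0 hρ hsd hsl hy hp
    · intro y hy
      rw [ContinuousLinearMap.norm_restrictScalars]
      exact (Pool.Agent.H60.FT.fd_norm hσ0 hρ hsd hsl hy).trans (by linarith)
    · intro y z hy hz
      have h1 := Pool.Agent.H60.FT.fd_lip hσ0 hρ hsd hsl hy hz
      rw [← ContinuousLinearMap.norm_restrictScalars (𝕜' := ℝ)] at h1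
      exact h1
    · intro y z hy hz
      apply hsl' y z
      · linarith
      · linarith
    · have h1 := hdisp yb xb hyb4
      rw [hbs] at h1
      rw [h1] at hu
      exact hu
    · have h1 := hdisp' ηb Xb hηb4
      rw [hYs] at h1
      rw [h1] at hU
      refine hU.trans (le_of_eq ?_)
      ring
  have hinner : ∀ (y η : E) (x X : Eᗮ), (⟪(η : V n) + (X : V n), (y : V n) + (x : V n)⟫_ℂ).re
      = ⟪y, η⟫_ℝ + ⟪x, X⟫_ℝ := by
    intro y η x X
    rw [ft4_inner, Complex.add_re, hiE, hiG]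
    rw [← inner_conj_symm (𝕜 := ℂ) η y, ← inner_conj_symm (𝕜 := ℂ) X x, Complex.conj_re,
      Complex.conj_re]
  obtain ⟨y', η', x', X', h1, h2, h3, h4, h5, h6⟩ := hData.main
    (g := fun y x => M ((y : V n) + (x : V n))) (by fun_prop) (fun y x => hM0 _)
    (by rw [hbs]; exact hMb) (by
      intro y x hyx
      rw [hbs]
      have e : ((y : V n) + (x : V n)) - b = ((y - yb : E) : V n) + ((x - xb : Eᗮ) : V n) := by
        rw [Submodule.coe_sub, Submodule.coe_sub, ← hbs]; abel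
      have hn : ‖((y : V n) + (x : V n)) - b‖ ^ 2 = ‖y - yb‖ ^ 2 + ‖x - xb‖ ^ 2 := by
        rw [e, ft4_norm]
      have hle : ‖((y : V n) + (x : V n)) - b‖ ≤ ρ := by
        apply (abs_le_of_sq_le_sq' _ hρ.le).2
        rw [hn]; exact hyx
      have h7 := ht _ hle
      rw [hn] at h7
      refine h7.trans (le_of_eq ?_)
      congr 2
      unfold Pool.Agent.H60.FT.lin
      have h8 : (⟪Y, ((y : V n) + (x : V n)) - b⟫_ℂ).re = ⟪y - yb, ηb⟫_ℝ + ⟪x - xb, Xb⟫_ℝ := by
        rw [e, ← hYs, hinner]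
      rw [h8])
  -- the new contact
  have hy'b : ‖y' - yb‖ ≤ δ * ρ := by
    apply (abs_le_of_sq_le_sq' _ (by positivity)).2
    linarith [sq_nonneg ‖x' - xb‖]
  have hy'4 : ‖y' - yb‖ < 4 * ρ := by
    have : δ * ρ ≤ 1 / 100 * ρ := mul_le_mul_of_nonneg_right hδ1 hρ.le
    linarith
  have hη'b : ‖η' - ηb‖ ≤ 3 * (κ ρ * ρ) := by
    apply (abs_le_of_sq_le_sq' _ (by positivity)).2
    linarith [sq_nonneg ‖X' - Xb‖]
  have hη'4 : ‖η' - ηb‖ < 4 * (κ ρ * ρ) := by linarith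
  have hdb := hdisp y' x' hy'4
  have hdY := hdisp' η' X' hη'4
  have e : ((y' : V n) + (x' : V n)) - b = ((y' - yb : E) : V n) + ((x' - xb : Eᗮ) : V n) := by
    rw [Submodule.coe_sub, Submodule.coe_sub, ← hbs]; abel
  have e' : ((η' : V n) + (X' : V n)) - Y = ((η' - ηb : E) : V n) + ((X' - Xb : Eᗮ) : V n) := by
    rw [Submodule.coe_sub, Submodule.coe_sub, ← hYs]; abel
  refine ⟨(y' : V n) + (x' : V n), (η' : V n) + (X' : V n), ?_, ?_, ?_, ?_, ?_, ?_⟩
  · apply (abs_le_of_sq_le_sq' _ (by positivity)).2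
    rw [e, ft4_norm]
    exact h1
  · apply (abs_le_of_sq_le_sq' _ (by positivity)).2
    rw [e', ft4_norm]
    exact h2
  · rw [hdb]
    exact h3
  · rw [hbs] at h4
    have h8 : (⟪Y, ((y' : V n) + (x' : V n)) - b⟫_ℂ).re
        = Pool.Agent.H60.FT.lin yb ηb xb Xb y' x' := by
      rw [e, ← hYs, hinner]
      rfl
    rw [h8]
    exact h4
  · rw [hdb, hdY]
    exact h5
  · rw [hdb]
    intro z hz
    set y : E := E.orthogonalProjectionOnto z with hy
    set x : Eᗮ := Eᗮ.orthogonalProjectionOnto z with hx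
    have hzs : (y : V n) + (x : V n) = z := ft4_split E z
    have e2 : z - ((y' : V n) + (x' : V n)) = ((y - y' : E) : V n) + ((x - x' : Eᗮ) : V n) := by
      rw [Submodule.coe_sub, Submodule.coe_sub, ← hzs]; abel
    have hn : ‖z - ((y' : V n) + (x' : V n))‖ ^ 2 = ‖y - y'‖ ^ 2 + ‖x - x'‖ ^ 2 := by
      rw [e2, ft4_norm]
    have h7 := h6 y x (by
      rw [← hn]
      exact pow_le_pow_left₀ (norm_nonneg _) hz 2)
    rw [hzs] at h7
    refine h7.trans (le_of_eq ?_)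
    congr 2
    rw [hn, e2, hinner]
    rfl

end Pool.Agent.H43.FT
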