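import Pool.Agent.H43.FT.Defs
import Pool.Agent.H3.FT.SC

/-!
FT-6: a good subring of an abstract ring with leading terms is contained in a spherically
complete good subring (MP_6e521b_an).
-/

set_option autoImplicit false

namespace Pool.Agent.H43.FT

section Alg

variable {𝒪 : Type} [CommRing 𝒪] {Γ : Type} [AddCommGroup Γ] [LinearOrder Γ]
  [IsOrderedAddMonoid Γ] {𝔪 : Set 𝒪} {e : Γ → 𝒪} {k : ℂ →+* 𝒪}

lemma LTR.e_cancel (hO : LTR 𝒪 Γ 𝔪 e k) (g : Γ) : e g * e (-g) = 1 := by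
  rw [← hO.e_add, add_neg_cancel, hO.e_zero]

/-- The relation form of a ring with leading terms. -/
def LTR.rel (hO : LTR 𝒪 Γ 𝔪 e k) : Pool.Agent.H3.FT.LTR 𝒪 Γ where
  const := k
  t := e
  L := fun x c g => x * e (-g) - k c ∈ 𝔪
  L_const := fun c => by
    have h : k c * e (-0) - k c = 0 := by rw [neg_zero, hO.e_zero, mul_one, sub_self]
    rw [h]
    exact hO.zero
  L_t := fun g => by
    rw [hO.e_cancel, map_one, sub_self]
    exact hO.zero
  L_add := fun {x y c d g} hx hy => by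
    have h : (x + y) * e (-g) - k (c + d) = (x * e (-g) - k c) + (y * e (-g) - k d) := by
      rw [map_add]
      ring
    rw [h]
    exact hO.add _ hx _ hy
  L_mul := fun {x y c d g h} hx hy => by
    have h1 : x * y * e (-(g + h)) - k (c * d)
        = k c * (y * e (-h) - k d) + k d * (x * e (-g) - k c)
          + (x * e (-g) - k c) * (y * e (-h) - k d) := by
      rw [neg_add, hO.e_add, map_mul]
      ring
    rw [h1]
    exact hO.add _ (hO.add _ (hO.smul _ _ hy) _ (hO.smul _ _ hx)) _ (hO.mul _ hx _ hy)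
  L_lt := fun {x c g h} hx hgh => by
    have hm := hO.e_neg (g - h) (sub_neg.2 hgh)
    have h1 : x * e (-h) - k 0 = k c * e (g - h) + (x * e (-g) - k c) * e (g - h) := by
      have h2 : e (-h) = e (-g) * e (g - h) := by
        rw [← hO.e_add]
        congr 1
        abel
      rw [h2, map_zero]
      ring
    rw [h1]
    exact hO.add _ (hO.smul _ _ hm) _ (hO.mul _ hx _ hm)
  L_uniq := fun {x c d g} hc hd => by
    have h1 : k (c - d) = (x * e (-g) - k d) + -(x * e (-g) - k c) := by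
      rw [map_sub]
      ring
    have h2 : k (c - d) ∈ 𝔪 := by
      rw [h1]
      exact hO.add _ hd _ (hO.neg _ hc)
    exact sub_eq_zero.1 (hO.k_mem _ h2)
  L_inv := fun {x c g} hc hx => by
    have hkc : k c * k c⁻¹ = 1 := by rw [← map_mul, mul_inv_cancel₀ hc, map_one]
    obtain ⟨b, hb, hb1⟩ := hO.inv _ (hO.smul c⁻¹ _ hx)
    have h1 : x * e (-g) = k c * (1 + k c⁻¹ * (x * e (-g) - k c)) := by
      have h2 : k c * (1 + k c⁻¹ * (x * e (-g) - k c))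
          = k c + (k c * k c⁻¹) * (x * e (-g) - k c) := by ring
      rw [h2, hkc]
      ring
    refine ⟨e (-g) * (k c⁻¹ * (1 + b)), ?_, ?_⟩
    · calc x * (e (-g) * (k c⁻¹ * (1 + b))) = (x * e (-g)) * (k c⁻¹ * (1 + b)) := by ring
        _ = (k c * (1 + k c⁻¹ * (x * e (-g) - k c))) * (k c⁻¹ * (1 + b)) := by rw [← h1]
        _ = (k c * k c⁻¹) * ((1 + k c⁻¹ * (x * e (-g) - k c)) * (1 + b)) := by ring
        _ = 1 := by rw [hkc, hb1, one_mul]
    · have h3 : e (-g) * (k c⁻¹ * (1 + b)) * e (- -g) - k c⁻¹ = k c⁻¹ * b := by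
        calc e (-g) * (k c⁻¹ * (1 + b)) * e (- -g) - k c⁻¹
            = (e (-g) * e (- -g)) * (k c⁻¹ * (1 + b)) - k c⁻¹ := by ring
          _ = k c⁻¹ * b := by
              rw [hO.e_cancel]
              ring
      rw [h3]
      exact hO.smul _ _ hb
  hensel := fun N ρ hρ => by
    have h1 : ∀ i, ρ i ∈ 𝔪 := fun i => by
      have h2 := hρ i
      rwa [neg_zero, hO.e_zero, mul_one, map_zero, sub_zero] at h2
    obtain ⟨w, hw, hw1⟩ := hO.newton N ρ h1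
    refine ⟨w, ?_, hw1⟩
    rw [neg_zero, hO.e_zero, mul_one, map_zero, sub_zero]
    exact hw
  diag := fun a g hg h => by
    obtain ⟨s, hs⟩ := hO.sat a g hg (fun i => by
      have h2 := h i
      rwa [map_zero, sub_zero] at h2)
    refine ⟨s, fun i => ?_⟩
    rw [map_zero, sub_zero]
    exact hs i

theorem sph_abstract (hO : LTR 𝒪 Γ 𝔪 e k)
    (𝓢 : Subring 𝒪) (h𝓢 : ∀ a ∈ 𝓢, Gd 𝔪 e k a) (hk : ∀ c, k c ∈ 𝓢)
    (hm : ∀ g, ∃ t ∈ 𝓢, t * e (-g) - 1 ∈ 𝔪) :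
    ∃ 𝓕 : Subring 𝒪, 𝓢 ≤ 𝓕 ∧ (∀ a ∈ 𝓕, Gd 𝔪 e k a) ∧
      ∀ (a : ℕ → 𝒪) (g : ℕ → Γ), (∀ i, a i ∈ 𝓕) → StrictAnti g →
        (∀ i, (a (i + 1) - a i) * e (-g i) ∈ 𝔪) →
        ∃ b ∈ 𝓕, ∀ i, (b - a i) * e (-g i) ∈ 𝔪 := by
  have hgood : hO.rel.Good 𝓢 := ⟨hk, fun x hx => by
    rcases h𝓢 x hx with h0 | ⟨c, hc, g, hg⟩
    · exact Or.inl h0
    · exact Or.inr ⟨c, g, hc, hg⟩⟩
  obtain ⟨𝓕, h1, h2⟩ := Pool.Agent.H3.FT.LTR.exists_maxi hgood
  refine ⟨𝓕, h1, fun x hx => ?_, fun a g ha hg h => ?_⟩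
  · rcases h2.1.2 x hx with h0 | ⟨c, g, hc, hg⟩
    · exact Or.inl h0
    · exact Or.inr ⟨c, hc, g, hg⟩
  · obtain ⟨b, hb, hb1⟩ := Pool.Agent.H3.FT.LTR.SC h2 ha hg (fun i => by
      change (a (i + 1) - a i) * e (-g i) - k 0 ∈ 𝔪
      rw [map_zero, sub_zero]
      exact h i)
    refine ⟨b, hb, fun i => ?_⟩
    have h3 : (b - a i) * e (-g i) - k 0 ∈ 𝔪 := hb1 i
    rwa [map_zero, sub_zero] at h3

end Alg

end Pool.Agent.H43.FT
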