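import Pool.Agent.H43.FT.Defs
import Pool.Agent.H77.N2.EstW

/-!
Project FT, FT-23: from the main estimate for `P*` to the a priori estimate `Est` and to the
surjectivity of `Φ_P`.
-/

set_option autoImplicit false

open MvPolynomial Filter Topology MeasureTheory Pool.Agent.H77.FB Pool.Agent.H60.FB
  Pool.Agent.H77.N2

namespace Pool.Agent.H43.FT

variable {n : ℕ}

/-- The a priori estimate from the main estimate for `P*`. -/
theorem est_of_main (P : MvPolynomial (Fin n) ℂ) (hP : P ≠ 0)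
    (h : ∀ (B₀ c : ℝ), 0 < c → ∃ B C : ℝ, ∀ (h : (Fin n → ℂ) → ℂ) (A : ℝ),
      Differentiable ℂ h → (∀ z, ‖h z‖ ≤ c * A * Real.exp (Pool.Agent.H60.FB.sq z / 2)) →
      (∀ z, ‖TT (star' P) h z‖ ≤ A * Real.exp (B₀ * ‖z‖)) →
      ∀ z, ‖h z‖ ≤ C * A * Real.exp (B * ‖z‖)) : Est P := by
  intro ρ
  have hstar : star' P ≠ 0 := by
    intro h0
    apply hP
    rw [← Pool.Agent.H77.N2.star_star P, h0]
    refine MvPolynomial.funext fun z => ?_
    rw [eval_star']
    simp
  obtain ⟨M, hM⟩ := (isCompact_closedBall (0 : Fin n → ℂ) ρ).exists_bound_of_continuousOn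
    (f := fun z => eval z P) (differentiable_eval P).continuous.continuousOn
  set A₀ : ℝ := max M 0 + 1 with hA₀
  have hA₀0 : 0 < A₀ := by have := le_max_right M 0; linarith
  obtain ⟨c, hc, hF⟩ := fock_solve (star' P) hstar (n * ρ)
  obtain ⟨B', C', hmain⟩ := h (n * ρ) c hc
  set B : ℝ := max B' 1 with hB
  have hB0 : 0 < B := lt_of_lt_of_le one_pos (le_max_right _ _)
  obtain ⟨R, K, hRK⟩ := borel_unif (n := n) hB0
  set C₁ : ℝ := max (C' * A₀) 1 with hC₁
  have hC₁0 : 0 < C₁ := lt_of_lt_of_le one_pos (le_max_right _ _)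
  refine ⟨R, K * C₁, fun f hf A hA z hz => ?_⟩
  -- the right side
  set r : (Fin n → ℂ) → ℂ := fun w => eval z P * (expo z).1 w with hr
  have hrd : Differentiable ℂ r := (expo z).2.const_mul _
  have hrb : ∀ w, ‖r w‖ ≤ A₀ * Real.exp (n * ρ * ‖w‖) := by
    intro w
    have h1 := Pool.Agent.H77.FB.norm_expo_le z w
    rw [hr]
    simp only
    rw [norm_mul]
    refine mul_le_mul ?_ (h1.trans (Real.exp_le_exp.2 ?_)) (norm_nonneg _) hA₀0.le
    · have := hM z (by simpa using hz)
      have h2 := le_max_left M 0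
      linarith
    · have := norm_nonneg w
      have h3 : (n : ℝ) * ‖w‖ * ‖z‖ ≤ n * ‖w‖ * ρ := by gcongr
      linarith
  obtain ⟨s, hs, hTs, hsb⟩ := hF r A₀ hrd hrb
  have hsexp := hmain s A₀ hs hsb (fun w => by rw [hTs]; exact hrb w)
  obtain ⟨S, hS, hSs, hSb⟩ := hRK s C₁ hC₁0 hs (fun w => (hsexp w).trans (by
    refine mul_le_mul (le_max_left _ _) (Real.exp_le_exp.2 ?_) (Real.exp_pos _).le hC₁0.le
    exact mul_le_mul_of_nonneg_right (le_max_left _ _) (norm_nonneg _)))
  have hSAF := bund_isAF hS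
  -- the two functionals
  set S' : Ent n →ₗ[ℂ] ℂ := (bund hS).comp (QDE (star' P)) with hS'
  have hS'AF : IsAF S' := isAF_QDE hSAF (star' P)
  have hS's : ∀ w, S' (expo w) = eval w (star' P) * s w := by
    intro w
    have h1 : S' (expo w) = (bund hS) (QDE (star' P) (expo w)) := rfl
    have h2 : (bund hS) (expo w) = s w := hSs w
    rw [h1, QDE_expo, map_smul, h2, smul_eq_mul]
  set E : Ent n →ₗ[ℂ] ℂ :=
    { toFun := fun g => g.1 z
      map_add' := fun _ _ => rfl
      map_smul' := fun _ _ => rfl } with hE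
  have hEAF : IsAF E := ⟨ρ, 1, fun g A hA => by rw [one_mul]; exact hA z hz⟩
  have hzero : E.comp (mulEnt P) - S'.comp (mulEnt P) = 0 := by
    have hAF : IsAF (E.comp (mulEnt P) - S'.comp (mulEnt P)) := by
      obtain ⟨R₁, K₁, h₁⟩ := isAF_mulEnt hEAF P
      obtain ⟨R₂, K₂, h₂⟩ := isAF_mulEnt hS'AF P
      refine ⟨max R₁ R₂, K₁ + K₂, fun g A hA => ?_⟩
      rw [LinearMap.sub_apply, add_mul]
      refine (norm_sub_le _ _).trans (add_le_add ?_ ?_)
      · exact h₁ g A fun w hw => hA w (hw.trans (le_max_left _ _))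
      · exact h₂ g A fun w hw => hA w (hw.trans (le_max_right _ _))
    refine eq_zero_of_borel hAF fun w => ?_
    rw [LinearMap.sub_apply]
    have h1 : (E.comp (mulEnt P)) (expo w) = eval z P * (expo w).1 z := rfl
    have h2 : (S'.comp (mulEnt P)) (expo w) = S' (mulEnt P (expo w)) := rfl
    have hsym : (expo z).1 w = (expo w).1 z := by
      change Complex.exp (∑ j, w j * z j) = Complex.exp (∑ j, z j * w j)
      congr 1
      exact Finset.sum_congr rfl fun j _ => mul_comm _ _
    rw [h1, h2, borel_mul hS'AF]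
    have h3 : (⟨fun z => S' (expo z), (borel_mem hS'AF).1⟩ : Ent n)
        = mulEnt (star' P) ⟨s, hs⟩ := by
      apply Subtype.ext
      funext w
      exact hS's w
    rw [h3]
    have h4 : (QDE P (mulEnt (star' P) ⟨s, hs⟩)).1 w = r w := by
      have h5 := hTs w
      unfold TT at h5
      rw [Pool.Agent.H77.N2.star_star] at h5
      rw [QDE_eq]
      exact h5
    rw [h4, hr]
    simp only
    rw [hsym, sub_self]
  have hkey : eval z P * f z = S (fun w => QD (star' P) 1 (fun z => eval z P * f z) w) := by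
    have h1 := congrArg (fun L : Ent n →ₗ[ℂ] ℂ => L ⟨f, hf⟩) hzero
    have h2 : E (mulEnt P ⟨f, hf⟩) - (bund hS) (QDE (star' P) (mulEnt P ⟨f, hf⟩)) = 0 := h1
    have h3 : (bund hS) (QDE (star' P) (mulEnt P ⟨f, hf⟩))
        = S (fun w => QD (star' P) 1 (fun z => eval z P * f z) w) := by
      change S (QDE (star' P) (mulEnt P ⟨f, hf⟩)).1 = _
      congr 1
      funext w
      exact QDE_eq (star' P) (mulEnt P ⟨f, hf⟩) w
    rw [h3] at h2
    exact sub_eq_zero.1 h2
  rw [hkey]
  have hd : Differentiable ℂ (fun w => QD (star' P) 1 (fun z => eval z P * f z) w) := by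
    have h1 := (QDE (star' P) (mulEnt P ⟨f, hf⟩)).2
    have h2 : (QDE (star' P) (mulEnt P ⟨f, hf⟩)).1
        = fun w => QD (star' P) 1 (fun z => eval z P * f z) w := by
      funext w
      exact QDE_eq (star' P) (mulEnt P ⟨f, hf⟩) w
    rw [← h2]
    exact h1
  refine (hSb _ hd A hA).trans (le_of_eq ?_)
  ring

/-- The surjectivity from the main estimate for `P*`. -/
theorem surj_of_main (P : MvPolynomial (Fin n) ℂ) (hP : P ≠ 0)
    (h : ∀ (B₀ c : ℝ), 0 < c → ∃ B C : ℝ, ∀ (h : (Fin n → ℂ) → ℂ) (A : ℝ),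
      Differentiable ℂ h → (∀ z, ‖h z‖ ≤ c * A * Real.exp (Pool.Agent.H60.FB.sq z / 2)) →
      (∀ z, ‖TT (star' P) h z‖ ≤ A * Real.exp (B₀ * ‖z‖)) →
      ∀ z, ‖h z‖ ≤ C * A * Real.exp (B * ‖z‖)) : PhiSurjective P := by
  intro s hs
  obtain ⟨hsd, C, hC, B, hB, hsb⟩ := hs
  -- the right side
  set S₁ : Ent n := ⟨s, hsd⟩ with hS₁
  set r : Ent n := QDE P S₁ with hr
  set A : ℝ := (∑ s ∈ P.support, ‖P.coeff s‖) * (C * Real.exp (B * P.totalDegree)) with hA
  have hrb : ∀ z, ‖r.1 z‖ ≤ A * Real.exp (B * ‖z‖) := by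
    intro z
    have h1 := QDE_bound P S₁ ‖z‖ (C * Real.exp (B * (‖z‖ + P.totalDegree))) (fun w hw => by
      refine (hsb w).trans ?_
      gcongr) z le_rfl
    refine h1.trans (le_of_eq ?_)
    rw [hA, mul_add, Real.exp_add]
    ring
  have hstar : star' P ≠ 0 := by
    intro h0
    apply hP
    rw [← Pool.Agent.H77.N2.star_star P, h0]
    refine MvPolynomial.funext fun z => ?_
    rw [eval_star']
    simp
  obtain ⟨c, hc, hF⟩ := fock_solve (star' P) hstar B
  obtain ⟨g, hg, hTg, hgb⟩ := hF r.1 A r.2 hrb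
  obtain ⟨B', C', hmain⟩ := h B c hc
  have hgexp := hmain g A hg hgb (fun z => by rw [hTg]; exact hrb z)
  have hgE : ExpType g := by
    refine ⟨hg, |C' * A| + 1, by positivity, |B'| + 1, by positivity, fun z => ?_⟩
    refine (hgexp z).trans ?_
    have e1 : C' * A ≤ |C' * A| + 1 := (le_abs_self _).trans (by linarith)
    have e2 : B' * ‖z‖ ≤ (|B'| + 1) * ‖z‖ :=
      mul_le_mul_of_nonneg_right ((le_abs_self _).trans (by linarith)) (norm_nonneg _)
    exact mul_le_mul e1 (Real.exp_le_exp.2 e2) (Real.exp_pos _).le (by positivity)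
  -- the remainder
  set G : Ent n := ⟨g, hg⟩ with hG
  have hu : ExpType (fun z => s z - eval z (star' P) * g z) := by
    obtain ⟨-, C₂, hC₂, B₂, hB₂, h2⟩ := hgE
    have hm : (fun z => eval z (star' P) * g z) ∈ ExpT n :=
      (mulExp (star' P) ⟨g, hg, C₂, hC₂, B₂, hB₂, h2⟩).2
    have hs' : s ∈ ExpT n := ⟨hsd, C, hC, B, hB, hsb⟩
    exact (ExpT n).sub_mem hs' hm
  obtain ⟨T, hT, hTu⟩ := Pool.Agent.H60.FB.borel_repr hu
  have hTAF := bund_isAF hT
  refine ⟨T, g, hT, ?_, hgE, fun z => ?_⟩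
  · intro f hf
    have h0 : (bund hT).comp (mulEnt P) = 0 := by
      have hAF : IsAF ((bund hT).comp (mulEnt P)) := by
        obtain ⟨R, K, hK⟩ := hTAF
        obtain ⟨M, hM⟩ := (isCompact_closedBall (0 : Fin n → ℂ) R).exists_bound_of_continuousOn
          (f := fun z => eval z P) (differentiable_eval P).continuous.continuousOn
        refine ⟨R, K * max M 0, fun f A hA => ?_⟩
        rw [mul_assoc]
        refine hK (mulEnt P f) _ fun z hz => ?_
        change ‖eval z P * f.1 z‖ ≤ _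
        rw [norm_mul]
        exact mul_le_mul ((hM z (by simpa using hz)).trans (le_max_left _ _)) (hA z hz)
          (norm_nonneg _) (le_max_right _ _)
      refine eq_zero_of_borel hAF fun w => ?_
      change (bund hT) (mulEnt P (expo w)) = 0
      rw [borel_mul hTAF]
      have h1 : (⟨fun z => (bund hT) (expo z), (borel_mem hTAF).1⟩ : Ent n)
          = S₁ - mulEnt (star' P) G := by
        apply Subtype.ext
        funext z
        exact hTu z
      rw [h1, map_sub]
      have h2 : QDE P (mulEnt (star' P) G) = r := by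
        apply Subtype.ext
        funext z
        have h3 := hTg z
        unfold TT at h3
        rw [Pool.Agent.H77.N2.star_star] at h3
        rw [QDE_eq]
        exact h3
      rw [h2, hr, sub_self]
      rfl
    exact congrArg (fun L : Ent n →ₗ[ℂ] ℂ => L ⟨f, hf⟩) h0
  · rw [hTu]
    change s z = s z - eval z (star' P) * g z + eval z (star' P) * g z
    ring

end Pool.Agent.H43.FT
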