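import Pool.Agent.H43.FT.Defs

/-!
FT-7: inverses and diagonal choice in the concrete ring of pairs (MP_6e521b_an).
-/

set_option autoImplicit false

open MvPolynomial Filter Topology Pool.Agent.H77.FB Pool.Agent.H60.FB Pool.Agent.H77.N2

namespace Pool.Agent.H43.FT

variable {n : ℕ}

namespace Conc

lemma half_bd {s : ℂ} (h : ‖s‖ ≤ 1 / 2) : 1 + s ≠ 0 ∧ ‖(1 + s)⁻¹ - 1‖ ≤ 2 * ‖s‖ := by
  have h1 : (1 : ℝ) / 2 ≤ ‖1 + s‖ := by
    have h2 : ‖(1 : ℂ)‖ - ‖-s‖ ≤ ‖(1 : ℂ) - -s‖ := norm_sub_norm_le _ _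
    rw [norm_one, norm_neg, sub_neg_eq_add] at h2
    linarith
  have h0 : 1 + s ≠ 0 := by
    intro h3
    rw [h3, norm_zero] at h1
    norm_num at h1
  refine ⟨h0, ?_⟩
  have h2 : (1 + s)⁻¹ - 1 = -s / (1 + s) := by
    field_simp
    ring
  rw [h2, norm_div, norm_neg, div_le_iff₀ (by linarith)]
  nlinarith [norm_nonneg s]

lemma chain_bd {f : ℕ → ℂ} {t : ℕ → ℝ} {m i : ℕ} {δ : ℝ} (hδ : 0 ≤ δ)
    (hf : ∀ l < m, ‖f (l + 1) - f l‖ ≤ δ * (1 / 2) ^ l * t l) (ht : ∀ l < m, t (l + 1) ≤ t l)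
    (ht0 : ∀ l, 0 ≤ t l) (him : i ≤ m) : ‖f m - f i‖ ≤ 2 * δ * t i := by
  have key : ∀ k, i + k ≤ m → ‖f (i + k) - f i‖ ≤ δ * t i * (2 - 2 * (1 / 2) ^ k) ∧
      t (i + k) ≤ t i := by
    intro k
    induction k with
    | zero =>
      intro _
      simp
    | succ k ih =>
      intro hk
      obtain ⟨h1, h2⟩ := ih (by omega)
      have h3 := hf (i + k) (by omega)
      have h4 := ht (i + k) (by omega)
      refine ⟨?_, h4.trans h2⟩
      have h5 : ((1 : ℝ) / 2) ^ (i + k) ≤ (1 / 2) ^ k := by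
        rw [pow_add]
        have h6 : ((1 : ℝ) / 2) ^ i ≤ 1 := pow_le_one₀ (by norm_num) (by norm_num)
        have h7 : (0 : ℝ) < (1 / 2) ^ k := by positivity
        nlinarith
      have h6 : ‖f (i + k + 1) - f (i + k)‖ ≤ δ * (1 / 2) ^ k * t i := by
        refine h3.trans ?_
        exact mul_le_mul (mul_le_mul_of_nonneg_left h5 hδ) h2 (ht0 _) (by positivity)
      have h7 : f (i + (k + 1)) - f i = (f (i + k + 1) - f (i + k)) + (f (i + k) - f i) := by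
        rw [← add_assoc]
        ring
      rw [h7]
      refine (norm_add_le _ _).trans ?_
      rw [pow_succ]
      linarith
  obtain ⟨h1, -⟩ := key (m - i) (by omega)
  rw [show i + (m - i) = m by omega] at h1
  refine h1.trans ?_
  have h2 : (0 : ℝ) < (1 / 2) ^ (m - i) := by positivity
  have h3 : 0 ≤ δ * t i := mul_nonneg hδ (ht0 i)
  nlinarith

lemma choice (𝒰 : Ultrafilter ℕ) (h𝒰 : (𝒰 : Filter ℕ) ≤ atTop) (p : ℕ → ℕ → Prop)
    (hp : ∀ m, ∀ᶠ j in (𝒰 : Filter ℕ), p m j) :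
    ∃ i : ℕ → ℕ, Tendsto i 𝒰 atTop ∧ ∀ᶠ j in (𝒰 : Filter ℕ), p (i j) j := by
  classical
  refine ⟨fun j => Nat.findGreatest (fun m => p m j) j, ?_, ?_⟩
  · rw [tendsto_atTop]
    intro M
    filter_upwards [hp M, h𝒰 (eventually_ge_atTop M)] with j h1 h2
    exact Nat.le_findGreatest h2 h1
  · filter_upwards [hp 0] with j h1
    exact Nat.findGreatest_spec (P := fun m => p m j) (Nat.zero_le j) h1

/-- The second scale decreases together with the first one. -/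
lemma le' {𝒰 : Ultrafilter ℕ} {Γ : Type} [AddCommGroup Γ] [Module ℚ Γ] {τ τ' : Γ → ℕ → ℝ}
    (hS : Scl 𝒰 τ τ') {g h : Γ} (hgh : LL 𝒰 (τ h) (τ g)) :
    ∀ᶠ j in (𝒰 : Filter ℕ), τ h j ≤ τ g j ∧ τ' h j ≤ τ' g j := by
  have h1 : ∀ᶠ j in (𝒰 : Filter ℕ), τ h j ≤ τ g j := by
    filter_upwards [hgh 1 one_pos] with j hj
    linarith
  have hsum : ∀ j, τ g j = τ (g - h) j * τ h j := fun j => by
    rw [← hS.add, sub_add_cancel]
  have hsum' : ∀ j, τ' g j = τ' (g - h) j * τ' h j := fun j => by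
    rw [← hS.add', sub_add_cancel]
  have hne : g - h ≠ 0 := by
    intro h0
    have h2 : g = h := sub_eq_zero.1 h0
    obtain ⟨j, hj⟩ := (hgh 2 two_pos).exists
    rw [h2] at hj
    have := hS.pos h j
    linarith
  rcases hS.dich _ hne with ⟨-, h3⟩ | ⟨h3, -⟩
  · filter_upwards [h1, h3.eventually_ge_atTop 1] with j hj1 hj3
    refine ⟨hj1, ?_⟩
    rw [hsum' j]
    nlinarith [hS.pos' h j]
  · exfalso
    obtain ⟨j, hj1, hj2⟩ := ((hgh 1 one_pos).and (h3.eventually_ge_atTop 2)).exists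
    have h4 : τ h j = τ (-(g - h)) j * τ g j := by
      rw [← hS.add]
      congr 1
      abel
    have := hS.pos g j
    nlinarith

end Conc

open Conc

theorem pr_inv (𝒰 : Ultrafilter ℕ) (D : Dm n) (hD : DmOK 𝒰 D) (s : Pr n) (hs : Hol 𝒰 D s)
    (hs1 : Sm 𝒰 D s 1 1) :
    ∃ t : Pr n, Hol 𝒰 D t ∧ Sm 𝒰 D t 1 1 ∧ Nul 𝒰 D ((1 + s) * (1 + t) - 1) := by
  have _ := hD
  set t : Pr n := (fun j z => (1 + s.1 j z)⁻¹ - 1, fun j z => (1 + s.2 j z)⁻¹ - 1) with ht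
  have hhalf := hs1 (1 / 2) (by norm_num)
  simp only [Le, Pi.one_apply, mul_one] at hhalf
  refine ⟨t, ?_, ?_, ?_⟩
  · filter_upwards [hs, hhalf] with j hj hh
    obtain ⟨⟨hj1, hj2⟩, hj3, hj4⟩ := hj
    refine ⟨⟨?_, fun z hz => ?_⟩, ?_, fun z hz => ?_⟩
    · exact ((hj1.const_add 1).inv fun z hz => (half_bd (hh.1 z hz)).1).sub_const 1
    · simp only [ht, hj2 z hz]
    · exact ((hj3.const_add 1).inv fun z hz => (half_bd (hh.2 z hz)).1).sub_const 1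
    · simp only [ht, hj4 z hz]
  · intro ε hε
    have h1 := hs1 (ε / 2) (by positivity)
    simp only [Le, Pi.one_apply, mul_one] at h1
    simp only [Le, Pi.one_apply, mul_one]
    filter_upwards [h1, hhalf] with j hj hh
    refine ⟨fun z hz => ?_, fun z hz => ?_⟩
    · have h2 := (half_bd (hh.1 z hz)).2
      have h3 := hj.1 z hz
      simp only [ht]
      linarith
    · have h2 := (half_bd (hh.2 z hz)).2
      have h3 := hj.2 z hz
      simp only [ht]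
      linarith
  · filter_upwards [hhalf] with j hh
    refine ⟨fun z hz => ?_, fun z hz => ?_⟩
    · have h2 := (half_bd (hh.1 z hz)).1
      change (1 + s.1 j z) * (1 + ((1 + s.1 j z)⁻¹ - 1)) - 1 = 0
      rw [add_sub_cancel, mul_inv_cancel₀ h2, sub_self]
    · have h2 := (half_bd (hh.2 z hz)).1
      change (1 + s.2 j z) * (1 + ((1 + s.2 j z)⁻¹ - 1)) - 1 = 0
      rw [add_sub_cancel, mul_inv_cancel₀ h2, sub_self]

theorem pr_sat (𝒰 : Ultrafilter ℕ) (h𝒰 : (𝒰 : Filter ℕ) ≤ atTop) (D : Dm n)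
    (hD : DmOK 𝒰 D) {Γ : Type} [AddCommGroup Γ] [Module ℚ Γ] (τ τ' : Γ → ℕ → ℝ)
    (hS : Scl 𝒰 τ τ') (a : ℕ → Pr n) (g : ℕ → Γ) (ha : ∀ i, Hol 𝒰 D (a i))
    (hg : ∀ i, LL 𝒰 (τ (g (i + 1))) (τ (g i)))
    (h : ∀ i, Sm 𝒰 D (a (i + 1) - a i) (τ (g i)) (τ' (g i))) :
    ∃ s : Pr n, Hol 𝒰 D s ∧ ∀ i, Sm 𝒰 D (s - a i) (τ (g i)) (τ' (g i)) := by
  have _ := hD
  obtain ⟨I, hI, hp⟩ := choice 𝒰 h𝒰 (fun m j =>
    (((DifferentiableOn ℂ ((a m).1 j) (D.C j) ∧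
      ∀ z ∈ D.C j, (a m).1 j (D.pr z) = (a m).1 j z) ∧
      (DifferentiableOn ℂ ((a m).2 j) (D.C' j) ∧
        ∀ z ∈ D.C' j, (a m).2 j (D.pr z) = (a m).2 j z)) ∧
    ∀ l ∈ Finset.range m,
      ((∀ z ∈ D.C j, ‖(a (l + 1) - a l).1 j z‖ ≤ (1 / (m + 1) * (1 / 2) ^ l) * τ (g l) j) ∧
      ∀ z ∈ D.C' j, ‖(a (l + 1) - a l).2 j z‖ ≤ (1 / (m + 1) * (1 / 2) ^ l) * τ' (g l) j) ∧
      (τ (g (l + 1)) j ≤ τ (g l) j ∧ τ' (g (l + 1)) j ≤ τ' (g l) j))) (by
    intro m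
    refine (ha m).and ?_
    rw [Filter.eventually_all_finset]
    intro l _
    exact (h l _ (by positivity)).and (le' hS (hg l)))
  refine ⟨(fun j z => (a (I j)).1 j z, fun j z => (a (I j)).2 j z), ?_, fun i => ?_⟩
  · filter_upwards [hp] with j hj
    exact hj.1
  · intro ε hε
    obtain ⟨N, hN⟩ := exists_nat_gt (2 / ε)
    filter_upwards [hp, hI.eventually_ge_atTop (max i N)] with j hj hIj
    obtain ⟨-, hj⟩ := hj
    have hi : i ≤ I j := (le_max_left _ _).trans hIj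
    have hNI : (N : ℝ) ≤ (I j : ℝ) := by exact_mod_cast (le_max_right _ _).trans hIj
    set δ : ℝ := 1 / ((I j : ℝ) + 1) with hδ
    have hδ0 : 0 ≤ δ := by positivity
    have hδε : 2 * δ ≤ ε := by
      rw [hδ, mul_one_div, div_le_iff₀ (by positivity)]
      have h1 : 2 < ε * N := by
        rw [div_lt_iff₀ hε] at hN
        linarith
      nlinarith
    refine ⟨fun z hz => ?_, fun z hz => ?_⟩
    · have h1 := chain_bd (f := fun l => (a l).1 j z) (t := fun l => τ (g l) j) (m := I j) (i := i)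
        hδ0 (fun l hl => (hj l (Finset.mem_range.2 hl)).1.1 z hz)
        (fun l hl => (hj l (Finset.mem_range.2 hl)).2.1) (fun l => (hS.pos _ _).le) hi
      refine h1.trans ?_
      exact mul_le_mul_of_nonneg_right hδε (hS.pos _ _).le
    · have h1 := chain_bd (f := fun l => (a l).2 j z) (t := fun l => τ' (g l) j) (m := I j)
        (i := i) hδ0 (fun l hl => (hj l (Finset.mem_range.2 hl)).1.2 z hz)
        (fun l hl => (hj l (Finset.mem_range.2 hl)).2.2) (fun l => (hS.pos' _ _).le) hi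
      refine h1.trans ?_
      exact mul_le_mul_of_nonneg_right hδε (hS.pos' _ _).le

end Pool.Agent.H43.FT
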