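import Pool.Agent.H43.FT.Defs

/-!
FT-8: holomorphic Newton pairs.
-/

set_option autoImplicit false

open MvPolynomial Filter Topology Pool.Agent.H77.FB Pool.Agent.H60.FB Pool.Agent.H77.N2

namespace Pool.Agent.H43.FT

open scoped InnerProductSpace NNReal

variable {n : ℕ}

/-- the divided difference of the power -/
noncomputable def ft8_Q (m : ℕ) (w v : ℂ) : ℂ := ∑ i ∈ Finset.range m, w ^ i * v ^ (m - 1 - i)

theorem ft8_Q_mul (m : ℕ) (w v : ℂ) : ft8_Q m w v * (w - v) = w ^ m - v ^ m :=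
  geom_sum₂_mul w v m

theorem ft8_Q_norm (m : ℕ) (w v : ℂ) (hw : ‖w‖ ≤ 1) (hv : ‖v‖ ≤ 1) : ‖ft8_Q m w v‖ ≤ m := by
  unfold ft8_Q
  refine (norm_sum_le _ _).trans ?_
  calc ∑ i ∈ Finset.range m, ‖w ^ i * v ^ (m - 1 - i)‖ ≤ ∑ _i ∈ Finset.range m, (1 : ℝ) := by
        refine Finset.sum_le_sum fun i _ => ?_
        rw [norm_mul, norm_pow, norm_pow]
        exact mul_le_one₀ (pow_le_one₀ (norm_nonneg _) hw) (by positivity)
          (pow_le_one₀ (norm_nonneg _) hv)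
    _ = m := by simp

/-- the equation -/
noncomputable def ft8_F (d : ℕ) (a : ℕ → ℂ) (w : ℂ) : ℂ :=
  w + a 0 + ∑ i ∈ Finset.range d, a (i + 1) * w ^ (i + 2)

/-- the divided difference of the equation -/
noncomputable def ft8_G (d : ℕ) (a : ℕ → ℂ) (w v : ℂ) : ℂ :=
  ∑ i ∈ Finset.range d, a (i + 1) * ft8_Q (i + 2) w v

theorem ft8_F_sub (d : ℕ) (a : ℕ → ℂ) (w v : ℂ) :
    ft8_F d a w - ft8_F d a v = (w - v) * (1 + ft8_G d a w v) := by
  have h : ∑ i ∈ Finset.range d, a (i + 1) * w ^ (i + 2) -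
      ∑ i ∈ Finset.range d, a (i + 1) * v ^ (i + 2) = (w - v) * ft8_G d a w v := by
    unfold ft8_G
    rw [← Finset.sum_sub_distrib, Finset.mul_sum]
    refine Finset.sum_congr rfl fun i _ => ?_
    rw [← mul_sub, ← ft8_Q_mul]
    ring
  unfold ft8_F
  linear_combination h

theorem ft8_G_norm (d : ℕ) (a : ℕ → ℂ) (w v : ℂ) (hw : ‖w‖ ≤ 1) (hv : ‖v‖ ≤ 1)
    (ha : ∀ i ≤ d, ‖a i‖ ≤ 1 / (2 * ((d : ℝ) + 1) ^ 2)) : ‖ft8_G d a w v‖ ≤ 1 / 2 := by
  unfold ft8_G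
  refine (norm_sum_le _ _).trans ?_
  have hpos : 0 < 2 * ((d : ℝ) + 1) ^ 2 := by positivity
  calc ∑ i ∈ Finset.range d, ‖a (i + 1) * ft8_Q (i + 2) w v‖
      ≤ ∑ _i ∈ Finset.range d, 1 / (2 * ((d : ℝ) + 1) ^ 2) * ((d : ℝ) + 1) := by
        refine Finset.sum_le_sum fun i hi => ?_
        rw [norm_mul]
        have hi' := Finset.mem_range.1 hi
        refine mul_le_mul (ha _ (by omega)) ((ft8_Q_norm _ _ _ hw hv).trans ?_)
          (norm_nonneg _) (by positivity)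
        exact_mod_cast (by omega : i + 2 ≤ d + 1)
    _ = d * (1 / (2 * ((d : ℝ) + 1) ^ 2) * ((d : ℝ) + 1)) := by simp
    _ ≤ 1 / 2 := by
        have h1 : (d : ℝ) * (1 / (2 * ((d : ℝ) + 1) ^ 2) * ((d : ℝ) + 1)) =
            (d : ℝ) / ((d : ℝ) + 1) * (1 / 2) := by
          field_simp
        rw [h1]
        have h2 : (d : ℝ) / ((d : ℝ) + 1) ≤ 1 := by
          rw [div_le_one (by positivity)]
          linarith
        linarith

theorem ft8_one_add (g : ℂ) (hg : ‖g‖ ≤ 1 / 2) : 1 / 2 ≤ ‖1 + g‖ := by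
  have h := norm_sub_norm_le (1 : ℂ) (-g)
  rw [norm_neg, norm_one, sub_neg_eq_add] at h
  linarith

theorem ft8_unique (d : ℕ) (a : ℕ → ℂ) (w v : ℂ) (hw : ‖w‖ ≤ 1) (hv : ‖v‖ ≤ 1)
    (ha : ∀ i ≤ d, ‖a i‖ ≤ 1 / (2 * ((d : ℝ) + 1) ^ 2)) (h1 : ft8_F d a w = 0)
    (h2 : ft8_F d a v = 0) : w = v := by
  have h := ft8_F_sub d a w v
  rw [h1, h2, sub_zero] at h
  rcases mul_eq_zero.1 h.symm with h3 | h3
  · exact sub_eq_zero.1 h3
  · exfalso
    have h4 := ft8_one_add _ (ft8_G_norm d a w v hw hv ha)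
    rw [h3, norm_zero] at h4
    norm_num at h4

theorem ft8_small (d : ℕ) : 1 / (2 * ((d : ℝ) + 1) ^ 2) ≤ 1 / 2 := by
  have h : (1 : ℝ) ≤ ((d : ℝ) + 1) ^ 2 := by
    have : (0 : ℝ) ≤ d := Nat.cast_nonneg d
    nlinarith
  rw [div_le_div_iff₀ (by positivity) (by norm_num)]
  linarith

theorem ft8_root (d : ℕ) (a : ℕ → ℂ) (ha : ∀ i ≤ d, ‖a i‖ ≤ 1 / (2 * ((d : ℝ) + 1) ^ 2)) :
    ∃ w, ‖w‖ ≤ 2 * ‖a 0‖ ∧ ft8_F d a w = 0 := by
  have ha0 : 2 * ‖a 0‖ ≤ 1 := by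
    have h1 := ha 0 (Nat.zero_le _)
    have h2 := ft8_small d
    linarith
  set f : ℂ → ℂ := fun w => w - ft8_F d a w with hf
  have hsub : ∀ w v : ℂ, ‖w‖ ≤ 1 → ‖v‖ ≤ 1 → ‖f w - f v‖ ≤ 1 / 2 * ‖w - v‖ := by
    intro w v hw hv
    have h1 : f w - f v = -(w - v) * ft8_G d a w v := by
      have := ft8_F_sub d a w v
      simp only [hf]
      linear_combination -this
    rw [h1, norm_mul, norm_neg, mul_comm]
    exact mul_le_mul_of_nonneg_right (ft8_G_norm d a w v hw hv ha) (norm_nonneg _)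
  have hf0 : f 0 = - a 0 := by
    simp [hf, ft8_F]
  have hmaps : Set.MapsTo f (Metric.closedBall 0 (2 * ‖a 0‖)) (Metric.closedBall 0 (2 * ‖a 0‖)) := by
    intro w hw
    rw [mem_closedBall_zero_iff] at hw ⊢
    have h1 := hsub w 0 (hw.trans ha0) (by simp)
    rw [sub_zero] at h1
    calc ‖f w‖ = ‖(f w - f 0) + f 0‖ := by rw [sub_add_cancel]
      _ ≤ ‖f w - f 0‖ + ‖f 0‖ := norm_add_le _ _
      _ ≤ 1 / 2 * ‖w‖ + ‖a 0‖ := by rw [hf0, norm_neg]; rw [hf0] at h1; linarith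
      _ ≤ 2 * ‖a 0‖ := by linarith
  have hcon : ContractingWith (1 / 2 : ℝ≥0) (hmaps.restrict f _ _) := by
    refine ⟨by norm_num, LipschitzWith.of_dist_le_mul fun x y => ?_⟩
    have hx := x.2
    have hy := y.2
    rw [mem_closedBall_zero_iff] at hx hy
    have := hsub x.1 y.1 (hx.trans ha0) (hy.trans ha0)
    rw [Subtype.dist_eq, Subtype.dist_eq, dist_eq_norm, dist_eq_norm]
    simpa using this
  have hcomp : IsComplete (Metric.closedBall (0 : ℂ) (2 * ‖a 0‖)) :=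
    Metric.isClosed_closedBall.isComplete
  obtain ⟨y, hy, hfix, -⟩ := hcon.exists_fixedPoint' hcomp hmaps
    (x := 0) (by simp) (edist_ne_top _ _)
  refine ⟨y, by rwa [mem_closedBall_zero_iff] at hy, ?_⟩
  have h1 : y - ft8_F d a y = y := hfix
  linear_combination -h1

/-- product of a function vanishing at the point and a continuous function -/
theorem ft8_diff {g h w : V n → ℂ} {z₀ : V n} (hg : DifferentiableAt ℂ g z₀) (hh : ContinuousAt h z₀)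
    (hw : ∀ᶠ z in 𝓝 z₀, w z = w z₀ - (g z - g z₀) * h z) : DifferentiableAt ℂ w z₀ := by
  obtain ⟨L, hL⟩ := hg
  refine ⟨-(h z₀) • L, ?_⟩
  rw [hasFDerivAt_iff_isLittleO] at hL ⊢
  have hO : (fun z => g z - g z₀) =O[𝓝 z₀] fun z => z - z₀ := by
    have := (hasFDerivAt_iff_isLittleO.2 hL).isBigO_sub
    exact this
  have hh0 : (fun z => h z - h z₀) =o[𝓝 z₀] fun _ => (1 : ℝ) := by
    rw [Asymptotics.isLittleO_one_iff]
    have := hh.sub (continuousAt_const (y := h z₀))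
    have h2 : Tendsto (fun z => h z - h z₀) (𝓝 z₀) (𝓝 (h z₀ - h z₀)) := this
    rwa [sub_self] at h2
  have h1 : (fun z => (g z - g z₀) * (h z - h z₀)) =o[𝓝 z₀] fun z => z - z₀ := by
    have := (hO.norm_right).mul_isLittleO hh0
    simp only [mul_one] at this
    exact this.of_norm_right
  have h2 : (fun z => (g z - g z₀ - L (z - z₀)) * h z₀) =o[𝓝 z₀] fun z => z - z₀ := by
    have := hL.const_mul_left (h z₀)
    refine this.congr_left fun z => ?_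
    ring
  refine ((h1.add h2).neg_left).congr' ?_ (EventuallyEq.refl _ _)
  filter_upwards [hw] with z hz
  rw [hz]
  simp only [ContinuousLinearMap.smul_apply, smul_eq_mul]
  ring

theorem ft8_one (C : Set (V n)) (hC : IsOpen C) (pr : V n → V n) (hpr : ∀ z ∈ C, pr z ∈ C)
    (d : ℕ) (r : ℕ → V n → ℂ)
    (hd : ∀ i ≤ d, DifferentiableOn ℂ (r i) C ∧ ∀ z ∈ C, r i (pr z) = r i z)
    (hq : ∀ i ≤ d, ∀ z ∈ C, ‖r i z‖ ≤ 1 / (2 * ((d : ℝ) + 1) ^ 2)) :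
    ∃ w : V n → ℂ, DifferentiableOn ℂ w C ∧ (∀ z ∈ C, w (pr z) = w z) ∧
      (∀ z ∈ C, ‖w z‖ ≤ 2 * ‖r 0 z‖) ∧
      ∀ z ∈ C, w z + r 0 z + ∑ i ∈ Finset.range d, r (i + 1) z * w z ^ (i + 2) = 0 := by
  classical
  have hex : ∀ z : V n, ∃ w : ℂ, z ∈ C → ‖w‖ ≤ 2 * ‖r 0 z‖ ∧ ft8_F d (fun i => r i z) w = 0 := by
    intro z
    by_cases hz : z ∈ C
    · obtain ⟨w, h1, h2⟩ := ft8_root d (fun i => r i z) (fun i hi => hq i hi z hz)
      exact ⟨w, fun _ => ⟨h1, h2⟩⟩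
    · exact ⟨0, fun h => absurd h hz⟩
  choose w hw using hex
  have hw1 : ∀ z ∈ C, ‖w z‖ ≤ 1 := by
    intro z hz
    have h1 := (hw z hz).1
    have h2 := hq 0 (Nat.zero_le _) z hz
    have h3 := ft8_small d
    linarith
  refine ⟨w, ?_, ?_, fun z hz => (hw z hz).1, fun z hz => (hw z hz).2⟩
  · intro z₀ hz₀
    refine DifferentiableAt.differentiableWithinAt ?_
    have hdz : ∀ i ≤ d, DifferentiableAt ℂ (r i) z₀ := fun i hi =>
      ((hd i hi).1 z₀ hz₀).differentiableAt (hC.mem_nhds hz₀)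
    have hmem : ∀ᶠ z in 𝓝 z₀, z ∈ C := hC.mem_nhds hz₀
    -- the function with frozen `w`
    set g : V n → ℂ := fun z => ft8_F d (fun i => r i z) (w z₀) with hg
    have hgd : DifferentiableAt ℂ g z₀ := by
      simp only [hg, ft8_F]
      refine ((differentiableAt_const _).add (hdz 0 (Nat.zero_le _))).add ?_
      refine DifferentiableAt.fun_sum fun i hi => ?_
      have hi' := Finset.mem_range.1 hi
      exact (hdz (i + 1) (by omega)).mul (differentiableAt_const _)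
    have hkey : ∀ z ∈ C, (w z - w z₀) * (1 + ft8_G d (fun i => r i z) (w z) (w z₀)) =
        -(g z - g z₀) := by
      intro z hz
      have h1 := ft8_F_sub d (fun i => r i z) (w z) (w z₀)
      rw [(hw z hz).2] at h1
      have h2 : g z₀ = 0 := (hw z₀ hz₀).2
      rw [h2, ← h1]
      simp [hg]
    have hGn : ∀ z ∈ C, 1 / 2 ≤ ‖1 + ft8_G d (fun i => r i z) (w z) (w z₀)‖ := fun z hz =>
      ft8_one_add _ (ft8_G_norm d _ _ _ (hw1 z hz) (hw1 z₀ hz₀) fun i hi => hq i hi z hz)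
    -- continuity of `w`
    have hwc : ContinuousAt w z₀ := by
      have h1 : ∀ᶠ z in 𝓝 z₀, ‖w z - w z₀‖ ≤ 2 * ‖g z - g z₀‖ := by
        filter_upwards [hmem] with z hz
        have h2 := congrArg norm (hkey z hz)
        rw [norm_mul, norm_neg] at h2
        have h3 := mul_le_mul_of_nonneg_left (hGn z hz) (norm_nonneg (w z - w z₀))
        linarith
      have h2 : Tendsto (fun z => 2 * ‖g z - g z₀‖) (𝓝 z₀) (𝓝 0) := by
        have h3 : Tendsto (fun z => 2 * ‖g z - g z₀‖) (𝓝 z₀) (𝓝 (2 * ‖g z₀ - g z₀‖)) :=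
          ((hgd.continuousAt.tendsto.sub tendsto_const_nhds).norm).const_mul 2
        simpa using h3
      rw [ContinuousAt, tendsto_iff_norm_sub_tendsto_zero]
      exact squeeze_zero' (Eventually.of_forall fun z => norm_nonneg _) h1 h2
    have hGc : ContinuousAt (fun z => ft8_G d (fun i => r i z) (w z) (w z₀)) z₀ := by
      simp only [ft8_G, ft8_Q]
      refine tendsto_finset_sum _ fun i hi => ?_
      have hi' := Finset.mem_range.1 hi
      refine ((hdz (i + 1) (by omega)).continuousAt.tendsto).mul ?_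
      refine tendsto_finset_sum _ fun k _ => ?_
      exact (hwc.tendsto.pow k).mul tendsto_const_nhds
    have hne : ∀ z ∈ C, 1 + ft8_G d (fun i => r i z) (w z) (w z₀) ≠ 0 := by
      intro z hz h0
      have := hGn z hz
      rw [h0, norm_zero] at this
      norm_num at this
    refine ft8_diff (g := g)
      (h := fun z => (1 + ft8_G d (fun i => r i z) (w z) (w z₀))⁻¹) hgd ?_ ?_
    · exact (continuousAt_const.add hGc).inv₀ (hne z₀ hz₀)
    · filter_upwards [hmem] with z hz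
      have h1 := hkey z hz
      have h2 := hne z hz
      have h3 : w z - w z₀ = -(g z - g z₀) * (1 + ft8_G d (fun i => r i z) (w z) (w z₀))⁻¹ := by
        rw [← h1]
        field_simp
      linear_combination h3
  · intro z hz
    have hp := hpr z hz
    refine ft8_unique d (fun i => r i z) _ _ (hw1 _ hp) (hw1 z hz)
      (fun i hi => hq i hi z hz) ?_ (hw z hz).2
    have h1 := (hw (pr z) hp).2
    have h2 : ∀ i ≤ d, r i (pr z) = r i z := fun i hi => (hd i hi).2 z hz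
    unfold ft8_F at h1 ⊢
    beta_reduce at h1 ⊢
    rw [h2 0 (Nat.zero_le _)] at h1
    rw [← h1]
    congr 1
    refine Finset.sum_congr rfl fun i hi => ?_
    have hi' := Finset.mem_range.1 hi
    rw [h2 (i + 1) (by omega)]

theorem pr_newton (𝒰 : Ultrafilter ℕ) (D : Dm n) (hD : DmOK 𝒰 D) (d : ℕ) (ρ : ℕ → Pr n)
    (hρ : ∀ i, Hol 𝒰 D (ρ i)) (hρ1 : ∀ i, Sm 𝒰 D (ρ i) 1 1) :
    ∃ w : Pr n, Hol 𝒰 D w ∧ Sm 𝒰 D w 1 1 ∧
      Nul 𝒰 D (w + ρ 0 + ∑ i ∈ Finset.range d, ρ (i + 1) * w ^ (i + 2)) := by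
  classical
  have hpos : (0 : ℝ) < 1 / (2 * ((d : ℝ) + 1) ^ 2) := by positivity
  have hH : ∀ᶠ j in (𝒰 : Filter ℕ), ∀ i ∈ Finset.range (d + 1),
      (DifferentiableOn ℂ ((ρ i).1 j) (D.C j) ∧
        ∀ z ∈ D.C j, (ρ i).1 j (D.pr z) = (ρ i).1 j z) ∧
      (DifferentiableOn ℂ ((ρ i).2 j) (D.C' j) ∧
        ∀ z ∈ D.C' j, (ρ i).2 j (D.pr z) = (ρ i).2 j z) := by
    rw [Finset.eventually_all]
    exact fun i _ => hρ i
  have hS : ∀ᶠ j in (𝒰 : Filter ℕ), ∀ i ∈ Finset.range (d + 1),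
      (∀ z ∈ D.C j, ‖(ρ i).1 j z‖ ≤ 1 / (2 * ((d : ℝ) + 1) ^ 2)) ∧
        ∀ z ∈ D.C' j, ‖(ρ i).2 j z‖ ≤ 1 / (2 * ((d : ℝ) + 1) ^ 2) := by
    rw [Finset.eventually_all]
    intro i _
    have := hρ1 i _ hpos
    unfold Le at this
    simpa using this
  have hex : ∀ j : ℕ, ∃ w w' : V n → ℂ,
      ((∀ i ∈ Finset.range (d + 1),
      (DifferentiableOn ℂ ((ρ i).1 j) (D.C j) ∧
        ∀ z ∈ D.C j, (ρ i).1 j (D.pr z) = (ρ i).1 j z) ∧
      (DifferentiableOn ℂ ((ρ i).2 j) (D.C' j) ∧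
        ∀ z ∈ D.C' j, (ρ i).2 j (D.pr z) = (ρ i).2 j z)) ∧
      (∀ i ∈ Finset.range (d + 1),
      (∀ z ∈ D.C j, ‖(ρ i).1 j z‖ ≤ 1 / (2 * ((d : ℝ) + 1) ^ 2)) ∧
        ∀ z ∈ D.C' j, ‖(ρ i).2 j z‖ ≤ 1 / (2 * ((d : ℝ) + 1) ^ 2))) →
      (DifferentiableOn ℂ w (D.C j) ∧ (∀ z ∈ D.C j, w (D.pr z) = w z) ∧
      (∀ z ∈ D.C j, ‖w z‖ ≤ 2 * ‖(ρ 0).1 j z‖) ∧
      ∀ z ∈ D.C j, w z + (ρ 0).1 j z +
        ∑ i ∈ Finset.range d, (ρ (i + 1)).1 j z * w z ^ (i + 2) = 0) ∧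
      (DifferentiableOn ℂ w' (D.C' j) ∧ (∀ z ∈ D.C' j, w' (D.pr z) = w' z) ∧
      (∀ z ∈ D.C' j, ‖w' z‖ ≤ 2 * ‖(ρ 0).2 j z‖) ∧
      ∀ z ∈ D.C' j, w' z + (ρ 0).2 j z +
        ∑ i ∈ Finset.range d, (ρ (i + 1)).2 j z * w' z ^ (i + 2) = 0) := by
    intro j
    by_cases hj : ((∀ i ∈ Finset.range (d + 1),
      (DifferentiableOn ℂ ((ρ i).1 j) (D.C j) ∧
        ∀ z ∈ D.C j, (ρ i).1 j (D.pr z) = (ρ i).1 j z) ∧
      (DifferentiableOn ℂ ((ρ i).2 j) (D.C' j) ∧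
        ∀ z ∈ D.C' j, (ρ i).2 j (D.pr z) = (ρ i).2 j z)) ∧
      (∀ i ∈ Finset.range (d + 1),
      (∀ z ∈ D.C j, ‖(ρ i).1 j z‖ ≤ 1 / (2 * ((d : ℝ) + 1) ^ 2)) ∧
        ∀ z ∈ D.C' j, ‖(ρ i).2 j z‖ ≤ 1 / (2 * ((d : ℝ) + 1) ^ 2)))
    · obtain ⟨h1, h2⟩ := hj
      obtain ⟨w, hw⟩ := ft8_one (D.C j) (hD.op j) D.pr (hD.maps j) d (fun i => (ρ i).1 j)
        (fun i hi => (h1 i (Finset.mem_range.2 (by omega))).1)
        (fun i hi => (h2 i (Finset.mem_range.2 (by omega))).1)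
      obtain ⟨w', hw'⟩ := ft8_one (D.C' j) (hD.op' j) D.pr (hD.maps' j) d (fun i => (ρ i).2 j)
        (fun i hi => (h1 i (Finset.mem_range.2 (by omega))).2)
        (fun i hi => (h2 i (Finset.mem_range.2 (by omega))).2)
      exact ⟨w, w', fun _ => ⟨hw, hw'⟩⟩
    · exact ⟨0, 0, fun h => absurd h hj⟩
  choose w w' hw using hex
  refine ⟨(w, w'), ?_, ?_, ?_⟩
  · filter_upwards [hH, hS] with j h1 h2
    obtain ⟨h3, h4⟩ := hw j ⟨h1, h2⟩
    exact ⟨⟨h3.1, h3.2.1⟩, ⟨h4.1, h4.2.1⟩⟩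
  · intro ε hε
    have h0 := hρ1 0 (ε / 2) (by positivity)
    unfold Le at h0 ⊢
    filter_upwards [hH, hS, h0] with j h1 h2 h5
    obtain ⟨h3, h4⟩ := hw j ⟨h1, h2⟩
    refine ⟨fun z hz => ?_, fun z hz => ?_⟩
    · have h6 := h3.2.2.1 z hz
      have h7 := h5.1 z hz
      simp only [Pi.one_apply, mul_one] at h7 ⊢
      linarith
    · have h6 := h4.2.2.1 z hz
      have h7 := h5.2 z hz
      simp only [Pi.one_apply, mul_one] at h7 ⊢
      linarith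
  · filter_upwards [hH, hS] with j h1 h2
    obtain ⟨h3, h4⟩ := hw j ⟨h1, h2⟩
    refine ⟨fun z hz => ?_, fun z hz => ?_⟩
    · have h6 := h3.2.2.2 z hz
      simpa [Prod.fst_sum, Finset.sum_apply] using h6
    · have h6 := h4.2.2.2 z hz
      simpa [Prod.snd_sum, Finset.sum_apply] using h6

end Pool.Agent.H43.FT
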