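import Pool.Agent.H43.FT.Defs
import Pool.Agent.H43.FT.Conc
import Pool.Agent.H43.FT.Newt
import Pool.Agent.H65.FT.SC

/-!
FT-9: every good ring of pairs is contained in a good ring which is spherically complete.
-/

set_option autoImplicit false

open MvPolynomial Filter Topology Pool.Agent.H77.FB Pool.Agent.H60.FB Pool.Agent.H77.N2

namespace Pool.Agent.H43.FT

open scoped InnerProductSpace

variable {n : ℕ}

/-! ### the subalgebra of holomorphic pairs -/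

/-- The algebra of the holomorphic pairs. -/
def ft9_H (𝒰 : Ultrafilter ℕ) (D : Dm n) : Subalgebra ℂ (Pr n) where
  carrier := {s | Hol 𝒰 D s}
  mul_mem' := by
    intro s t hs ht
    filter_upwards [hs, ht] with j h1 h2
    refine ⟨⟨h1.1.1.mul h2.1.1, fun z hz => ?_⟩, h1.2.1.mul h2.2.1, fun z hz => ?_⟩
    · show s.1 j _ * t.1 j _ = s.1 j _ * t.1 j _
      rw [h1.1.2 z hz, h2.1.2 z hz]
    · show s.2 j _ * t.2 j _ = s.2 j _ * t.2 j _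
      rw [h1.2.2 z hz, h2.2.2 z hz]
  add_mem' := by
    intro s t hs ht
    filter_upwards [hs, ht] with j h1 h2
    refine ⟨⟨h1.1.1.add h2.1.1, fun z hz => ?_⟩, h1.2.1.add h2.2.1, fun z hz => ?_⟩
    · show s.1 j _ + t.1 j _ = s.1 j _ + t.1 j _
      rw [h1.1.2 z hz, h2.1.2 z hz]
    · show s.2 j _ + t.2 j _ = s.2 j _ + t.2 j _
      rw [h1.2.2 z hz, h2.2.2 z hz]
  algebraMap_mem' := by
    intro c
    refine Eventually.of_forall fun j => ⟨⟨differentiableOn_const c, fun z _ => rfl⟩,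
      differentiableOn_const c, fun z _ => rfl⟩

theorem ft9_mem_H {𝒰 : Ultrafilter ℕ} {D : Dm n} {s : Pr n} : s ∈ ft9_H 𝒰 D ↔ Hol 𝒰 D s :=
  Iff.rfl

theorem ft9_hol_sc (𝒰 : Ultrafilter ℕ) (D : Dm n) (c : ℂ) (x x' : ℕ → ℝ) :
    Hol 𝒰 D (sc c x x') :=
  Eventually.of_forall fun _ => ⟨⟨differentiableOn_const _, fun _ _ => rfl⟩,
      differentiableOn_const _, fun _ _ => rfl⟩

/-- The ideal of the null pairs. -/
def ft9_I (𝒰 : Ultrafilter ℕ) (D : Dm n) : Ideal (ft9_H 𝒰 D) where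
  carrier := {s | Nul 𝒰 D (s : Pr n)}
  add_mem' := by
    intro s t hs ht
    filter_upwards [hs, ht] with j h1 h2
    refine ⟨fun z hz => ?_, fun z hz => ?_⟩
    · show (s : Pr n).1 j z + (t : Pr n).1 j z = 0
      rw [h1.1 z hz, h2.1 z hz, add_zero]
    · show (s : Pr n).2 j z + (t : Pr n).2 j z = 0
      rw [h1.2 z hz, h2.2 z hz, add_zero]
  zero_mem' := Eventually.of_forall fun _ => ⟨fun _ _ => rfl, fun _ _ => rfl⟩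
  smul_mem' := by
    intro c s hs
    filter_upwards [hs] with j h1
    refine ⟨fun z hz => ?_, fun z hz => ?_⟩
    · show (c : Pr n).1 j z * (s : Pr n).1 j z = 0
      rw [h1.1 z hz, mul_zero]
    · show (c : Pr n).2 j z * (s : Pr n).2 j z = 0
      rw [h1.2 z hz, mul_zero]

theorem ft9_mem_I {𝒰 : Ultrafilter ℕ} {D : Dm n} {s : ft9_H 𝒰 D} :
    s ∈ ft9_I 𝒰 D ↔ Nul 𝒰 D (s : Pr n) := Iff.rfl

/-- The ring of germs. -/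
abbrev ft9_O (𝒰 : Ultrafilter ℕ) (D : Dm n) : Type := ft9_H 𝒰 D ⧸ ft9_I 𝒰 D

/-- The class of a holomorphic pair. -/
def ft9_cl (𝒰 : Ultrafilter ℕ) (D : Dm n) (s : Pr n) (hs : Hol 𝒰 D s) : ft9_O 𝒰 D :=
  Ideal.Quotient.mk (ft9_I 𝒰 D) ⟨s, hs⟩

theorem ft9_cl_surj (𝒰 : Ultrafilter ℕ) (D : Dm n) (x : ft9_O 𝒰 D) :
    ∃ s hs, ft9_cl 𝒰 D s hs = x := by
  obtain ⟨⟨s, hs⟩, rfl⟩ := Ideal.Quotient.mk_surjective x
  exact ⟨s, hs, rfl⟩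

theorem ft9_cl_eq {𝒰 : Ultrafilter ℕ} {D : Dm n} {s t : Pr n} {hs : Hol 𝒰 D s}
    {ht : Hol 𝒰 D t} : ft9_cl 𝒰 D s hs = ft9_cl 𝒰 D t ht ↔ Nul 𝒰 D (s - t) :=
  Ideal.Quotient.eq

theorem ft9_cl_zero {𝒰 : Ultrafilter ℕ} {D : Dm n} {s : Pr n} {hs : Hol 𝒰 D s} :
    ft9_cl 𝒰 D s hs = 0 ↔ Nul 𝒰 D s :=
  Ideal.Quotient.eq_zero_iff_mem

theorem ft9_cl_add {𝒰 : Ultrafilter ℕ} {D : Dm n} {s t : Pr n} (hs : Hol 𝒰 D s)
    (ht : Hol 𝒰 D t) : ft9_cl 𝒰 D s hs + ft9_cl 𝒰 D t ht =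
      ft9_cl 𝒰 D (s + t) ((ft9_H 𝒰 D).add_mem hs ht) := rfl

theorem ft9_cl_sub {𝒰 : Ultrafilter ℕ} {D : Dm n} {s t : Pr n} (hs : Hol 𝒰 D s)
    (ht : Hol 𝒰 D t) : ft9_cl 𝒰 D s hs - ft9_cl 𝒰 D t ht =
      ft9_cl 𝒰 D (s - t) ((ft9_H 𝒰 D).sub_mem hs ht) := rfl

theorem ft9_cl_mul {𝒰 : Ultrafilter ℕ} {D : Dm n} {s t : Pr n} (hs : Hol 𝒰 D s)
    (ht : Hol 𝒰 D t) : ft9_cl 𝒰 D s hs * ft9_cl 𝒰 D t ht =
      ft9_cl 𝒰 D (s * t) ((ft9_H 𝒰 D).mul_mem hs ht) := rfl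

theorem ft9_cl_pow {𝒰 : Ultrafilter ℕ} {D : Dm n} {s : Pr n} (hs : Hol 𝒰 D s) (k : ℕ) :
    ft9_cl 𝒰 D s hs ^ k = ft9_cl 𝒰 D (s ^ k) ((ft9_H 𝒰 D).pow_mem hs k) := rfl

theorem ft9_cl_const {𝒰 : Ultrafilter ℕ} {D : Dm n} (c : ℂ) :
    algebraMap ℂ (ft9_O 𝒰 D) c = ft9_cl 𝒰 D (cst c) ((ft9_H 𝒰 D).algebraMap_mem c) := rfl

theorem ft9_cl_congr {𝒰 : Ultrafilter ℕ} {D : Dm n} {s t : Pr n} {hs : Hol 𝒰 D s}
    {ht : Hol 𝒰 D t} (h : s = t) : ft9_cl 𝒰 D s hs = ft9_cl 𝒰 D t ht := by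
  subst h; rfl

/-! ### smallness -/

theorem ft9_Sm_congr {𝒰 : Ultrafilter ℕ} {D : Dm n} {s t : Pr n} {x x' : ℕ → ℝ}
    (h : Nul 𝒰 D (s - t)) (hs : Sm 𝒰 D s x x') : Sm 𝒰 D t x x' := by
  intro ε hε
  filter_upwards [h, hs ε hε] with j h1 h2
  refine ⟨fun z hz => ?_, fun z hz => ?_⟩
  · have : s.1 j z - t.1 j z = 0 := h1.1 z hz
    rw [← sub_eq_zero.mp this]; exact h2.1 z hz
  · have : s.2 j z - t.2 j z = 0 := h1.2 z hz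
    rw [← sub_eq_zero.mp this]; exact h2.2 z hz

theorem ft9_Sm_add {𝒰 : Ultrafilter ℕ} {D : Dm n} {s t : Pr n} {x x' : ℕ → ℝ}
    (hs : Sm 𝒰 D s x x') (ht : Sm 𝒰 D t x x') : Sm 𝒰 D (s + t) x x' := by
  intro ε hε
  filter_upwards [hs (ε / 2) (by positivity), ht (ε / 2) (by positivity)] with j h1 h2
  refine ⟨fun z hz => ?_, fun z hz => ?_⟩
  · calc ‖s.1 j z + t.1 j z‖ ≤ ‖s.1 j z‖ + ‖t.1 j z‖ := norm_add_le _ _
      _ ≤ ε / 2 * x j + ε / 2 * x j := add_le_add (h1.1 z hz) (h2.1 z hz)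
      _ = ε * x j := by ring
  · calc ‖s.2 j z + t.2 j z‖ ≤ ‖s.2 j z‖ + ‖t.2 j z‖ := norm_add_le _ _
      _ ≤ ε / 2 * x' j + ε / 2 * x' j := add_le_add (h1.2 z hz) (h2.2 z hz)
      _ = ε * x' j := by ring

/-- bounded pairs -/
def ft9_Bd (𝒰 : Ultrafilter ℕ) (D : Dm n) (s : Pr n) : Prop :=
  ∃ M : ℝ, 0 ≤ M ∧ ∀ᶠ j in (𝒰 : Filter ℕ), (∀ z ∈ D.C j, ‖s.1 j z‖ ≤ M) ∧
    ∀ z ∈ D.C' j, ‖s.2 j z‖ ≤ M

theorem ft9_Bd_mul_Sm {𝒰 : Ultrafilter ℕ} {D : Dm n} {s t : Pr n} 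
    (hs : ft9_Bd 𝒰 D s) (ht : Sm 𝒰 D t 1 1) : Sm 𝒰 D (s * t) 1 1 := by
  obtain ⟨M, hM, hs⟩ := hs
  intro ε hε
  have hM1 : 0 < M + 1 := by linarith
  filter_upwards [hs, ht (ε / (M + 1)) (by positivity)] with j h1 h2
  have key : ∀ a b : ℝ, 0 ≤ a → 0 ≤ b → a ≤ M → b ≤ ε / (M + 1) * (1 : ℕ → ℝ) j → 
      a * b ≤ ε * (1 : ℕ → ℝ) j := by
    intro a b ha hb h3 h4
    simp only [Pi.one_apply, mul_one] at h4 ⊢
    calc a * b ≤ (M + 1) * (ε / (M + 1)) := by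
          apply mul_le_mul (by linarith) h4 hb (by linarith)
      _ = ε := by field_simp
  refine ⟨fun z hz => ?_, fun z hz => ?_⟩
  · show ‖s.1 j z * t.1 j z‖ ≤ _
    rw [norm_mul]
    exact key _ _ (norm_nonneg _) (norm_nonneg _) (h1.1 z hz) (h2.1 z hz)
  · show ‖s.2 j z * t.2 j z‖ ≤ _
    rw [norm_mul]
    exact key _ _ (norm_nonneg _) (norm_nonneg _) (h1.2 z hz) (h2.2 z hz)

theorem ft9_Sm_Bd {𝒰 : Ultrafilter ℕ} {D : Dm n} {s : Pr n} (hs : Sm 𝒰 D s 1 1) :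
    ft9_Bd 𝒰 D s := by
  refine ⟨1, zero_le_one, ?_⟩
  filter_upwards [hs 1 one_pos] with j h
  simpa using h

/-- The subring of bounded germs. -/
def ft9_OO (𝒰 : Ultrafilter ℕ) (D : Dm n) : Subring (ft9_O 𝒰 D) where
  carrier := {x | ∃ s hs, ft9_cl 𝒰 D s hs = x ∧ ft9_Bd 𝒰 D s}
  mul_mem' := by
    rintro _ _ ⟨s, hs, rfl, M, hM, h1⟩ ⟨t, ht, rfl, M', hM', h2⟩
    refine ⟨s * t, (ft9_H 𝒰 D).mul_mem hs ht, rfl, M * M', by positivity, ?_⟩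
    filter_upwards [h1, h2] with j h1 h2
    refine ⟨fun z hz => ?_, fun z hz => ?_⟩
    · show ‖s.1 j z * t.1 j z‖ ≤ _
      rw [norm_mul]
      exact mul_le_mul (h1.1 z hz) (h2.1 z hz) (norm_nonneg _) hM
    · show ‖s.2 j z * t.2 j z‖ ≤ _
      rw [norm_mul]
      exact mul_le_mul (h1.2 z hz) (h2.2 z hz) (norm_nonneg _) hM
  one_mem' := ⟨1, (ft9_H 𝒰 D).one_mem, rfl, 1, zero_le_one, Eventually.of_forall fun j =>
    ⟨fun z _ => by show ‖(1 : ℂ)‖ ≤ 1; simp, fun z _ => by show ‖(1 : ℂ)‖ ≤ 1; simp⟩⟩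
  add_mem' := by
    rintro _ _ ⟨s, hs, rfl, M, hM, h1⟩ ⟨t, ht, rfl, M', hM', h2⟩
    refine ⟨s + t, (ft9_H 𝒰 D).add_mem hs ht, rfl, M + M', by positivity, ?_⟩
    filter_upwards [h1, h2] with j h1 h2
    refine ⟨fun z hz => ?_, fun z hz => ?_⟩
    · exact (norm_add_le _ _).trans (add_le_add (h1.1 z hz) (h2.1 z hz))
    · exact (norm_add_le _ _).trans (add_le_add (h1.2 z hz) (h2.2 z hz))
  zero_mem' := ⟨0, (ft9_H 𝒰 D).zero_mem, rfl, 0, le_rfl, Eventually.of_forall fun j =>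
    ⟨fun z _ => by show ‖(0 : ℂ)‖ ≤ 0; simp, fun z _ => by show ‖(0 : ℂ)‖ ≤ 0; simp⟩⟩
  neg_mem' := by
    rintro _ ⟨s, hs, rfl, M, hM, h1⟩
    refine ⟨-s, (ft9_H 𝒰 D).neg_mem hs, rfl, M, hM, ?_⟩
    filter_upwards [h1] with j h1
    refine ⟨fun z hz => ?_, fun z hz => ?_⟩
    · show ‖-s.1 j z‖ ≤ _
      rw [norm_neg]; exact h1.1 z hz
    · show ‖-s.2 j z‖ ≤ _
      rw [norm_neg]; exact h1.2 z hz

/-- The infinitesimal germs. -/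
def ft9_m (𝒰 : Ultrafilter ℕ) (D : Dm n) : Set (ft9_O 𝒰 D) :=
  {x | ∃ s hs, ft9_cl 𝒰 D s hs = x ∧ Sm 𝒰 D s 1 1}

theorem ft9_mem_m {𝒰 : Ultrafilter ℕ} {D : Dm n} {s : Pr n} {hs : Hol 𝒰 D s} :
    ft9_cl 𝒰 D s hs ∈ ft9_m 𝒰 D ↔ Sm 𝒰 D s 1 1 := by
  constructor
  · rintro ⟨t, ht, h1, h2⟩
    exact ft9_Sm_congr (ft9_cl_eq.mp h1) h2
  · intro h
    exact ⟨s, hs, rfl, h⟩

/-! ### the scales -/

section scales

variable {Γ : Type} [AddCommGroup Γ] [Module ℚ Γ] {τ τ' : Γ → ℕ → ℝ}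

theorem ft9_tau_zero {𝒰 : Ultrafilter ℕ} (hS : Scl 𝒰 τ τ') (j : ℕ) :
    τ 0 j = 1 ∧ τ' 0 j = 1 := by
  have h1 := hS.add 0 0 j
  have h2 := hS.add' 0 0 j
  rw [add_zero] at h1 h2
  have h3 := hS.pos 0 j
  have h4 := hS.pos' 0 j
  constructor
  · nlinarith [mul_self_eq_mul_self_iff.mp (rfl : τ 0 j * τ 0 j = τ 0 j * τ 0 j),
      mul_left_cancel₀ h3.ne' (show τ 0 j * τ 0 j = τ 0 j * 1 by linarith)]
  · nlinarith [mul_left_cancel₀ h4.ne' (show τ' 0 j * τ' 0 j = τ' 0 j * 1 by linarith)]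

theorem ft9_tau_neg {𝒰 : Ultrafilter ℕ} (hS : Scl 𝒰 τ τ') (g : Γ) (j : ℕ) :
    τ g j * τ (-g) j = 1 ∧ τ' g j * τ' (-g) j = 1 := by
  rw [← hS.add, ← hS.add', add_neg_cancel]
  exact ft9_tau_zero hS j

/-- `s` times the inverse scale is infinitesimal iff `s` is small with respect to the scale. -/
theorem ft9_Sm_scale {𝒰 : Ultrafilter ℕ} {D : Dm n} (hS : Scl 𝒰 τ τ') (s : Pr n) (g : Γ) :
    Sm 𝒰 D (s * sc 1 (τ (-g)) (τ' (-g))) 1 1 ↔ Sm 𝒰 D s (τ g) (τ' g) := by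
  have key : ∀ (ε a t t' : ℝ), 0 < t → t * t' = 1 → (a * t' ≤ ε * 1 ↔ a ≤ ε * t) := by
    intro ε a t t' ht h
    constructor
    · intro h1
      calc a = a * t' * t := by rw [mul_assoc, mul_comm t', h, mul_one]
        _ ≤ ε * 1 * t := mul_le_mul_of_nonneg_right h1 ht.le
        _ = ε * t := by ring
    · intro h1
      have ht' : 0 < t' := by
        by_contra hn
        push Not at hn
        nlinarith
      calc a * t' ≤ ε * t * t' := mul_le_mul_of_nonneg_right h1 ht'.le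
        _ = ε * 1 := by rw [mul_assoc, h]
  have hn1 : ∀ j z, ‖(s * sc 1 (τ (-g)) (τ' (-g))).1 j z‖ = ‖s.1 j z‖ * τ (-g) j := by
    intro j z
    show ‖s.1 j z * (1 * ((τ (-g) j : ℝ) : ℂ))‖ = _
    rw [norm_mul, one_mul, Complex.norm_real, Real.norm_of_nonneg (hS.pos _ _).le]
  have hn2 : ∀ j z, ‖(s * sc 1 (τ (-g)) (τ' (-g))).2 j z‖ = ‖s.2 j z‖ * τ' (-g) j := by
    intro j z
    show ‖s.2 j z * (1 * ((τ' (-g) j : ℝ) : ℂ))‖ = _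
    rw [norm_mul, one_mul, Complex.norm_real, Real.norm_of_nonneg (hS.pos' _ _).le]
  unfold Sm Le
  refine forall_congr' fun ε => imp_congr_right fun _ => ?_
  refine eventually_congr (Eventually.of_forall fun j => ?_)
  refine and_congr (forall_congr' fun z => imp_congr_right fun _ => ?_)
    (forall_congr' fun z => imp_congr_right fun _ => ?_)
  · rw [hn1]; exact key ε _ _ _ (hS.pos g j) (ft9_tau_neg hS g j).1
  · rw [hn2]; exact key ε _ _ _ (hS.pos' g j) (ft9_tau_neg hS g j).2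

/-- The abstract scale structure on the ring of germs. -/
noncomputable def ft9_S (𝒰 : Ultrafilter ℕ) (D : Dm n) (hD : DmOK 𝒰 D)
    (hS : Scl 𝒰 τ τ') : Pool.Agent.H65.FT.Scale (ft9_O 𝒰 D) Γ where
  O := ft9_OO 𝒰 D
  m := ft9_m 𝒰 D
  t := fun g => ft9_cl 𝒰 D (sc 1 (τ g) (τ' g)) (ft9_hol_sc 𝒰 D 1 _ _)
  alg_mem := fun c => ⟨cst c, (ft9_H 𝒰 D).algebraMap_mem c, rfl, ‖c‖, norm_nonneg _,
    Eventually.of_forall fun j => ⟨fun _ _ => le_rfl, fun _ _ => le_rfl⟩⟩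
  m_sub := by
    rintro _ ⟨s, hs, rfl, h⟩
    exact ⟨s, hs, rfl, ft9_Sm_Bd h⟩
  zero_mem := ⟨0, (ft9_H 𝒰 D).zero_mem, rfl, fun ε hε => Eventually.of_forall fun j =>
    ⟨fun z _ => by show ‖(0 : ℂ)‖ ≤ _; simp [hε.le], fun z _ => by
      show ‖(0 : ℂ)‖ ≤ _; simp [hε.le]⟩⟩
  add_mem := by
    rintro _ _ ⟨s, hs, rfl, h1⟩ ⟨t, ht, rfl, h2⟩
    exact ⟨s + t, (ft9_H 𝒰 D).add_mem hs ht, rfl, ft9_Sm_add h1 h2⟩
  mul_mem := by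
    rintro _ _ ⟨s, hs, rfl, h1⟩ ⟨t, ht, rfl, h2⟩
    exact ⟨s * t, (ft9_H 𝒰 D).mul_mem hs ht, rfl, ft9_Bd_mul_Sm h1 h2⟩
  unit := by
    rintro _ ⟨s, hs, rfl, h1⟩
    obtain ⟨t, ht, h2, h3⟩ := pr_inv 𝒰 D hD s hs h1
    refine ⟨ft9_cl 𝒰 D t ht, ⟨t, ht, rfl, h2⟩, ?_⟩
    have hone : Hol 𝒰 D (1 : Pr n) := (ft9_H 𝒰 D).one_mem
    have : (1 : ft9_O 𝒰 D) = ft9_cl 𝒰 D 1 hone := rfl
    rw [this, ft9_cl_add, ft9_cl_add, ft9_cl_mul, ft9_cl_eq]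
    exact h3
  t_zero := by
    have hone : Hol 𝒰 D (1 : Pr n) := (ft9_H 𝒰 D).one_mem
    have : (1 : ft9_O 𝒰 D) = ft9_cl 𝒰 D 1 hone := rfl
    rw [this]
    refine ft9_cl_congr ?_
    refine Prod.ext ?_ ?_
    · funext j z
      show 1 * ((τ 0 j : ℝ) : ℂ) = 1
      rw [(ft9_tau_zero hS j).1]; simp
    · funext j z
      show 1 * ((τ' 0 j : ℝ) : ℂ) = 1
      rw [(ft9_tau_zero hS j).2]; simp
  t_add := by
    intro g h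
    rw [ft9_cl_mul]
    refine ft9_cl_congr ?_
    refine Prod.ext ?_ ?_
    · funext j z
      show 1 * ((τ (g + h) j : ℝ) : ℂ) = (1 * ((τ g j : ℝ) : ℂ)) * (1 * ((τ h j : ℝ) : ℂ))
      rw [hS.add]; push_cast; ring
    · funext j z
      show 1 * ((τ' (g + h) j : ℝ) : ℂ) = (1 * ((τ' g j : ℝ) : ℂ)) * (1 * ((τ' h j : ℝ) : ℂ))
      rw [hS.add']; push_cast; ring
  total := by
    have key : ∀ g : Γ, Tendsto (τ (-g)) 𝒰 atTop → Tendsto (τ' (-g)) 𝒰 atTop →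
        Sm 𝒰 D (sc 1 (τ g) (τ' g)) 1 1 := by
      intro g h1 h2 ε hε
      filter_upwards [h1.eventually_ge_atTop (1 / ε), h2.eventually_ge_atTop (1 / ε)] with j h3 h4
      have h5 := ft9_tau_neg hS g j
      have h6 := hS.pos g j
      have h7 := hS.pos' g j
      have hfin : ∀ a b : ℝ, 0 < a → a * b = 1 → 1 / ε ≤ b → a ≤ ε := by
        intro a b ha hab hb
        have h8 : a * (1 / ε) ≤ a * b := mul_le_mul_of_nonneg_left hb ha.le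
        rw [hab, mul_one_div, div_le_one hε] at h8
        exact h8
      refine ⟨fun z _ => ?_, fun z _ => ?_⟩
      · show ‖1 * ((τ g j : ℝ) : ℂ)‖ ≤ ε * 1
        rw [one_mul, Complex.norm_real, Real.norm_of_nonneg h6.le, mul_one]
        exact hfin _ _ h6 h5.1 h3
      · show ‖1 * ((τ' g j : ℝ) : ℂ)‖ ≤ ε * 1
        rw [one_mul, Complex.norm_real, Real.norm_of_nonneg h7.le, mul_one]
        exact hfin _ _ h7 h5.2 h4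
    intro g hg
    rcases hS.dich g hg with ⟨h1, h2⟩ | ⟨h1, h2⟩
    · right
      refine ft9_mem_m.mpr (key (-g) ?_ ?_)
      · rwa [neg_neg]
      · rwa [neg_neg]
    · left
      exact ft9_mem_m.mpr (key g h1 h2)

theorem ft9_t (𝒰 : Ultrafilter ℕ) (D : Dm n) (hD : DmOK 𝒰 D) (hS : Scl 𝒰 τ τ') (g : Γ) :
    (ft9_S 𝒰 D hD hS).t g = ft9_cl 𝒰 D (sc 1 (τ g) (τ' g)) (ft9_hol_sc 𝒰 D 1 _ _) := rfl

theorem ft9_Sm_iff (𝒰 : Ultrafilter ℕ) (D : Dm n) (hD : DmOK 𝒰 D) (hS : Scl 𝒰 τ τ')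
    (s : Pr n) (hs : Hol 𝒰 D s) (g : Γ) :
    (ft9_S 𝒰 D hD hS).Sm (ft9_cl 𝒰 D s hs) g ↔ Sm 𝒰 D s (τ g) (τ' g) := by
  show ft9_cl 𝒰 D s hs * ft9_cl 𝒰 D (sc 1 (τ (-g)) (τ' (-g))) (ft9_hol_sc 𝒰 D 1 _ _)
    ∈ ft9_m 𝒰 D ↔ _
  rw [ft9_cl_mul, ft9_mem_m, ft9_Sm_scale hS]

theorem ft9_LT_of (𝒰 : Ultrafilter ℕ) (D : Dm n) (hD : DmOK 𝒰 D) (hS : Scl 𝒰 τ τ')
    (s : Pr n) (hs : Hol 𝒰 D s) (c : ℂ) (hc : c ≠ 0) (g : Γ) (h : LT 𝒰 D s c (τ g) (τ' g)) :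
    (ft9_S 𝒰 D hD hS).LT (ft9_cl 𝒰 D s hs) c g := by
  have h1 : Hol 𝒰 D (s - sc c (τ g) (τ' g)) :=
    (ft9_H 𝒰 D).sub_mem hs (ft9_hol_sc 𝒰 D c _ _)
  have h2 : Sm 𝒰 D ((s - sc c (τ g) (τ' g)) * sc 1 (τ (-g)) (τ' (-g))) 1 1 :=
    (ft9_Sm_scale hS _ g).mpr h
  have h3 : Hol 𝒰 D ((s - sc c (τ g) (τ' g)) * sc 1 (τ (-g)) (τ' (-g))) :=
    (ft9_H 𝒰 D).mul_mem h1 (ft9_hol_sc 𝒰 D 1 _ _)
  have h4 : Hol 𝒰 D (cst c⁻¹ * ((s - sc c (τ g) (τ' g)) * sc 1 (τ (-g)) (τ' (-g)))) :=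
    (ft9_H 𝒰 D).mul_mem ((ft9_H 𝒰 D).algebraMap_mem c⁻¹) h3
  have h5 : Sm 𝒰 D (cst c⁻¹ * ((s - sc c (τ g) (τ' g)) * sc 1 (τ (-g)) (τ' (-g)))) 1 1 :=
    ft9_Bd_mul_Sm ⟨‖c⁻¹‖, norm_nonneg _, Eventually.of_forall fun j =>
      ⟨fun _ _ => le_rfl, fun _ _ => le_rfl⟩⟩ h2
  refine ⟨hc, ft9_cl 𝒰 D _ h4, ft9_mem_m.mpr h5, ?_⟩
  have hone : Hol 𝒰 D (1 : Pr n) := (ft9_H 𝒰 D).one_mem
  have h6 : (1 : ft9_O 𝒰 D) = ft9_cl 𝒰 D 1 hone := rfl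
  rw [ft9_t, ft9_cl_const, h6, ft9_cl_add, ft9_cl_mul, ft9_cl_mul]
  refine ft9_cl_congr ?_
  refine Prod.ext ?_ ?_
  · funext j z
    show s.1 j z = (c * (1 * ((τ g j : ℝ) : ℂ))) * (1 + c⁻¹ * ((s.1 j z - c * ((τ g j : ℝ) : ℂ)) *
      (1 * ((τ (-g) j : ℝ) : ℂ))))
    have h7 : ((τ g j : ℝ) : ℂ) * ((τ (-g) j : ℝ) : ℂ) = 1 := by
      rw [← Complex.ofReal_mul, (ft9_tau_neg hS g j).1, Complex.ofReal_one]
    have h8 : c * c⁻¹ = 1 := mul_inv_cancel₀ hc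
    calc s.1 j z = c * ((τ g j : ℝ) : ℂ) + 1 * 1 * (s.1 j z - c * ((τ g j : ℝ) : ℂ)) := by ring
      _ = c * ((τ g j : ℝ) : ℂ) + (c * c⁻¹) * (((τ g j : ℝ) : ℂ) * ((τ (-g) j : ℝ) : ℂ)) *
          (s.1 j z - c * ((τ g j : ℝ) : ℂ)) := by rw [h7, h8]
      _ = _ := by ring
  · funext j z
    show s.2 j z = (c * (1 * ((τ' g j : ℝ) : ℂ))) * (1 + c⁻¹ * ((s.2 j z - c * ((τ' g j : ℝ) : ℂ)) *
      (1 * ((τ' (-g) j : ℝ) : ℂ))))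
    have h7 : ((τ' g j : ℝ) : ℂ) * ((τ' (-g) j : ℝ) : ℂ) = 1 := by
      rw [← Complex.ofReal_mul, (ft9_tau_neg hS g j).2, Complex.ofReal_one]
    have h8 : c * c⁻¹ = 1 := mul_inv_cancel₀ hc
    calc s.2 j z = c * ((τ' g j : ℝ) : ℂ) + 1 * 1 * (s.2 j z - c * ((τ' g j : ℝ) : ℂ)) := by ring
      _ = c * ((τ' g j : ℝ) : ℂ) + (c * c⁻¹) * (((τ' g j : ℝ) : ℂ) * ((τ' (-g) j : ℝ) : ℂ)) *
          (s.2 j z - c * ((τ' g j : ℝ) : ℂ)) := by rw [h7, h8]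
      _ = _ := by ring

theorem ft9_of_LT (𝒰 : Ultrafilter ℕ) (D : Dm n) (hD : DmOK 𝒰 D) (hS : Scl 𝒰 τ τ')
    (s : Pr n) (hs : Hol 𝒰 D s) (c : ℂ) (g : Γ)
    (h : (ft9_S 𝒰 D hD hS).LT (ft9_cl 𝒰 D s hs) c g) : LT 𝒰 D s c (τ g) (τ' g) := by
  obtain ⟨_, μ, hμ, h1⟩ := h
  obtain ⟨t, ht, rfl, h2⟩ := hμ
  have h3 : Hol 𝒰 D (s - sc c (τ g) (τ' g)) :=
    (ft9_H 𝒰 D).sub_mem hs (ft9_hol_sc 𝒰 D c _ _)
  show Sm 𝒰 D (s - sc c (τ g) (τ' g)) (τ g) (τ' g)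
  rw [← ft9_Sm_iff 𝒰 D hD hS _ h3]
  have h4 : ft9_cl 𝒰 D (sc c (τ g) (τ' g)) (ft9_hol_sc 𝒰 D c _ _) =
      algebraMap ℂ (ft9_O 𝒰 D) c * (ft9_S 𝒰 D hD hS).t g := by
    rw [ft9_t, ft9_cl_const, ft9_cl_mul]
    refine ft9_cl_congr ?_
    refine Prod.ext ?_ ?_
    · funext j z
      show c * ((τ g j : ℝ) : ℂ) = c * (1 * ((τ g j : ℝ) : ℂ))
      rw [one_mul]
    · funext j z
      show c * ((τ' g j : ℝ) : ℂ) = c * (1 * ((τ' g j : ℝ) : ℂ))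
      rw [one_mul]
  rw [← ft9_cl_sub hs (ft9_hol_sc 𝒰 D c _ _), h1, h4]
  unfold Pool.Agent.H65.FT.Scale.Sm
  have h5 : (algebraMap ℂ (ft9_O 𝒰 D) c * (ft9_S 𝒰 D hD hS).t g * (1 + ft9_cl 𝒰 D t ht) -
      algebraMap ℂ (ft9_O 𝒰 D) c * (ft9_S 𝒰 D hD hS).t g) * (ft9_S 𝒰 D hD hS).t (-g) =
      algebraMap ℂ (ft9_O 𝒰 D) c * ft9_cl 𝒰 D t ht := by
    calc _ = algebraMap ℂ (ft9_O 𝒰 D) c * ft9_cl 𝒰 D t ht *
          ((ft9_S 𝒰 D hD hS).t g * (ft9_S 𝒰 D hD hS).t (-g)) := by ring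
      _ = _ := by rw [(ft9_S 𝒰 D hD hS).t_neg, mul_one]
  rw [h5]
  exact (ft9_S 𝒰 D hD hS).mul_mem ((ft9_S 𝒰 D hD hS).alg_mem c) ⟨t, ht, rfl, h2⟩

/-- `LL` of the scales means that the quotient is infinitesimal. -/
theorem ft9_LL (𝒰 : Ultrafilter ℕ) (D : Dm n) (hD : DmOK 𝒰 D) (hS : Scl 𝒰 τ τ') (g h : Γ) :
    (ft9_S 𝒰 D hD hS).t (h - g) ∈ (ft9_S 𝒰 D hD hS).m ↔ LL 𝒰 (τ h) (τ g) := by
  constructor
  · intro h1 M hM
    have h2 : Sm 𝒰 D (sc 1 (τ (h - g)) (τ' (h - g))) 1 1 := ft9_mem_m.mp h1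
    filter_upwards [h2 (1 / M) (by positivity), hD.ne] with j h3 h4
    obtain ⟨z, hz⟩ := h4.1
    have h5 : ‖1 * ((τ (h - g) j : ℝ) : ℂ)‖ ≤ 1 / M * 1 := h3.1 z hz
    rw [one_mul, Complex.norm_real, Real.norm_of_nonneg (hS.pos _ _).le, mul_one,
      le_div_iff₀ hM] at h5
    have h6 : τ h j = τ g j * τ (h - g) j := by rw [← hS.add]; congr 1; abel
    rw [h6]
    have := hS.pos g j
    nlinarith
  · intro h1
    by_cases h0 : h - g = 0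
    · exfalso
      have h2 : h = g := sub_eq_zero.mp h0
      have h3 := h1 2 (by norm_num)
      obtain ⟨j, hj⟩ := h3.exists
      rw [h2] at hj
      have := hS.pos g j
      linarith
    · rcases hS.dich (h - g) h0 with ⟨h2, _⟩ | ⟨h2, h3⟩
      · exfalso
        obtain ⟨j, hj, hj'⟩ := ((h1 1 one_pos).and (h2.eventually_ge_atTop 2)).exists
        have h6 : τ h j = τ g j * τ (h - g) j := by rw [← hS.add]; congr 1; abel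
        have := hS.pos g j
        rw [h6] at hj
        nlinarith
      · rcases (ft9_S 𝒰 D hD hS).total (h - g) h0 with h4 | h4
        · exact h4
        · exfalso
          have h5 : Sm 𝒰 D (sc 1 (τ (-(h - g))) (τ' (-(h - g)))) 1 1 := ft9_mem_m.mp h4
          obtain ⟨j, hj, hj2, hj3⟩ := ((h5 1 one_pos).and (hD.ne.and
            (h2.eventually_ge_atTop 2))).exists
          obtain ⟨z, hz⟩ := hj2.1
          have h6 : ‖1 * ((τ (-(h - g)) j : ℝ) : ℂ)‖ ≤ 1 * 1 := hj.1 z hz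
          rw [one_mul, Complex.norm_real, Real.norm_of_nonneg (hS.pos _ _).le] at h6
          linarith

end scales

/-! ### weakly decreasing sequences -/

theorem ft9_complete' {A : Type*} [CommRing A] [Algebra ℂ A] {Γ : Type*} [AddCommGroup Γ]
    (S : Pool.Agent.H65.FT.Scale A Γ)
    (sat : ∀ (a : ℕ → A) (g : ℕ → Γ), (∀ i, S.t (g (i + 1) - g i) ∈ S.m) →
      (∀ i, S.Sm (a (i + 1) - a i) (g i)) → ∃ x, ∀ i, S.Sm (x - a i) (g i))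
    (hensel : ∀ f : Polynomial A, f.coeff 1 = 1 → (∀ l, l ≠ 1 → f.coeff l ∈ S.m) →
      ∃ w ∈ S.m, f.eval w = 0)
    (F : Subring A) (hF : S.Good F)
    (hmax : ∀ F' : Subring A, F ≤ F' → S.Good F' → F' ≤ F)
    (a : ℕ → A) (ha : ∀ i, a i ∈ F) (g : ℕ → Γ)
    (h : ∀ i, (a (i + 1) = a i ∧ g (i + 1) = g i) ∨
      (S.t (g (i + 1) - g i) ∈ S.m ∧ S.Sm (a (i + 1) - a i) (g i))) :
    ∃ x ∈ F, ∀ i, S.Sm (x - a i) (g i) := by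
  have hz : ∀ γ, S.Sm (0 : A) γ := by
    intro γ
    unfold Pool.Agent.H65.FT.Scale.Sm
    rw [zero_mul]; exact S.zero_mem
  have hle : ∀ i k, S.t (g (i + k) - g i) ∈ S.O := by
    intro i k
    induction k with
    | zero => simp [S.t_zero]
    | succ k ih =>
      have h1 : S.t (g (i + (k + 1)) - g i) =
          S.t (g (i + k + 1) - g (i + k)) * S.t (g (i + k) - g i) := by
        rw [← S.t_add]; congr 1; rw [← add_assoc]; abel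
      rw [h1]
      refine S.O.mul_mem ?_ ih
      rcases h (i + k) with ⟨_, h2⟩ | ⟨h2, _⟩
      · rw [h2, sub_self, S.t_zero]; exact S.O.one_mem
      · exact S.m_sub h2
  have hsm : ∀ i k, S.Sm (a (i + k) - a i) (g i) := by
    intro i k
    induction k with
    | zero => simpa using hz (g i)
    | succ k ih =>
      have h1 : a (i + (k + 1)) - a i = (a (i + k + 1) - a (i + k)) + (a (i + k) - a i) := by
        rw [← add_assoc]; ring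
      rw [h1]
      refine Pool.Agent.H65.FT.Scale.Sm.add S ?_ ih
      rcases h (i + k) with ⟨h2, _⟩ | ⟨_, h2⟩
      · rw [h2, sub_self]; exact hz _
      · exact Pool.Agent.H65.FT.Scale.Sm.of_le S h2 (hle i k)
  have hle' : ∀ i j, i ≤ j → S.t (g j - g i) ∈ S.O := by
    intro i j hij
    obtain ⟨k, rfl⟩ := Nat.exists_eq_add_of_le hij
    exact hle i k
  have hsm' : ∀ i j, i ≤ j → S.Sm (a j - a i) (g i) := by
    intro i j hij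
    obtain ⟨k, rfl⟩ := Nat.exists_eq_add_of_le hij
    exact hsm i k
  by_cases hfr : ∃ᶠ i in atTop, (S.t (g (i + 1) - g i) ∈ S.m ∧ S.Sm (a (i + 1) - a i) (g i))
  · obtain ⟨φ, hφ, hP⟩ := extraction_of_frequently_atTop hfr
    obtain ⟨x, hxF, hx⟩ := S.complete sat hensel F hF hmax (fun k => a (φ k)) (fun k => ha _)
      (fun k => g (φ k)) (fun k => by
        have h1 : S.t (g (φ (k + 1)) - g (φ k)) = S.t (g (φ (k + 1)) - g (φ k + 1)) *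
            S.t (g (φ k + 1) - g (φ k)) := by
          rw [← S.t_add]; congr 1; abel
        rw [h1]
        exact S.mul_mem (hle' _ _ (hφ (Nat.lt_succ_self k))) (hP k).1)
      (fun k => hsm' _ _ (hφ (Nat.lt_succ_self k)).le)
    refine ⟨x, hxF, fun i => ?_⟩
    have hi : i ≤ φ i := hφ.id_le i
    have h1 : x - a i = (x - a (φ i)) + (a (φ i) - a i) := by ring
    rw [h1]
    exact Pool.Agent.H65.FT.Scale.Sm.add S
      (Pool.Agent.H65.FT.Scale.Sm.of_le S (hx i) (hle' _ _ hi)) (hsm' _ _ hi)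
  · rw [not_frequently, eventually_atTop] at hfr
    obtain ⟨N, hN⟩ := hfr
    have hconst : ∀ k, a (N + k) = a N := by
      intro k
      induction k with
      | zero => rfl
      | succ k ih =>
        rcases h (N + k) with ⟨h1, _⟩ | h1
        · rw [← add_assoc, h1, ih]
        · exact absurd h1 (hN (N + k) (by omega))
    refine ⟨a N, ha N, fun i => ?_⟩
    rcases le_total i N with h1 | h1
    · exact hsm' _ _ h1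
    · obtain ⟨k, rfl⟩ := Nat.exists_eq_add_of_le h1
      rw [hconst k, sub_self]; exact hz _

/-! ### the theorem -/

theorem exists_max (𝒰 : Ultrafilter ℕ) (h𝒰 : (𝒰 : Filter ℕ) ≤ atTop) (D : Dm n)
    (hD : DmOK 𝒰 D) {Γ : Type} [AddCommGroup Γ] [Module ℚ Γ]
    (τ τ' : Γ → ℕ → ℝ) (hS : Scl 𝒰 τ τ') (𝓢 : Subring (Pr n))
    (h𝓢 : GoodRing 𝒰 D τ τ' 𝓢) :
    ∃ 𝓕 : Subring (Pr n), 𝓢 ≤ 𝓕 ∧ GoodRing 𝒰 D τ τ' 𝓕 ∧ Sph 𝒰 D τ τ' 𝓕 := by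
  classical
  set S := ft9_S 𝒰 D hD hS with hSdef
  -- saturation
  have sat : ∀ (a : ℕ → ft9_O 𝒰 D) (g : ℕ → Γ), (∀ i, S.t (g (i + 1) - g i) ∈ S.m) →
      (∀ i, S.Sm (a (i + 1) - a i) (g i)) → ∃ x, ∀ i, S.Sm (x - a i) (g i) := by
    intro a g hg hag
    choose s hs hsa using fun i => ft9_cl_surj 𝒰 D (a i)
    obtain ⟨x, hx, h1⟩ := pr_sat 𝒰 h𝒰 D hD τ τ' hS s g hs
      (fun i => (ft9_LL 𝒰 D hD hS _ _).mp (hg i)) (fun i => by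
        have h2 := hag i
        rw [← hsa, ← hsa, ft9_cl_sub, ft9_Sm_iff] at h2
        exact h2)
    refine ⟨ft9_cl 𝒰 D x hx, fun i => ?_⟩
    rw [← hsa, ft9_cl_sub, ft9_Sm_iff]
    exact h1 i
  -- Newton
  have hensel : ∀ f : Polynomial (ft9_O 𝒰 D), f.coeff 1 = 1 →
      (∀ l, l ≠ 1 → f.coeff l ∈ S.m) → ∃ w ∈ S.m, f.eval w = 0 := by
    intro f hf1 hf
    have hex : ∀ i : ℕ, ∃ s, ∃ hs : Hol 𝒰 D s,
        ft9_cl 𝒰 D s hs = f.coeff (if i = 0 then 0 else i + 1) ∧ Sm 𝒰 D s 1 1 := by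
      intro i
      have h1 : (if i = 0 then 0 else i + 1) ≠ 1 := by split_ifs <;> omega
      obtain ⟨s, hs, h2, h3⟩ := hf _ h1
      exact ⟨s, hs, h2, h3⟩
    choose ρ hρ hρc hρs using hex
    obtain ⟨w, hw, hw1, hw0⟩ := pr_newton 𝒰 D hD f.natDegree ρ hρ hρs
    refine ⟨ft9_cl 𝒰 D w hw, ft9_mem_m.mpr hw1, ?_⟩
    rw [Polynomial.eval_eq_sum_range' (n := f.natDegree + 2) (by omega),
      Finset.sum_range_succ', Finset.sum_range_succ', hf1]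
    have h0 : f.coeff 0 = ft9_cl 𝒰 D (ρ 0) (hρ 0) := by rw [hρc 0]; simp
    have hsum : ∀ i, f.coeff (i + 1 + 1) * ft9_cl 𝒰 D w hw ^ (i + 1 + 1) =
        Ideal.Quotient.mk (ft9_I 𝒰 D) ((⟨ρ (i + 1), hρ (i + 1)⟩ : ft9_H 𝒰 D) *
          (⟨w, hw⟩ : ft9_H 𝒰 D) ^ (i + 2)) := by
      intro i
      have h1 := hρc (i + 1)
      rw [if_neg (by omega)] at h1
      rw [← h1, map_mul, map_pow]
      rfl
    rw [Finset.sum_congr rfl (fun i _ => hsum i), ← map_sum, h0, zero_add, pow_one, one_mul,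
      pow_zero, mul_one]
    show Ideal.Quotient.mk (ft9_I 𝒰 D) _ + Ideal.Quotient.mk (ft9_I 𝒰 D) ⟨w, hw⟩ +
      Ideal.Quotient.mk (ft9_I 𝒰 D) ⟨ρ 0, hρ 0⟩ = 0
    rw [← map_add, ← map_add, Ideal.Quotient.eq_zero_iff_mem, ft9_mem_I]
    have h2 : ((∑ i ∈ Finset.range f.natDegree, (⟨ρ (i + 1), hρ (i + 1)⟩ : ft9_H 𝒰 D) *
          (⟨w, hw⟩ : ft9_H 𝒰 D) ^ (i + 2) + ⟨w, hw⟩ + ⟨ρ 0, hρ 0⟩ : ft9_H 𝒰 D) : Pr n) =
        w + ρ 0 + ∑ i ∈ Finset.range f.natDegree, ρ (i + 1) * w ^ (i + 2) := by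
      push_cast
      ring
    rw [h2]
    exact hw0
  -- the image of `𝓢`
  have hhol : ∀ s ∈ 𝓢, Hol 𝒰 D s := fun s hs => (h𝓢.good s hs).1
  set mk : ft9_H 𝒰 D →+* ft9_O 𝒰 D := Ideal.Quotient.mk (ft9_I 𝒰 D) with hmk
  let F0 : Subring (ft9_O 𝒰 D) := (𝓢.comap (ft9_H 𝒰 D).val.toRingHom).map mk
  have hgood0 : S.Good F0 := by
    rintro _ ⟨⟨s, hs⟩, hs', rfl⟩
    have hs'' : s ∈ 𝓢 := hs'
    rcases (h𝓢.good s hs'').2 with h1 | ⟨c, hc, g, h1⟩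
    · left; exact ft9_cl_zero.mpr h1
    · right; exact ⟨c, g, ft9_LT_of 𝒰 D hD hS s hs c hc g h1⟩
  obtain ⟨F, hF0, hF, hmax⟩ := S.exists_max F0 hgood0
  let 𝓕 : Subring (Pr n) := (F.comap mk).map (ft9_H 𝒰 D).val.toRingHom
  have hmem : ∀ s, s ∈ 𝓕 ↔ ∃ hs : Hol 𝒰 D s, ft9_cl 𝒰 D s hs ∈ F := by
    intro s
    constructor
    · rintro ⟨⟨t, ht⟩, ht', rfl⟩
      exact ⟨ht, ht'⟩
    · rintro ⟨hs, h1⟩
      exact ⟨⟨s, hs⟩, h1, rfl⟩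
  have hle : 𝓢 ≤ 𝓕 := by
    intro s hs
    rw [hmem]
    exact ⟨hhol s hs, hF0 ⟨⟨s, hhol s hs⟩, hs, rfl⟩⟩
  refine ⟨𝓕, hle, ⟨?_, fun c => hle (h𝓢.cst c), fun g => ?_⟩, ?_⟩
  · intro s hs
    obtain ⟨hs1, hs2⟩ := (hmem s).mp hs
    refine ⟨hs1, ?_⟩
    rcases hF _ hs2 with h1 | ⟨c, g, h1⟩
    · left; exact ft9_cl_zero.mp h1
    · right; exact ⟨c, h1.1, g, ft9_of_LT 𝒰 D hD hS s hs1 c g h1⟩
  · obtain ⟨t, ht, h1⟩ := h𝓢.mono g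
    exact ⟨t, hle ht, h1⟩
  · intro a g ha h
    have ha' : ∀ i, ∃ hs : Hol 𝒰 D (a i), ft9_cl 𝒰 D (a i) hs ∈ F := fun i => (hmem _).mp (ha i)
    choose hs hsF using ha'
    obtain ⟨x, hxF, hx⟩ := ft9_complete' S sat hensel F hF hmax
      (fun i => ft9_cl 𝒰 D (a i) (hs i)) hsF g (fun i => by
        rcases h i with ⟨h1, h2⟩ | ⟨h1, h2⟩
        · left
          exact ⟨ft9_cl_congr h1, h2⟩
        · right
          refine ⟨(ft9_LL 𝒰 D hD hS _ _).mpr h1, ?_⟩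
          rw [ft9_cl_sub, ft9_Sm_iff]
          exact h2)
    obtain ⟨b, hb, rfl⟩ := ft9_cl_surj 𝒰 D x
    refine ⟨b, (hmem b).mpr ⟨hb, hxF⟩, fun i => ?_⟩
    have h1 := hx i
    rw [ft9_cl_sub, ft9_Sm_iff] at h1
    exact h1

end Pool.Agent.H43.FT
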