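import Pool.Agent.H43.FT.Defs

/-!
Project FT (MP_6e521b_an): adjunction of the rational powers of an element with a leading term.
-/

set_option autoImplicit false

open MvPolynomial Filter Topology Pool.Agent.H77.FB Pool.Agent.H60.FB Pool.Agent.H77.N2

namespace Pool.Agent.H43.FT

open scoped InnerProductSpace

variable {n : ℕ}

/-! ### One-sided versions -/

/-- one-sided version of `Sm` -/
def ft10_S (𝒰 : Ultrafilter ℕ) (C : ℕ → Set (V n)) (f : ℕ → V n → ℂ) (x : ℕ → ℝ) : Prop :=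
  ∀ ε : ℝ, 0 < ε → ∀ᶠ j in (𝒰 : Filter ℕ), ∀ z ∈ C j, ‖f j z‖ ≤ ε * x j

/-- one-sided version of `LT` -/
def ft10_L (𝒰 : Ultrafilter ℕ) (C : ℕ → Set (V n)) (f : ℕ → V n → ℂ) (c : ℂ) (x : ℕ → ℝ) :
    Prop :=
  ft10_S 𝒰 C (fun j z => f j z - c * (x j : ℂ)) x

/-- one-sided version of `Hol` -/
def ft10_H (𝒰 : Ultrafilter ℕ) (C : ℕ → Set (V n)) (pr : V n → V n) (f : ℕ → V n → ℂ) : Prop :=
  ∀ᶠ j in (𝒰 : Filter ℕ), DifferentiableOn ℂ (f j) (C j) ∧ ∀ z ∈ C j, f j (pr z) = f j z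

/-- one-sided equality -/
def ft10_E (𝒰 : Ultrafilter ℕ) (C : ℕ → Set (V n)) (f g : ℕ → V n → ℂ) : Prop :=
  ∀ᶠ j in (𝒰 : Filter ℕ), ∀ z ∈ C j, f j z = g j z

theorem ft10_lt_iff {𝒰 : Ultrafilter ℕ} {D : Dm n} {s : Pr n} {c : ℂ} {x x' : ℕ → ℝ} :
    LT 𝒰 D s c x x' ↔ ft10_L 𝒰 D.C s.1 c x ∧ ft10_L 𝒰 D.C' s.2 c x' := by
  constructor
  · intro h
    exact ⟨fun ε hε => (h ε hε).mono fun j hj => hj.1, fun ε hε => (h ε hε).mono fun j hj => hj.2⟩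
  · intro h ε hε
    filter_upwards [h.1 ε hε, h.2 ε hε] with j h1 h2
    exact ⟨h1, h2⟩

theorem ft10_hol_iff {𝒰 : Ultrafilter ℕ} {D : Dm n} {s : Pr n} :
    Hol 𝒰 D s ↔ ft10_H 𝒰 D.C D.pr s.1 ∧ ft10_H 𝒰 D.C' D.pr s.2 := by
  constructor
  · intro h
    exact ⟨h.mono fun j hj => hj.1, h.mono fun j hj => hj.2⟩
  · intro h
    filter_upwards [h.1, h.2] with j h1 h2
    exact ⟨h1, h2⟩

theorem ft10_nul_iff {𝒰 : Ultrafilter ℕ} {D : Dm n} {s t : Pr n} :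
    Nul 𝒰 D (s - t) ↔ ft10_E 𝒰 D.C s.1 t.1 ∧ ft10_E 𝒰 D.C' s.2 t.2 := by
  constructor
  · intro h
    exact ⟨h.mono fun j hj z hz => sub_eq_zero.1 (hj.1 z hz),
      h.mono fun j hj z hz => sub_eq_zero.1 (hj.2 z hz)⟩
  · intro h
    filter_upwards [h.1, h.2] with j h1 h2
    exact ⟨fun z hz => sub_eq_zero.2 (h1 z hz), fun z hz => sub_eq_zero.2 (h2 z hz)⟩

section One

variable {𝒰 : Ultrafilter ℕ} {C : ℕ → Set (V n)} {pr : V n → V n} {f g : ℕ → V n → ℂ}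
  {x y : ℕ → ℝ} {c d : ℂ}

theorem ft10_L_congr (h : ft10_L 𝒰 C f c x) (he : ft10_E 𝒰 C g f) : ft10_L 𝒰 C g c x := by
  intro ε hε
  filter_upwards [h ε hε, he] with j h1 h2 z hz
  simp only [h2 z hz]
  exact h1 z hz

theorem ft10_H_congr (h : ft10_H 𝒰 C pr f) (hC : ∀ j, ∀ z ∈ C j, pr z ∈ C j)
    (he : ft10_E 𝒰 C g f) : ft10_H 𝒰 C pr g := by
  filter_upwards [h, he] with j h1 h2
  refine ⟨h1.1.congr h2, fun z hz => ?_⟩
  rw [h2 _ (hC j z hz), h2 z hz, h1.2 z hz]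

theorem ft10_H_add (hf : ft10_H 𝒰 C pr f) (hg : ft10_H 𝒰 C pr g) :
    ft10_H 𝒰 C pr (fun j z => f j z + g j z) := by
  filter_upwards [hf, hg] with j h1 h2
  refine ⟨h1.1.add h2.1, fun z hz => ?_⟩
  simp only [h1.2 z hz, h2.2 z hz]

theorem ft10_H_mul (hf : ft10_H 𝒰 C pr f) (hg : ft10_H 𝒰 C pr g) :
    ft10_H 𝒰 C pr (fun j z => f j z * g j z) := by
  filter_upwards [hf, hg] with j h1 h2
  refine ⟨h1.1.mul h2.1, fun z hz => ?_⟩
  simp only [h1.2 z hz, h2.2 z hz]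

theorem ft10_L_mul (hx : ∀ j, 0 < x j) (hy : ∀ j, 0 < y j) (hf : ft10_L 𝒰 C f c x)
    (hg : ft10_L 𝒰 C g d y) :
    ft10_L 𝒰 C (fun j z => f j z * g j z) (c * d) (fun j => x j * y j) := by
  intro ε hε
  set M : ℝ := ‖d‖ + 1 + ‖c‖ with hM
  have hM0 : 0 < M := by positivity
  set η : ℝ := min 1 (ε / M) with hη
  have hη0 : 0 < η := lt_min one_pos (div_pos hε hM0)
  have hη1 : η ≤ 1 := min_le_left _ _
  have hηM : η * M ≤ ε := by
    calc η * M ≤ ε / M * M := mul_le_mul_of_nonneg_right (min_le_right _ _) hM0.le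
      _ = ε := by field_simp
  filter_upwards [hf η hη0, hg η hη0] with j h1 h2 z hz
  have a1 := h1 z hz
  have a2 := h2 z hz
  have hxj := hx j
  have hyj := hy j
  have e : f j z * g j z - c * d * ((x j * y j : ℝ) : ℂ) =
      (f j z - c * (x j : ℂ)) * g j z + c * (x j : ℂ) * (g j z - d * (y j : ℂ)) := by
    push_cast
    ring
  have hgn : ‖g j z‖ ≤ (‖d‖ + 1) * y j := by
    have : g j z = (g j z - d * (y j : ℂ)) + d * (y j : ℂ) := by ring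
    rw [this]
    refine (norm_add_le _ _).trans ?_
    rw [norm_mul, Complex.norm_of_nonneg hyj.le]
    nlinarith
  rw [e]
  refine (norm_add_le _ _).trans ?_
  rw [norm_mul, norm_mul, norm_mul, Complex.norm_of_nonneg hxj.le]
  have b1 : ‖f j z - c * (x j : ℂ)‖ * ‖g j z‖ ≤ η * x j * ((‖d‖ + 1) * y j) :=
    mul_le_mul a1 hgn (norm_nonneg _) (by positivity)
  have b2 : ‖c‖ * x j * ‖g j z - d * (y j : ℂ)‖ ≤ ‖c‖ * x j * (η * y j) := by gcongr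
  have b3 : η * M * (x j * y j) ≤ ε * (x j * y j) := by gcongr
  have b4 : η * M * (x j * y j) = η * x j * ((‖d‖ + 1) * y j) + ‖c‖ * x j * (η * y j) := by
    rw [hM]; ring
  linarith

/-- the dominating term -/
theorem ft10_L_add (hy : ∀ j, 0 < y j) (hf : ft10_L 𝒰 C f c x)
    (hg : ft10_L 𝒰 C g d y) (hyx : LL 𝒰 y x) :
    ft10_L 𝒰 C (fun j z => f j z + g j z) c x := by
  intro ε hε
  filter_upwards [hf (ε / 2) (by positivity), hg 1 one_pos,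
    hyx ((‖d‖ + 1) / (ε / 2)) (by positivity)] with j h1 h2 h3 z hz
  have a1 := h1 z hz
  have a2 := h2 z hz
  have hyj := hy j
  have e : f j z + g j z - c * (x j : ℂ) = (f j z - c * (x j : ℂ)) + g j z := by ring
  have hgn : ‖g j z‖ ≤ (‖d‖ + 1) * y j := by
    have : g j z = (g j z - d * (y j : ℂ)) + d * (y j : ℂ) := by ring
    rw [this]
    refine (norm_add_le _ _).trans ?_
    rw [norm_mul, Complex.norm_of_nonneg hyj.le]
    nlinarith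
  have h4 : (‖d‖ + 1) * y j ≤ ε / 2 * x j := by
    have : (‖d‖ + 1) / (ε / 2) * y j * (ε / 2) ≤ x j * (ε / 2) :=
      mul_le_mul_of_nonneg_right h3 (by positivity)
    have e2 : (‖d‖ + 1) / (ε / 2) * y j * (ε / 2) = (‖d‖ + 1) * y j := by
      field_simp
    linarith
  rw [e]
  refine (norm_add_le _ _).trans ?_
  linarith

/-! ### The powers -/

/-- the power `q` -/
noncomputable def ft10_p (f : ℕ → V n → ℂ) (ξ : ℕ → ℝ) (q : ℚ) (j : ℕ) (z : V n) : ℂ :=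
  ((ξ j ^ (q : ℝ) : ℝ) : ℂ) * (f j z / (ξ j : ℂ)) ^ (q : ℂ)

variable {ξ : ℕ → ℝ}

theorem ft10_near (hξ : ∀ j, 0 < ξ j) (hf : ft10_L 𝒰 C f 1 ξ) (δ : ℝ) (hδ : 0 < δ) :
    ∀ᶠ j in (𝒰 : Filter ℕ), ∀ z ∈ C j, ‖f j z / (ξ j : ℂ) - 1‖ ≤ δ := by
  filter_upwards [hf δ hδ] with j h1 z hz
  have a1 := h1 z hz
  have h := hξ j
  have h0 : (ξ j : ℂ) ≠ 0 := by exact_mod_cast h.ne'
  have e : f j z / (ξ j : ℂ) - 1 = (f j z - 1 * (ξ j : ℂ)) / (ξ j : ℂ) := by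
    field_simp
  rw [e, norm_div, Complex.norm_of_nonneg h.le, div_le_iff₀ h]
  exact a1

theorem ft10_slit {w : ℂ} (h : ‖w - 1‖ ≤ 1 / 2) : w ∈ Complex.slitPlane := by
  left
  have h1 : |(w - 1).re| ≤ ‖w - 1‖ := Complex.abs_re_le_norm _
  have h2 := (abs_le.1 (h1.trans h)).1
  simp at h2
  linarith

theorem ft10_p_L (hξ : ∀ j, 0 < ξ j) (hf : ft10_L 𝒰 C f 1 ξ) (q : ℚ) :
    ft10_L 𝒰 C (ft10_p f ξ q) 1 (fun j => ξ j ^ (q : ℝ)) := by
  intro ε hε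
  have hc : ContinuousAt (fun w : ℂ => w ^ (q : ℂ)) 1 := by
    apply ContinuousAt.cpow continuousAt_id continuousAt_const
    exact Complex.one_mem_slitPlane
  obtain ⟨δ, hδ, h⟩ := Metric.continuousAt_iff.1 hc ε hε
  filter_upwards [ft10_near hξ hf (δ / 2) (by positivity)] with j h1 z hz
  have a1 := h1 z hz
  have a2 : dist ((f j z / (ξ j : ℂ)) ^ (q : ℂ)) ((1 : ℂ) ^ (q : ℂ)) < ε := by
    apply h
    rw [dist_eq_norm]
    linarith
  rw [dist_eq_norm, Complex.one_cpow] at a2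
  have h3 : 0 < ξ j ^ (q : ℝ) := Real.rpow_pos_of_pos (hξ j) _
  have e : ft10_p f ξ q j z - 1 * ((ξ j ^ (q : ℝ) : ℝ) : ℂ) =
      ((ξ j ^ (q : ℝ) : ℝ) : ℂ) * ((f j z / (ξ j : ℂ)) ^ (q : ℂ) - 1) := by
    rw [ft10_p]; ring
  rw [e, norm_mul, Complex.norm_of_nonneg h3.le, mul_comm]
  exact mul_le_mul_of_nonneg_right a2.le h3.le

theorem ft10_p_H (hξ : ∀ j, 0 < ξ j) (hf : ft10_L 𝒰 C f 1 ξ) (hH : ft10_H 𝒰 C pr f) (q : ℚ) :
    ft10_H 𝒰 C pr (ft10_p f ξ q) := by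
  filter_upwards [ft10_near hξ hf (1 / 2) (by norm_num), hH] with j h1 h2
  refine ⟨?_, fun z hz => ?_⟩
  · unfold ft10_p
    refine DifferentiableOn.const_mul ?_ _
    have hd : DifferentiableOn ℂ (fun z => f j z / (ξ j : ℂ)) (C j) := by
      simp only [div_eq_mul_inv]
      exact h2.1.mul_const _
    refine DifferentiableOn.cpow hd (differentiableOn_const _) ?_
    intro z hz
    exact ft10_slit (h1 z hz)
  · simp only [ft10_p, h2.2 z hz]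

theorem ft10_p_add (hξ : ∀ j, 0 < ξ j) (hf : ft10_L 𝒰 C f 1 ξ) (q r : ℚ) :
    ft10_E 𝒰 C (ft10_p f ξ (q + r)) (fun j z => ft10_p f ξ q j z * ft10_p f ξ r j z) := by
  filter_upwards [ft10_near hξ hf (1 / 2) (by norm_num)] with j h1 z hz
  have h0 : f j z / (ξ j : ℂ) ≠ 0 := Complex.slitPlane_ne_zero (ft10_slit (h1 z hz))
  simp only [ft10_p]
  push_cast
  rw [Complex.cpow_add _ _ h0, Real.rpow_add (hξ j)]
  push_cast
  ring

theorem ft10_p_zero (f : ℕ → V n → ℂ) (ξ : ℕ → ℝ) (j : ℕ) (z : V n) :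
    ft10_p f ξ 0 j z = 1 := by
  simp [ft10_p]

theorem ft10_p_one (f : ℕ → V n → ℂ) (hξ : ∀ j, 0 < ξ j) (j : ℕ) (z : V n) :
    ft10_p f ξ 1 j z = f j z := by
  have h0 : (ξ j : ℂ) ≠ 0 := by exact_mod_cast (hξ j).ne'
  simp only [ft10_p, Rat.cast_one, Real.rpow_one, Complex.cpow_one]
  field_simp

end One

/-! ### Two-sided versions -/

theorem ft10_lt_congr {𝒰 : Ultrafilter ℕ} {D : Dm n} {s t : Pr n} {c : ℂ} {x x' : ℕ → ℝ}
    (h : LT 𝒰 D t c x x') (he : Nul 𝒰 D (s - t)) : LT 𝒰 D s c x x' := by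
  rw [ft10_lt_iff] at h ⊢
  rw [ft10_nul_iff] at he
  exact ⟨ft10_L_congr h.1 he.1, ft10_L_congr h.2 he.2⟩

theorem ft10_hol_congr {𝒰 : Ultrafilter ℕ} {D : Dm n} (hD : DmOK 𝒰 D) {s t : Pr n}
    (h : Hol 𝒰 D t) (he : Nul 𝒰 D (s - t)) : Hol 𝒰 D s := by
  rw [ft10_hol_iff] at h ⊢
  rw [ft10_nul_iff] at he
  exact ⟨ft10_H_congr h.1 hD.maps he.1, ft10_H_congr h.2 hD.maps' he.2⟩

theorem ft10_hol_add {𝒰 : Ultrafilter ℕ} {D : Dm n} {s t : Pr n}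
    (hs : Hol 𝒰 D s) (ht : Hol 𝒰 D t) : Hol 𝒰 D (s + t) := by
  rw [ft10_hol_iff] at hs ht ⊢
  exact ⟨ft10_H_add hs.1 ht.1, ft10_H_add hs.2 ht.2⟩

theorem ft10_hol_mul {𝒰 : Ultrafilter ℕ} {D : Dm n} {s t : Pr n}
    (hs : Hol 𝒰 D s) (ht : Hol 𝒰 D t) : Hol 𝒰 D (s * t) := by
  rw [ft10_hol_iff] at hs ht ⊢
  exact ⟨ft10_H_mul hs.1 ht.1, ft10_H_mul hs.2 ht.2⟩

theorem ft10_hol_zero {𝒰 : Ultrafilter ℕ} {D : Dm n} : Hol 𝒰 D (0 : Pr n) := by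
  refine Eventually.of_forall fun j => ⟨⟨?_, fun _ _ => rfl⟩, ⟨?_, fun _ _ => rfl⟩⟩
  · exact differentiableOn_const (c := (0 : ℂ))
  · exact differentiableOn_const (c := (0 : ℂ))

theorem ft10_lt_mul {𝒰 : Ultrafilter ℕ} {D : Dm n} {s t : Pr n} {c d : ℂ}
    {x x' y y' : ℕ → ℝ} (hx : ∀ j, 0 < x j) (hx' : ∀ j, 0 < x' j) (hy : ∀ j, 0 < y j)
    (hy' : ∀ j, 0 < y' j) (hs : LT 𝒰 D s c x x') (ht : LT 𝒰 D t d y y') :
    LT 𝒰 D (s * t) (c * d) (fun j => x j * y j) (fun j => x' j * y' j) := by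
  rw [ft10_lt_iff] at hs ht ⊢
  exact ⟨ft10_L_mul hx hy hs.1 ht.1, ft10_L_mul hx' hy' hs.2 ht.2⟩

theorem ft10_lt_add {𝒰 : Ultrafilter ℕ} {D : Dm n} {s t : Pr n} {c d : ℂ}
    {x x' y y' : ℕ → ℝ} (hy : ∀ j, 0 < y j) (hy' : ∀ j, 0 < y' j)
    (hs : LT 𝒰 D s c x x') (ht : LT 𝒰 D t d y y') (h : LL 𝒰 y x) (h' : LL 𝒰 y' x') :
    LT 𝒰 D (s + t) c x x' := by
  rw [ft10_lt_iff] at hs ht ⊢
  exact ⟨ft10_L_add hy hs.1 ht.1 h, ft10_L_add hy' hs.2 ht.2 h'⟩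

/-- two different exponents -/
theorem ft10_dich {𝒰 : Ultrafilter ℕ} {Λ : Type} [AddCommGroup Λ] [Module ℚ Λ]
    {σ σ' : Λ → ℕ → ℝ} (hS : Scl 𝒰 σ σ') {g h : Λ} (hgh : g ≠ h) :
    (LL 𝒰 (σ h) (σ g) ∧ LL 𝒰 (σ' h) (σ' g)) ∨ (LL 𝒰 (σ g) (σ h) ∧ LL 𝒰 (σ' g) (σ' h)) := by
  have key : ∀ {a b : Λ} {ρ : Λ → ℕ → ℝ}, (∀ g j, 0 < ρ g j) →
      (∀ g h j, ρ (g + h) j = ρ g j * ρ h j) → Tendsto (ρ (a - b)) 𝒰 atTop →
      LL 𝒰 (ρ b) (ρ a) := by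
    intro a b ρ hpos hadd ht m hm
    filter_upwards [ht.eventually_ge_atTop m] with j hj
    have e : ρ a j = ρ (a - b) j * ρ b j := by rw [← hadd, sub_add_cancel]
    rw [e]
    exact mul_le_mul_of_nonneg_right hj (hpos _ _).le
  rcases hS.dich (g - h) (sub_ne_zero.2 hgh) with h1 | h1
  · exact Or.inl ⟨key hS.pos hS.add h1.1, key hS.pos' hS.add' h1.2⟩
  · rw [neg_sub] at h1
    exact Or.inr ⟨key hS.pos hS.add h1.1, key hS.pos' hS.add' h1.2⟩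

/-- the ideal of the null pairs -/
def ft10_I (𝒰 : Ultrafilter ℕ) (D : Dm n) : Ideal (Pr n) where
  carrier := {s | Nul 𝒰 D s}
  add_mem' := by
    intro s t hs ht
    filter_upwards [hs, ht] with j h1 h2
    refine ⟨fun z hz => ?_, fun z hz => ?_⟩
    · have : (s + t).1 j z = s.1 j z + t.1 j z := rfl
      rw [this, h1.1 z hz, h2.1 z hz, add_zero]
    · have : (s + t).2 j z = s.2 j z + t.2 j z := rfl
      rw [this, h1.2 z hz, h2.2 z hz, add_zero]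
  zero_mem' := Eventually.of_forall fun j => ⟨fun _ _ => rfl, fun _ _ => rfl⟩
  smul_mem' := by
    intro c s hs
    filter_upwards [hs] with j h1
    refine ⟨fun z hz => ?_, fun z hz => ?_⟩
    · have : (c • s).1 j z = c.1 j z * s.1 j z := rfl
      rw [this, h1.1 z hz, mul_zero]
    · have : (c • s).2 j z = c.2 j z * s.2 j z := rfl
      rw [this, h1.2 z hz, mul_zero]

theorem ft10_mem_I {𝒰 : Ultrafilter ℕ} {D : Dm n} {s : Pr n} :
    s ∈ ft10_I 𝒰 D ↔ Nul 𝒰 D s := Iff.rfl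

/-- the powers of a pair -/
noncomputable def ft10_P (u : Pr n) (ξ ξ' : ℕ → ℝ) (q : ℚ) : Pr n :=
  (ft10_p u.1 ξ q, ft10_p u.2 ξ' q)

set_option linter.unusedVariables false in
/-- adjunction of the rational powers -/
theorem adj_pow (𝒰 : Ultrafilter ℕ) (h𝒰 : (𝒰 : Filter ℕ) ≤ atTop) (D : Dm n)
    (hD : DmOK 𝒰 D) {Γ : Type} [AddCommGroup Γ] [Module ℚ Γ] (τ τ' : Γ → ℕ → ℝ)
    (ξ ξ' : ℕ → ℝ) (hξ0 : ∀ j, 0 < ξ j ∧ 0 < ξ' j)
    (hS : Scl 𝒰 (ext τ ξ) (ext τ' ξ')) (𝓕 : Subring (Pr n)) (h𝓕 : GoodRing 𝒰 D τ τ' 𝓕)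
    (u : Pr n) (hu : Hol 𝒰 D u) (hu1 : LT 𝒰 D u 1 ξ ξ') :
    ∃ 𝓢 : Subring (Pr n), 𝓕 ≤ 𝓢 ∧ u ∈ 𝓢 ∧ GoodRing 𝒰 D (ext τ ξ) (ext τ' ξ') 𝓢 := by
  have hξ : ∀ j, 0 < ξ j := fun j => (hξ0 j).1
  have hξ' : ∀ j, 0 < ξ' j := fun j => (hξ0 j).2
  have hu2 := ft10_lt_iff.1 hu1
  have hu3 := ft10_hol_iff.1 hu
  -- the scales of `Γ` are positive
  have hτ : ∀ g j, 0 < τ g j := fun g j => by
    have h := hS.pos (g, 0) j
    simpa [ext] using h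
  have hτ' : ∀ g j, 0 < τ' g j := fun g j => by
    have h := hS.pos' (g, 0) j
    simpa [ext] using h
  have hPH : ∀ q, Hol 𝒰 D (ft10_P u ξ ξ' q) := fun q =>
    ft10_hol_iff.2 ⟨ft10_p_H hξ hu2.1 hu3.1 q, ft10_p_H hξ' hu2.2 hu3.2 q⟩
  have hPL : ∀ q : ℚ, LT 𝒰 D (ft10_P u ξ ξ' q) 1 (fun j => ξ j ^ (q : ℝ))
      (fun j => ξ' j ^ (q : ℝ)) := fun q =>
    ft10_lt_iff.2 ⟨ft10_p_L hξ hu2.1 q, ft10_p_L hξ' hu2.2 q⟩
  have hPadd : ∀ q r, Nul 𝒰 D (ft10_P u ξ ξ' (q + r) - ft10_P u ξ ξ' q * ft10_P u ξ ξ' r) :=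
    fun q r => ft10_nul_iff.2 ⟨ft10_p_add hξ hu2.1 q r, ft10_p_add hξ' hu2.2 q r⟩
  have hP0 : ft10_P u ξ ξ' 0 = 1 := by
    refine Prod.ext ?_ ?_
    · funext j z; exact ft10_p_zero _ _ _ _
    · funext j z; exact ft10_p_zero _ _ _ _
  have hP1 : ft10_P u ξ ξ' 1 = u := by
    refine Prod.ext ?_ ?_
    · funext j z; exact ft10_p_one _ hξ _ _
    · funext j z; exact ft10_p_one _ hξ' _ _
  set I := ft10_I 𝒰 D with hI
  -- the ring homomorphism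
  let f : 𝓕 →+* (Pr n ⧸ I) := (Ideal.Quotient.mk I).comp 𝓕.subtype
  let g : Multiplicative ℚ →* (Pr n ⧸ I) :=
    { toFun := fun q => Ideal.Quotient.mk I (ft10_P u ξ ξ' q.toAdd)
      map_one' := by
        have : ft10_P u ξ ξ' (Multiplicative.toAdd (1 : Multiplicative ℚ)) = 1 := hP0
        rw [this, map_one]
      map_mul' := fun q r => by
        rw [← map_mul]
        exact (Ideal.Quotient.mk_eq_mk_iff_sub_mem _ _).2 (hPadd _ _) }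
  let φ : AddMonoidAlgebra 𝓕 ℚ →+* (Pr n ⧸ I) :=
    AddMonoidAlgebra.liftNCRingHom f g (fun _ _ => Commute.all _ _)
  have hφs : ∀ (q : ℚ) (a : 𝓕), φ (AddMonoidAlgebra.single q a) =
      Ideal.Quotient.mk I ((a : Pr n) * ft10_P u ξ ξ' q) := by
    intro q a
    have : φ (AddMonoidAlgebra.single q a) = f a * g (Multiplicative.ofAdd q) :=
      AddMonoidAlgebra.liftNCRingHom_single _ _ _ _ _
    rw [this, map_mul]
    rfl
  refine ⟨φ.range.comap (Ideal.Quotient.mk I), ?_, ?_, ?_⟩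
  · intro a ha
    rw [Subring.mem_comap, RingHom.mem_range]
    refine ⟨AddMonoidAlgebra.single 0 ⟨a, ha⟩, ?_⟩
    rw [hφs, hP0, mul_one]
  · rw [Subring.mem_comap, RingHom.mem_range]
    refine ⟨AddMonoidAlgebra.single 1 1, ?_⟩
    rw [hφs, hP1]
    simp
  -- the sums
  have hsum : ∀ (a : ℚ → 𝓕) (T : Finset ℚ),
      Hol 𝒰 D (∑ q ∈ T, (a q : Pr n) * ft10_P u ξ ξ' q) ∧
      (Nul 𝒰 D (∑ q ∈ T, (a q : Pr n) * ft10_P u ξ ξ' q) ∨ ∃ c : ℂ, c ≠ 0 ∧ ∃ g : Γ,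
        ∃ q ∈ T, LT 𝒰 D (∑ q ∈ T, (a q : Pr n) * ft10_P u ξ ξ' q) c (ext τ ξ (g, q))
          (ext τ' ξ' (g, q))) := by
    intro a T
    induction T using Finset.induction_on with
    | empty =>
      refine ⟨by simpa using ft10_hol_zero, Or.inl ?_⟩
      rw [Finset.sum_empty]
      exact I.zero_mem
    | insert q T hq ih =>
      obtain ⟨ih1, ih2⟩ := ih
      rw [Finset.sum_insert hq]
      obtain ⟨ha1, ha2⟩ := h𝓕.good _ (a q).2
      refine ⟨ft10_hol_add (ft10_hol_mul ha1 (hPH q)) ih1, ?_⟩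
      rcases ha2 with hn | ⟨c, hc, g, hg⟩
      · -- the new term is null
        have hn' : (a q : Pr n) * ft10_P u ξ ξ' q ∈ I := I.mul_mem_right _ hn
        rcases ih2 with h | ⟨d, hd, g, r, hr, h⟩
        · exact Or.inl (I.add_mem hn' h)
        · refine Or.inr ⟨d, hd, g, r, Finset.mem_insert_of_mem hr, ft10_lt_congr h ?_⟩
          rw [add_sub_cancel_right]
          exact hn'
      · have h1 : LT 𝒰 D ((a q : Pr n) * ft10_P u ξ ξ' q) c (ext τ ξ (g, q))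
            (ext τ' ξ' (g, q)) := by
          have := ft10_lt_mul (hτ g) (hτ' g) (fun j => Real.rpow_pos_of_pos (hξ j) _)
            (fun j => Real.rpow_pos_of_pos (hξ' j) _) hg (hPL q)
          rw [mul_one] at this
          exact this
        rcases ih2 with h | ⟨d, hd, g', r, hr, h⟩
        · refine Or.inr ⟨c, hc, g, q, Finset.mem_insert_self _ _, ft10_lt_congr h1 ?_⟩
          rw [add_sub_cancel_left]
          exact h
        · have hne : ((g, q) : Γ × ℚ) ≠ (g', r) := by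
            intro he
            have : q = r := congrArg Prod.snd he
            exact hq (this ▸ hr)
          rcases ft10_dich hS hne with h2 | h2
          · exact Or.inr ⟨c, hc, g, q, Finset.mem_insert_self _ _,
              ft10_lt_add (hS.pos _) (hS.pos' _) h1 h h2.1 h2.2⟩
          · refine Or.inr ⟨d, hd, g', r, Finset.mem_insert_of_mem hr, ?_⟩
            rw [add_comm]
            exact ft10_lt_add (hS.pos _) (hS.pos' _) h h1 h2.1 h2.2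
  refine ⟨?_, ?_, ?_⟩
  · intro s hs
    rw [Subring.mem_comap, RingHom.mem_range] at hs
    obtain ⟨A, hA⟩ := hs
    have h1 : φ A = Ideal.Quotient.mk I
        (∑ q ∈ A.coeff.support, ((A.coeff q : 𝓕) : Pr n) * ft10_P u ξ ξ' q) := by
      conv_lhs => rw [← AddMonoidAlgebra.sum_coeff_single A]
      rw [map_finsuppSum, Finsupp.sum, map_sum]
      exact Finset.sum_congr rfl fun q _ => hφs _ _
    have h2 : Nul 𝒰 D (s - ∑ q ∈ A.coeff.support, ((A.coeff q : 𝓕) : Pr n) *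
        ft10_P u ξ ξ' q) := by
      rw [h1] at hA
      exact (Ideal.Quotient.mk_eq_mk_iff_sub_mem _ _).1 hA.symm
    obtain ⟨h3, h4⟩ := hsum (fun q => A.coeff q) A.coeff.support
    refine ⟨ft10_hol_congr hD h3 h2, ?_⟩
    rcases h4 with h | ⟨c, hc, g, q, -, h⟩
    · left
      have := I.add_mem h2 h
      rwa [sub_add_cancel] at this
    · exact Or.inr ⟨c, hc, (g, q), ft10_lt_congr h h2⟩
  · intro c
    rw [Subring.mem_comap, RingHom.mem_range]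
    refine ⟨AddMonoidAlgebra.single 0 ⟨cst c, h𝓕.cst c⟩, ?_⟩
    rw [hφs, hP0, mul_one]
  · rintro ⟨g, q⟩
    obtain ⟨t, ht, h⟩ := h𝓕.mono g
    refine ⟨t * ft10_P u ξ ξ' q, ?_, ?_⟩
    · rw [Subring.mem_comap, RingHom.mem_range]
      exact ⟨AddMonoidAlgebra.single q ⟨t, ht⟩, hφs _ _⟩
    · have := ft10_lt_mul (hτ g) (hτ' g) (fun j => Real.rpow_pos_of_pos (hξ j) _)
        (fun j => Real.rpow_pos_of_pos (hξ' j) _) h (hPL q)
      rw [mul_one] at this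
      exact this

end Pool.Agent.H43.FT
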