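import Pool.Agent.H43.FT.Defs

/-!
Saturation along an ultrafilter on `ℕ`, comparison of scales, compactness.
-/

set_option autoImplicit false

open MvPolynomial Filter Topology Pool.Agent.H77.FB Pool.Agent.H60.FB Pool.Agent.H77.N2

namespace Pool.Agent.H43.FT

/-- Saturation: countably many properties which hold eventually hold up to an infinite index. -/
theorem sat (𝒰 : Ultrafilter ℕ) (h𝒰 : (𝒰 : Filter ℕ) ≤ atTop) (p : ℕ → ℕ → Prop)
    (hp : ∀ m, ∀ᶠ j in (𝒰 : Filter ℕ), p m j) :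
    ∃ i : ℕ → ℕ, Tendsto i 𝒰 atTop ∧ ∀ᶠ j in (𝒰 : Filter ℕ), p (i j) j := by
  classical
  refine ⟨fun j => Nat.findGreatest (fun m => p m j) j, ?_, ?_⟩
  · rw [tendsto_atTop]
    intro m
    filter_upwards [hp m, h𝒰 (eventually_ge_atTop m)] with j hj hmj
    exact Nat.le_findGreatest hmj hj
  · filter_upwards [hp 0] with j hj
    exact Nat.findGreatest_spec (P := fun m => p m j) (Nat.zero_le j) hj

theorem sat_eps (𝒰 : Ultrafilter ℕ) (h𝒰 : (𝒰 : Filter ℕ) ≤ atTop) (p : ℝ → ℕ → Prop)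
    (hp : ∀ ε : ℝ, 0 < ε → ∀ᶠ j in (𝒰 : Filter ℕ), p ε j) :
    ∃ δ : ℕ → ℝ, (∀ j, 0 < δ j) ∧ Tendsto δ 𝒰 (𝓝 0) ∧
      ∀ᶠ j in (𝒰 : Filter ℕ), p (δ j) j := by
  obtain ⟨i, hi, hpi⟩ := sat 𝒰 h𝒰 (fun m j => p (1 / ((m : ℝ) + 1)) j)
    (fun m => hp _ (by positivity))
  refine ⟨fun j => 1 / ((i j : ℝ) + 1), fun j => by positivity, ?_, hpi⟩
  exact tendsto_one_div_add_atTop_nhds_zero_nat.comp hi

theorem ll_iff (𝒰 : Ultrafilter ℕ) (x y : ℕ → ℝ) (hx : ∀ j, 0 ≤ x j) (hy : ∀ j, 0 < y j) :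
    LL 𝒰 x y ↔ Tendsto (fun j => x j / y j) 𝒰 (𝓝 0) := by
  constructor
  · intro h
    rw [Metric.tendsto_nhds]
    intro ε hε
    filter_upwards [h (2 / ε) (by positivity)] with j hj
    have h1 : 0 ≤ x j / y j := div_nonneg (hx j) (hy j).le
    rw [Real.dist_eq, sub_zero, abs_of_nonneg h1, div_lt_iff₀ (hy j)]
    have h2 : 2 * x j ≤ ε * y j := by
      have h3 := mul_le_mul_of_nonneg_left hj hε.le
      have h4 : ε * (2 / ε * x j) = 2 * x j := by field_simp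
      rwa [h4] at h3
    have h5 : 0 < ε * y j := mul_pos hε (hy j)
    linarith [hx j]
  · intro h m hm
    rw [Metric.tendsto_nhds] at h
    filter_upwards [h (1 / m) (by positivity)] with j hj
    have h1 : 0 ≤ x j / y j := div_nonneg (hx j) (hy j).le
    rw [Real.dist_eq, sub_zero, abs_of_nonneg h1, div_lt_iff₀ (hy j)] at hj
    have h2 := mul_lt_mul_of_pos_left hj hm
    have h3 : m * (1 / m * y j) = y j := by field_simp
    rw [h3] at h2
    exact h2.le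

/-- the trichotomy for two positive sequences -/
theorem ll_tri (𝒰 : Ultrafilter ℕ) (x y : ℕ → ℝ) (hx : ∀ j, 0 < x j) (hy : ∀ j, 0 < y j) :
    LL 𝒰 x y ∨ LL 𝒰 y x ∨ ∃ c : ℝ, 0 < c ∧ Tendsto (fun j => x j / y j) 𝒰 (𝓝 c) := by
  by_cases h1 : LL 𝒰 x y
  · exact Or.inl h1
  by_cases h2 : LL 𝒰 y x
  · exact Or.inr (Or.inl h2)
  refine Or.inr (Or.inr ?_)
  unfold LL at h1 h2
  push Not at h1 h2
  obtain ⟨m, hm, h1⟩ := h1
  obtain ⟨k, hk, h2⟩ := h2
  have hc : IsCompact (Set.Icc (1 / m) k) := isCompact_Icc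
  obtain ⟨c, hcm, hu⟩ := hc.ultrafilter_le_nhds (𝒰.map fun j => x j / y j) (by
    rw [le_principal_iff]
    change (fun j => x j / y j) ⁻¹' (Set.Icc (1 / m) k) ∈ (𝒰 : Filter ℕ)
    filter_upwards [h1, h2] with j hj1 hj2
    refine ⟨?_, ?_⟩
    · rw [div_le_div_iff₀ hm (hy j)]
      linarith
    · rw [div_le_iff₀ (hy j)]
      exact hj2.le)
  exact ⟨c, lt_of_lt_of_le (by positivity) hcm.1, hu⟩

/-- a bounded sequence in a proper space converges along the ultrafilter -/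
theorem ultra_conv {W : Type} [NormedAddCommGroup W] [ProperSpace W] (𝒰 : Ultrafilter ℕ)
    (x : ℕ → W) (r : ℝ) (h : ∀ᶠ j in (𝒰 : Filter ℕ), ‖x j‖ ≤ r) :
    ∃ u, Tendsto x 𝒰 (𝓝 u) := by
  have hc : IsCompact (Metric.closedBall (0 : W) r) := isCompact_closedBall 0 r
  obtain ⟨u, -, hu⟩ := hc.ultrafilter_le_nhds (𝒰.map x) (by
    rw [le_principal_iff]
    change x ⁻¹' (Metric.closedBall (0 : W) r) ∈ (𝒰 : Filter ℕ)
    filter_upwards [h] with j hj
    simpa using hj)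
  exact ⟨u, hu⟩

end Pool.Agent.H43.FT
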