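import Pool.Agent.H43.FT.Defs
import Pool.Agent.H43.FT.Sat

/-!
Project FT (MP_6e521b_an), row FT-5: profiles adapted to a countable family of scales
(helper77).
-/

set_option autoImplicit false

open MvPolynomial Filter Topology Pool.Agent.H77.FB Pool.Agent.H60.FB Pool.Agent.H77.N2

namespace Pool.Agent.H43.FT

/-! ### One term -/

/-- the truncated constant profile -/
noncomputable def ft5_t (θ a R : ℝ) : ℝ := θ * (a / max R a)

theorem ft5_t_pos {θ a : ℝ} (hθ : 0 < θ) (ha : 0 < a) (R : ℝ) : 0 < ft5_t θ a R := by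
  have : 0 < max R a := lt_max_of_lt_right ha
  unfold ft5_t
  positivity

theorem ft5_t_le {θ a : ℝ} (hθ : 0 ≤ θ) (ha : 0 < a) (R : ℝ) : ft5_t θ a R ≤ θ := by
  have h : 0 < max R a := lt_max_of_lt_right ha
  unfold ft5_t
  refine mul_le_of_le_one_right hθ ?_
  rw [div_le_one h]
  exact le_max_right _ _

theorem ft5_t_anti {θ a : ℝ} (hθ : 0 ≤ θ) (ha : 0 < a) {R T : ℝ} (h : R ≤ T) :
    ft5_t θ a T ≤ ft5_t θ a R := by
  have h1 : 0 < max R a := lt_max_of_lt_right ha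
  unfold ft5_t
  exact mul_le_mul_of_nonneg_left (div_le_div_of_nonneg_left ha.le h1 (max_le_max_right a h)) hθ

theorem ft5_t_mul {θ a : ℝ} (ha : 0 < a) (R : ℝ) : R * ft5_t θ a R = θ * min R a := by
  have h1 : 0 < max R a := lt_max_of_lt_right ha
  have h2 := min_mul_max R a
  unfold ft5_t
  field_simp
  linear_combination (-θ) * h2

theorem ft5_t_mono {θ a : ℝ} (hθ : 0 ≤ θ) (ha : 0 < a) {R T : ℝ} (h : R ≤ T) :
    R * ft5_t θ a R ≤ T * ft5_t θ a T := by
  rw [ft5_t_mul ha, ft5_t_mul ha]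
  exact mul_le_mul_of_nonneg_left (min_le_min_right a h) hθ

theorem ft5_t_eq {θ a R : ℝ} (ha : 0 < a) (h : R ≤ a) : ft5_t θ a R = θ := by
  unfold ft5_t
  rw [max_eq_right h, div_self ha.ne', mul_one]

theorem ft5_t_far {θ a R : ℝ} (hθ : 0 ≤ θ) (ha : 0 < a) (hR : 0 < R) :
    ft5_t θ a R ≤ θ * (a / R) := by
  unfold ft5_t
  exact mul_le_mul_of_nonneg_left (div_le_div_of_nonneg_left ha.le hR (le_max_left _ _)) hθ

/-! ### The maximum of finitely many terms -/

section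

variable {𝒰 : Ultrafilter ℕ} {Γ : Type} [AddCommGroup Γ] [Module ℚ Γ] {τ τ' : Γ → ℕ → ℝ}

/-- the term of the scale `g` at level `m` -/
noncomputable def ft5_term (τ τ' : Γ → ℕ → ℝ) (m : ℕ) (j : ℕ) (g : Γ) (R : ℝ) : ℝ :=
  ft5_t (min (τ' g j / τ g j) 1) ((m + 1 : ℝ) * τ g j) R

/-- the profile of level `m` -/
noncomputable def ft5_K (τ τ' : Γ → ℕ → ℝ) (e : ℕ → Γ) (m : ℕ) (j : ℕ) (R : ℝ) : ℝ :=
  (Finset.range (m + 1)).sup' ⟨0, by simp⟩ fun i => ft5_term τ τ' m j (e i) R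

omit [AddCommGroup Γ] [Module ℚ Γ] in
theorem ft5_le_K (e : ℕ → Γ) {m i : ℕ} (hi : i ≤ m) (j : ℕ) (R : ℝ) :
    ft5_term τ τ' m j (e i) R ≤ ft5_K τ τ' e m j R :=
  Finset.le_sup' (fun i => ft5_term τ τ' m j (e i) R) (by simpa using Nat.lt_succ_of_le hi)

omit [AddCommGroup Γ] [Module ℚ Γ] in
theorem ft5_K_le (e : ℕ → Γ) {m j : ℕ} {R x : ℝ}
    (h : ∀ i ≤ m, ft5_term τ τ' m j (e i) R ≤ x) : ft5_K τ τ' e m j R ≤ x :=
  Finset.sup'_le _ _ fun i hi => h i (Nat.lt_succ_iff.1 (by simpa using hi))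

theorem ft5_zero (hS : Scl 𝒰 τ τ') (j : ℕ) : τ 0 j = 1 ∧ τ' 0 j = 1 := by
  have h1 := hS.add 0 0 j
  have h2 := hS.add' 0 0 j
  rw [add_zero] at h1 h2
  have h3 := hS.pos 0 j
  have h4 := hS.pos' 0 j
  constructor
  · have : τ 0 j * (τ 0 j - 1) = 0 := by linear_combination -h1
    rcases mul_eq_zero.1 this with h | h
    · exact absurd h h3.ne'
    · linarith
  · have : τ' 0 j * (τ' 0 j - 1) = 0 := by linear_combination -h2
    rcases mul_eq_zero.1 this with h | h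
    · exact absurd h h4.ne'
    · linarith

theorem ft5_th (hS : Scl 𝒰 τ τ') (g : Γ) (j : ℕ) : 0 < min (τ' g j / τ g j) 1 :=
  lt_min (div_pos (hS.pos' g j) (hS.pos g j)) one_pos

theorem ft5_a (hS : Scl 𝒰 τ τ') (m : ℕ) (g : Γ) (j : ℕ) : 0 < (m + 1 : ℝ) * τ g j :=
  mul_pos (by positivity) (hS.pos g j)

/-- the upper bound for one term at the scale `g` -/
theorem ft5_up (hS : Scl 𝒰 τ τ') (m : ℕ) (g h : Γ) :
    ∀ᶠ j in (𝒰 : Filter ℕ), ∀ c : ℝ, 1 / (m + 1 : ℝ) ≤ c →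
      ft5_term τ τ' m j h (c * τ g j) ≤ (1 + 1 / (m + 1 : ℝ)) * (τ' g j / τ g j) := by
  have hM : (0 : ℝ) < m + 1 := by positivity
  have hM1 : (0 : ℝ) < 1 / (m + 1) := by positivity
  by_cases hgh : h = g
  · refine Eventually.of_forall fun j c _ => ?_
    have h1 := ft5_t_le (ft5_th hS h j).le (ft5_a hS m h j) (c * τ g j)
    have h2 : min (τ' h j / τ h j) 1 ≤ τ' g j / τ g j := by
      rw [hgh]
      exact min_le_left _ _
    have h3 : 0 < τ' g j / τ g j := div_pos (hS.pos' g j) (hS.pos g j)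
    exact (h1.trans h2).trans (by nlinarith)
  rcases hS.dich (h - g) (sub_ne_zero.2 hgh) with ⟨h1, -⟩ | ⟨-, h2⟩
  · filter_upwards [hS.le (h - g) h1 (1 / (m + 1)) hM1] with j hj c _
    have h3 := ft5_t_le (ft5_th hS h j).le (ft5_a hS m h j) (c * τ g j)
    have h4 : min (τ' h j / τ h j) 1 ≤ τ' h j / τ h j := min_le_left _ _
    have e1 := hS.add (h - g) g j
    have e2 := hS.add' (h - g) g j
    rw [sub_add_cancel] at e1 e2
    have p1 := hS.pos (h - g) j
    have p2 := hS.pos g j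
    have p3 := hS.pos' g j
    refine (h3.trans h4).trans ?_
    rw [e1, e2, mul_div_mul_comm]
    have h5 : τ' (h - g) j / τ (h - g) j ≤ 1 + 1 / (m + 1) := by
      rw [div_le_iff₀ p1]
      exact hj
    exact mul_le_mul_of_nonneg_right h5 (div_pos p3 p2).le
  · filter_upwards [h2.eventually_ge_atTop ((m + 1 : ℝ) ^ 2)] with j hj c hc
    have p1 := hS.pos h j
    have p1' := hS.pos' h j
    have p2 := hS.pos g j
    have p2' := hS.pos' g j
    have p3' := hS.pos' (-(h - g)) j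
    have hc0 : 0 < c := hM1.trans_le hc
    have h3 := ft5_t_far (ft5_th hS h j).le (ft5_a hS m h j) (R := c * τ g j) (by positivity)
    have h4 : min (τ' h j / τ h j) 1 ≤ τ' h j / τ h j := min_le_left _ _
    have e2 := hS.add' (-(h - g)) h j
    rw [show -(h - g) + h = g by abel] at e2
    have h5 : min (τ' h j / τ h j) 1 * ((m + 1 : ℝ) * τ h j / (c * τ g j)) ≤
        τ' h j / τ h j * ((m + 1 : ℝ) * τ h j / (c * τ g j)) :=
      mul_le_mul_of_nonneg_right h4 (by positivity)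
    have h6 : τ' h j / τ h j * ((m + 1 : ℝ) * τ h j / (c * τ g j)) =
        (m + 1 : ℝ) / c * τ' h j / τ g j := by
      field_simp
    have h7 : (m + 1 : ℝ) / c ≤ (m + 1 : ℝ) ^ 2 := by
      rw [div_le_iff₀ hc0]
      rw [div_le_iff₀ hM] at hc
      nlinarith
    have h8 : (m + 1 : ℝ) / c * τ' h j ≤ τ' g j := by
      rw [e2]
      exact mul_le_mul_of_nonneg_right (h7.trans hj) p1'.le
    have h9 : (m + 1 : ℝ) / c * τ' h j / τ g j ≤ τ' g j / τ g j :=
      div_le_div_of_nonneg_right h8 p2.le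
    have h10 : 0 < τ' g j / τ g j := div_pos p2' p2
    have h11 : ft5_term τ τ' m j h (c * τ g j) ≤ τ' g j / τ g j :=
      (h3.trans h5).trans (h6.le.trans h9)
    exact h11.trans (by nlinarith)

end

/-! ### The diagonal profile -/

theorem exists_prof (𝒰 : Ultrafilter ℕ) (h𝒰 : (𝒰 : Filter ℕ) ≤ atTop) {Γ : Type}
    [AddCommGroup Γ] [Module ℚ Γ] [Countable Γ] (τ τ' : Γ → ℕ → ℝ) (hS : Scl 𝒰 τ τ') :
    ∃ κ, Prof 𝒰 τ τ' κ := by
  obtain ⟨f, hf⟩ := exists_surjective_nat Γ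
  obtain ⟨e, he0, he⟩ : ∃ e : ℕ → Γ, e 0 = 0 ∧ Function.Surjective e := by
    refine ⟨fun i => Nat.rec 0 (fun k _ => f k) i, rfl, fun g => ?_⟩
    obtain ⟨k, hk⟩ := hf g
    exact ⟨k + 1, hk⟩
  -- the window at the level `m`
  have hwin : ∀ m : ℕ, ∀ᶠ j in (𝒰 : Filter ℕ), ∀ i ∈ Finset.range (m + 1),
      Tendsto (τ (e i)) 𝒰 atTop → ∀ c : ℝ, 1 / (m + 1 : ℝ) ≤ c → c ≤ m + 1 →
        (1 - 1 / (m + 1 : ℝ)) * (τ' (e i) j / τ (e i) j) ≤ ft5_K τ τ' e m j (c * τ (e i) j) ∧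
        ft5_K τ τ' e m j (c * τ (e i) j) ≤
          (1 + 1 / (m + 1 : ℝ)) * (τ' (e i) j / τ (e i) j) := by
    intro m
    rw [Filter.eventually_all_finset]
    intro i hi
    by_cases hg : Tendsto (τ (e i)) 𝒰 atTop
    swap
    · exact Eventually.of_forall fun j h => absurd h hg
    have hM : (0 : ℝ) < m + 1 := by positivity
    have hM1 : (0 : ℝ) < 1 / (m + 1) := by positivity
    have hM2 : 1 / (m + 1 : ℝ) ≤ 1 := by
      rw [div_le_one hM]
      have : (0 : ℝ) ≤ m := m.cast_nonneg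
      linarith
    have hup : ∀ᶠ j in (𝒰 : Filter ℕ), ∀ k ∈ Finset.range (m + 1), ∀ c : ℝ,
        1 / (m + 1 : ℝ) ≤ c → ft5_term τ τ' m j (e k) (c * τ (e i) j) ≤
          (1 + 1 / (m + 1 : ℝ)) * (τ' (e i) j / τ (e i) j) := by
      rw [Filter.eventually_all_finset]
      exact fun k _ => ft5_up hS m (e i) (e k)
    filter_upwards [hup, hS.le (e i) hg (1 / (m + 1)) hM1] with j h1 h2 _ c hc1 hc2
    have p1 := hS.pos (e i) j
    have p2 := hS.pos' (e i) j
    constructor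
    · refine le_trans ?_ (ft5_le_K e (Nat.lt_succ_iff.1 (Finset.mem_range.1 hi)) j _)
      unfold ft5_term
      rw [ft5_t_eq (ft5_a hS m (e i) j) (mul_le_mul_of_nonneg_right hc2 p1.le)]
      have h3 : τ' (e i) j / τ (e i) j ≤ 1 + 1 / (m + 1) := by
        rw [div_le_iff₀ p1]
        exact h2
      have h4 : 0 < τ' (e i) j / τ (e i) j := div_pos p2 p1
      refine le_min (by nlinarith) ?_
      calc (1 - 1 / (m + 1 : ℝ)) * (τ' (e i) j / τ (e i) j)
          ≤ (1 - 1 / (m + 1 : ℝ)) * (1 + 1 / (m + 1)) :=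
            mul_le_mul_of_nonneg_left h3 (by linarith)
        _ ≤ 1 := by nlinarith [sq_nonneg (1 / (m + 1 : ℝ))]
    · exact ft5_K_le e fun k hk => h1 k (by simpa using Nat.lt_succ_of_le hk) c hc1
  obtain ⟨i, hi, hp⟩ := sat 𝒰 h𝒰 _ hwin
  have hKpos : ∀ m j R, 0 < ft5_K τ τ' e m j R := fun m j R =>
    (ft5_t_pos (ft5_th hS (e 0) j) (ft5_a hS m (e 0) j) R).trans_le
      (ft5_le_K e (Nat.zero_le m) j R)
  have hKle : ∀ m j R, ft5_K τ τ' e m j R ≤ 1 := fun m j R =>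
    ft5_K_le e fun k _ => (ft5_t_le (ft5_th hS (e k) j).le (ft5_a hS m (e k) j) R).trans
      (min_le_right _ _)
  refine ⟨fun j R => ft5_K τ τ' e (i j) j R, fun j R => hKpos _ j R, fun j R => hKle _ j R,
    fun j R T _ hRT => ?_, fun j R T hR hRT => ?_, fun C => ?_, fun g hg c hc => ?_⟩
  · exact ft5_K_le e fun k hk =>
      (ft5_t_anti (ft5_th hS (e k) j).le (ft5_a hS _ (e k) j) hRT).trans (ft5_le_K e hk j R)
  · -- the maximum is attained
    obtain ⟨k, hk, hk2⟩ := Finset.exists_mem_eq_sup' (s := Finset.range (i j + 1)) ⟨0, by simp⟩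
      (fun k => ft5_term τ τ' (i j) j (e k) R)
    have h1 : ft5_K τ τ' e (i j) j R = ft5_term τ τ' (i j) j (e k) R := hk2
    rw [h1]
    refine (ft5_t_mono (ft5_th hS (e k) j).le (ft5_a hS _ (e k) j) hRT).trans ?_
    exact mul_le_mul_of_nonneg_left
      (ft5_le_K e (Nat.lt_succ_iff.1 (Finset.mem_range.1 hk)) j T) (hR.trans hRT)
  · obtain ⟨N, hN⟩ := exists_nat_ge C
    filter_upwards [hi.eventually_ge_atTop N] with j hj
    refine le_antisymm (hKle _ j C) ?_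
    refine le_trans ?_ (ft5_le_K e (Nat.zero_le (i j)) j C)
    obtain ⟨h1, h2⟩ := ft5_zero hS j
    unfold ft5_term
    rw [ft5_t_eq (ft5_a hS _ (e 0) j), he0, h1, h2]
    · norm_num
    · rw [he0, h1, mul_one]
      have : (N : ℝ) ≤ i j := by exact_mod_cast hj
      linarith
  · obtain ⟨k, rfl⟩ := he g
    rw [Metric.tendsto_nhds]
    intro ε hε
    obtain ⟨N, hN⟩ := exists_nat_ge (max (max c (1 / c)) (2 / ε))
    filter_upwards [hp, hi.eventually_ge_atTop N, hi.eventually_ge_atTop k] with j h1 h2 h3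
    have hN1 : (N : ℝ) ≤ i j := by exact_mod_cast h2
    have c1 : c ≤ N := ((le_max_left _ _).trans (le_max_left _ _)).trans hN
    have c2 : 1 / c ≤ N := ((le_max_right _ _).trans (le_max_left _ _)).trans hN
    have c3 : 2 / ε ≤ N := (le_max_right _ _).trans hN
    have hM : (0 : ℝ) < (i j : ℝ) + 1 := by positivity
    have p1 := hS.pos (e k) j
    have p2 := hS.pos' (e k) j
    have p3 : 0 < τ' (e k) j / τ (e k) j := div_pos p2 p1
    obtain ⟨l1, l2⟩ := h1 k (by simpa using Nat.lt_succ_of_le h3) hg c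
      (by
        rw [div_le_iff₀ hM]
        rw [div_le_iff₀ hc] at c2
        nlinarith)
      (by linarith)
    have h4 : ft5_K τ τ' e (i j) j (c * τ (e k) j) * τ (e k) j / τ' (e k) j =
        ft5_K τ τ' e (i j) j (c * τ (e k) j) / (τ' (e k) j / τ (e k) j) := by
      field_simp
    have h5 : 1 / ((i j : ℝ) + 1) < ε := by
      rw [div_lt_iff₀ hM]
      rw [div_le_iff₀ hε] at c3
      nlinarith
    rw [h4, Real.dist_eq, abs_lt]
    constructor
    · have : 1 - 1 / ((i j : ℝ) + 1) ≤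
          ft5_K τ τ' e (i j) j (c * τ (e k) j) / (τ' (e k) j / τ (e k) j) := by
        rw [le_div_iff₀ p3]
        exact l1
      linarith
    · have : ft5_K τ τ' e (i j) j (c * τ (e k) j) / (τ' (e k) j / τ (e k) j) ≤
          1 + 1 / ((i j : ℝ) + 1) := by
        rw [div_le_iff₀ p3]
        exact l2
      linarith

end Pool.Agent.H43.FT
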