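import Pool.Agent.H43.FT.Defs

/-!
Project FT (MP_6e521b_an): restriction of the domains, the new centre.
-/

set_option autoImplicit false

open MvPolynomial Filter Topology Pool.Agent.H77.FB Pool.Agent.H60.FB Pool.Agent.H77.N2

namespace Pool.Agent.H43.FT

open scoped InnerProductSpace

variable {n : ℕ}

/-! #### Projections -/

theorem ft11_proj_proj (E : Submodule ℂ (V n)) (z : V n) :
    E.starProjection (E.starProjection z) = E.starProjection z :=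
  Submodule.starProjection_eq_self_iff.mpr (E.starProjection_apply_mem z)

theorem ft11_proj_of_le {E E₂ : Submodule ℂ (V n)} (h : E ≤ E₂) (z : V n) :
    E.starProjection (E₂.starProjection z) = E.starProjection z := by
  have := Submodule.starProjection_comp_starProjection_of_le h
  exact congrArg (fun f : V n →L[ℂ] V n => f z) this

theorem ft11_norm_of_le {E E₂ : Submodule ℂ (V n)} (h : E ≤ E₂) (z : V n) :
    ‖E.starProjection z‖ ≤ ‖E₂.starProjection z‖ := by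
  rw [← ft11_proj_of_le h z]
  exact E.norm_starProjection_apply_le _

theorem ft11_inner_proj {E : Submodule ℂ (V n)} {ω : V n} (hωE : ω ∈ Eᗮ) (z : V n) :
    ⟪ω, E.starProjection z⟫_ℂ = 0 :=
  Submodule.inner_left_of_mem_orthogonal (E.starProjection_apply_mem z) hωE

theorem ft11_self {ω : V n} (hω : ‖ω‖ = 1) : ⟪ω, ω⟫_ℂ = 1 := by
  rw [inner_self_eq_norm_sq_to_K, hω]
  simp

/-- The projection on the extended space. -/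
theorem ft11_proj_sup (E : Submodule ℂ (V n)) (ω : V n) (hω : ‖ω‖ = 1) (hωE : ω ∈ Eᗮ)
    (z : V n) :
    (E ⊔ ℂ ∙ ω).starProjection z = E.starProjection z + ⟪ω, z⟫_ℂ • ω := by
  apply Submodule.eq_starProjection_of_mem_orthogonal
  · exact Submodule.add_mem_sup (E.starProjection_apply_mem z)
      (Submodule.smul_mem _ _ (Submodule.mem_span_singleton_self ω))
  · rw [← Submodule.inf_orthogonal, Submodule.mem_inf]
    constructor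
    · have h1 : z - (E.starProjection z + ⟪ω, z⟫_ℂ • ω) =
          (z - E.starProjection z) - ⟪ω, z⟫_ℂ • ω := by abel
      rw [h1]
      exact Submodule.sub_mem _ (Submodule.sub_starProjection_mem_orthogonal z)
        (Submodule.smul_mem _ _ hωE)
    · rw [Submodule.mem_orthogonal_singleton_iff_inner_right, inner_sub_right, inner_add_right,
        ft11_inner_proj hωE, inner_smul_right, ft11_self hω]
      ring

/-! #### Domains -/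

theorem ft11_cyl_maps (E : Submodule ℂ (V n)) (b z : V n) :
    ‖E.starProjection (E.starProjection z - b)‖ = ‖E.starProjection (z - b)‖ := by
  rw [map_sub, map_sub, ft11_proj_proj]

theorem ft11_cyl_sub {E E₂ : Submodule ℂ (V n)} (hE : E ≤ E₂) {b b₂ z : V n} {R R₂ : ℝ}
    (hb : ‖E.starProjection (b₂ - b)‖ + R₂ ≤ R) (hz : ‖E₂.starProjection (z - b₂)‖ < R₂) :
    ‖E.starProjection (z - b)‖ < R := by
  have h1 : z - b = (z - b₂) + (b₂ - b) := by abel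
  rw [h1, map_add]
  calc ‖E.starProjection (z - b₂) + E.starProjection (b₂ - b)‖
      ≤ ‖E.starProjection (z - b₂)‖ + ‖E.starProjection (b₂ - b)‖ := norm_add_le _ _
    _ ≤ ‖E₂.starProjection (z - b₂)‖ + ‖E.starProjection (b₂ - b)‖ := by
        have := ft11_norm_of_le hE (z - b₂)
        linarith
    _ < R := by linarith

theorem stDm_ok (𝒰 : Ultrafilter ℕ) (E : Submodule ℂ (V n)) (b Y : ℕ → V n) (R R' : ℕ → ℝ)
    (h0 : ∀ j, 0 < R j ∧ 0 < R' j) : DmOK 𝒰 (stDm E b Y R R') where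
  op := fun j => isOpen_lt
    (E.starProjection.continuous.comp (continuous_id.sub continuous_const)).norm continuous_const
  op' := fun j => isOpen_lt
    (E.starProjection.continuous.comp (continuous_id.sub continuous_const)).norm continuous_const
  ne := Eventually.of_forall fun j => by
    refine ⟨⟨b j, ?_⟩, ⟨Y j, ?_⟩⟩
    · simp only [stDm, Set.mem_ofPred_eq, sub_self, map_zero, norm_zero]
      exact (h0 j).1
    · simp only [stDm, Set.mem_ofPred_eq, sub_self, map_zero, norm_zero]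
      exact (h0 j).2
  maps := fun j z hz => by
    simp only [stDm, Set.mem_ofPred_eq] at hz ⊢
    rwa [ft11_cyl_maps]
  maps' := fun j z hz => by
    simp only [stDm, Set.mem_ofPred_eq] at hz ⊢
    rwa [ft11_cyl_maps]

section Res

variable (𝒰 : Ultrafilter ℕ) {E E₂ : Submodule ℂ (V n)} (hE : E ≤ E₂)
    {b Y b₂ Y₂ : ℕ → V n} {R R' R₂ R₂' : ℕ → ℝ}
    (hb : ∀ᶠ j in (𝒰 : Filter ℕ), ‖E.starProjection (b₂ j - b j)‖ + R₂ j ≤ R j)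
    (hY : ∀ᶠ j in (𝒰 : Filter ℕ), ‖E.starProjection (Y₂ j - Y j)‖ + R₂' j ≤ R' j)

include hE hb hY

theorem ft11_sub : ∀ᶠ j in (𝒰 : Filter ℕ),
    (stDm E₂ b₂ Y₂ R₂ R₂').C j ⊆ (stDm E b Y R R').C j ∧
      (stDm E₂ b₂ Y₂ R₂ R₂').C' j ⊆ (stDm E b Y R R').C' j := by
  filter_upwards [hb, hY] with j h1 h2
  exact ⟨fun z hz => ft11_cyl_sub hE h1 hz, fun z hz => ft11_cyl_sub hE h2 hz⟩

theorem ft11_le {s : Pr n} {x x' : ℕ → ℝ} (h : Le 𝒰 (stDm E b Y R R') s x x') :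
    Le 𝒰 (stDm E₂ b₂ Y₂ R₂ R₂') s x x' := by
  filter_upwards [h, ft11_sub 𝒰 hE hb hY] with j h1 h2
  exact ⟨fun z hz => h1.1 z (h2.1 hz), fun z hz => h1.2 z (h2.2 hz)⟩

theorem ft11_sm {s : Pr n} {x x' : ℕ → ℝ} (h : Sm 𝒰 (stDm E b Y R R') s x x') :
    Sm 𝒰 (stDm E₂ b₂ Y₂ R₂ R₂') s x x' := fun ε hε => ft11_le 𝒰 hE hb hY (h ε hε)

theorem ft11_nul {s : Pr n} (h : Nul 𝒰 (stDm E b Y R R') s) :
    Nul 𝒰 (stDm E₂ b₂ Y₂ R₂ R₂') s := by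
  filter_upwards [h, ft11_sub 𝒰 hE hb hY] with j h1 h2
  exact ⟨fun z hz => h1.1 z (h2.1 hz), fun z hz => h1.2 z (h2.2 hz)⟩

theorem ft11_lt {s : Pr n} {c : ℂ} {x x' : ℕ → ℝ} (h : LT 𝒰 (stDm E b Y R R') s c x x') :
    LT 𝒰 (stDm E₂ b₂ Y₂ R₂ R₂') s c x x' := ft11_sm 𝒰 hE hb hY h

theorem ft11_hol {s : Pr n} (h : Hol 𝒰 (stDm E b Y R R') s) :
    Hol 𝒰 (stDm E₂ b₂ Y₂ R₂ R₂') s := by
  filter_upwards [h, ft11_sub 𝒰 hE hb hY] with j h1 h2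
  refine ⟨⟨h1.1.1.mono h2.1, fun z hz => ?_⟩, ⟨h1.2.1.mono h2.2, fun z hz => ?_⟩⟩
  · have h3 := h1.1.2
    have h4 := h2.1 hz
    simp only [stDm, Set.mem_ofPred_eq] at h3 h4 ⊢
    have h5 : ‖E.starProjection (E₂.starProjection z - b j)‖ < R j := by
      rw [map_sub, ft11_proj_of_le hE, ← map_sub]
      exact h4
    rw [← h3 _ h5, ft11_proj_of_le hE, h3 _ h4]
  · have h3 := h1.2.2
    have h4 := h2.2 hz
    simp only [stDm, Set.mem_ofPred_eq] at h3 h4 ⊢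
    have h5 : ‖E.starProjection (E₂.starProjection z - Y j)‖ < R' j := by
      rw [map_sub, ft11_proj_of_le hE, ← map_sub]
      exact h4
    rw [← h3 _ h5, ft11_proj_of_le hE, h3 _ h4]

end Res

theorem ring_res (𝒰 : Ultrafilter ℕ) (E E₂ : Submodule ℂ (V n)) (hE : E ≤ E₂)
    (b Y b₂ Y₂ : ℕ → V n) (R R' R₂ R₂' : ℕ → ℝ)
    (hb : ∀ᶠ j in (𝒰 : Filter ℕ), ‖E.starProjection (b₂ j - b j)‖ + R₂ j ≤ R j)
    (hY : ∀ᶠ j in (𝒰 : Filter ℕ), ‖E.starProjection (Y₂ j - Y j)‖ + R₂' j ≤ R' j)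
    {Γ : Type} (τ τ' : Γ → ℕ → ℝ) (𝓕 : Subring (Pr n))
    (h𝓕 : GoodRing 𝒰 (stDm E b Y R R') τ τ' 𝓕) :
    GoodRing 𝒰 (stDm E₂ b₂ Y₂ R₂ R₂') τ τ' 𝓕 where
  good := fun s hs => by
    obtain ⟨h1, h2⟩ := h𝓕.good s hs
    refine ⟨ft11_hol 𝒰 hE hb hY h1, ?_⟩
    rcases h2 with h2 | ⟨c, hc, g, h2⟩
    · exact Or.inl (ft11_nul 𝒰 hE hb hY h2)
    · exact Or.inr ⟨c, hc, g, ft11_lt 𝒰 hE hb hY h2⟩
  cst := h𝓕.cst
  mono := fun g => by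
    obtain ⟨t, ht, h⟩ := h𝓕.mono g
    exact ⟨t, ht, ft11_lt 𝒰 hE hb hY h⟩

/-- same with `E₂ = E`, for centres and slopes -/
theorem cen_res (𝒰 : Ultrafilter ℕ) (E : Submodule ℂ (V n))
    (b Y b₂ Y₂ : ℕ → V n) (R R' R₂ R₂' : ℕ → ℝ)
    (hb : ∀ᶠ j in (𝒰 : Filter ℕ), ‖E.starProjection (b₂ j - b j)‖ + R₂ j ≤ R j)
    (hY : ∀ᶠ j in (𝒰 : Filter ℕ), ‖E.starProjection (Y₂ j - Y j)‖ + R₂' j ≤ R' j)
    (𝓕 : Subring (Pr n)) (a : Fin n → Pr n) (hcen : IsCen 𝒰 (stDm E b Y R R') 𝓕 a) :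
    IsCen 𝒰 (stDm E b₂ Y₂ R₂ R₂') 𝓕 a where
  mem := hcen.mem
  proj := by
    filter_upwards [hcen.proj, ft11_sub 𝒰 le_rfl hb hY] with j h1 h2
    exact ⟨fun z hz => h1.1 z (h2.1 hz), fun z hz => h1.2 z (h2.2 hz)⟩

/-! #### The new centre -/

theorem ft11_pt_newc (a : Fin n → Pr n) (ω : V n) (j : ℕ) (z : V n) :
    pt (newc a ω) j z = pt a j z + ⟪ω, z - pt a j z⟫_ℂ • ω := by
  ext i
  simp [pt, newc, uu, cst]

theorem ft11_fr_newc (a : Fin n → Pr n) (ω : V n) (j : ℕ) (z : V n) :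
    fr (newc a ω) j z = fr a j z + ⟪ω, z - fr a j z⟫_ℂ • ω := by
  ext i
  simp [fr, newc, uu, cst]

theorem ft11_newc_proj {E : Submodule ℂ (V n)} {ω : V n} (hω : ‖ω‖ = 1) (hωE : ω ∈ Eᗮ)
    {z p : V n} (h : E.starProjection p = E.starProjection z) :
    (E ⊔ ℂ ∙ ω).starProjection (p + ⟪ω, z - p⟫_ℂ • ω) = (E ⊔ ℂ ∙ ω).starProjection z := by
  have h2 : E.starProjection ω = 0 := Submodule.starProjection_apply_eq_zero_iff E |>.mpr hωE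
  rw [ft11_proj_sup E ω hω hωE, ft11_proj_sup E ω hω hωE, map_add, map_smul, h2, smul_zero,
    add_zero, h, inner_add_right, inner_smul_right, ft11_self hω, mul_one, inner_sub_right]
  congr 2
  ring

theorem ft11_contr {ω : V n} (hω : ‖ω‖ = 1) (v : V n) : ‖v - ⟪ω, v⟫_ℂ • ω‖ ≤ ‖v‖ := by
  have h1 : (ℂ ∙ ω).starProjection v = ⟪ω, v⟫_ℂ • ω :=
    Submodule.starProjection_unit_singleton ℂ hω v
  rw [← h1, ← Submodule.starProjection_orthogonal_val]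
  exact Submodule.norm_starProjection_apply_le _ _

theorem ft11_newc_slp {E : Submodule ℂ (V n)} {ω : V n} (hω : ‖ω‖ = 1) (hωE : ω ∈ Eᗮ)
    {z w p q : V n} {ε : ℝ} (hε : 0 ≤ ε)
    (h : ‖(p - q) - (E.starProjection z - E.starProjection w)‖
      ≤ ε * ‖E.starProjection z - E.starProjection w‖) :
    ‖((p + ⟪ω, z - p⟫_ℂ • ω) - (q + ⟪ω, w - q⟫_ℂ • ω)) -
      ((E ⊔ ℂ ∙ ω).starProjection z - (E ⊔ ℂ ∙ ω).starProjection w)‖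
      ≤ ε * ‖(E ⊔ ℂ ∙ ω).starProjection z - (E ⊔ ℂ ∙ ω).starProjection w‖ := by
  set v : V n := (p - q) - (E.starProjection z - E.starProjection w) with hv
  have h1 : ((p + ⟪ω, z - p⟫_ℂ • ω) - (q + ⟪ω, w - q⟫_ℂ • ω)) -
      ((E ⊔ ℂ ∙ ω).starProjection z - (E ⊔ ℂ ∙ ω).starProjection w) = v - ⟪ω, v⟫_ℂ • ω := by
    have h2 : ⟪ω, v⟫_ℂ = ⟪ω, p⟫_ℂ - ⟪ω, q⟫_ℂ := by
      rw [hv, inner_sub_right, inner_sub_right, inner_sub_right, ft11_inner_proj hωE,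
        ft11_inner_proj hωE]
      ring
    rw [ft11_proj_sup E ω hω hωE, ft11_proj_sup E ω hω hωE, h2, hv, inner_sub_right,
      inner_sub_right]
    module
  rw [h1]
  refine (ft11_contr hω v).trans (h.trans ?_)
  apply mul_le_mul_of_nonneg_left _ hε
  rw [← map_sub, ← map_sub]
  exact ft11_norm_of_le le_sup_left _

theorem newc_cen (𝒰 : Ultrafilter ℕ) (E : Submodule ℂ (V n)) (ω : V n) (hω : ‖ω‖ = 1)
    (hωE : ω ∈ Eᗮ)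
    (b Y b₂ Y₂ : ℕ → V n) (R R' R₂ R₂' : ℕ → ℝ)
    (hb : ∀ᶠ j in (𝒰 : Filter ℕ), ‖E.starProjection (b₂ j - b j)‖ + R₂ j ≤ R j)
    (hY : ∀ᶠ j in (𝒰 : Filter ℕ), ‖E.starProjection (Y₂ j - Y j)‖ + R₂' j ≤ R' j)
    (𝓕 𝓕₂ : Subring (Pr n)) (hF : 𝓕 ≤ 𝓕₂) (hc : ∀ c, cst c ∈ 𝓕₂) (a : Fin n → Pr n)
    (hu : uu a ω ∈ 𝓕₂)
    (hcen : IsCen 𝒰 (stDm E b Y R R') 𝓕 a) (hslp : Slp 𝒰 (stDm E b Y R R') a) :
    IsCen 𝒰 (stDm (E ⊔ ℂ ∙ ω) b₂ Y₂ R₂ R₂') 𝓕₂ (newc a ω) ∧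
    Slp 𝒰 (stDm (E ⊔ ℂ ∙ ω) b₂ Y₂ R₂ R₂') (newc a ω) := by
  have hsub := ft11_sub 𝒰 (le_sup_left : E ≤ E ⊔ ℂ ∙ ω) hb hY
  refine ⟨⟨fun i => ?_, ?_⟩, ?_⟩
  · exact 𝓕₂.add_mem (hF (hcen.mem i)) (𝓕₂.mul_mem hu (hc _))
  · filter_upwards [hcen.proj, hsub] with j h1 h2
    refine ⟨fun z hz => ?_, fun z hz => ?_⟩
    · rw [ft11_pt_newc]
      exact ft11_newc_proj hω hωE (h1.1 z (h2.1 hz))
    · rw [ft11_fr_newc]
      exact ft11_newc_proj hω hωE (h1.2 z (h2.2 hz))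
  · intro ε hε
    filter_upwards [hslp ε hε, hsub] with j h1 h2
    refine ⟨fun z hz w hw => ?_, fun z hz w hw => ?_⟩
    · rw [ft11_pt_newc, ft11_pt_newc]
      exact ft11_newc_slp hω hωE hε.le (h1.1 z (h2.1 hz) w (h2.1 hw))
    · rw [ft11_fr_newc, ft11_fr_newc]
      exact ft11_newc_slp hω hωE hε.le (h1.2 z (h2.2 hz) w (h2.2 hw))

/-! #### The component in the direction `ω` -/

theorem ft11_uu_diff {ω : V n} {U : Set (V n)} {p : V n → V n}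
    (hp : ∀ i, DifferentiableOn ℂ (fun z => p z i) U) :
    DifferentiableOn ℂ (fun z => ⟪ω, z - p z⟫_ℂ) U := by
  have h1 : DifferentiableOn ℂ p U := by
    rw [differentiableOn_euclidean]
    exact hp
  exact ((innerSL ℂ ω).differentiable.comp_differentiableOn (differentiableOn_id.sub h1))

theorem ft11_uu_lt {E : Submodule ℂ (V n)} {ω : V n} (hω : ‖ω‖ = 1) (hωE : ω ∈ Eᗮ)
    {z b₂ p q : V n} {R₂ ξ ε : ℝ}
    (hz : ‖(E ⊔ ℂ ∙ ω).starProjection (z - b₂)‖ < R₂)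
    (h1 : ‖(p - q) - (E.starProjection z - E.starProjection b₂)‖
      ≤ 1 * ‖E.starProjection z - E.starProjection b₂‖)
    (h2 : 4 * R₂ ≤ ε * ξ) (h3 : 2 * ‖b₂ - q - (ξ : ℂ) • ω‖ ≤ ε * ξ) :
    ‖⟪ω, z - p⟫_ℂ - (1 : ℂ) * (ξ : ℂ)‖ ≤ ε * ξ := by
  have h4 : ⟪ω, z - p⟫_ℂ - (1 : ℂ) * (ξ : ℂ) = ⟪ω, b₂ - q - (ξ : ℂ) • ω⟫_ℂ +
      ⟪ω, (E ⊔ ℂ ∙ ω).starProjection (z - b₂)⟫_ℂ -
      ⟪ω, (p - q) - (E.starProjection z - E.starProjection b₂)⟫_ℂ := by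
    rw [ft11_proj_sup E ω hω hωE]
    simp only [inner_sub_right, inner_add_right, inner_smul_right, ft11_inner_proj hωE,
      ft11_self hω]
    ring
  have h5 : ‖⟪ω, b₂ - q - (ξ : ℂ) • ω⟫_ℂ‖ ≤ ‖b₂ - q - (ξ : ℂ) • ω‖ := by
    have := norm_inner_le_norm (𝕜 := ℂ) ω (b₂ - q - (ξ : ℂ) • ω)
    rwa [hω, one_mul] at this
  have h6 : ‖⟪ω, (E ⊔ ℂ ∙ ω).starProjection (z - b₂)⟫_ℂ‖ ≤
      ‖(E ⊔ ℂ ∙ ω).starProjection (z - b₂)‖ := by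
    have := norm_inner_le_norm (𝕜 := ℂ) ω ((E ⊔ ℂ ∙ ω).starProjection (z - b₂))
    rwa [hω, one_mul] at this
  have h7 : ‖⟪ω, (p - q) - (E.starProjection z - E.starProjection b₂)⟫_ℂ‖ ≤
      ‖(p - q) - (E.starProjection z - E.starProjection b₂)‖ := by
    have := norm_inner_le_norm (𝕜 := ℂ) ω ((p - q) - (E.starProjection z - E.starProjection b₂))
    rwa [hω, one_mul] at this
  have h8 : ‖E.starProjection z - E.starProjection b₂‖ ≤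
      ‖(E ⊔ ℂ ∙ ω).starProjection (z - b₂)‖ := by
    rw [← map_sub]
    exact ft11_norm_of_le le_sup_left _
  rw [h4]
  refine (norm_sub_le _ _).trans ?_
  have h9 := norm_add_le (⟪ω, b₂ - q - (ξ : ℂ) • ω⟫_ℂ)
    (⟪ω, (E ⊔ ℂ ∙ ω).starProjection (z - b₂)⟫_ℂ)
  linarith

theorem uu_hol (𝒰 : Ultrafilter ℕ) (E : Submodule ℂ (V n)) (ω : V n) (hω : ‖ω‖ = 1)
    (hωE : ω ∈ Eᗮ)
    (b Y b₂ Y₂ : ℕ → V n) (R R' R₂ R₂' : ℕ → ℝ)
    (hb : ∀ᶠ j in (𝒰 : Filter ℕ), ‖E.starProjection (b₂ j - b j)‖ + R₂ j ≤ R j)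
    (hY : ∀ᶠ j in (𝒰 : Filter ℕ), ‖E.starProjection (Y₂ j - Y j)‖ + R₂' j ≤ R' j)
    {Γ : Type} (τ τ' : Γ → ℕ → ℝ) (𝓕 : Subring (Pr n))
    (h𝓕 : GoodRing 𝒰 (stDm E b Y R R') τ τ' 𝓕) (a : Fin n → Pr n)
    (hcen : IsCen 𝒰 (stDm E b Y R R') 𝓕 a) (hslp : Slp 𝒰 (stDm E b Y R R') a)
    (ξ ξ' : ℕ → ℝ) (hξ0 : ∀ j, 0 < ξ j ∧ 0 < ξ' j) (hR₂ : LL 𝒰 R₂ ξ) (hR₂' : LL 𝒰 R₂' ξ')
    (hu : LL 𝒰 (fun j => ‖b₂ j - pt a j (b₂ j) - (ξ j : ℂ) • ω‖) ξ)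
    (hU : LL 𝒰 (fun j => ‖Y₂ j - fr a j (Y₂ j) - (ξ' j : ℂ) • ω‖) ξ')
    (hR₂0 : ∀ j, 0 < R₂ j ∧ 0 < R₂' j) :
    Hol 𝒰 (stDm (E ⊔ ℂ ∙ ω) b₂ Y₂ R₂ R₂') (uu a ω) ∧
    LT 𝒰 (stDm (E ⊔ ℂ ∙ ω) b₂ Y₂ R₂ R₂') (uu a ω) 1 ξ ξ' := by
  have hle : E ≤ E ⊔ ℂ ∙ ω := le_sup_left
  have hsub := ft11_sub 𝒰 hle hb hY
  have hhol : ∀ i, Hol 𝒰 (stDm (E ⊔ ℂ ∙ ω) b₂ Y₂ R₂ R₂') (a i) := fun i =>
    ft11_hol 𝒰 hle hb hY (h𝓕.good _ (hcen.mem i)).1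
  have hall : ∀ᶠ j in (𝒰 : Filter ℕ), ∀ i : Fin n,
      (DifferentiableOn ℂ ((a i).1 j) ((stDm (E ⊔ ℂ ∙ ω) b₂ Y₂ R₂ R₂').C j) ∧
        ∀ z ∈ (stDm (E ⊔ ℂ ∙ ω) b₂ Y₂ R₂ R₂').C j,
          (a i).1 j ((stDm (E ⊔ ℂ ∙ ω) b₂ Y₂ R₂ R₂').pr z) = (a i).1 j z) ∧
      (DifferentiableOn ℂ ((a i).2 j) ((stDm (E ⊔ ℂ ∙ ω) b₂ Y₂ R₂ R₂').C' j) ∧
        ∀ z ∈ (stDm (E ⊔ ℂ ∙ ω) b₂ Y₂ R₂ R₂').C' j,
          (a i).2 j ((stDm (E ⊔ ℂ ∙ ω) b₂ Y₂ R₂ R₂').pr z) = (a i).2 j z) :=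
    Filter.eventually_all.mpr hhol
  have hprω : ∀ z : V n, ⟪ω, (E ⊔ ℂ ∙ ω).starProjection z⟫_ℂ = ⟪ω, z⟫_ℂ := by
    intro z
    rw [ft11_proj_sup E ω hω hωE, inner_add_right, ft11_inner_proj hωE, inner_smul_right,
      ft11_self hω]
    ring
  constructor
  · filter_upwards [hall] with j h1
    refine ⟨⟨?_, fun z hz => ?_⟩, ⟨?_, fun z hz => ?_⟩⟩
    · exact ft11_uu_diff (p := fun z => pt a j z) (fun i => (h1 i).1.1)
    · have h2 : pt a j ((stDm (E ⊔ ℂ ∙ ω) b₂ Y₂ R₂ R₂').pr z) = pt a j z := by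
        ext i
        exact (h1 i).1.2 z hz
      simp only [uu]
      rw [h2, inner_sub_right, inner_sub_right]
      congr 1
      exact hprω z
    · exact ft11_uu_diff (p := fun z => fr a j z) (fun i => (h1 i).2.1)
    · have h2 : fr a j ((stDm (E ⊔ ℂ ∙ ω) b₂ Y₂ R₂ R₂').pr z) = fr a j z := by
        ext i
        exact (h1 i).2.2 z hz
      simp only [uu]
      rw [h2, inner_sub_right, inner_sub_right]
      congr 1
      exact hprω z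
  · intro ε hε
    filter_upwards [hsub, hslp 1 one_pos, hR₂ (4 / ε) (by positivity),
      hR₂' (4 / ε) (by positivity), hu (2 / ε) (by positivity), hU (2 / ε) (by positivity)]
      with j h1 h2 h3 h4 h5 h6
    have hb₂ : b₂ j ∈ (stDm (E ⊔ ℂ ∙ ω) b₂ Y₂ R₂ R₂').C j := by
      simp only [stDm, Set.mem_ofPred_eq, sub_self, map_zero, norm_zero]
      exact (hR₂0 j).1
    have hY₂ : Y₂ j ∈ (stDm (E ⊔ ℂ ∙ ω) b₂ Y₂ R₂ R₂').C' j := by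
      simp only [stDm, Set.mem_ofPred_eq, sub_self, map_zero, norm_zero]
      exact (hR₂0 j).2
    have key : ∀ x y : ℝ, ∀ m : ℝ, m / ε * x ≤ y → m * x ≤ ε * y := by
      intro x y m hxy
      have := mul_le_mul_of_nonneg_left hxy hε.le
      have h7 : ε * (m / ε * x) = m * x := by
        field_simp
      rwa [h7] at this
    refine ⟨fun z hz => ?_, fun z hz => ?_⟩
    · exact ft11_uu_lt hω hωE hz (h2.1 z (h1.1 hz) (b₂ j) (h1.1 hb₂)) (key _ _ _ h3)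
        (key _ _ _ h5)
    · exact ft11_uu_lt hω hωE hz (h2.2 z (h1.2 hz) (Y₂ j) (h1.2 hY₂)) (key _ _ _ h4)
        (key _ _ _ h6)

end Pool.Agent.H43.FT
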