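import Pool.Agent.H43.FT.Defs
import Pool.Agent.H43.FT.Sat
import Pool.Agent.H43.FT.Prof
import Pool.Agent.H43.FT.Res
import Pool.Agent.H43.FT.Max
import Pool.Agent.H43.FT.Pow

/-!
FT-21 : assembly of section 6.
-/

set_option autoImplicit false

open MvPolynomial Filter Topology Pool.Agent.H77.FB Pool.Agent.H60.FB Pool.Agent.H77.N2

namespace Pool.Agent.H43.FT

open scoped InnerProductSpace

variable {n : ℕ}

/-! ### FT-21 ExSt.lean -/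

/-- the displacement from the new centre -/
theorem ft21_disp (a p : Fin n → ℂ) (ω z : V n) (hω : ‖ω‖ = 1) (x : ℂ)
    (hp : ∀ i, p i = a i + ⟪ω, z - WithLp.toLp 2 a⟫_ℂ * ω i) :
    ‖z - WithLp.toLp 2 p‖ ≤ 2 * ‖z - WithLp.toLp 2 a - x • ω‖ := by
  have h1 : z - WithLp.toLp 2 p = (z - WithLp.toLp 2 a - x • ω) -
      ⟪ω, z - WithLp.toLp 2 a - x • ω⟫_ℂ • ω := by
    have h2 : ⟪ω, z - WithLp.toLp 2 a - x • ω⟫_ℂ = ⟪ω, z - WithLp.toLp 2 a⟫_ℂ - x := by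
      have h3 : ⟪ω, ω⟫_ℂ = 1 := by
        rw [inner_self_eq_norm_sq_to_K, hω]
        simp
      rw [inner_sub_right, inner_smul_right, h3, mul_one]
    rw [h2]
    ext i
    simp only [PiLp.sub_apply, PiLp.smul_apply, smul_eq_mul, hp]
    ring
  rw [h1]
  calc _ ≤ ‖z - WithLp.toLp 2 a - x • ω‖ + ‖⟪ω, z - WithLp.toLp 2 a - x • ω⟫_ℂ • ω‖ :=
        norm_sub_le _ _
    _ ≤ ‖z - WithLp.toLp 2 a - x • ω‖ + ‖z - WithLp.toLp 2 a - x • ω‖ := by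
        rw [norm_smul, hω, mul_one]
        have := norm_inner_le_norm (𝕜 := ℂ) ω (z - WithLp.toLp 2 a - x • ω)
        rw [hω, one_mul] at this
        linarith
    _ = _ := by ring

theorem ft21_pt (c : Fin n → Pr n) (ω : V n) (hω : ‖ω‖ = 1) (j : ℕ) (z : V n) (x : ℂ) :
    ‖z - pt (newc c ω) j z‖ ≤ 2 * ‖z - pt c j z - x • ω‖ :=
  ft21_disp (fun i => (c i).1 j z) (fun i => (newc c ω i).1 j z) ω z hω x (fun _ => rfl)

theorem ft21_fr (c : Fin n → Pr n) (ω : V n) (hω : ‖ω‖ = 1) (j : ℕ) (z : V n) (x : ℂ) :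
    ‖z - fr (newc c ω) j z‖ ≤ 2 * ‖z - fr c j z - x • ω‖ :=
  ft21_disp (fun i => (c i).2 j z) (fun i => (newc c ω i).2 j z) ω z hω x (fun _ => rfl)

theorem ft21_touch (M : V n → ℝ) (b Y : V n) (H H' r r' : ℝ) (hM : 0 ≤ M b) (hH : H ≤ H')
    (hr : r' ≤ r) (h : Touch M b Y H r) : Touch M b Y H' r' := by
  intro z hz
  refine (h z (hz.trans hr)).trans (mul_le_mul_of_nonneg_left ?_ hM)
  rw [Real.exp_le_exp]
  have h1 : 0 ≤ ‖z - b‖ ^ 2 := by positivity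
  nlinarith [mul_le_mul_of_nonneg_right hH h1]

/-- small radii with a slow divisor -/
theorem ft21_ll (𝒰 : Ultrafilter ℕ) (ξ : ℕ → ℝ) (hξ0 : ∀ j, 0 < ξ j) (i : ℕ → ℕ)
    (hi : Tendsto i 𝒰 atTop) : LL 𝒰 (fun j => ξ j / ((i j : ℝ) + 1)) ξ := by
  intro m hm
  obtain ⟨N, hN⟩ := exists_nat_ge m
  filter_upwards [hi.eventually_ge_atTop N] with j hj
  have h1 : (N : ℝ) ≤ (i j : ℝ) := by exact_mod_cast hj
  have h2 : (0 : ℝ) < (i j : ℝ) + 1 := by positivity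
  rw [← mul_div_assoc, div_le_iff₀ h2]
  have h3 := hξ0 j
  nlinarith

theorem ft21_ll2 (𝒰 : Ultrafilter ℕ) (ξ x d : ℕ → ℝ) (hd0 : ∀ j, 0 ≤ d j) (i : ℕ → ℕ)
    (hi : Tendsto i 𝒰 atTop) (hx : ∀ j, x j ≤ 2 * d j)
    (hd : ∀ᶠ j in (𝒰 : Filter ℕ), ((i j : ℝ) + 1) ^ 2 * d j ≤ ξ j) :
    LL 𝒰 x (fun j => ξ j / ((i j : ℝ) + 1)) := by
  intro m hm
  obtain ⟨N, hN⟩ := exists_nat_ge (2 * m)
  filter_upwards [hi.eventually_ge_atTop N, hd] with j hj hdj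
  have h1 : (N : ℝ) ≤ (i j : ℝ) := by exact_mod_cast hj
  have h2 : (0 : ℝ) < (i j : ℝ) + 1 := by positivity
  rw [le_div_iff₀ h2]
  have h3 := hd0 j
  have h4 : m * x j ≤ m * (2 * d j) := mul_le_mul_of_nonneg_left (hx j) hm.le
  have h5 : m * (2 * d j) ≤ ((i j : ℝ) + 1) * d j := by nlinarith
  nlinarith [mul_le_mul_of_nonneg_right (h4.trans h5) h2.le]

theorem exit_stage (𝒰 : Ultrafilter ℕ) (h𝒰 : (𝒰 : Filter ℕ) ≤ atTop)
    (h : ℕ → (Fin n → ℂ) → ℂ) (A : ℕ → ℝ)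
    (b₀ Y₀ : ℕ → V n) {Γ : Type} [AddCommGroup Γ] [Module ℚ Γ] (τ τ' : Γ → ℕ → ℝ)
    (E : Submodule ℂ (V n)) (b₁ Y₁ : ℕ → V n) (R R' : ℕ → ℝ)
    (𝓕 : Subring (Pr n)) (c : Fin n → Pr n) (b Y : ℕ → V n) (ω : V n) (ξ ξ' : ℕ → ℝ)
    (hex : Exit 𝒰 h A b₀ Y₀ τ τ' E b₁ Y₁ R R' 𝓕 c b Y ω ξ ξ') :
    ∃ (R₂ R₂' : ℕ → ℝ) (κ : ℕ → ℝ → ℝ) (𝓕₂ : Subring (Pr n)) (a : Fin n → Pr n),
      Stage 𝒰 h A b₀ Y₀ (ext τ ξ) (ext τ' ξ') (E ⊔ ℂ ∙ ω) b Y R₂ R₂' κ 𝓕₂ a := by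
  have : Countable Γ := hex.cnt
  have hξ0 : ∀ j, 0 < ξ j := fun j => (hex.hξ0 j).1
  have hξ0' : ∀ j, 0 < ξ' j := fun j => (hex.hξ0 j).2
  obtain ⟨κ, hκ⟩ := exists_prof 𝒰 h𝒰 (ext τ ξ) (ext τ' ξ') hex.scl
  -- the scale of `ξ`
  have hz : ∀ j, ext τ ξ (0, 0) j = 1 := by
    intro j
    have h1 := hex.scl.add 0 0 j
    rw [add_zero] at h1
    have h0 := hex.scl.pos 0 j
    have h2 : ext τ ξ 0 j * 1 = ext τ ξ 0 j * ext τ ξ 0 j := by rw [mul_one]; exact h1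
    exact (mul_left_cancel₀ h0.ne' h2).symm
  have hz' : ∀ j, ext τ' ξ' (0, 0) j = 1 := by
    intro j
    have h1 := hex.scl.add' 0 0 j
    rw [add_zero] at h1
    have h0 := hex.scl.pos' 0 j
    have h2 : ext τ' ξ' 0 j * 1 = ext τ' ξ' 0 j * ext τ' ξ' 0 j := by rw [mul_one]; exact h1
    exact (mul_left_cancel₀ h0.ne' h2).symm
  have hx : ext τ ξ (0, 1) = ξ := by
    funext j
    have h1 := hz j
    simp only [ext, Rat.cast_zero, Real.rpow_zero, mul_one] at h1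
    simp only [ext, h1, Rat.cast_one, Real.rpow_one, one_mul]
  have hx' : ext τ' ξ' (0, 1) = ξ' := by
    funext j
    have h1 := hz' j
    simp only [ext, Rat.cast_zero, Real.rpow_zero, mul_one] at h1
    simp only [ext, h1, Rat.cast_one, Real.rpow_one, one_mul]
  have hwin : ∀ t : ℝ, 0 < t →
      Tendsto (fun j => κ j (t * ξ j) * ξ j / ξ' j) 𝒰 (𝓝 1) := by
    intro t ht
    have h1 := hκ.win (0, 1) (by rw [hx]; exact hex.hξ) t ht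
    rwa [hx, hx'] at h1
  -- the choice of the slow divisor
  obtain ⟨i, hi, hi2⟩ := sat 𝒰 h𝒰 (fun m j =>
    ((m : ℝ) + 1) ^ 2 * ‖b j - pt c j (b j) - (ξ j : ℂ) • ω‖ ≤ ξ j ∧
    ((m : ℝ) + 1) ^ 2 * ‖Y j - fr c j (Y j) - (ξ' j : ℂ) • ω‖ ≤ ξ' j ∧
    ((m : ℝ) + 1) ^ 2 ≤ ξ j ∧ ((m : ℝ) + 1) ^ 2 ≤ ξ' j ∧
    κ j ((((m : ℝ) + 1) ^ 2)⁻¹ * ξ j) * ξ j / ξ' j ≤ 1 + 1 / ((m : ℝ) + 1)) (by
      intro m
      have hm : (0 : ℝ) < ((m : ℝ) + 1) ^ 2 := by positivity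
      have hm1 : (1 : ℝ) < 1 + 1 / ((m : ℝ) + 1) := by
        have : (0 : ℝ) < 1 / ((m : ℝ) + 1) := by positivity
        linarith
      filter_upwards [hex.hu _ hm, hex.hU _ hm, hex.hξ.eventually_ge_atTop (((m : ℝ) + 1) ^ 2),
        hex.hξ'.eventually_ge_atTop (((m : ℝ) + 1) ^ 2),
        (hwin _ (inv_pos.2 hm)).eventually_lt_const hm1] with j h1 h2 h3 h4 h5
      exact ⟨h1, h2, h3, h4, h5.le⟩)
  have hi0 : ∀ j, (0 : ℝ) < (i j : ℝ) + 1 := fun j => by positivity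
  have hiR : Tendsto (fun j => ((i j : ℕ) : ℝ)) 𝒰 atTop := tendsto_natCast_atTop_atTop.comp hi
  set R₂ : ℕ → ℝ := fun j => ξ j / ((i j : ℝ) + 1) with hR₂
  set R₂' : ℕ → ℝ := fun j => ξ' j / ((i j : ℝ) + 1) with hR₂'
  have hpos : ∀ j, 0 < R₂ j ∧ 0 < R₂' j := fun j =>
    ⟨div_pos (hξ0 j) (hi0 j), div_pos (hξ0' j) (hi0 j)⟩
  have hlR : LL 𝒰 R₂ ξ := ft21_ll 𝒰 ξ hξ0 i hi
  have hlR' : LL 𝒰 R₂' ξ' := ft21_ll 𝒰 ξ' hξ0' i hi
  have hb : ∀ᶠ j in (𝒰 : Filter ℕ), ‖E.starProjection (b j - b₁ j)‖ + R₂ j ≤ R j := by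
    filter_upwards [hex.inb 2 two_pos, hex.ξR 2 two_pos, hlR 1 one_pos] with j h1 h2 h3
    linarith
  have hY : ∀ᶠ j in (𝒰 : Filter ℕ), ‖E.starProjection (Y j - Y₁ j)‖ + R₂' j ≤ R' j := by
    filter_upwards [hex.inY 2 two_pos, hex.ξR', hlR' 2 two_pos] with j h1 h2 h3
    linarith
  -- the ring
  have hDok := stDm_ok 𝒰 (E ⊔ ℂ ∙ ω) b Y R₂ R₂' hpos
  have hring := ring_res 𝒰 E (E ⊔ ℂ ∙ ω) le_sup_left b₁ Y₁ b Y R R' R₂ R₂' hb hY τ τ' 𝓕 hex.ring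
  obtain ⟨huh, hult⟩ := uu_hol 𝒰 E ω hex.hω hex.hωE b₁ Y₁ b Y R R' R₂ R₂' hb hY τ τ' 𝓕 hex.ring c
    hex.cen hex.slp ξ ξ' hex.hξ0 hlR hlR' hex.hu hex.hU hpos
  obtain ⟨𝓢, h𝓢1, h𝓢2, h𝓢3⟩ := adj_pow 𝒰 h𝒰 _ hDok τ τ' ξ ξ' hex.hξ0 hex.scl 𝓕 hring (uu c ω)
    huh hult
  obtain ⟨𝓕₂, hF1, hF2, hF3⟩ := exists_max 𝒰 h𝒰 _ hDok (ext τ ξ) (ext τ' ξ') hex.scl 𝓢 h𝓢3
  obtain ⟨hcen, hslp⟩ := newc_cen 𝒰 E ω hex.hω hex.hωE b₁ Y₁ b Y R R' R₂ R₂' hb hY 𝓕 𝓕₂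
    (h𝓢1.trans hF1) hF2.cst c (hF1 h𝓢2) hex.cen hex.slp
  -- the window at the radius
  have hwinR : ∀ m : ℝ, 0 < m → Tendsto (fun j => κ j (R₂ j / m) * R₂ j / R₂' j) 𝒰 (𝓝 1) := by
    intro m hm
    have hlow := hwin 1 one_pos
    have hup : Tendsto (fun j => 1 + 1 / ((i j : ℝ) + 1)) 𝒰 (𝓝 1) := by
      have h1 : Tendsto (fun j => ((i j : ℝ) + 1)) 𝒰 atTop :=
        tendsto_atTop_add_const_right _ _ hiR
      have h2 := (h1.inv_tendsto_atTop).const_add 1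
      simpa using h2
    refine tendsto_of_tendsto_of_tendsto_of_le_of_le' hlow hup ?_ ?_
    · -- lower bound
      obtain ⟨N, hN⟩ := exists_nat_ge (1 / m)
      filter_upwards [hi.eventually_ge_atTop N] with j hj
      have h1 : (N : ℝ) ≤ (i j : ℝ) := by exact_mod_cast hj
      have h2 : 1 ≤ m * ((i j : ℝ) + 1) := by
        have h3 : 1 / m ≤ (i j : ℝ) + 1 := by linarith
        rw [div_le_iff₀ hm] at h3
        linarith
      have h4 : R₂ j / m ≤ 1 * ξ j := by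
        simp only [hR₂]
        rw [div_div, div_le_iff₀ (mul_pos (hi0 j) hm), one_mul]
        nlinarith [hξ0 j]
      have h5 := hκ.anti j _ _ (div_pos (hpos j).1 hm).le h4
      have h6 : κ j (R₂ j / m) * R₂ j / R₂' j = κ j (R₂ j / m) * ξ j / ξ' j := by
        simp only [hR₂, hR₂']
        have := (hi0 j).ne'
        have := (hξ0' j).ne'
        field_simp
      rw [h6]
      exact div_le_div_of_nonneg_right (mul_le_mul_of_nonneg_right h5 (hξ0 j).le) (hξ0' j).le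
    · obtain ⟨N, hN⟩ := exists_nat_ge m
      filter_upwards [hi.eventually_ge_atTop N, hi2] with j hj hj2
      have h1 : (N : ℝ) ≤ (i j : ℝ) := by exact_mod_cast hj
      have h4 : (((i j : ℝ) + 1) ^ 2)⁻¹ * ξ j ≤ R₂ j / m := by
        simp only [hR₂]
        rw [div_div, inv_mul_eq_div]
        refine div_le_div_of_nonneg_left (hξ0 j).le (mul_pos (hi0 j) hm) ?_
        nlinarith [hi0 j]
      have h0 : 0 ≤ (((i j : ℝ) + 1) ^ 2)⁻¹ * ξ j := by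
        have := hξ0 j
        positivity
      have h5 := hκ.anti j _ _ h0 h4
      have h6 : κ j (R₂ j / m) * R₂ j / R₂' j = κ j (R₂ j / m) * ξ j / ξ' j := by
        simp only [hR₂, hR₂']
        have := (hi0 j).ne'
        have := (hξ0' j).ne'
        field_simp
      rw [h6]
      refine le_trans ?_ hj2.2.2.2.2
      exact div_le_div_of_nonneg_right (mul_le_mul_of_nonneg_right h5 (hξ0 j).le) (hξ0' j).le
  have hRt : Tendsto R₂ 𝒰 atTop := by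
    refine tendsto_atTop_mono' _ ?_ hiR
    filter_upwards [hi2] with j hj
    simp only [hR₂]
    rw [le_div_iff₀ (hi0 j)]
    nlinarith [hj.2.2.1, hi0 j]
  have hRt' : Tendsto R₂' 𝒰 atTop := by
    refine tendsto_atTop_mono' _ ?_ hiR
    filter_upwards [hi2] with j hj
    simp only [hR₂']
    rw [le_div_iff₀ (hi0 j)]
    nlinarith [hj.2.2.2.1, hi0 j]
  refine ⟨R₂, R₂', κ, 𝓕₂, newc c ω, ?_⟩
  refine
    { cnt := inferInstance
      scl := hex.scl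
      prof := hκ
      hR := hRt
      hR' := hRt'
      hR0 := hpos
      leR := ?_
      winR := hwinR
      ring := hF2
      sph := hF3
      cen := hcen
      slp := hslp
      con := hex.con
      tch := ?_
      hu := ?_
      hU := ?_ }
  · filter_upwards [hex.leb, hlR 2 two_pos, hlR' 2 two_pos] with j h1 h2 h3
    constructor
    · linarith [h1.1]
    · linarith [h1.2]
  · intro ε hε
    obtain ⟨t, ht, htt⟩ := hex.tch (ε / 3) (by linarith)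
    have hw := hwinR 1 one_pos
    have hlt : 1 - ε / (3 * (1 + ε)) < 1 := by
      have : 0 < ε / (3 * (1 + ε)) := by positivity
      linarith
    filter_upwards [htt, hw.eventually_const_lt hlt, hlR (1 / t) (by positivity)] with j h1 h2 h3
    rw [div_one] at h2
    refine ft21_touch _ _ _ _ _ _ _ (norm_nonneg _) ?_ ?_ h1
    · have h4 : κ j (R₂ j) * R₂ j / R₂' j = κ j (R₂ j) * (ξ j / ξ' j) := by
        simp only [hR₂, hR₂']
        have := (hi0 j).ne'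
        have := (hξ0' j).ne'
        field_simp
      rw [h4] at h2
      have h5 : 0 < ξ' j / ξ j := div_pos (hξ0' j) (hξ0 j)
      have h6 := mul_le_mul_of_nonneg_right h2.le h5.le
      have h7 : κ j (R₂ j) * (ξ j / ξ' j) * (ξ' j / ξ j) = κ j (R₂ j) := by
        have := (hξ0 j).ne'
        have := (hξ0' j).ne'
        field_simp
      rw [h7] at h6
      have h8 : (1 + ε) * (1 - ε / (3 * (1 + ε))) = 1 + ε - ε / 3 := by
        field_simp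
      have h9 : (1 + ε / 3) ≤ (1 + ε) * (1 - ε / (3 * (1 + ε))) := by
        rw [h8]
        linarith
      calc (1 + ε / 3) * (ξ' j / ξ j) ≤ (1 + ε) * (1 - ε / (3 * (1 + ε))) * (ξ' j / ξ j) :=
            mul_le_mul_of_nonneg_right h9 h5.le
        _ = (1 + ε) * ((1 - ε / (3 * (1 + ε))) * (ξ' j / ξ j)) := by ring
        _ ≤ _ := mul_le_mul_of_nonneg_left h6 (by linarith)
    · rw [one_div, inv_mul_le_iff₀ ht] at h3
      exact h3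
  · refine ft21_ll2 𝒰 ξ _ _ (fun j => norm_nonneg _) i hi
      (fun j => ft21_pt c ω hex.hω j (b j) (ξ j : ℂ)) ?_
    filter_upwards [hi2] with j hj
    exact hj.1
  · refine ft21_ll2 𝒰 ξ' _ _ (fun j => norm_nonneg _) i hi
      (fun j => ft21_fr c ω hex.hω j (Y j) (ξ' j : ℂ)) ?_
    filter_upwards [hi2] with j hj
    exact hj.2.1

end Pool.Agent.H43.FT
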