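import Pool.Agent.H43.FT.Sat

/-!
The diagonal contact of a decreasing sequence of attained balls (MP_6e521b_an, row FT-15).
-/

set_option autoImplicit false

open MvPolynomial Filter Topology Pool.Agent.H77.FB Pool.Agent.H60.FB Pool.Agent.H77.N2

namespace Pool.Agent.H43.FT

open scoped InnerProductSpace

variable {n : ℕ}

/-- The bound of a vector by its components. -/
theorem ft15e_norm (x : V n) (M : ℝ) (hM : 0 ≤ M) (h : ∀ i, ‖x i‖ ≤ M) : ‖x‖ ≤ n * M := by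
  rw [EuclideanSpace.norm_eq]
  have h1 : ∑ i, ‖x i‖ ^ 2 ≤ (n * M) ^ 2 := by
    calc ∑ i, ‖x i‖ ^ 2 ≤ ∑ _i : Fin n, M ^ 2 :=
          Finset.sum_le_sum fun i _ => pow_le_pow_left₀ (norm_nonneg _) (h i) 2
      _ = n * M ^ 2 := by simp
      _ ≤ (n : ℝ) ^ 2 * M ^ 2 := by
          apply mul_le_mul_of_nonneg_right _ (sq_nonneg M)
          rcases Nat.eq_zero_or_pos n with hn | hn
          · subst hn; simp
          · have : (1 : ℝ) ≤ n := by exact_mod_cast hn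
            nlinarith
      _ = _ := by ring
  calc √(∑ i, ‖x i‖ ^ 2) ≤ √((n * M) ^ 2) := Real.sqrt_le_sqrt h1
    _ = n * M := Real.sqrt_sq (by positivity)

/-- The distance of two centres at a point. -/
theorem ft15e_pt {𝒰 : Ultrafilter ℕ} {D : Dm n} {c c' : Fin n → Pr n} {x x' : ℕ → ℝ}
    (h : ∀ i, Sm 𝒰 D (c i - c' i) x x') (hx : ∀ j, 0 ≤ x j) (hx' : ∀ j, 0 ≤ x' j) (ε : ℝ)
    (hε : 0 < ε) : ∀ᶠ j in (𝒰 : Filter ℕ), (∀ z ∈ D.C j, ‖pt c j z - pt c' j z‖ ≤ ε * x j) ∧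
      ∀ z ∈ D.C' j, ‖fr c j z - fr c' j z‖ ≤ ε * x' j := by
  have h1 : ∀ᶠ j in (𝒰 : Filter ℕ), ∀ i, (∀ z ∈ D.C j, ‖(c i - c' i).1 j z‖ ≤ ε / (n + 1) * x j) ∧
      ∀ z ∈ D.C' j, ‖(c i - c' i).2 j z‖ ≤ ε / (n + 1) * x' j :=
    eventually_all.2 fun i => h i _ (by positivity)
  have key : ∀ p : ℝ, 0 ≤ p → (n : ℝ) * (ε / (n + 1) * p) ≤ ε * p := by
    intro p hp
    have h2 : (n : ℝ) * (ε / (n + 1) * p) = (n / (n + 1)) * (ε * p) := by field_simp
    rw [h2]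
    have h3 : (n : ℝ) / (n + 1) ≤ 1 := by
      rw [div_le_one (by positivity)]; linarith
    have h4 : 0 ≤ ε * p := by positivity
    nlinarith
  filter_upwards [h1] with j h1
  refine ⟨fun z hz => ?_, fun z hz => ?_⟩
  · refine (ft15e_norm _ (ε / (n + 1) * x j) (by have := hx j; positivity) fun i => ?_).trans
      (key _ (hx j))
    exact (h1 i).1 z hz
  · refine (ft15e_norm _ (ε / (n + 1) * x' j) (by have := hx' j; positivity) fun i => ?_).trans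
      (key _ (hx' j))
    exact (h1 i).2 z hz

theorem ft15_diag (𝒰 : Ultrafilter ℕ) (h𝒰 : (𝒰 : Filter ℕ) ≤ atTop)
    (h : ℕ → (Fin n → ℂ) → ℂ) (A : ℕ → ℝ) (b₀ Y₀ : ℕ → V n) (E : Submodule ℂ (V n))
    (b₁ Y₁ : ℕ → V n) (R R' : ℕ → ℝ) (κ : ℕ → ℝ → ℝ) (c : Fin n → Pr n)
    (cs : ℕ → Fin n → Pr n) (T T' : ℕ → ℕ → ℝ) (bb YY : ℕ → ℕ → V n)
    (hpos : ∀ j R, 0 < κ j R) (hanti : ∀ j R T, 0 ≤ R → R ≤ T → κ j T ≤ κ j R)
    (hmono : ∀ j R T, 0 ≤ R → R ≤ T → R * κ j R ≤ T * κ j T)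
    (hR0 : ∀ j, 0 < R j ∧ 0 < R' j) (hT0 : ∀ l j, 0 < T l j) (hT0' : ∀ l j, 0 < T' l j)
    (hTt : ∀ l, Tendsto (T l) 𝒰 atTop)
    (hwin : ∀ l (m : ℝ), 0 < m →
      Tendsto (fun j => κ j (T l j / m) * T l j / T' l j) 𝒰 (𝓝 1))
    (hch : ∀ l, ∀ᶠ j in (𝒰 : Filter ℕ), T (l + 1) j ≤ T l j)
    (hc : ∀ l i, Sm 𝒰 (stDm E b₁ Y₁ R R') (c i - cs l i) (T l) (T' l))
    (hcon : ∀ l, Cont 𝒰 h A b₀ Y₀ (bb l) (YY l))
    (hinb : ∀ l, LL 𝒰 (fun j => ‖E.starProjection (bb l j - b₁ j)‖) R)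
    (hinY : ∀ l, LL 𝒰 (fun j => ‖E.starProjection (YY l j - Y₁ j)‖) R')
    (htch : ∀ l, TouchS 𝒰 h (bb l) (YY l) κ (T l))
    (hu : ∀ l, LL 𝒰 (fun j => ‖bb l j - pt (cs l) j (bb l j)‖) (T l))
    (hU : ∀ l, LL 𝒰 (fun j => ‖YY l j - fr (cs l) j (YY l j)‖) (T' l)) :
    ∃ (b Y : ℕ → V n) (ρ : ℕ → ℝ), Cont 𝒰 h A b₀ Y₀ b Y ∧
      LL 𝒰 (fun j => ‖E.starProjection (b j - b₁ j)‖) R ∧
      LL 𝒰 (fun j => ‖E.starProjection (Y j - Y₁ j)‖) R' ∧
      (∀ j, 0 < ρ j) ∧ Tendsto ρ 𝒰 atTop ∧ (∀ l, LL 𝒰 ρ (T l)) ∧ TouchS 𝒰 h b Y κ ρ ∧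
      LL 𝒰 (fun j => ‖b j - pt c j (b j)‖) ρ ∧
      LL 𝒰 (fun j => ‖Y j - fr c j (Y j)‖) (fun j => κ j (ρ j) * ρ j) := by
  -- the chain
  have hch' : ∀ l' l, l' ≤ l → ∀ᶠ j in (𝒰 : Filter ℕ), T l j ≤ T l' j := by
    intro l' l hl
    induction l, hl using Nat.le_induction with
    | base => exact Eventually.of_forall fun j => le_rfl
    | succ l _ ih =>
      filter_upwards [ih, hch l] with j h1 h2
      exact h2.trans h1
  -- the properties at level `l`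
  have hp : ∀ l : ℕ, ∀ᶠ j in (𝒰 : Filter ℕ),
      (∀ l' ∈ Finset.range (l + 1), T l j ≤ T l' j) ∧
      ((l : ℝ) + 1) ^ 2 ≤ T l j ∧
      (((l : ℝ) + 1) * ‖bb l j - b₀ j‖ ≤ ‖b₀ j‖ ∧ ((l : ℝ) + 1) * ‖YY l j - Y₀ j‖ ≤ ‖Y₀ j‖ ∧
        A j * Real.exp ((1 / 4 - 1 / ((l : ℝ) + 1)) * (‖b₀ j‖ * ‖Y₀ j‖)) ≤ MM (h j) (bb l j)) ∧
      (((l : ℝ) + 1) * ‖E.starProjection (bb l j - b₁ j)‖ ≤ R j ∧
        ((l : ℝ) + 1) * ‖E.starProjection (YY l j - Y₁ j)‖ ≤ R' j) ∧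
      Touch (MM (h j)) (bb l j) (YY l j) ((1 + 1 / ((l : ℝ) + 1)) * κ j (T l j)) (T l j) ∧
      (((l : ℝ) + 1) ^ 2 * ‖bb l j - pt c j (bb l j)‖ ≤ T l j ∧
        ((l : ℝ) + 1) ^ 2 * ‖YY l j - fr c j (YY l j)‖ ≤ T' l j) ∧
      T' l j ≤ 2 * (κ j (T l j / ((l : ℝ) + 1)) * T l j) := by
    intro l
    have hq : (0 : ℝ) < (l : ℝ) + 1 := by positivity
    have hq2 : (0 : ℝ) < ((l : ℝ) + 1) ^ 2 := by positivity
    have e1 : ∀ᶠ j in (𝒰 : Filter ℕ), ∀ l' ∈ Finset.range (l + 1), T l j ≤ T l' j := by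
      rw [Filter.eventually_all_finset]
      intro l' hl'
      exact hch' l' l (by rw [Finset.mem_range] at hl'; omega)
    have e2 : ∀ᶠ j in (𝒰 : Filter ℕ), ((l : ℝ) + 1) ^ 2 ≤ T l j :=
      (hTt l).eventually (eventually_ge_atTop _)
    have e3 := (hcon l).nb _ hq
    have e4 := (hcon l).nY _ hq
    have e5 := (hcon l).big (1 / ((l : ℝ) + 1)) (by positivity)
    have e6 := hinb l _ hq
    have e7 := hinY l _ hq
    have e8 := htch l (1 / ((l : ℝ) + 1)) (by positivity)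
    have e9 := hu l (2 * ((l : ℝ) + 1) ^ 2) (by positivity)
    have e10 := hU l (2 * ((l : ℝ) + 1) ^ 2) (by positivity)
    have e11 := ft15e_pt (hc l) (fun j => (hT0 l j).le) (fun j => (hT0' l j).le)
      (1 / (2 * ((l : ℝ) + 1) ^ 2)) (by positivity)
    have e12 := hinb l 2 (by norm_num)
    have e13 := hinY l 2 (by norm_num)
    have e14 : ∀ᶠ j in (𝒰 : Filter ℕ),
        1 / 2 < κ j (T l j / ((l : ℝ) + 1)) * T l j / T' l j :=
      (hwin l _ hq).eventually (lt_mem_nhds (by norm_num))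
    filter_upwards [e1, e2, e3, e4, e5, e6, e7, e8, e9, e10, e11, e12, e13, e14] with j e1 e2 e3 e4
      e5 e6 e7 e8 e9 e10 e11 e12 e13 e14
    refine ⟨e1, e2, ⟨e3, e4, e5⟩, ⟨e6, e7⟩, e8, ⟨?_, ?_⟩, ?_⟩
    · have hz : bb l j ∈ (stDm E b₁ Y₁ R R').C j := by
        show ‖E.starProjection (bb l j - b₁ j)‖ < R j
        have := (hR0 j).1
        linarith
      have h1 := e11.1 _ hz
      have h2 : ‖bb l j - pt c j (bb l j)‖
          ≤ ‖bb l j - pt (cs l) j (bb l j)‖ + ‖pt c j (bb l j) - pt (cs l) j (bb l j)‖ := by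
        have h3 : bb l j - pt c j (bb l j) = (bb l j - pt (cs l) j (bb l j))
          - (pt c j (bb l j) - pt (cs l) j (bb l j)) := by abel
        rw [h3]
        exact norm_sub_le _ _
      have h4 : ((l : ℝ) + 1) ^ 2 * (1 / (2 * ((l : ℝ) + 1) ^ 2) * T l j) = T l j / 2 := by
        field_simp
      have h5 := mul_le_mul_of_nonneg_left h1 hq2.le
      have h6 := mul_le_mul_of_nonneg_left h2 hq2.le
      rw [h4] at h5
      linarith
    · have hz : YY l j ∈ (stDm E b₁ Y₁ R R').C' j := by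
        show ‖E.starProjection (YY l j - Y₁ j)‖ < R' j
        have := (hR0 j).2
        linarith
      have h1 := e11.2 _ hz
      have h2 : ‖YY l j - fr c j (YY l j)‖
          ≤ ‖YY l j - fr (cs l) j (YY l j)‖ + ‖fr c j (YY l j) - fr (cs l) j (YY l j)‖ := by
        have h3 : YY l j - fr c j (YY l j) = (YY l j - fr (cs l) j (YY l j))
          - (fr c j (YY l j) - fr (cs l) j (YY l j)) := by abel
        rw [h3]
        exact norm_sub_le _ _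
      have h4 : ((l : ℝ) + 1) ^ 2 * (1 / (2 * ((l : ℝ) + 1) ^ 2) * T' l j) = T' l j / 2 := by
        field_simp
      have h5 := mul_le_mul_of_nonneg_left h1 hq2.le
      have h6 := mul_le_mul_of_nonneg_left h2 hq2.le
      rw [h4] at h5
      linarith
    · have h1 := hT0' l j
      rw [lt_div_iff₀ h1] at e14
      linarith
  obtain ⟨i, hi, hpi⟩ := sat 𝒰 h𝒰 _ hp
  have hir : Tendsto (fun j => (i j : ℝ)) 𝒰 atTop := tendsto_natCast_atTop_atTop.comp hi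
  have hbig : ∀ m : ℝ, ∀ᶠ j in (𝒰 : Filter ℕ), m ≤ (i j : ℝ) + 1 := by
    intro m
    filter_upwards [hir.eventually (eventually_ge_atTop m)] with j hj
    linarith
  have hρT : ∀ l, LL 𝒰 (fun j => T (i j) j / ((i j : ℝ) + 1)) (T l) := by
    intro l m hm
    filter_upwards [hpi, hbig m, hi.eventually (eventually_ge_atTop l)] with j h1 h2 h3
    have h4 := h1.1 l (Finset.mem_range.2 (by omega))
    have h5 : (0 : ℝ) < (i j : ℝ) + 1 := by positivity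
    have h6 := hT0 (i j) j
    calc m * (T (i j) j / ((i j : ℝ) + 1))
        ≤ ((i j : ℝ) + 1) * (T (i j) j / ((i j : ℝ) + 1)) := by gcongr
      _ = T (i j) j := by field_simp
      _ ≤ T l j := h4
  refine ⟨fun j => bb (i j) j, fun j => YY (i j) j, fun j => T (i j) j / ((i j : ℝ) + 1),
    ⟨?_, ?_, ?_⟩, ?_, ?_, ?_, ?_, hρT, ?_, ?_, ?_⟩
  · intro m hm
    filter_upwards [hpi, hbig m] with j h1 h2
    refine le_trans ?_ h1.2.2.1.1
    gcongr
  · intro m hm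
    filter_upwards [hpi, hbig m] with j h1 h2
    refine le_trans ?_ h1.2.2.1.2.1
    gcongr
  · intro ε hε
    filter_upwards [hpi, hbig (1 / ε)] with j h1 h2
    have h3 : (0 : ℝ) < (i j : ℝ) + 1 := by positivity
    have h4 : 1 / ((i j : ℝ) + 1) ≤ ε := by
      rw [div_le_iff₀ hε] at h2
      rw [div_le_iff₀ h3]
      linarith
    have h5 := h1.2.2.1.2.2
    by_cases hA : 0 ≤ A j
    · refine le_trans ?_ h5
      apply mul_le_mul_of_nonneg_left _ hA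
      apply Real.exp_le_exp.2
      apply mul_le_mul_of_nonneg_right _ (by positivity)
      linarith
    · have h6 : A j * Real.exp ((1 / 4 - ε) * (‖b₀ j‖ * ‖Y₀ j‖)) ≤ 0 :=
        mul_nonpos_of_nonpos_of_nonneg (not_le.1 hA).le (Real.exp_pos _).le
      exact h6.trans (norm_nonneg _)
  · intro m hm
    filter_upwards [hpi, hbig m] with j h1 h2
    refine le_trans ?_ h1.2.2.2.1.1
    gcongr
  · intro m hm
    filter_upwards [hpi, hbig m] with j h1 h2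
    refine le_trans ?_ h1.2.2.2.1.2
    gcongr
  · intro j
    have := hT0 (i j) j
    positivity
  · refine tendsto_atTop.2 fun m => ?_
    filter_upwards [hpi, hbig m] with j h1 h2
    have h3 : (0 : ℝ) < (i j : ℝ) + 1 := by positivity
    refine h2.trans ?_
    rw [le_div_iff₀ h3]
    have := h1.2.1
    nlinarith
  · intro ε hε
    filter_upwards [hpi, hbig (1 / ε)] with j h1 h2
    have h3 : (0 : ℝ) < (i j : ℝ) + 1 := by positivity
    have h3' : (1 : ℝ) ≤ (i j : ℝ) + 1 := by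
      have : (0 : ℝ) ≤ i j := Nat.cast_nonneg _
      linarith
    have h4 : 1 / ((i j : ℝ) + 1) ≤ ε := by
      rw [div_le_iff₀ hε] at h2
      rw [div_le_iff₀ h3]
      linarith
    have h5 := h1.2.2.2.2.1
    have h6 := hT0 (i j) j
    have h7 : T (i j) j / ((i j : ℝ) + 1) ≤ T (i j) j := div_le_self h6.le h3'
    have h8 := hanti j _ _ (by positivity) h7
    intro z hz
    refine (h5 z (hz.trans h7)).trans ?_
    apply mul_le_mul_of_nonneg_left _ (norm_nonneg _)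
    apply Real.exp_le_exp.2
    have h9 : (1 + 1 / ((i j : ℝ) + 1)) * κ j (T (i j) j)
        ≤ (1 + ε) * κ j (T (i j) j / ((i j : ℝ) + 1)) := by
      have h10 := hpos j (T (i j) j)
      have h11 := hpos j (T (i j) j / ((i j : ℝ) + 1))
      gcongr
    have h12 : 0 ≤ ‖z - bb (i j) j‖ ^ 2 := by positivity
    nlinarith
  · intro m hm
    filter_upwards [hpi, hbig m] with j h1 h2
    have h3 : (0 : ℝ) < (i j : ℝ) + 1 := by positivity
    have h4 := h1.2.2.2.2.2.1.1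
    have h5 := norm_nonneg (bb (i j) j - pt c j (bb (i j) j))
    rw [le_div_iff₀ h3]
    calc m * ‖bb (i j) j - pt c j (bb (i j) j)‖ * ((i j : ℝ) + 1)
        ≤ ((i j : ℝ) + 1) * ‖bb (i j) j - pt c j (bb (i j) j)‖ * ((i j : ℝ) + 1) := by gcongr
      _ = ((i j : ℝ) + 1) ^ 2 * ‖bb (i j) j - pt c j (bb (i j) j)‖ := by ring
      _ ≤ _ := h4
  · intro m hm
    filter_upwards [hpi, hbig (2 * m)] with j h1 h2
    have h3 : (0 : ℝ) < (i j : ℝ) + 1 := by positivity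
    have h4 := h1.2.2.2.2.2.1.2
    have h5 := norm_nonneg (YY (i j) j - fr c j (YY (i j) j))
    have h6 := h1.2.2.2.2.2.2
    have h7 : 2 * m * (((i j : ℝ) + 1) * ‖YY (i j) j - fr c j (YY (i j) j)‖)
        ≤ ((i j : ℝ) + 1) * (((i j : ℝ) + 1) * ‖YY (i j) j - fr c j (YY (i j) j)‖) := by gcongr
    have h8 : κ j (T (i j) j / ((i j : ℝ) + 1)) * (T (i j) j / ((i j : ℝ) + 1))
        = (κ j (T (i j) j / ((i j : ℝ) + 1)) * T (i j) j) / ((i j : ℝ) + 1) := by ring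
    show m * ‖YY (i j) j - fr c j (YY (i j) j)‖
      ≤ κ j (T (i j) j / ((i j : ℝ) + 1)) * (T (i j) j / ((i j : ℝ) + 1))
    rw [h8, le_div_iff₀ h3]
    have h9 : ((i j : ℝ) + 1) * (((i j : ℝ) + 1) * ‖YY (i j) j - fr c j (YY (i j) j)‖)
        = ((i j : ℝ) + 1) ^ 2 * ‖YY (i j) j - fr c j (YY (i j) j)‖ := by ring
    rw [h9] at h7
    linarith

end Pool.Agent.H43.FT
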