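import Pool.Agent.H43.FT.Defs

/-!
# FT-15, part: the projection of a centre
-/

set_option autoImplicit false

open MvPolynomial Filter Topology Pool.Agent.H77.FB Pool.Agent.H60.FB Pool.Agent.H77.N2

namespace Pool.Agent.H43.FT

open scoped InnerProductSpace

variable {n : ℕ}

/-- the matrix of the projection on `Eᗮ` -/
noncomputable def ft15_Q (E : Submodule ℂ (V n)) (i l : Fin n) : ℂ :=
  (EuclideanSpace.single l (1 : ℂ) - E.starProjection (EuclideanSpace.single l (1 : ℂ))) i

theorem ft15_basis (v : V n) : v = ∑ l, v l • EuclideanSpace.single l (1 : ℂ) := by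
  ext k
  simp [Finset.sum_apply, Pi.single_apply]

theorem ft15_Q_apply (E : Submodule ℂ (V n)) (v : V n) (i : Fin n) :
    (v - E.starProjection v) i = ∑ l, ft15_Q E i l * v l := by
  have hv := ft15_basis v
  have h1 : v - E.starProjection v = ∑ l, v l • (EuclideanSpace.single l (1 : ℂ)
      - E.starProjection (EuclideanSpace.single l (1 : ℂ))) := by
    nth_rewrite 1 2 [hv]
    rw [map_sum, ← Finset.sum_sub_distrib]
    refine Finset.sum_congr rfl fun l _ => ?_
    rw [map_smul, smul_sub]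
  rw [h1]
  unfold ft15_Q
  simp only [WithLp.ofLp_sum, Finset.sum_apply, PiLp.smul_apply, smul_eq_mul]
  exact Finset.sum_congr rfl fun l _ => mul_comm _ _

/-- the corrected centre -/
noncomputable def ft15_c (E : Submodule ℂ (V n)) (a d : Fin n → Pr n) (i : Fin n) : Pr n :=
  a i + ∑ l, cst (ft15_Q E i l) * (d l - a l)

theorem ft15_sum_fst (s : Finset (Fin n)) (f : Fin n → Pr n) (j : ℕ) (z : V n) :
    (∑ l ∈ s, f l).1 j z = ∑ l ∈ s, (f l).1 j z := by
  classical
  induction s using Finset.induction_on with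
  | empty => simp
  | insert x s hx ih => rw [Finset.sum_insert hx, Finset.sum_insert hx, ← ih]; rfl

theorem ft15_sum_snd (s : Finset (Fin n)) (f : Fin n → Pr n) (j : ℕ) (z : V n) :
    (∑ l ∈ s, f l).2 j z = ∑ l ∈ s, (f l).2 j z := by
  classical
  induction s using Finset.induction_on with
  | empty => simp
  | insert x s hx ih => rw [Finset.sum_insert hx, Finset.sum_insert hx, ← ih]; rfl

theorem ft15_pt (E : Submodule ℂ (V n)) (a d : Fin n → Pr n) (j : ℕ) (z : V n) :
    pt (ft15_c E a d) j z = pt a j z + ((pt d j z - pt a j z)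
      - E.starProjection (pt d j z - pt a j z)) := by
  ext i
  rw [PiLp.add_apply, ft15_Q_apply]
  change (a i + ∑ l, cst (ft15_Q E i l) * (d l - a l)).1 j z = _
  have h1 : (a i + ∑ l, cst (ft15_Q E i l) * (d l - a l)).1 j z
      = (a i).1 j z + (∑ l, cst (ft15_Q E i l) * (d l - a l)).1 j z := rfl
  rw [h1, ft15_sum_fst]
  rfl

theorem ft15_fr (E : Submodule ℂ (V n)) (a d : Fin n → Pr n) (j : ℕ) (z : V n) :
    fr (ft15_c E a d) j z = fr a j z + ((fr d j z - fr a j z)
      - E.starProjection (fr d j z - fr a j z)) := by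
  ext i
  rw [PiLp.add_apply, ft15_Q_apply]
  change (a i + ∑ l, cst (ft15_Q E i l) * (d l - a l)).2 j z = _
  have h1 : (a i + ∑ l, cst (ft15_Q E i l) * (d l - a l)).2 j z
      = (a i).2 j z + (∑ l, cst (ft15_Q E i l) * (d l - a l)).2 j z := rfl
  rw [h1, ft15_sum_snd]
  rfl

theorem ft15_proj (E : Submodule ℂ (V n)) (p q : V n) :
    E.starProjection (p + (q - E.starProjection q)) = E.starProjection p := by
  rw [map_add, map_sub]
  have h1 : E.starProjection (E.starProjection q) = E.starProjection q :=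
    Submodule.starProjection_eq_self_iff.2 (Submodule.starProjection_apply_mem _ _)
  rw [h1, sub_self, add_zero]

theorem ft15_norm (E : Submodule ℂ (V n)) (q : V n) : ‖q - E.starProjection q‖ ≤ ‖q‖ := by
  have h1 := Submodule.norm_sq_eq_add_norm_sq_starProjection q E
  have h2 : (Eᗮ).starProjection q = q - E.starProjection q :=
    Submodule.starProjection_orthogonal_val q
  rw [h2] at h1
  refine (abs_le_of_sq_le_sq' ?_ (norm_nonneg _)).2
  nlinarith [sq_nonneg ‖E.starProjection q‖]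

theorem ft15_le_sum (v : V n) : ‖v‖ ≤ ∑ l, ‖v l‖ := by
  have hv := ft15_basis v
  calc ‖v‖ = ‖∑ l, v l • EuclideanSpace.single l (1 : ℂ)‖ := by rw [← hv]
    _ ≤ ∑ l, ‖v l • EuclideanSpace.single l (1 : ℂ)‖ := norm_sum_le _ _
    _ = ∑ l, ‖v l‖ := by
      refine Finset.sum_congr rfl fun l _ => ?_
      rw [norm_smul]
      simp

/-- the estimate for one position -/
theorem ft15_est (E : Submodule ℂ (V n)) (pa pd pc w : V n)
    (ha : E.starProjection pa = E.starProjection w)
    (hc : E.starProjection pc = E.starProjection w) (i : Fin n) (ε : ℝ)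
    (h : ∀ l, ‖pd l - pc l‖ ≤ ε) :
    ‖(pa + ((pd - pa) - E.starProjection (pd - pa))) i - pc i‖ ≤ n * ε := by
  have h1 : pa + ((pd - pa) - E.starProjection (pd - pa)) - pc
      = (pd - pc) - E.starProjection (pd - pc) := by
    rw [map_sub, map_sub, ha, hc]
    abel
  have h2 : (pa + ((pd - pa) - E.starProjection (pd - pa))) i - pc i
      = ((pd - pc) - E.starProjection (pd - pc)) i := by
    rw [← h1]
    rfl
  rw [h2]
  refine (PiLp.norm_apply_le _ i).trans ((ft15_norm E _).trans ((ft15_le_sum _).trans ?_))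
  calc ∑ l, ‖(pd - pc) l‖ ≤ ∑ _l : Fin n, ε := Finset.sum_le_sum fun l _ => h l
    _ = n * ε := by simp

theorem proj_fix (𝒰 : Ultrafilter ℕ) (E : Submodule ℂ (V n)) (b Y : ℕ → V n) (R R' : ℕ → ℝ)
    (𝓕 : Subring (Pr n)) (hc : ∀ c, cst c ∈ 𝓕) (a d : Fin n → Pr n)
    (ha : IsCen 𝒰 (stDm E b Y R R') 𝓕 a) (hd : ∀ i, d i ∈ 𝓕) :
    ∃ c : Fin n → Pr n, IsCen 𝒰 (stDm E b Y R R') 𝓕 c ∧
      ∀ (c' : Fin n → Pr n) (x x' : ℕ → ℝ), IsCen 𝒰 (stDm E b Y R R') 𝓕 c' →
        (∀ i, Sm 𝒰 (stDm E b Y R R') (d i - c' i) x x') →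
          ∀ i, Sm 𝒰 (stDm E b Y R R') (c i - c' i) x x' := by
  refine ⟨ft15_c E a d, ⟨fun i => ?_, ?_⟩, ?_⟩
  · exact 𝓕.add_mem (ha.mem i) (𝓕.sum_mem fun l _ =>
      𝓕.mul_mem (hc _) (𝓕.sub_mem (hd l) (ha.mem l)))
  · filter_upwards [ha.proj] with j hj
    refine ⟨fun z hz => ?_, fun z hz => ?_⟩
    · rw [ft15_pt]
      exact (ft15_proj E _ _).trans (hj.1 z hz)
    · rw [ft15_fr]
      exact (ft15_proj E _ _).trans (hj.2 z hz)
  · intro c' x x' hc' hsm i ε hε
    have hn : 0 < n := i.pos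
    have hn' : (0 : ℝ) < n := by exact_mod_cast hn
    have hall : ∀ᶠ j in (𝒰 : Filter ℕ), ∀ l : Fin n,
        (∀ z ∈ (stDm E b Y R R').C j, ‖(d l - c' l).1 j z‖ ≤ ε / n * x j) ∧
          ∀ z ∈ (stDm E b Y R R').C' j, ‖(d l - c' l).2 j z‖ ≤ ε / n * x' j :=
      (Filter.eventually_all).2 fun l => hsm l (ε / n) (by positivity)
    filter_upwards [ha.proj, hc'.proj, hall] with j h1 h2 h3
    refine ⟨fun z hz => ?_, fun z hz => ?_⟩
    · have h4 := ft15_est E (pt a j z) (pt d j z) (pt c' j z) z (h1.1 z hz) (h2.1 z hz) i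
        (ε / n * x j) (fun l => (h3 l).1 z hz)
      rw [← ft15_pt] at h4
      refine le_trans h4 (le_of_eq ?_)
      field_simp
    · have h4 := ft15_est E (fr a j z) (fr d j z) (fr c' j z) z (h1.2 z hz) (h2.2 z hz) i
        (ε / n * x' j) (fun l => (h3 l).2 z hz)
      rw [← ft15_fr] at h4
      refine le_trans h4 (le_of_eq ?_)
      field_simp

end Pool.Agent.H43.FT
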