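import Pool.Agent.H43.FT.Sat
import Pool.Agent.H43.FT.ExhP
import Pool.Agent.H43.FT.ExhDiag

/-!
The exhaustion of the attained balls in a stage (MP_6e521b_an).
-/

set_option autoImplicit false

open MvPolynomial Filter Topology Pool.Agent.H77.FB Pool.Agent.H60.FB Pool.Agent.H77.N2

namespace Pool.Agent.H43.FT

open scoped InnerProductSpace

variable {n : ℕ}

/-- A sequence of attained balls with nothing attained below. -/
theorem ft15e_seq {X Γ : Type} (P : X → Prop) (r : X → X → Prop) (key : X → Option Γ)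
    (e : ℕ → Γ) (he : Function.Surjective e)
    (hirr : ∀ x y g, key x = some g → key y = some g → ¬ r x y) (x₀ : X) (h0 : P x₀) :
    ∃ x : ℕ → X, x 0 = x₀ ∧ (∀ l, P (x l)) ∧
      (∀ l, x (l + 1) = x l ∨ (r (x l) (x (l + 1)) ∧ ∃ g, key (x (l + 1)) = some g)) ∧
      ∀ y g, P y → key y = some g → (∀ l, r (x l) y) → False := by
  classical
  let step : ℕ → X → X := fun l x =>
    if H : ∃ y, P y ∧ key y = some (e l) ∧ r x y then H.choose else x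
  let x : ℕ → X := fun l => Nat.rec x₀ (fun l x => step l x) l
  have hx : ∀ l, x (l + 1) = step l (x l) := fun l => rfl
  have hstep : ∀ l x, (∃ y, P y ∧ key y = some (e l) ∧ r x y) →
      P (step l x) ∧ key (step l x) = some (e l) ∧ r x (step l x) := by
    intro l x H
    have h1 : step l x = H.choose := dif_pos H
    rw [h1]
    exact H.choose_spec
  have hstep' : ∀ l x, (¬ ∃ y, P y ∧ key y = some (e l) ∧ r x y) → step l x = x := by
    intro l x H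
    exact dif_neg H
  refine ⟨x, rfl, ?_, ?_, ?_⟩
  · intro l
    induction l with
    | zero => exact h0
    | succ l ih =>
      rw [hx]
      by_cases H : ∃ y, P y ∧ key y = some (e l) ∧ r (x l) y
      · exact (hstep l _ H).1
      · rw [hstep' l _ H]; exact ih
  · intro l
    rw [hx]
    by_cases H : ∃ y, P y ∧ key y = some (e l) ∧ r (x l) y
    · right
      obtain ⟨h1, h2, h3⟩ := hstep l _ H
      exact ⟨h3, e l, h2⟩
    · left
      exact hstep' l _ H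
  · intro y g hy hk hall
    obtain ⟨l, rfl⟩ := he g
    have H : ∃ y, P y ∧ key y = some (e l) ∧ r (x l) y := ⟨y, hy, hk, hall l⟩
    obtain ⟨h1, h2, h3⟩ := hstep l _ H
    rw [← hx] at h1 h2 h3
    exact hirr _ _ _ h2 hk (hall (l + 1))

/-- The scale of a level. -/
def ft15e_lv {Γ : Type} (τ : Γ → ℕ → ℝ) (R : ℕ → ℝ) : Option Γ → ℕ → ℝ
  | none => R
  | some g => τ g

/-- Attained levels. -/
structure Ft15At (𝒰 : Ultrafilter ℕ) (h : ℕ → (Fin n → ℂ) → ℂ)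
    (A : ℕ → ℝ) (b₀ Y₀ : ℕ → V n) (E : Submodule ℂ (V n)) (b₁ Y₁ : ℕ → V n) (R R' : ℕ → ℝ)
    (κ : ℕ → ℝ → ℝ) (𝓕 : Subring (Pr n)) (a : Fin n → Pr n) (c : Fin n → Pr n) (T T' : ℕ → ℝ)
    (b Y : ℕ → V n) : Prop where
  cen : IsCen 𝒰 (stDm E b₁ Y₁ R R') 𝓕 c
  near : ∀ i, Sm 𝒰 (stDm E b₁ Y₁ R R') (c i - a i) R R'
  hT : Tendsto T 𝒰 atTop
  con : Cont 𝒰 h A b₀ Y₀ b Y
  inb : LL 𝒰 (fun j => ‖E.starProjection (b j - b₁ j)‖) R
  inY : LL 𝒰 (fun j => ‖E.starProjection (Y j - Y₁ j)‖) R'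
  tch : TouchS 𝒰 h b Y κ T
  hu : LL 𝒰 (fun j => ‖b j - pt c j (b j)‖) T
  hU : LL 𝒰 (fun j => ‖Y j - fr c j (Y j)‖) T'

/-- Sums of small pairs. -/
theorem ft15e_add {𝒰 : Ultrafilter ℕ} {D : Dm n} {s t : Pr n} {x x' y y' z z' : ℕ → ℝ}
    (hs : Sm 𝒰 D s x x') (ht : Sm 𝒰 D t y y') (C : ℝ) (hC : 0 < C)
    (h1 : ∀ᶠ j in (𝒰 : Filter ℕ), x j ≤ C * z j) (h2 : ∀ᶠ j in (𝒰 : Filter ℕ), x' j ≤ C * z' j)
    (h3 : ∀ᶠ j in (𝒰 : Filter ℕ), y j ≤ C * z j)
    (h4 : ∀ᶠ j in (𝒰 : Filter ℕ), y' j ≤ C * z' j) : Sm 𝒰 D (s + t) z z' := by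
  intro ε hε
  have hδ : 0 < ε / (2 * C) := by positivity
  filter_upwards [hs _ hδ, ht _ hδ, h1, h2, h3, h4] with j hs ht h1 h2 h3 h4
  have key : ∀ p q : ℝ, p ≤ C * q → ε / (2 * C) * p ≤ ε / 2 * q := by
    intro p q hpq
    calc ε / (2 * C) * p ≤ ε / (2 * C) * (C * q) := mul_le_mul_of_nonneg_left hpq hδ.le
      _ = ε / 2 * q := by field_simp
  refine ⟨fun w hw => ?_, fun w hw => ?_⟩
  · have e1 := hs.1 w hw
    have e2 := ht.1 w hw
    have e3 := key _ _ h1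
    have e4 := key _ _ h3
    calc ‖(s + t).1 j w‖ ≤ ‖s.1 j w‖ + ‖t.1 j w‖ := norm_add_le _ _
      _ ≤ ε * z j := by linarith
  · have e1 := hs.2 w hw
    have e2 := ht.2 w hw
    have e3 := key _ _ h2
    have e4 := key _ _ h4
    calc ‖(s + t).2 j w‖ ≤ ‖s.2 j w‖ + ‖t.2 j w‖ := norm_add_le _ _
      _ ≤ ε * z' j := by linarith

/-- Comparison of the frequency scales. -/
theorem ft15e_cmp {𝒰 : Ultrafilter ℕ} {κ : ℕ → ℝ → ℝ} {T T' S S' : ℕ → ℝ}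
    (hpos : ∀ j R, 0 < κ j R)
    (hmono : ∀ j R T, 0 ≤ R → R ≤ T → R * κ j R ≤ T * κ j T)
    (hT : ∀ j, 0 < T j) (hT' : ∀ j, 0 < T' j) (hS : ∀ j, 0 < S j) (hS' : ∀ j, 0 < S' j)
    (h1 : Tendsto (fun j => κ j (T j / 1) * T j / T' j) 𝒰 (𝓝 1))
    (h2 : Tendsto (fun j => κ j (S j / 1) * S j / S' j) 𝒰 (𝓝 1))
    (hle : ∀ᶠ j in (𝒰 : Filter ℕ), T j ≤ S j) :
    ∀ᶠ j in (𝒰 : Filter ℕ), T' j ≤ 2 * S' j := by
  have e1 : ∀ᶠ j in (𝒰 : Filter ℕ), 4 / 5 < κ j (T j / 1) * T j / T' j :=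
    h1.eventually (lt_mem_nhds (by norm_num))
  have e2 : ∀ᶠ j in (𝒰 : Filter ℕ), κ j (S j / 1) * S j / S' j < 6 / 5 :=
    h2.eventually (gt_mem_nhds (by norm_num))
  filter_upwards [e1, e2, hle] with j e1 e2 hle
  rw [div_one, lt_div_iff₀ (hT' j)] at e1
  rw [div_one, div_lt_iff₀ (hS' j)] at e2
  have e3 := hmono j (T j) (S j) (hT j).le hle
  have e4 := hS' j
  linarith

/-- The windows of the levels. -/
theorem ft15e_win {𝒰 : Ultrafilter ℕ} {Γ : Type} {τ τ' : Γ → ℕ → ℝ} {R R' : ℕ → ℝ}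
    {κ : ℕ → ℝ → ℝ} (hκ : Prof 𝒰 τ τ' κ)
    (hR : ∀ m : ℝ, 0 < m → Tendsto (fun j => κ j (R j / m) * R j / R' j) 𝒰 (𝓝 1))
    (o : Option Γ) (ho : Tendsto (ft15e_lv τ R o) 𝒰 atTop) (m : ℝ) (hm : 0 < m) :
    Tendsto (fun j => κ j (ft15e_lv τ R o j / m) * ft15e_lv τ R o j / ft15e_lv τ' R' o j)
      𝒰 (𝓝 1) := by
  cases o with
  | none => exact hR m hm
  | some g =>
    have h1 := hκ.win g ho (1 / m) (by positivity)
    refine h1.congr fun j => ?_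
    show κ j (1 / m * τ g j) * τ g j / τ' g j = κ j (τ g j / m) * τ g j / τ' g j
    rw [one_div_mul_eq_div]

/-- The centre of a decreasing sequence of balls. -/
theorem ft15e_cen (𝒰 : Ultrafilter ℕ) {Γ : Type} [AddCommGroup Γ] [Module ℚ Γ]
    (τ τ' : Γ → ℕ → ℝ) (hS : Scl 𝒰 τ τ') (E : Submodule ℂ (V n)) (b₁ Y₁ : ℕ → V n)
    (R R' : ℕ → ℝ) (hR0 : ∀ j, 0 < R j ∧ 0 < R' j) (𝓕 : Subring (Pr n))
    (hF : GoodRing 𝒰 (stDm E b₁ Y₁ R R') τ τ' 𝓕) (hsph : Sph 𝒰 (stDm E b₁ Y₁ R R') τ τ' 𝓕)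
    (a : Fin n → Pr n) (ha : IsCen 𝒰 (stDm E b₁ Y₁ R R') 𝓕 a)
    (x : ℕ → (Fin n → Pr n) × Option Γ) (hx0 : x 0 = (a, none))
    (hcen : ∀ l, IsCen 𝒰 (stDm E b₁ Y₁ R R') 𝓕 (x l).1)
    (hnear : ∀ l i, Sm 𝒰 (stDm E b₁ Y₁ R R') ((x l).1 i - a i) R R')
    (hstep : ∀ l, x (l + 1) = x l ∨ ((LL 𝒰 (ft15e_lv τ R (x (l + 1)).2) (ft15e_lv τ R (x l).2) ∧
      ∀ i, Sm 𝒰 (stDm E b₁ Y₁ R R') ((x (l + 1)).1 i - (x l).1 i) (ft15e_lv τ R (x l).2)
        (ft15e_lv τ' R' (x l).2)) ∧ ∃ g, (x (l + 1)).2 = some g))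
    (hcmp : ∀ l, ∀ᶠ j in (𝒰 : Filter ℕ), ft15e_lv τ R (x l).2 j ≤ 2 * R j ∧
      ft15e_lv τ' R' (x l).2 j ≤ 2 * R' j) :
    ∃ c : Fin n → Pr n, IsCen 𝒰 (stDm E b₁ Y₁ R R') 𝓕 c ∧
      ∀ l i, Sm 𝒰 (stDm E b₁ Y₁ R R') (c i - (x l).1 i) (ft15e_lv τ R (x l).2)
        (ft15e_lv τ' R' (x l).2) := by
  classical
  -- the levels without scale are the first one
  have hnone : ∀ l, (x l).2 = none → x l = (a, none) := by
    intro l
    induction l with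
    | zero => intro _; exact hx0
    | succ l ih =>
      intro h1
      rcases hstep l with h2 | ⟨-, g, hg⟩
      · rw [h2] at h1 ⊢; exact ih h1
      · rw [hg] at h1; exact absurd h1 (by simp)
  have hsome : ∀ l g, (x l).2 = some g → ∃ g', (x (l + 1)).2 = some g' := by
    intro l g hg
    rcases hstep l with h2 | ⟨-, g', hg'⟩
    · exact ⟨g, by rw [h2]; exact hg⟩
    · exact ⟨g', hg'⟩
  by_cases hall : ∀ l, (x l).2 = none
  · refine ⟨a, ha, fun l i => ?_⟩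
    rw [hnone l (hall l)]
    intro ε hε
    refine Eventually.of_forall fun j => ⟨fun w _ => ?_, fun w _ => ?_⟩
    · simp only [sub_self]
      have h1 : 0 < R j := (hR0 j).1
      show ‖(0 : ℂ)‖ ≤ ε * R j
      rw [norm_zero]; positivity
    · simp only [sub_self]
      have h1 : 0 < R' j := (hR0 j).2
      show ‖(0 : ℂ)‖ ≤ ε * R' j
      rw [norm_zero]; positivity
  · push Not at hall
    set l₀ := Nat.find hall with hl₀
    have hl₀1 : (x l₀).2 ≠ none := Nat.find_spec hall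
    have hl₀2 : ∀ l < l₀, (x l).2 = none := fun l hl => by
      by_contra h1; exact Nat.find_min hall hl h1
    have hg : ∀ i, ∃ g, (x (l₀ + i)).2 = some g := by
      intro i
      induction i with
      | zero =>
        obtain ⟨g, hg⟩ := Option.ne_none_iff_exists'.1 hl₀1
        exact ⟨g, hg⟩
      | succ i ih =>
        obtain ⟨g, hg⟩ := ih
        exact hsome _ g hg
    choose G hG using hg
    have hd : ∀ k : Fin n, ∃ b ∈ 𝓕, ∀ i, Sm 𝒰 (stDm E b₁ Y₁ R R') (b - (x (l₀ + i)).1 k)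
        (τ (G i)) (τ' (G i)) := by
      intro k
      refine hsph (fun i => (x (l₀ + i)).1 k) G (fun i => (hcen _).mem k) fun i => ?_
      have h1 := hstep (l₀ + i)
      rw [show l₀ + i + 1 = l₀ + (i + 1) from rfl] at h1
      rcases h1 with h2 | ⟨⟨h3, h4⟩, -⟩
      · left
        refine ⟨by simp only [h2], ?_⟩
        have h5 := hG (i + 1)
        rw [h2, hG i] at h5
        exact (Option.some.inj h5).symm
      · right
        rw [hG (i + 1), hG i] at h3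
        have h5 := h4 k
        rw [hG i] at h5
        exact ⟨h3, h5⟩
    choose d hd1 hd2 using hd
    obtain ⟨c, hc1, hc2⟩ := proj_fix 𝒰 E b₁ Y₁ R R' 𝓕 hF.cst a d ha hd1
    refine ⟨c, hc1, fun l i => ?_⟩
    have key : ∀ m k, Sm 𝒰 (stDm E b₁ Y₁ R R') (c k - (x (l₀ + m)).1 k)
        (ft15e_lv τ R (x (l₀ + m)).2) (ft15e_lv τ' R' (x (l₀ + m)).2) := by
      intro m k
      rw [hG m]
      exact hc2 (x (l₀ + m)).1 _ _ (hcen _) (fun k => hd2 k m) k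
    rcases lt_or_ge l l₀ with h1 | h1
    · have h2 := hnone l (hl₀2 l h1)
      rw [h2]
      have h3 := key 0 i
      rw [add_zero] at h3
      have h4 := hnear l₀ i
      have h5 : c i - a i = (c i - (x l₀).1 i) + ((x l₀).1 i - a i) := by abel
      show Sm 𝒰 (stDm E b₁ Y₁ R R') (c i - a i) R R'
      rw [h5]
      refine ft15e_add h3 h4 2 (by norm_num) ?_ ?_ ?_ ?_
      · exact (hcmp l₀).mono fun j h => h.1
      · exact (hcmp l₀).mono fun j h => h.2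
      · exact Eventually.of_forall fun j => by have := (hR0 j).1; linarith
      · exact Eventually.of_forall fun j => by have := (hR0 j).2; linarith
    · obtain ⟨m, rfl⟩ := Nat.exists_eq_add_of_le h1
      exact key m i

theorem exhaust (𝒰 : Ultrafilter ℕ) (h𝒰 : (𝒰 : Filter ℕ) ≤ atTop)
    (h : ℕ → (Fin n → ℂ) → ℂ) (A : ℕ → ℝ) (b₀ Y₀ : ℕ → V n)
    {Γ : Type} [AddCommGroup Γ] [Module ℚ Γ] (τ τ' : Γ → ℕ → ℝ)
    (E : Submodule ℂ (V n)) (b₁ Y₁ : ℕ → V n) (R R' : ℕ → ℝ) (κ : ℕ → ℝ → ℝ)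
    (𝓕 : Subring (Pr n)) (a : Fin n → Pr n)
    (hst : Stage 𝒰 h A b₀ Y₀ τ τ' E b₁ Y₁ R R' κ 𝓕 a) :
    ∃ (c : Fin n → Pr n) (b Y : ℕ → V n) (ρ : ℕ → ℝ),
      IsCen 𝒰 (stDm E b₁ Y₁ R R') 𝓕 c ∧
      (∀ i, Sm 𝒰 (stDm E b₁ Y₁ R R') (c i - a i) R R') ∧
      Cont 𝒰 h A b₀ Y₀ b Y ∧
      LL 𝒰 (fun j => ‖E.starProjection (b j - b₁ j)‖) R ∧
      LL 𝒰 (fun j => ‖E.starProjection (Y j - Y₁ j)‖) R' ∧
      (∀ j, 0 < ρ j) ∧ Tendsto ρ 𝒰 atTop ∧ LL 𝒰 ρ R ∧ TouchS 𝒰 h b Y κ ρ ∧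
      LL 𝒰 (fun j => ‖b j - pt c j (b j)‖) ρ ∧
      LL 𝒰 (fun j => ‖Y j - fr c j (Y j)‖) (fun j => κ j (ρ j) * ρ j) ∧
      ∀ (c' : Fin n → Pr n) (g : Γ) (b' Y' : ℕ → V n),
        Att 𝒰 h A b₀ Y₀ τ τ' E b₁ Y₁ R R' κ 𝓕 a c' g b' Y' → LL 𝒰 (τ g) ρ →
        (∀ i, Sm 𝒰 (stDm E b₁ Y₁ R R') (c' i - c i) ρ (fun j => κ j (ρ j) * ρ j)) → False := by
  classical
  have := hst.cnt
  obtain ⟨e, he⟩ := exists_surjective_nat Γ
  set D := stDm E b₁ Y₁ R R' with hD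
  have hS := hst.scl
  have hκ := hst.prof
  have hlvpos : ∀ (o : Option Γ) j, 0 < ft15e_lv τ R o j := by
    rintro (_ | g) j
    · exact (hst.hR0 j).1
    · exact hS.pos g j
  have hlvpos' : ∀ (o : Option Γ) j, 0 < ft15e_lv τ' R' o j := by
    rintro (_ | g) j
    · exact (hst.hR0 j).2
    · exact hS.pos' g j
  have hirr : ∀ (y y' : (Fin n → Pr n) × Option Γ) g, y.2 = some g → y'.2 = some g →
      ¬ (LL 𝒰 (ft15e_lv τ R y'.2) (ft15e_lv τ R y.2) ∧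
        ∀ i, Sm 𝒰 D (y'.1 i - y.1 i) (ft15e_lv τ R y.2) (ft15e_lv τ' R' y.2)) := by
    rintro ⟨c, o⟩ ⟨c', o'⟩ g h1 h2 ⟨h3, -⟩
    simp only at h1 h2 h3
    subst h1 h2
    obtain ⟨j, hj⟩ := (h3 2 (by norm_num)).exists
    have h4 := hS.pos g j
    simp only [ft15e_lv] at hj
    linarith
  have h00 : ∃ b Y, Ft15At 𝒰 h A b₀ Y₀ E b₁ Y₁ R R' κ 𝓕 a a
      (ft15e_lv τ R none) (ft15e_lv τ' R' none) b Y := by
    refine ⟨b₁, Y₁, hst.cen, fun i => ?_, hst.hR, hst.con, ?_, ?_, hst.tch, hst.hu, hst.hU⟩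
    · intro ε hε
      refine Eventually.of_forall fun j => ⟨fun w _ => ?_, fun w _ => ?_⟩
      · simp only [sub_self]
        have h1 : 0 < R j := (hst.hR0 j).1
        show ‖(0 : ℂ)‖ ≤ ε * R j
        rw [norm_zero]; positivity
      · simp only [sub_self]
        have h1 : 0 < R' j := (hst.hR0 j).2
        show ‖(0 : ℂ)‖ ≤ ε * R' j
        rw [norm_zero]; positivity
    · intro m hm
      refine Eventually.of_forall fun j => ?_
      simp only [sub_self, map_zero, norm_zero, mul_zero]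
      exact (hst.hR0 j).1.le
    · intro m hm
      refine Eventually.of_forall fun j => ?_
      simp only [sub_self, map_zero, norm_zero, mul_zero]
      exact (hst.hR0 j).2.le
  obtain ⟨x, hx0, hP, hstep, hmax⟩ := ft15e_seq
    (fun y : (Fin n → Pr n) × Option Γ => ∃ b Y, Ft15At 𝒰 h A b₀ Y₀ E b₁ Y₁ R R' κ 𝓕 a y.1
      (ft15e_lv τ R y.2) (ft15e_lv τ' R' y.2) b Y)
    (fun y y' => LL 𝒰 (ft15e_lv τ R y'.2) (ft15e_lv τ R y.2) ∧
      ∀ i, Sm 𝒰 D (y'.1 i - y.1 i) (ft15e_lv τ R y.2) (ft15e_lv τ' R' y.2))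
    (fun y => y.2) e he hirr (a, none) h00
  choose bb YY hAt using hP
  set T : ℕ → ℕ → ℝ := fun l => ft15e_lv τ R (x l).2 with hT
  set T' : ℕ → ℕ → ℝ := fun l => ft15e_lv τ' R' (x l).2 with hT'
  have hTt : ∀ l, Tendsto (T l) 𝒰 atTop := fun l => (hAt l).hT
  have hwin : ∀ l (m : ℝ), 0 < m → Tendsto (fun j => κ j (T l j / m) * T l j / T' l j) 𝒰 (𝓝 1) :=
    fun l m hm => ft15e_win hκ hst.winR (x l).2 (hTt l) m hm
  have hTR : T 0 = R := by
    simp only [hT, hx0, ft15e_lv]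
  have hTR' : T' 0 = R' := by
    simp only [hT', hx0, ft15e_lv]
  have hch : ∀ l, ∀ᶠ j in (𝒰 : Filter ℕ), T (l + 1) j ≤ T l j := by
    intro l
    rcases hstep l with h1 | ⟨⟨h1, -⟩, -⟩
    · refine Eventually.of_forall fun j => ?_
      simp only [hT, h1]; exact le_rfl
    · filter_upwards [h1 1 one_pos] with j hj
      rw [one_mul] at hj
      exact hj
  have hch0 : ∀ l, ∀ᶠ j in (𝒰 : Filter ℕ), T l j ≤ R j := by
    intro l
    induction l with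
    | zero => rw [hTR]; exact Eventually.of_forall fun j => le_rfl
    | succ l ih =>
      filter_upwards [ih, hch l] with j h1 h2
      exact h2.trans h1
  have hcmp0 : ∀ l, ∀ᶠ j in (𝒰 : Filter ℕ), T' l j ≤ 2 * R' j := by
    intro l
    have h1 := ft15e_cmp (𝒰 := 𝒰) (κ := κ) (T := T l) (T' := T' l) (S := T 0) (S' := T' 0)
      hκ.pos hκ.mono (fun j => hlvpos _ j) (fun j => hlvpos' _ j) (fun j => hlvpos _ j)
      (fun j => hlvpos' _ j) (hwin l 1 one_pos) (hwin 0 1 one_pos) (by rw [hTR]; exact hch0 l)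
    rw [hTR'] at h1
    exact h1
  obtain ⟨c, hc1, hc2⟩ := ft15e_cen 𝒰 τ τ' hS E b₁ Y₁ R R' hst.hR0 𝓕 hst.ring hst.sph a hst.cen
    x hx0 (fun l => (hAt l).cen) (fun l => (hAt l).near) hstep (fun l => by
      filter_upwards [hch0 l, hcmp0 l] with j h1 h2
      refine ⟨?_, h2⟩
      have h3 := (hst.hR0 j).1
      show T l j ≤ 2 * R j
      linarith)
  obtain ⟨b, Y, ρ, hcon, hinb, hinY, hρ0, hρt, hρT, htch, hu, hU⟩ := ft15_diag 𝒰 h𝒰 h A b₀ Y₀ E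
    b₁ Y₁ R R' κ c (fun l => (x l).1) T T' bb YY hκ.pos hκ.anti hκ.mono hst.hR0
    (fun l j => hlvpos _ j) (fun l j => hlvpos' _ j) hTt hwin hch hc2 (fun l => (hAt l).con)
    (fun l => (hAt l).inb) (fun l => (hAt l).inY) (fun l => (hAt l).tch) (fun l => (hAt l).hu)
    (fun l => (hAt l).hU)
  refine ⟨c, b, Y, ρ, hc1, ?_, hcon, hinb, hinY, hρ0, hρt, ?_, htch, hu, hU, ?_⟩
  · intro i
    have h1 := hc2 0 i
    rw [hx0] at h1
    exact h1
  · rw [← hTR]; exact hρT 0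
  · intro c' g b' Y' hatt hg hc'
    refine hmax (c', some g) g ⟨b', Y', ⟨hatt.cen, hatt.near, hatt.hg, hatt.con, hatt.inb,
      hatt.inY, hatt.tch, hatt.hu, hatt.hU⟩⟩ rfl fun l => ?_
    have h1 : ∀ᶠ j in (𝒰 : Filter ℕ), ρ j ≤ T l j := by
      filter_upwards [hρT l 1 one_pos] with j hj
      rw [one_mul] at hj
      exact hj
    refine ⟨?_, fun i => ?_⟩
    · intro m hm
      filter_upwards [hg m hm, h1] with j h2 h3
      exact h2.trans h3
    · have h5 : (c', some g).1 i - (x l).1 i = (c' i - c i) + (c i - (x l).1 i) := by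
        simp only; abel
      rw [h5]
      refine ft15e_add (hc' i) (hc2 l i) 2 (by norm_num) ?_ ?_ ?_ ?_
      · filter_upwards [h1] with j h2
        have h3 : 0 < T l j := hlvpos _ j
        show ρ j ≤ 2 * T l j
        linarith
      · have e2 : ∀ᶠ j in (𝒰 : Filter ℕ), κ j (T l j / 1) * T l j / T' l j < 2 :=
          (hwin l 1 one_pos).eventually (gt_mem_nhds (by norm_num))
        filter_upwards [h1, e2] with j h2 e2
        have h3 : 0 < T' l j := hlvpos' _ j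
        rw [div_one, div_lt_iff₀ h3] at e2
        have h4 := hκ.mono j (ρ j) (T l j) (hρ0 j).le h2
        show κ j (ρ j) * ρ j ≤ 2 * T' l j
        linarith
      · exact Eventually.of_forall fun j => by
          have h3 : 0 < T l j := hlvpos _ j
          show T l j ≤ 2 * T l j
          linarith
      · exact Eventually.of_forall fun j => by
          have h3 : 0 < T' l j := hlvpos' _ j
          show T' l j ≤ 2 * T' l j
          linarith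

end Pool.Agent.H43.FT
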