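import Pool.Agent.H43.FT.Defs

/-!
Project FT, FT-13: slopes on the half cylinders (Cauchy estimates).
-/

set_option autoImplicit false

open MvPolynomial Filter Topology Pool.Agent.H77.FB Pool.Agent.H60.FB Pool.Agent.H77.N2

namespace Pool.Agent.H43.FT

open scoped InnerProductSpace

variable {n : ℕ}

/-- one component -/
theorem ft13_one (E : Submodule ℂ (V n)) (p : V n) (R ε : ℝ) (hR : 0 < R) (d : V n → ℂ)
    (hd : DifferentiableOn ℂ d {z | ‖E.starProjection (z - p)‖ < R})
    (hpr : ∀ z, ‖E.starProjection (z - p)‖ < R → d (E.starProjection z) = d z)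
    (hb : ∀ z, ‖E.starProjection (z - p)‖ < R → ‖d z‖ ≤ ε * R) (z w : V n)
    (hz : ‖E.starProjection (z - p)‖ < R / 2) (hw : ‖E.starProjection (w - p)‖ < R / 2) :
    ‖d z - d w‖ ≤ 2 * ε * ‖E.starProjection z - E.starProjection w‖ := by
  have hz' : d (E.starProjection z) = d z := hpr z (hz.trans (by linarith))
  have hw' : d (E.starProjection w) = d w := hpr w (hw.trans (by linarith))
  have hidem : ∀ x, E.starProjection (E.starProjection x) = E.starProjection x := fun x =>
    Submodule.starProjection_eq_self_iff.2 (Submodule.starProjection_apply_mem E x)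
  by_cases hv : E.starProjection z - E.starProjection w = 0
  · rw [hv, norm_zero, mul_zero, ← hz', ← hw', sub_eq_zero.1 hv, sub_self, norm_zero]
  set v : V n := E.starProjection z - E.starProjection w with hvdef
  have hv0 : 0 < ‖v‖ := norm_pos_iff.2 hv
  have hPv : E.starProjection v = v := by
    rw [hvdef, map_sub, hidem, hidem]
  set L : ℂ → V n := fun t => E.starProjection (w - p) + t • v with hL
  have hLeq : ∀ t : ℂ, E.starProjection (E.starProjection w + t • v - p) = L t := by
    intro t
    rw [hL]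
    simp only
    rw [map_sub, map_add, map_smul, hPv, hidem, map_sub]
    abel
  set g : ℂ → ℂ := fun t => d (E.starProjection w + t • v) with hg
  set T : Set ℂ := {t | ‖L t‖ < R / 2} with hT
  have hLadd : ∀ s t : ℂ, L (s + t) = L s + t • v := by
    intro s t
    rw [hL]
    simp only
    rw [add_smul, add_assoc]
  set r : ℝ := R / (2 * ‖v‖) with hr
  have hr0 : 0 < r := by positivity
  have hrv : r * ‖v‖ = R / 2 := by
    rw [hr]
    field_simp
  have hball : ∀ t ∈ T, ∀ s : ℂ, ‖s - t‖ ≤ r → ‖L s‖ < R := by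
    intro t ht s hs
    have h1 : L s = L t + (s - t) • v := by
      rw [← hLadd]
      congr 1
      ring
    rw [h1]
    have h2 : ‖(s - t) • v‖ ≤ R / 2 := by
      rw [norm_smul, ← hrv]
      exact mul_le_mul_of_nonneg_right hs hv0.le
    have h3 : ‖L t‖ < R / 2 := ht
    have h4 := norm_add_le (L t) ((s - t) • v)
    linarith
  have hopen : IsOpen {z : V n | ‖E.starProjection (z - p)‖ < R} := by
    refine isOpen_lt ?_ continuous_const
    exact (E.starProjection.continuous.comp (continuous_id.sub continuous_const)).norm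
  have hgd : ∀ s : ℂ, ‖L s‖ < R → DifferentiableAt ℂ g s := by
    intro s hs
    have h1 : DifferentiableAt ℂ d (E.starProjection w + s • v) := by
      refine hd.differentiableAt (hopen.mem_nhds ?_)
      change ‖E.starProjection (E.starProjection w + s • v - p)‖ < R
      rw [hLeq]
      exact hs
    have h2 : DifferentiableAt ℂ (fun t : ℂ => E.starProjection w + t • v) s :=
      (differentiableAt_id.smul_const v).const_add _
    exact h1.comp s h2
  have hgb : ∀ s : ℂ, ‖L s‖ < R → ‖g s‖ ≤ ε * R := by
    intro s hs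
    refine hb _ ?_
    rw [hLeq]
    exact hs
  have hconv : Convex ℝ T := by
    intro x hx y hy a b ha hb hab
    have h1 : L (a • x + b • y) = a • L x + b • L y := by
      rw [hL]
      simp only
      have h2 : (a : ℝ) • E.starProjection (w - p) + b • E.starProjection (w - p)
          = E.starProjection (w - p) := by
        rw [← add_smul, hab, one_smul]
      conv_lhs => rw [← h2]
      rw [add_smul, smul_add, smul_add, smul_assoc, smul_assoc]
      abel
    change ‖L (a • x + b • y)‖ < R / 2
    rw [h1]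
    have h3 : ‖L x‖ < R / 2 := hx
    have h4 : ‖L y‖ < R / 2 := hy
    have h5 := norm_add_le (a • L x) (b • L y)
    rw [norm_smul, norm_smul, Real.norm_of_nonneg ha, Real.norm_of_nonneg hb] at h5
    rcases ha.eq_or_lt with ha0 | ha0
    · have hb1 : b = 1 := by linarith
      rw [← ha0, hb1] at h5 ⊢
      linarith
    · have h6 : a * ‖L x‖ < a * (R / 2) := mul_lt_mul_of_pos_left h3 ha0
      have h7 : b * ‖L y‖ ≤ b * (R / 2) := mul_le_mul_of_nonneg_left h4.le hb
      have h8 : a * (R / 2) + b * (R / 2) = R / 2 := by rw [← add_mul, hab, one_mul]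
      linarith
  have hbound : ∀ t ∈ T, ‖deriv g t‖ ≤ 2 * ε * ‖v‖ := by
    intro t ht
    have h1 : DiffContOnCl ℂ g (Metric.ball t r) := by
      refine DifferentiableOn.diffContOnCl ?_
      intro s hs
      rw [closure_ball _ hr0.ne', Metric.mem_closedBall, dist_eq_norm] at hs
      exact (hgd s (hball t ht s hs)).differentiableWithinAt
    have h2 := Complex.norm_deriv_le_of_forall_mem_sphere_norm_le hr0 h1 (C := ε * R)
      (fun s hs => hgb s (hball t ht s (by
        rw [mem_sphere_iff_norm] at hs
        exact hs.le)))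
    refine h2.trans (le_of_eq ?_)
    rw [hr]
    field_simp
  have h0 : (0 : ℂ) ∈ T := by
    change ‖L 0‖ < R / 2
    rw [hL]
    simp only
    rw [zero_smul, add_zero]
    exact hw
  have h1 : (1 : ℂ) ∈ T := by
    change ‖L 1‖ < R / 2
    rw [hL]
    simp only
    rw [one_smul, hvdef, map_sub]
    have h2 : E.starProjection w - E.starProjection p +
        (E.starProjection z - E.starProjection w) = E.starProjection (z - p) := by
      rw [map_sub]
      abel
    rw [h2]
    exact hz
  have h2 := hconv.norm_image_sub_le_of_norm_deriv_le (f := g)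
    (fun t ht => hgd t (by
      have h3 : ‖L t‖ < R / 2 := ht
      linarith)) hbound h0 h1
  have h3 : g 1 = d z := by
    rw [hg]
    simp only
    rw [one_smul, hvdef, add_sub_cancel, hz']
  have h4 : g 0 = d w := by
    rw [hg]
    simp only
    rw [zero_smul, add_zero, hw']
  rw [h3, h4, sub_zero, norm_one, mul_one] at h2
  exact h2

theorem ft13_norm (x : V n) (M : ℝ) (hM : 0 ≤ M) (h : ∀ i, ‖x i‖ ≤ M) : ‖x‖ ≤ n * M := by
  rw [EuclideanSpace.norm_eq]
  refine Real.sqrt_le_iff.2 ⟨by positivity, ?_⟩
  have h1 : ∑ i, ‖x i‖ ^ 2 ≤ ∑ _i : Fin n, M ^ 2 :=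
    Finset.sum_le_sum fun i _ => pow_le_pow_left₀ (norm_nonneg _) (h i) 2
  rw [Finset.sum_const, Finset.card_univ, Fintype.card_fin, nsmul_eq_mul] at h1
  refine h1.trans ?_
  rw [mul_pow]
  refine mul_le_mul_of_nonneg_right ?_ (by positivity)
  rcases Nat.eq_zero_or_pos n with hn | hn
  · rw [hn]
    norm_num
  · have h2 : (1 : ℝ) ≤ n := by exact_mod_cast hn
    nlinarith

/-- all components, on one side -/
theorem ft13_side (E : Submodule ℂ (V n)) (p : V n) (R ε ε' : ℝ) (hR : 0 < R) (hε : 0 ≤ ε)
    (F G : Fin n → V n → ℂ)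
    (hF : ∀ i, DifferentiableOn ℂ (F i) {z | ‖E.starProjection (z - p)‖ < R} ∧
      ∀ z, ‖E.starProjection (z - p)‖ < R → F i (E.starProjection z) = F i z)
    (hG : ∀ i, DifferentiableOn ℂ (G i) {z | ‖E.starProjection (z - p)‖ < R} ∧
      ∀ z, ‖E.starProjection (z - p)‖ < R → G i (E.starProjection z) = G i z)
    (hb : ∀ i, ∀ z, ‖E.starProjection (z - p)‖ < R → ‖G i z - F i z‖ ≤ ε * R)
    (hs : ∀ z w, ‖E.starProjection (z - p)‖ < R → ‖E.starProjection (w - p)‖ < R →
      ‖(WithLp.toLp 2 (fun i => F i z) - WithLp.toLp 2 (fun i => F i w) : V n) -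
        (E.starProjection z - E.starProjection w)‖
        ≤ ε' * ‖E.starProjection z - E.starProjection w‖)
    (z w : V n) (hz : ‖E.starProjection (z - p)‖ < R / 2)
    (hw : ‖E.starProjection (w - p)‖ < R / 2) :
    ‖(WithLp.toLp 2 (fun i => G i z) - WithLp.toLp 2 (fun i => G i w) : V n) -
        (E.starProjection z - E.starProjection w)‖
        ≤ (n * (2 * ε) + ε') * ‖E.starProjection z - E.starProjection w‖ := by
  set D : V n := (WithLp.toLp 2 (fun i => G i z) - WithLp.toLp 2 (fun i => G i w)) -
    (WithLp.toLp 2 (fun i => F i z) - WithLp.toLp 2 (fun i => F i w)) with hD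
  have h1 : ‖D‖ ≤ n * (2 * ε * ‖E.starProjection z - E.starProjection w‖) := by
    refine ft13_norm D _ (by positivity) fun i => ?_
    have h2 := ft13_one E p R ε hR (fun y => G i y - F i y) ((hG i).1.sub (hF i).1)
      (fun y hy => by rw [(hG i).2 y hy, (hF i).2 y hy]) (hb i) z w hz hw
    have h3 : D i = (G i z - F i z) - (G i w - F i w) := by
      rw [hD]
      simp only [PiLp.sub_apply]
      ring
    rw [h3]
    exact h2
  have h4 := hs z w (hz.trans (by linarith)) (hw.trans (by linarith))
  have h5 : (WithLp.toLp 2 (fun i => G i z) - WithLp.toLp 2 (fun i => G i w) : V n) -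
        (E.starProjection z - E.starProjection w)
      = D + ((WithLp.toLp 2 (fun i => F i z) - WithLp.toLp 2 (fun i => F i w) : V n) -
        (E.starProjection z - E.starProjection w)) := by
    rw [hD]
    abel
  rw [h5]
  refine (norm_add_le _ _).trans ?_
  have h6 : (n * (2 * ε) + ε') * ‖E.starProjection z - E.starProjection w‖
      = n * (2 * ε * ‖E.starProjection z - E.starProjection w‖) +
        ε' * ‖E.starProjection z - E.starProjection w‖ := by ring
  rw [h6]
  exact add_le_add h1 h4

theorem slp_half (𝒰 : Ultrafilter ℕ) (E : Submodule ℂ (V n)) (b Y : ℕ → V n) (R R' : ℕ → ℝ)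
    (h0 : ∀ j, 0 < R j ∧ 0 < R' j) (a c : Fin n → Pr n)
    (ha : ∀ i, Hol 𝒰 (stDm E b Y R R') (a i)) (hc : ∀ i, Hol 𝒰 (stDm E b Y R R') (c i))
    (hs : Slp 𝒰 (stDm E b Y R R') a) (hca : ∀ i, Sm 𝒰 (stDm E b Y R R') (c i - a i) R R') :
    Slp 𝒰 (stDm E b Y (fun j => R j / 2) (fun j => R' j / 2)) c := by
  intro ε hε
  set ε₁ : ℝ := ε / (4 * (n + 1)) with hε₁
  have hε₁0 : 0 < ε₁ := by positivity
  have hsum : (n : ℝ) * (2 * ε₁) + ε / 2 ≤ ε := by
    have h1 : (n : ℝ) * (2 * ε₁) ≤ ε / 2 := by
      rw [hε₁]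
      have h2 : (n : ℝ) * (2 * (ε / (4 * (n + 1)))) = ε / 2 * (n / (n + 1)) := by
        field_simp
        ring
      rw [h2]
      have h3 : (n : ℝ) / (n + 1) ≤ 1 := by
        rw [div_le_one (by positivity)]
        linarith
      have h4 : 0 ≤ ε / 2 := by positivity
      nlinarith
    linarith
  have hA := Filter.eventually_all.2 ha
  have hC := Filter.eventually_all.2 hc
  have hB := Filter.eventually_all.2 fun i => hca i ε₁ hε₁0
  filter_upwards [hA, hC, hB, hs (ε / 2) (by positivity)] with j jA jC jB jS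
  constructor
  · intro z hz w hw
    have h1 := ft13_side E (b j) (R j) ε₁ (ε / 2) (h0 j).1 hε₁0.le (fun i => (a i).1 j)
      (fun i => (c i).1 j) (fun i => (jA i).1) (fun i => (jC i).1) (fun i => (jB i).1)
      (fun z w hz hw => jS.1 z hz w hw) z w hz hw
    refine h1.trans ?_
    exact mul_le_mul_of_nonneg_right hsum (norm_nonneg _)
  · intro z hz w hw
    have h1 := ft13_side E (Y j) (R' j) ε₁ (ε / 2) (h0 j).2 hε₁0.le (fun i => (a i).2 j)
      (fun i => (c i).2 j) (fun i => (jA i).2) (fun i => (jC i).2) (fun i => (jB i).2)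
      (fun z w hz hw => jS.2 z hz w hw) z w hz hw
    refine h1.trans ?_
    exact mul_le_mul_of_nonneg_right hsum (norm_nonneg _)

end Pool.Agent.H43.FT
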