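import Pool.Agent.H43.FT.Defs

/-!
Project FT (MP_6e521b_an), row FT-16: the displacement of a contact is never comparable to a
scale when the centre and the radius are exhausted.
-/

set_option autoImplicit false

open MvPolynomial Filter Topology Pool.Agent.H77.FB Pool.Agent.H60.FB Pool.Agent.H77.N2

namespace Pool.Agent.H43.FT

open scoped InnerProductSpace

variable {n : ℕ}

theorem ft16_conv {W : Type} [NormedAddCommGroup W] [ProperSpace W] (𝒰 : Ultrafilter ℕ)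
    (x : ℕ → W) (r : ℝ) (h : ∀ᶠ j in (𝒰 : Filter ℕ), ‖x j‖ ≤ r) :
    ∃ u, Tendsto x 𝒰 (𝓝 u) := by
  have hK : IsCompact (Metric.closedBall (0 : W) r) := isCompact_closedBall 0 r
  have hm : ((𝒰.map x : Ultrafilter W) : Filter W) ≤ 𝓟 (Metric.closedBall (0 : W) r) := by
    rw [le_principal_iff, Ultrafilter.coe_map, mem_map]
    filter_upwards [h] with j hj
    simpa [mem_closedBall_zero_iff] using hj
  obtain ⟨u, -, hu⟩ := hK.ultrafilter_le_nhds (𝒰.map x) hm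
  exact ⟨u, hu⟩

theorem ft16_ll {𝒰 : Ultrafilter ℕ} {x y : ℕ → ℝ} (hy : ∀ j, 0 < y j)
    (h : Tendsto (fun j => x j / y j) 𝒰 (𝓝 0)) : LL 𝒰 x y := by
  intro m hm
  have h1 : ∀ᶠ j in (𝒰 : Filter ℕ), x j / y j < 1 / m :=
    h.eventually (gt_mem_nhds (by positivity))
  filter_upwards [h1] with j hj
  rw [div_lt_div_iff₀ (hy j) hm] at hj
  nlinarith

theorem ft16_kap {𝒰 : Ultrafilter ℕ} {Γ : Type} {τ τ' : Γ → ℕ → ℝ} {κ : ℕ → ℝ → ℝ}
    (hκ : Prof 𝒰 τ τ' κ) (hpos : ∀ g j, 0 < τ g j) (hpos' : ∀ g j, 0 < τ' g j) (g : Γ)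
    (hg : Tendsto (τ g) 𝒰 atTop) (r : ℕ → ℝ) (x : ℝ) (hx : 0 < x)
    (hlim : Tendsto (fun j => r j / τ g j) 𝒰 (𝓝 x)) :
    Tendsto (fun j => κ j (r j) * τ g j / τ' g j) 𝒰 (𝓝 1) := by
  have h1 := hκ.win g hg (2 * x) (by positivity)
  have h2 := hκ.win g hg (x / 2) (by positivity)
  have h3 : ∀ᶠ j in (𝒰 : Filter ℕ), r j / τ g j < 2 * x :=
    hlim.eventually (gt_mem_nhds (by linarith))
  have h4 : ∀ᶠ j in (𝒰 : Filter ℕ), x / 2 < r j / τ g j :=
    hlim.eventually (lt_mem_nhds (by linarith))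
  refine tendsto_of_tendsto_of_tendsto_of_le_of_le' h1 h2 ?_ ?_
  · filter_upwards [h3, h4] with j h5 h6
    rw [div_lt_iff₀ (hpos g j)] at h5
    rw [lt_div_iff₀ (hpos g j)] at h6
    have h7 : 0 ≤ r j := by
      have := mul_pos (half_pos hx) (hpos g j)
      linarith
    have h8 := hκ.anti j (r j) (2 * x * τ g j) h7 h5.le
    have h9 := (hpos g j).le
    have h10 := (hpos' g j).le
    gcongr
  · filter_upwards [h4] with j h6
    rw [lt_div_iff₀ (hpos g j)] at h6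
    have h7 : 0 ≤ x / 2 * τ g j := (mul_pos (half_pos hx) (hpos g j)).le
    have h8 := hκ.anti j (x / 2 * τ g j) (r j) h7 h6.le
    have h9 := (hpos g j).le
    have h10 := (hpos' g j).le
    gcongr

theorem ft16_kap2 {𝒰 : Ultrafilter ℕ} {Γ : Type} {τ τ' : Γ → ℕ → ℝ} {κ : ℕ → ℝ → ℝ}
    (hκ : Prof 𝒰 τ τ' κ) (hpos : ∀ g j, 0 < τ g j) (hpos' : ∀ g j, 0 < τ' g j) (g : Γ)
    (hg : Tendsto (τ g) 𝒰 atTop) (ρ : ℕ → ℝ) (h : LL 𝒰 (τ g) ρ) :
    LL 𝒰 (τ' g) (fun j => κ j (ρ j) * ρ j) := by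
  intro m hm
  have h1 := hκ.win g hg (2 * m) (by positivity)
  have h2 : ∀ᶠ j in (𝒰 : Filter ℕ), 1 / 2 < κ j (2 * m * τ g j) * τ g j / τ' g j :=
    h1.eventually (lt_mem_nhds (by norm_num))
  filter_upwards [h2, h (2 * m) (by positivity)] with j h3 h4
  rw [lt_div_iff₀ (hpos' g j)] at h3
  have h5 := hκ.mono j (2 * m * τ g j) (ρ j) (by have := hpos g j; positivity) h4
  nlinarith

theorem ft16_kap3 {𝒰 : Ultrafilter ℕ} {Γ : Type} {τ τ' : Γ → ℕ → ℝ} {κ : ℕ → ℝ → ℝ}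
    (hκ : Prof 𝒰 τ τ' κ) (hpos : ∀ g j, 0 < τ g j) (hpos' : ∀ g j, 0 < τ' g j) (g : Γ)
    (hg : Tendsto (τ g) 𝒰 atTop) (R R' : ℕ → ℝ) (hR0 : ∀ j, 0 < R j ∧ 0 < R' j)
    (hw : ∀ m : ℝ, 0 < m → Tendsto (fun j => κ j (R j / m) * R j / R' j) 𝒰 (𝓝 1))
    (h : LL 𝒰 (τ g) R) : LL 𝒰 (τ' g) R' := by
  intro m hm
  have h1 := hκ.win g hg 1 one_pos
  have h2 : ∀ᶠ j in (𝒰 : Filter ℕ), 1 / 2 < κ j (1 * τ g j) * τ g j / τ' g j :=
    h1.eventually (lt_mem_nhds (by norm_num))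
  have h3 : ∀ᶠ j in (𝒰 : Filter ℕ), κ j (R j / (4 * m)) * R j / R' j < 2 :=
    (hw (4 * m) (by positivity)).eventually (gt_mem_nhds (by norm_num))
  filter_upwards [h2, h3, h (4 * m) (by positivity)] with j h4 h5 h6
  rw [lt_div_iff₀ (hpos' g j), one_mul] at h4
  rw [div_lt_iff₀ (hR0 j).2] at h5
  have h7 : τ g j ≤ R j / (4 * m) := by
    rw [le_div_iff₀ (by positivity)]
    linarith
  have h8 := hκ.mono j (τ g j) (R j / (4 * m)) (hpos g j).le h7
  have h9 : R j / (4 * m) * κ j (R j / (4 * m)) ≤ R' j / (2 * m) := by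
    rw [le_div_iff₀ (by positivity)]
    have h10 : R j / (4 * m) * κ j (R j / (4 * m)) * (2 * m)
        = (κ j (R j / (4 * m)) * R j) / 2 := by
      field_simp
      ring
    rw [h10]
    linarith
  have h11 : τ' g j ≤ 2 * (R' j / (2 * m)) := by nlinarith
  have h12 : m * (2 * (R' j / (2 * m))) = R' j := by
    field_simp
  nlinarith

theorem ft16_sm {𝒰 : Ultrafilter ℕ} {D : Dm n} {t : Pr n} {x x' y y' : ℕ → ℝ}
    (hx : ∀ j, 0 < x j) (hx' : ∀ j, 0 < x' j)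
    (ht : LT 𝒰 D t 1 x x') (h : LL 𝒰 x y) (h' : LL 𝒰 x' y') (w : ℂ) :
    Sm 𝒰 D (cst w * t) y y' := by
  intro ε hε
  have h1 := ht 1 one_pos
  have hm : 0 < 2 * (‖w‖ + 1) / ε := by positivity
  filter_upwards [h1, h _ hm, h' _ hm] with j h2 h3 h4
  have key : ∀ (v : ℂ) (X Y : ℝ), 0 < X → ‖v - 1 * (X : ℂ)‖ ≤ 1 * X →
      2 * (‖w‖ + 1) / ε * X ≤ Y → ‖w * v‖ ≤ ε * Y := by
    intro v X Y hX hv hY
    have h5 : ‖v‖ ≤ 2 * X := by
      have h6 : ‖v‖ ≤ ‖v - 1 * (X : ℂ)‖ + ‖1 * (X : ℂ)‖ := by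
        simpa using norm_add_le (v - 1 * (X : ℂ)) (1 * (X : ℂ))
      have h7 : ‖1 * (X : ℂ)‖ = X := by
        simp [abs_of_pos hX]
      rw [h7] at h6
      linarith
    rw [norm_mul]
    have h8 : 2 * (‖w‖ + 1) * X ≤ ε * Y := by
      rw [div_mul_eq_mul_div, div_le_iff₀ hε] at hY
      linarith
    have h9 := norm_nonneg w
    nlinarith
  exact ⟨fun z hz => key _ _ _ (hx j) (h2.1 z hz) h3, fun z hz => key _ _ _ (hx' j) (h2.2 z hz) h4⟩

/-- The displacement is in the orthogonal complement. -/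
theorem ft16_pt (c : Fin n → Pr n) (t : Pr n) (ω : V n) (x : ℂ) (j : ℕ) (z : V n) :
    pt (fun i => c i + cst (x * ω i) * t) j z = pt c j z + (x * t.1 j z) • ω := by
  ext i
  simp only [pt, cst, PiLp.add_apply, PiLp.smul_apply, smul_eq_mul]
  change (c i).1 j z + x * ω i * t.1 j z = (c i).1 j z + x * t.1 j z * ω i
  ring

theorem ft16_fr (c : Fin n → Pr n) (t : Pr n) (ω : V n) (x : ℂ) (j : ℕ) (z : V n) :
    fr (fun i => c i + cst (x * ω i) * t) j z = fr c j z + (x * t.2 j z) • ω := by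
  ext i
  simp only [fr, cst, PiLp.add_apply, PiLp.smul_apply, smul_eq_mul]
  change (c i).2 j z + x * ω i * t.2 j z = (c i).2 j z + x * t.2 j z * ω i
  ring

theorem ft16_id {W : Type} [AddCommGroup W] [Module ℂ W] (Y F u ω : W) (T k q q' s p : ℂ)
    (hT : T ≠ 0) (h1 : T * (s * p) = k) (h2 : T * q = q') :
    Y - (F + q' • ω) = T • (T⁻¹ • ((Y - F) - k • u) + (s • (p • u) - q • ω)) := by
  rw [smul_add, smul_inv_smul₀ hT, smul_sub T, smul_smul s, smul_smul T, smul_smul T, h1, h2]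
  abel

/-- Convergence of the value of a pair at a point of the domain. -/
theorem ft16_lt {𝒰 : Ultrafilter ℕ} {D : Dm n} {t : Pr n} {x x' : ℕ → ℝ}
    (hx : ∀ j, 0 < x j) (hx' : ∀ j, 0 < x' j) (ht : LT 𝒰 D t 1 x x') (b Y : ℕ → V n)
    (hb : ∀ᶠ j in (𝒰 : Filter ℕ), b j ∈ D.C j) (hY : ∀ᶠ j in (𝒰 : Filter ℕ), Y j ∈ D.C' j) :
    Tendsto (fun j => t.1 j (b j) / (x j : ℂ)) 𝒰 (𝓝 1) ∧
    Tendsto (fun j => t.2 j (Y j) / (x' j : ℂ)) 𝒰 (𝓝 1) := by
  have key : ∀ (v : ℂ) (X ε : ℝ), 0 < X → ‖v - 1 * (X : ℂ)‖ ≤ ε * X →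
      ‖v / (X : ℂ) - 1‖ ≤ ε := by
    intro v X ε hX hv
    have hX0 : (X : ℂ) ≠ 0 := by exact_mod_cast hX.ne'
    have h1 : v / (X : ℂ) - 1 = (v - 1 * (X : ℂ)) / (X : ℂ) := by
      field_simp
    rw [h1, norm_div, Complex.norm_real, Real.norm_eq_abs, abs_of_pos hX, div_le_iff₀ hX]
    exact hv
  constructor
  · rw [Metric.tendsto_nhds]
    intro ε hε
    filter_upwards [ht (ε / 2) (by positivity), hb] with j h1 h2
    rw [dist_eq_norm]
    have := key _ _ _ (hx j) (h1.1 _ h2)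
    linarith
  · rw [Metric.tendsto_nhds]
    intro ε hε
    filter_upwards [ht (ε / 2) (by positivity), hY] with j h1 h2
    rw [dist_eq_norm]
    have := key _ _ _ (hx' j) (h1.2 _ h2)
    linarith

theorem no_a2 (𝒰 : Ultrafilter ℕ) (h𝒰 : (𝒰 : Filter ℕ) ≤ atTop)
    (h : ℕ → (Fin n → ℂ) → ℂ) (A : ℕ → ℝ) (b₀ Y₀ : ℕ → V n)
    {Γ : Type} [AddCommGroup Γ] [Module ℚ Γ] (τ τ' : Γ → ℕ → ℝ)
    (E : Submodule ℂ (V n)) (b₁ Y₁ : ℕ → V n) (R R' : ℕ → ℝ) (κ : ℕ → ℝ → ℝ)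
    (𝓕 : Subring (Pr n)) (a : Fin n → Pr n)
    (hst : Stage 𝒰 h A b₀ Y₀ τ τ' E b₁ Y₁ R R' κ 𝓕 a)
    (c : Fin n → Pr n) (ρ : ℕ → ℝ)
    (hc : IsCen 𝒰 (stDm E b₁ Y₁ R R') 𝓕 c)
    (hca : ∀ i, Sm 𝒰 (stDm E b₁ Y₁ R R') (c i - a i) R R')
    (hρ0 : ∀ j, 0 < ρ j) (hρR : LL 𝒰 ρ R)
    (hmax : ∀ (c' : Fin n → Pr n) (g : Γ) (b' Y' : ℕ → V n),
        Att 𝒰 h A b₀ Y₀ τ τ' E b₁ Y₁ R R' κ 𝓕 a c' g b' Y' → LL 𝒰 (τ g) ρ →
        (∀ i, Sm 𝒰 (stDm E b₁ Y₁ R R') (c' i - c i) ρ (fun j => κ j (ρ j) * ρ j)) → False)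
    (b Y : ℕ → V n) (hcon : Cont 𝒰 h A b₀ Y₀ b Y)
    (hb : LL 𝒰 (fun j => ‖E.starProjection (b j - b₁ j)‖) R)
    (hY : LL 𝒰 (fun j => ‖E.starProjection (Y j - Y₁ j)‖) R')
    (hu : LL 𝒰 (fun j => ‖b j - pt c j (b j)‖) ρ)
    (ht : ∀ ε : ℝ, 0 < ε → ∀ᶠ j in (𝒰 : Filter ℕ), Touch (MM (h j)) (b j) (Y j)
        ((1 + ε) * κ j ‖b j - pt c j (b j)‖) (ρ j / 8))
    (hU : ∀ ε : ℝ, 0 < ε → ∀ᶠ j in (𝒰 : Filter ℕ),
        ‖(Y j - fr c j (Y j)) - (κ j ‖b j - pt c j (b j)‖ : ℂ) • (b j - pt c j (b j))‖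
          ≤ ε * (κ j ‖b j - pt c j (b j)‖ * ‖b j - pt c j (b j)‖))
    (g : Γ) (hg : Tendsto (τ g) 𝒰 atTop) (x : ℝ) (hx : 0 < x)
    (hlim : Tendsto (fun j => ‖b j - pt c j (b j)‖ / τ g j) 𝒰 (𝓝 x)) : False := by
  have hpos := hst.scl.pos
  have hpos' := hst.scl.pos'
  set D := stDm E b₁ Y₁ R R' with hD
  set u : ℕ → V n := fun j => b j - pt c j (b j) with hudef
  set r : ℕ → ℝ := fun j => ‖b j - pt c j (b j)‖ with hrdef
  -- membership
  have hbC : ∀ᶠ j in (𝒰 : Filter ℕ), b j ∈ D.C j := by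
    filter_upwards [hb 2 two_pos] with j h1
    have h2 := (hst.hR0 j).1
    change ‖E.starProjection (b j - b₁ j)‖ < R j
    have h3 := norm_nonneg (E.starProjection (b j - b₁ j))
    linarith
  have hYC : ∀ᶠ j in (𝒰 : Filter ℕ), Y j ∈ D.C' j := by
    filter_upwards [hY 2 two_pos] with j h1
    have h2 := (hst.hR0 j).2
    change ‖E.starProjection (Y j - Y₁ j)‖ < R' j
    have h3 := norm_nonneg (E.starProjection (Y j - Y₁ j))
    linarith
  -- τ_g << ρ
  have hxg : ∀ᶠ j in (𝒰 : Filter ℕ), x / 2 * τ g j ≤ r j := by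
    have h4 : ∀ᶠ j in (𝒰 : Filter ℕ), x / 2 < r j / τ g j :=
      hlim.eventually (lt_mem_nhds (by linarith))
    filter_upwards [h4] with j h5
    rw [lt_div_iff₀ (hpos g j)] at h5
    exact h5.le
  have hgρ : LL 𝒰 (τ g) ρ := by
    intro m hm
    filter_upwards [hxg, hu (2 * m / x) (by positivity)] with j h1 h2
    have h3 : 2 * m / x * (x / 2 * τ g j) = m * τ g j := by
      field_simp
    have h4 : 2 * m / x * (x / 2 * τ g j) ≤ 2 * m / x * r j := by
      have : 0 ≤ 2 * m / x := by positivity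
      gcongr
    linarith
  have hgR : LL 𝒰 (τ g) R := by
    intro m hm
    filter_upwards [hgρ m hm, hρR 1 one_pos] with j h1 h2
    linarith
  have hgρ' := ft16_kap2 hst.prof hpos hpos' g hg ρ hgρ
  have hgR' := ft16_kap3 hst.prof hpos hpos' g hg R R' hst.hR0 hst.winR hgR
  have hκ := ft16_kap hst.prof hpos hpos' g hg r x hx hlim
  -- the direction
  have hrpos : ∀ᶠ j in (𝒰 : Filter ℕ), 0 < r j := by
    filter_upwards [hxg] with j h1
    have := mul_pos (half_pos hx) (hpos g j)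
    linarith
  obtain ⟨ω, hω⟩ := ft16_conv 𝒰 (fun j => ((r j : ℝ) : ℂ)⁻¹ • u j) 1 (by
    filter_upwards [hrpos] with j h1
    rw [norm_smul, norm_inv, Complex.norm_real, Real.norm_eq_abs, abs_of_pos h1]
    have h2 : ‖u j‖ = r j := rfl
    rw [h2, inv_mul_cancel₀ h1.ne'])
  have hωE : E.starProjection ω = 0 := by
    have h1 : Tendsto (fun j => E.starProjection (((r j : ℝ) : ℂ)⁻¹ • u j)) 𝒰
        (𝓝 (E.starProjection ω)) := (E.starProjection.continuous.tendsto ω).comp hω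
    have h2 : Tendsto (fun j => E.starProjection (((r j : ℝ) : ℂ)⁻¹ • u j)) 𝒰 (𝓝 0) := by
      refine Tendsto.congr' ?_ tendsto_const_nhds
      filter_upwards [hc.proj, hbC] with j h3 h4
      have h5 : E.starProjection (pt c j (b j)) = E.starProjection (b j) := h3.1 _ h4
      rw [map_smul]
      change 0 = ((r j : ℝ) : ℂ)⁻¹ • E.starProjection (b j - pt c j (b j))
      rw [map_sub, h5, sub_self, smul_zero]
    exact tendsto_nhds_unique h1 h2
  -- the element of the ring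
  obtain ⟨t, htF, htL⟩ := hst.ring.mono g
  obtain ⟨ht1, ht2⟩ := ft16_lt (hpos g) (hpos' g) htL b Y hbC hYC
  set c' : Fin n → Pr n := fun i => c i + cst ((x : ℂ) * ω i) * t with hc'
  have hcc : ∀ i, c' i - c i = cst ((x : ℂ) * ω i) * t := by
    intro i
    rw [hc']
    simp only [add_sub_cancel_left]
  refine hmax c' g b Y ?_ hgρ ?_
  · refine ⟨?_, ?_, hg, hgR, hcon, hb, hY, ?_, ?_, ?_⟩
    · refine ⟨fun i => 𝓕.add_mem (hc.mem i) (𝓕.mul_mem (hst.ring.cst _) htF), ?_⟩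
      filter_upwards [hc.proj] with j h1
      refine ⟨fun z hz => ?_, fun z hz => ?_⟩
      · rw [ft16_pt]
        change E.starProjection _ = E.starProjection z
        rw [map_add, map_smul, hωE, smul_zero, add_zero]
        exact h1.1 z hz
      · rw [ft16_fr]
        change E.starProjection _ = E.starProjection z
        rw [map_add, map_smul, hωE, smul_zero, add_zero]
        exact h1.2 z hz
    · intro i ε hε
      have h1 := ft16_sm (hpos g) (hpos' g) htL hgR hgR' ((x : ℂ) * ω i) (ε / 2) (by positivity)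
      filter_upwards [h1, hca i (ε / 2) (by positivity)] with j h2 h3
      have h4 : c' i - a i = cst ((x : ℂ) * ω i) * t + (c i - a i) := by
        rw [← hcc i]
        ring
      rw [h4]
      refine ⟨fun z hz => ?_, fun z hz => ?_⟩
      · refine (norm_add_le _ _).trans ?_
        have := h2.1 z hz
        have := h3.1 z hz
        linarith
      · refine (norm_add_le _ _).trans ?_
        have := h2.2 z hz
        have := h3.2 z hz
        linarith
    · intro ε hε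
      have h1 := hst.prof.win g hg 1 one_pos
      have h2 : Tendsto (fun j => (κ j (r j) * τ g j / τ' g j)
          / (κ j (1 * τ g j) * τ g j / τ' g j)) 𝒰 (𝓝 (1 / 1)) := hκ.div h1 one_ne_zero
      have h3 : ∀ᶠ j in (𝒰 : Filter ℕ), (κ j (r j) * τ g j / τ' g j)
          / (κ j (1 * τ g j) * τ g j / τ' g j) < (1 + ε) / (1 + ε / 2) :=
        h2.eventually (gt_mem_nhds (by
          rw [div_lt_div_iff₀ one_pos (by positivity)]
          linarith))
      filter_upwards [h3, ht (ε / 2) (by positivity), hgρ 8 (by norm_num)] with j h4 h5 h6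
      intro z hz
      refine (h5 z (by linarith)).trans ?_
      have h7 : (1 + ε / 2) * κ j (r j) ≤ (1 + ε) * κ j (τ g j) := by
        have h8 := hst.prof.pos j (r j)
        have h9 := hst.prof.pos j (1 * τ g j)
        have h10 := hpos g j
        have h11 := hpos' g j
        rw [one_mul] at h4 h9
        rw [div_div_div_cancel_right₀ h11.ne', mul_div_mul_right _ _ h10.ne',
          div_lt_div_iff₀ h9 (by positivity)] at h4
        linarith
      have h12 : 0 ≤ MM (h j) (b j) := norm_nonneg _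
      have h13 : 0 ≤ ‖z - b j‖ ^ 2 := by positivity
      gcongr
    · refine ft16_ll (hpos g) ?_
      have h1 : Tendsto (fun j => ((r j / τ g j : ℝ) : ℂ) • (((r j : ℝ) : ℂ)⁻¹ • u j)
          - ((x : ℂ) * (t.1 j (b j) / (τ g j : ℂ))) • ω) 𝒰
          (𝓝 ((x : ℂ) • ω - ((x : ℂ) * 1) • ω)) := by
        refine Tendsto.sub (Tendsto.smul ?_ hω) (Tendsto.smul (tendsto_const_nhds.mul ht1)
          tendsto_const_nhds)
        exact (Complex.continuous_ofReal.tendsto x).comp hlim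
      rw [mul_one, sub_self] at h1
      have h2 := h1.norm
      rw [norm_zero] at h2
      refine h2.congr' ?_
      filter_upwards [hrpos] with j h3
      rw [ft16_pt]
      have h4 : b j - (pt c j (b j) + ((x : ℂ) * t.1 j (b j)) • ω)
          = (τ g j : ℂ) • (((r j / τ g j : ℝ) : ℂ) • (((r j : ℝ) : ℂ)⁻¹ • u j)
          - ((x : ℂ) * (t.1 j (b j) / (τ g j : ℂ))) • ω) := by
        have h5 : (τ g j : ℂ) ≠ 0 := by exact_mod_cast (hpos g j).ne'
        have h6 : (r j : ℂ) ≠ 0 := by exact_mod_cast h3.ne'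
        rw [smul_sub, smul_smul, smul_smul, smul_smul]
        have h7 : (τ g j : ℂ) * (((r j / τ g j : ℝ) : ℂ) * ((r j : ℝ) : ℂ)⁻¹) = 1 := by
          push_cast
          field_simp
        have h8 : (τ g j : ℂ) * ((x : ℂ) * (t.1 j (b j) / (τ g j : ℂ)))
            = (x : ℂ) * t.1 j (b j) := by
          field_simp
        rw [mul_assoc, h7, h8, one_smul, hudef]
        simp only
        abel
      rw [h4, norm_smul, Complex.norm_real, Real.norm_eq_abs, abs_of_pos (hpos g j),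
        mul_div_cancel_left₀ _ (hpos g j).ne']
    · refine ft16_ll (hpos' g) ?_
      have h1 : Tendsto (fun j => (((κ j (r j) * τ g j / τ' g j) * (r j / τ g j) : ℝ) : ℂ)
          • (((r j : ℝ) : ℂ)⁻¹ • u j)
          - ((x : ℂ) * (t.2 j (Y j) / (τ' g j : ℂ))) • ω) 𝒰
          (𝓝 (((1 * x : ℝ) : ℂ) • ω - ((x : ℂ) * 1) • ω)) := by
        refine Tendsto.sub (Tendsto.smul ?_ hω) (Tendsto.smul (tendsto_const_nhds.mul ht2)
          tendsto_const_nhds)
        exact (Complex.continuous_ofReal.tendsto (1 * x)).comp (hκ.mul hlim)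
      rw [mul_one, one_mul, sub_self] at h1
      have h2 : Tendsto (fun j => ((τ' g j : ℝ) : ℂ)⁻¹ • ((Y j - fr c j (Y j))
          - (κ j (r j) : ℂ) • u j)) 𝒰 (𝓝 0) := by
        rw [Metric.tendsto_nhds]
        intro ε hε
        have h3 : Tendsto (fun j => (κ j (r j) * τ g j / τ' g j) * (r j / τ g j)) 𝒰
            (𝓝 (1 * x)) := hκ.mul hlim
        have h4 : ∀ᶠ j in (𝒰 : Filter ℕ),
            (κ j (r j) * τ g j / τ' g j) * (r j / τ g j) < x + 1 :=
          h3.eventually (gt_mem_nhds (by linarith))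
        filter_upwards [h4, hU (ε / (2 * (x + 1))) (by positivity)] with j h5 h6
        rw [dist_zero_right, norm_smul, norm_inv, Complex.norm_real, Real.norm_eq_abs,
          abs_of_pos (hpos' g j), inv_mul_eq_div, div_lt_iff₀ (hpos' g j)]
        have h7 : (κ j (r j) * τ g j / τ' g j) * (r j / τ g j) = κ j (r j) * r j / τ' g j := by
          have h8 := (hpos g j).ne'
          have h9 := (hpos' g j).ne'
          field_simp
        rw [h7, div_lt_iff₀ (hpos' g j)] at h5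
        refine lt_of_le_of_lt h6 ?_
        have h10 : ε / (2 * (x + 1)) * (κ j (r j) * r j)
            ≤ ε / (2 * (x + 1)) * ((x + 1) * τ' g j) := by
          have : 0 ≤ ε / (2 * (x + 1)) := by positivity
          exact mul_le_mul_of_nonneg_left h5.le this
        have h11 : ε / (2 * (x + 1)) * ((x + 1) * τ' g j) = ε / 2 * τ' g j := by
          have : x + 1 ≠ 0 := by positivity
          field_simp
        have h12 := mul_pos hε (hpos' g j)
        calc ε / (2 * (x + 1)) * (κ j (r j) * r j) ≤ ε / 2 * τ' g j := by rw [← h11]; exact h10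
          _ < ε * τ' g j := by linarith
      have h3 := (h2.add h1).norm
      rw [add_zero, norm_zero] at h3
      refine h3.congr' ?_
      filter_upwards [hrpos] with j h4
      rw [ft16_fr]
      have h5 : (τ' g j : ℂ) ≠ 0 := by exact_mod_cast (hpos' g j).ne'
      have h6 : (r j : ℂ) ≠ 0 := by exact_mod_cast h4.ne'
      have h7 : (τ g j : ℂ) ≠ 0 := by exact_mod_cast (hpos g j).ne'
      have h8 : Y j - (fr c j (Y j) + ((x : ℂ) * t.2 j (Y j)) • ω)
          = (τ' g j : ℂ) • (((τ' g j : ℝ) : ℂ)⁻¹ • ((Y j - fr c j (Y j))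
          - (κ j (r j) : ℂ) • u j) + ((((κ j (r j) * τ g j / τ' g j) * (r j / τ g j) : ℝ) : ℂ)
          • (((r j : ℝ) : ℂ)⁻¹ • u j)
          - ((x : ℂ) * (t.2 j (Y j) / (τ' g j : ℂ))) • ω)) := by
        have h9 : (τ' g j : ℂ) * ((((κ j (r j) * τ g j / τ' g j) * (r j / τ g j) : ℝ) : ℂ)
            * ((r j : ℝ) : ℂ)⁻¹) = (κ j (r j) : ℂ) := by
          push_cast
          field_simp
        have h10 : (τ' g j : ℂ) * ((x : ℂ) * (t.2 j (Y j) / (τ' g j : ℂ)))
            = (x : ℂ) * t.2 j (Y j) := by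
          field_simp
        exact ft16_id _ _ _ _ _ _ _ _ _ _ h5 h9 h10
      rw [h8, norm_smul, Complex.norm_real, Real.norm_eq_abs, abs_of_pos (hpos' g j),
        mul_div_cancel_left₀ _ (hpos' g j).ne']
  · intro i
    rw [hcc i]
    exact ft16_sm (hpos g) (hpos' g) htL hgρ hgρ' _

end Pool.Agent.H43.FT
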