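import Pool.Agent.H43.FT.Defs

/-!
FT-12 : the scales at the exit.
-/

set_option autoImplicit false

open MvPolynomial Filter Topology Pool.Agent.H77.FB Pool.Agent.H60.FB Pool.Agent.H77.N2

namespace Pool.Agent.H43.FT

/-! ### FT-12 Sc.lean -/

theorem ft12_zero {Γ : Type} [AddCommGroup Γ] (τ : Γ → ℕ → ℝ) (hpos : ∀ g j, 0 < τ g j)
    (hadd : ∀ g h j, τ (g + h) j = τ g j * τ h j) (j : ℕ) : τ 0 j = 1 := by
  have h := hadd 0 0 j
  rw [add_zero] at h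
  have h0 := hpos 0 j
  have h1 : τ 0 j * 1 = τ 0 j * τ 0 j := by rw [mul_one]; exact h
  exact (mul_left_cancel₀ h0.ne' h1).symm

theorem ft12_neg {Γ : Type} [AddCommGroup Γ] (τ : Γ → ℕ → ℝ) (hpos : ∀ g j, 0 < τ g j)
    (hadd : ∀ g h j, τ (g + h) j = τ g j * τ h j) (g : Γ) (j : ℕ) :
    τ (-g) j = (τ g j)⁻¹ := by
  have h := hadd (-g) g j
  rw [neg_add_cancel, ft12_zero τ hpos hadd] at h
  exact eq_inv_of_mul_eq_one_left h.symm

theorem ft12_smul {Γ : Type} [AddCommGroup Γ] [Module ℚ Γ] (τ : Γ → ℕ → ℝ)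
    (hpos : ∀ g j, 0 < τ g j) (hadd : ∀ g h j, τ (g + h) j = τ g j * τ h j) (q : ℚ) (p : Γ)
    (j : ℕ) : τ (q • p) j = τ p j ^ (q : ℝ) := by
  let φ : Γ →+ ℝ :=
    { toFun := fun g => Real.log (τ g j)
      map_zero' := by rw [ft12_zero τ hpos hadd, Real.log_one]
      map_add' := fun g h => by
        rw [hadd, Real.log_mul (hpos g j).ne' (hpos h j).ne'] }
  have h : φ (q • p) = (q : ℝ) * φ p := by
    have := map_rat_smul φ q p
    rw [this, Rat.smul_def]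
  have h1 : Real.log (τ (q • p) j) = (q : ℝ) * Real.log (τ p j) := h
  rw [Real.rpow_def_of_pos (hpos p j), mul_comm, ← h1, Real.exp_log (hpos _ j)]

/-- the extended scale as a power -/
theorem ft12_ext {Γ : Type} [AddCommGroup Γ] [Module ℚ Γ] (τ : Γ → ℕ → ℝ)
    (hpos : ∀ g j, 0 < τ g j) (hadd : ∀ g h j, τ (g + h) j = τ g j * τ h j) (ξ : ℕ → ℝ)
    (hξ0 : ∀ j, 0 < ξ j) (g : Γ) (q : ℚ) (hq : q ≠ 0) (j : ℕ) :
    ext τ ξ (g, q) j = (ξ j / τ (-(q⁻¹ • g)) j) ^ (q : ℝ) := by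
  have h1 : g = -(q • (-(q⁻¹ • g))) := by
    rw [smul_neg, neg_neg, smul_smul, mul_inv_cancel₀ hq, one_smul]
  have h2 : τ g j = (τ (-(q⁻¹ • g)) j ^ (q : ℝ))⁻¹ := by
    conv_lhs => rw [h1]
    rw [ft12_neg τ hpos hadd, ft12_smul τ hpos hadd]
  rw [Real.div_rpow (hξ0 j).le (hpos _ j).le]
  simp only [ext]
  rw [h2, mul_comm, div_eq_mul_inv]

theorem ft12_not_both (𝒰 : Ultrafilter ℕ) {Γ : Type} [AddCommGroup Γ] (τ : Γ → ℕ → ℝ)
    (hpos : ∀ g j, 0 < τ g j) (hadd : ∀ g h j, τ (g + h) j = τ g j * τ h j) (g : Γ)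
    (h1 : Tendsto (τ g) 𝒰 atTop) (h2 : Tendsto (τ (-g)) 𝒰 atTop) : False := by
  have h3 := (h1.eventually_ge_atTop 2).and (h2.eventually_ge_atTop 2)
  obtain ⟨j, hj1, hj2⟩ := h3.exists
  rw [ft12_neg τ hpos hadd] at hj2
  have h4 : (τ g j)⁻¹ ≤ 2⁻¹ := inv_anti₀ (by norm_num) hj1
  linarith [h4, (by norm_num : (2 : ℝ)⁻¹ < 2)]

/-- `ξ κ(ξ)` tends to infinity -/
theorem ft12_xi (𝒰 : Ultrafilter ℕ) {Γ : Type} (τ τ' : Γ → ℕ → ℝ) (κ : ℕ → ℝ → ℝ)
    (hκ : Prof 𝒰 τ τ' κ) (ξ : ℕ → ℝ) (hξ : Tendsto ξ 𝒰 atTop) :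
    Tendsto (fun j => ξ j * κ j (ξ j)) 𝒰 atTop := by
  rw [tendsto_atTop]
  intro C
  filter_upwards [hξ.eventually_ge_atTop (max C 0), hκ.one (max C 0)] with j h1 h2
  have h3 := hκ.mono j (max C 0) (ξ j) (le_max_right _ _) h1
  rw [h2, mul_one] at h3
  exact (le_max_left _ _).trans h3

/-- case `τ_p ≪ ξ` -/
theorem ft12_A (𝒰 : Ultrafilter ℕ) {Γ : Type}
    [AddCommGroup Γ] [Module ℚ Γ] (τ τ' : Γ → ℕ → ℝ) (hS : Scl 𝒰 τ τ') (κ : ℕ → ℝ → ℝ)
    (hκ : Prof 𝒰 τ τ' κ) (ξ : ℕ → ℝ) (hξ0 : ∀ j, 0 < ξ j) (hξ : Tendsto ξ 𝒰 atTop) (p : Γ)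
    (hp : LL 𝒰 (τ p) ξ) :
    Tendsto (fun j => ξ j / τ p j) 𝒰 atTop ∧
    Tendsto (fun j => ξ j * κ j (ξ j) / τ' p j) 𝒰 atTop ∧
    ∀ ε : ℝ, 0 < ε → ∀ᶠ j in (𝒰 : Filter ℕ),
      ξ j * κ j (ξ j) / τ' p j ≤ (1 + ε) * (ξ j / τ p j) := by
  have hx := ft12_xi 𝒰 τ τ' κ hκ ξ hξ
  have hone : Tendsto (fun j => ξ j / τ p j) 𝒰 atTop := by
    rw [tendsto_atTop]
    intro C
    filter_upwards [hp (max C 1) (lt_of_lt_of_le one_pos (le_max_right _ _))] with j hj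
    rw [le_div_iff₀ (hS.pos p j)]
    exact (mul_le_mul_of_nonneg_right (le_max_left _ _) (hS.pos p j).le).trans hj
  refine ⟨hone, ?_⟩
  rcases eq_or_ne p 0 with rfl | hp0
  · have h0 : ∀ j, τ 0 j = 1 := ft12_zero τ hS.pos hS.add
    have h0' : ∀ j, τ' 0 j = 1 := ft12_zero τ' hS.pos' hS.add'
    simp only [h0, h0', div_one]
    refine ⟨hx, fun ε hε => ?_⟩
    filter_upwards with j
    have h1 := hκ.le1 j (ξ j)
    have h2 := hξ0 j
    nlinarith [mul_le_mul_of_nonneg_left h1 h2.le, mul_pos hε h2]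
  · rcases hS.dich p hp0 with ⟨h1, h1'⟩ | ⟨h2, h2'⟩
    · constructor
      · rw [tendsto_atTop]
        intro C
        have hc : 0 < 2 * max C 1 :=
          mul_pos two_pos (lt_of_lt_of_le one_pos (le_max_right _ _))
        have h3 := hκ.win p h1 (2 * max C 1) hc
        filter_upwards [hp _ hc, h3.eventually_const_lt (by norm_num : (1 / 2 : ℝ) < 1)]
          with j h4 h5
        have hτ := hS.pos p j
        have hτ' := hS.pos' p j
        have h6 := hκ.mono j _ _ (mul_pos hc hτ).le h4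
        rw [lt_div_iff₀ hτ'] at h5
        rw [le_div_iff₀ hτ']
        have hC1 : C ≤ max C 1 := le_max_left _ _
        have hC2 : 1 ≤ max C 1 := le_max_right _ _
        calc C * τ' p j ≤ max C 1 * τ' p j := mul_le_mul_of_nonneg_right hC1 hτ'.le
          _ = (2 * max C 1) * (1 / 2 * τ' p j) := by ring
          _ ≤ (2 * max C 1) * (κ j (2 * max C 1 * τ p j) * τ p j) :=
            mul_le_mul_of_nonneg_left h5.le hc.le
          _ = (2 * max C 1 * τ p j) * κ j (2 * max C 1 * τ p j) := by ring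
          _ ≤ _ := h6
      · intro ε hε
        have h3 := hκ.win p h1 1 one_pos
        filter_upwards [hp 1 one_pos, h3.eventually_lt_const (by linarith : (1 : ℝ) < 1 + ε)]
          with j h4 h5
        have hτ := hS.pos p j
        have hτ' := hS.pos' p j
        rw [one_mul] at h4 h5
        have h6 := hκ.anti j _ _ hτ.le h4
        rw [div_lt_iff₀ hτ'] at h5
        rw [div_le_iff₀ hτ']
        have h7 : (1 + ε) * (ξ j / τ p j) * τ' p j = ξ j / τ p j * ((1 + ε) * τ' p j) := by ring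
        rw [h7]
        calc ξ j * κ j (ξ j) ≤ ξ j * κ j (τ p j) := mul_le_mul_of_nonneg_left h6 (hξ0 j).le
          _ = ξ j / τ p j * (κ j (τ p j) * τ p j) := by
            field_simp
          _ ≤ _ := mul_le_mul_of_nonneg_left h5.le (div_pos (hξ0 j) hτ).le
    · have hn : ∀ j, τ (-p) j = (τ p j)⁻¹ := ft12_neg τ hS.pos hS.add p
      have hn' : ∀ j, τ' (-p) j = (τ' p j)⁻¹ := ft12_neg τ' hS.pos' hS.add' p
      constructor
      · rw [tendsto_atTop]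
        intro C
        filter_upwards [hx.eventually_ge_atTop 1, h2'.eventually_ge_atTop C] with j h3 h4
        rw [div_eq_mul_inv, ← hn']
        have h5 := hS.pos' (-p) j
        calc C ≤ τ' (-p) j := h4
          _ = 1 * τ' (-p) j := (one_mul _).symm
          _ ≤ _ := mul_le_mul_of_nonneg_right h3 h5.le
      · intro ε hε
        filter_upwards [hS.le (-p) h2 ε hε] with j h3
        rw [div_eq_mul_inv, div_eq_mul_inv, ← hn', ← hn]
        have h1 := hκ.le1 j (ξ j)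
        have h4 := hξ0 j
        have h5 := hS.pos' (-p) j
        calc ξ j * κ j (ξ j) * τ' (-p) j ≤ ξ j * 1 * τ' (-p) j :=
              mul_le_mul_of_nonneg_right (mul_le_mul_of_nonneg_left h1 h4.le) h5.le
          _ = ξ j * τ' (-p) j := by ring
          _ ≤ ξ j * ((1 + ε) * τ (-p) j) := mul_le_mul_of_nonneg_left h3 h4.le
          _ = _ := by ring

/-- case `ξ ≪ τ_p` -/
theorem ft12_B (𝒰 : Ultrafilter ℕ) {Γ : Type}
    [AddCommGroup Γ] [Module ℚ Γ] (τ τ' : Γ → ℕ → ℝ) (hS : Scl 𝒰 τ τ') (κ : ℕ → ℝ → ℝ)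
    (hκ : Prof 𝒰 τ τ' κ) (ξ : ℕ → ℝ) (hξ0 : ∀ j, 0 < ξ j) (hξ : Tendsto ξ 𝒰 atTop) (p : Γ)
    (hp : LL 𝒰 ξ (τ p)) :
    Tendsto (fun j => τ p j / ξ j) 𝒰 atTop ∧
    Tendsto (fun j => τ' p j / (ξ j * κ j (ξ j))) 𝒰 atTop ∧
    ∀ ε : ℝ, 0 < ε → ∀ᶠ j in (𝒰 : Filter ℕ),
      τ' p j / (ξ j * κ j (ξ j)) ≤ (1 + ε) * (τ p j / ξ j) := by
  have hone : Tendsto (fun j => τ p j / ξ j) 𝒰 atTop := by
    rw [tendsto_atTop]
    intro C
    filter_upwards [hp (max C 1) (lt_of_lt_of_le one_pos (le_max_right _ _))] with j hj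
    rw [le_div_iff₀ (hξ0 j)]
    exact (mul_le_mul_of_nonneg_right (le_max_left _ _) (hξ0 j).le).trans hj
  have htop : Tendsto (τ p) 𝒰 atTop := by
    refine tendsto_atTop_mono' _ ?_ hξ
    filter_upwards [hp 1 one_pos] with j hj
    rwa [one_mul] at hj
  have hp0 : p ≠ 0 := by
    rintro rfl
    obtain ⟨j, hj⟩ := (htop.eventually_ge_atTop 2).exists
    rw [ft12_zero τ hS.pos hS.add] at hj
    norm_num at hj
  have htop' : Tendsto (τ' p) 𝒰 atTop := by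
    rcases hS.dich p hp0 with ⟨-, h⟩ | ⟨h, -⟩
    · exact h
    · exact (ft12_not_both 𝒰 τ hS.pos hS.add p htop h).elim
  have hx0 : ∀ j, 0 < ξ j * κ j (ξ j) := fun j => mul_pos (hξ0 j) (hκ.pos j _)
  refine ⟨hone, ?_, ?_⟩
  · rw [tendsto_atTop]
    intro C
    have hc : 0 < 2 * max C 1 :=
      mul_pos two_pos (lt_of_lt_of_le one_pos (le_max_right _ _))
    have h3 := hκ.win p htop (2 * max C 1)⁻¹ (inv_pos.2 hc)
    filter_upwards [hp _ hc, h3.eventually_lt_const (by norm_num : (1 : ℝ) < 2)] with j h4 h5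
    have hτ := hS.pos p j
    have hτ' := hS.pos' p j
    have h4' : ξ j ≤ (2 * max C 1)⁻¹ * τ p j := by
      rw [inv_mul_eq_div, le_div_iff₀ hc]
      linarith
    have h6 := hκ.mono j _ _ (hξ0 j).le h4'
    rw [div_lt_iff₀ hτ'] at h5
    rw [le_div_iff₀ (hx0 j)]
    have hC1 : C ≤ max C 1 := le_max_left _ _
    have hC2 : (0 : ℝ) < max C 1 := lt_of_lt_of_le one_pos (le_max_right _ _)
    calc C * (ξ j * κ j (ξ j)) ≤ max C 1 * (ξ j * κ j (ξ j)) :=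
          mul_le_mul_of_nonneg_right hC1 (hx0 j).le
      _ ≤ max C 1 * ((2 * max C 1)⁻¹ * τ p j * κ j ((2 * max C 1)⁻¹ * τ p j)) :=
          mul_le_mul_of_nonneg_left h6 hC2.le
      _ = (1 / 2) * (κ j ((2 * max C 1)⁻¹ * τ p j) * τ p j) := by
          field_simp
      _ ≤ (1 / 2) * (2 * τ' p j) := mul_le_mul_of_nonneg_left h5.le (by norm_num)
      _ = τ' p j := by ring
  · intro ε hε
    have h3 := hκ.win p htop 1 one_pos
    have h1ε : (1 + ε)⁻¹ < 1 := inv_lt_one_of_one_lt₀ (by linarith)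
    filter_upwards [hp 1 one_pos, h3.eventually_const_lt h1ε] with j h4 h5
    have hτ := hS.pos p j
    have hτ' := hS.pos' p j
    rw [one_mul] at h4 h5
    have h6 := hκ.anti j _ _ (hξ0 j).le h4
    rw [lt_div_iff₀ hτ'] at h5
    rw [div_le_iff₀ (hx0 j)]
    have hε1 : 0 < 1 + ε := by linarith
    have h7 : τ' p j ≤ (1 + ε) * (κ j (τ p j) * τ p j) := by
      have := mul_le_mul_of_nonneg_left h5.le hε1.le
      rwa [← mul_assoc, mul_inv_cancel₀ hε1.ne', one_mul] at this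
    calc τ' p j ≤ (1 + ε) * (κ j (τ p j) * τ p j) := h7
      _ ≤ (1 + ε) * (κ j (ξ j) * τ p j) :=
          mul_le_mul_of_nonneg_left (mul_le_mul_of_nonneg_right h6 hτ.le) hε1.le
      _ = (1 + ε) * (τ p j / ξ j) * (ξ j * κ j (ξ j)) := by
          have := (hξ0 j).ne'
          field_simp

/-- a positive power -/
theorem ft12_pow (𝒰 : Ultrafilter ℕ) (x x' : ℕ → ℝ) (hx : ∀ j, 0 < x j)
    (hx' : ∀ j, 0 < x' j) (h1 : Tendsto x 𝒰 atTop)
    (h2 : Tendsto x' 𝒰 atTop)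
    (h3 : ∀ ε : ℝ, 0 < ε → ∀ᶠ j in (𝒰 : Filter ℕ), x' j ≤ (1 + ε) * x j) (q : ℝ) (hq : 0 < q) :
    Tendsto (fun j => x j ^ q) 𝒰 atTop ∧ Tendsto (fun j => x' j ^ q) 𝒰 atTop ∧
    ∀ ε : ℝ, 0 < ε → ∀ᶠ j in (𝒰 : Filter ℕ), x' j ^ q ≤ (1 + ε) * x j ^ q := by
  refine ⟨(tendsto_rpow_atTop hq).comp h1, (tendsto_rpow_atTop hq).comp h2, fun ε hε => ?_⟩
  have hε1 : 1 < (1 + ε) ^ q⁻¹ := Real.one_lt_rpow (by linarith) (inv_pos.2 hq)
  filter_upwards [h3 ((1 + ε) ^ q⁻¹ - 1) (by linarith)] with j hj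
  have h4 : (1 : ℝ) + ((1 + ε) ^ q⁻¹ - 1) = (1 + ε) ^ q⁻¹ := by ring
  rw [h4] at hj
  calc x' j ^ q ≤ ((1 + ε) ^ q⁻¹ * x j) ^ q := Real.rpow_le_rpow (hx' j).le hj hq.le
    _ = (1 + ε) * x j ^ q := by
      rw [Real.mul_rpow (by positivity) (hx j).le, ← Real.rpow_mul (by linarith),
        inv_mul_cancel₀ hq.ne', Real.rpow_one]

theorem ft12_div_neg (x y q : ℝ) (hx : 0 < x) (hy : 0 < y) : (x / y) ^ q = (y / x) ^ (-q) := by
  rw [← inv_div x y, Real.inv_rpow (div_pos hx hy).le, Real.rpow_neg (div_pos hx hy).le, inv_inv]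

theorem scl_ext (𝒰 : Ultrafilter ℕ) (h𝒰 : (𝒰 : Filter ℕ) ≤ atTop) {Γ : Type}
    [AddCommGroup Γ] [Module ℚ Γ] (τ τ' : Γ → ℕ → ℝ) (hS : Scl 𝒰 τ τ') (κ : ℕ → ℝ → ℝ)
    (hκ : Prof 𝒰 τ τ' κ) (ξ : ℕ → ℝ) (hξ0 : ∀ j, 0 < ξ j) (hξ : Tendsto ξ 𝒰 atTop)
    (hex : ∀ g, LL 𝒰 (τ g) ξ ∨ LL 𝒰 ξ (τ g)) :
    Scl 𝒰 (ext τ ξ) (ext τ' (fun j => ξ j * κ j (ξ j))) := by
  have hx0 : ∀ j, 0 < ξ j * κ j (ξ j) := fun j => mul_pos (hξ0 j) (hκ.pos j _)
  -- the alternative for a nonzero power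
  have key : ∀ (g : Γ) (q : ℚ), q ≠ 0 →
      (Tendsto (ext τ ξ (g, q)) 𝒰 atTop ∧
        Tendsto (ext τ' (fun j => ξ j * κ j (ξ j)) (g, q)) 𝒰 atTop ∧
        ∀ ε : ℝ, 0 < ε → ∀ᶠ j in (𝒰 : Filter ℕ),
          ext τ' (fun j => ξ j * κ j (ξ j)) (g, q) j ≤ (1 + ε) * ext τ ξ (g, q) j) ∨
      (Tendsto (ext τ ξ (-(g, q))) 𝒰 atTop ∧
        Tendsto (ext τ' (fun j => ξ j * κ j (ξ j)) (-(g, q))) 𝒰 atTop) := by
    intro g q hq
    have hmain : ∀ (g : Γ) (q : ℚ), 0 < q →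
        (LL 𝒰 (τ (-(q⁻¹ • g))) ξ → (Tendsto (ext τ ξ (g, q)) 𝒰 atTop ∧
          Tendsto (ext τ' (fun j => ξ j * κ j (ξ j)) (g, q)) 𝒰 atTop ∧
          ∀ ε : ℝ, 0 < ε → ∀ᶠ j in (𝒰 : Filter ℕ),
            ext τ' (fun j => ξ j * κ j (ξ j)) (g, q) j ≤ (1 + ε) * ext τ ξ (g, q) j)) ∧
        (LL 𝒰 ξ (τ (-(q⁻¹ • g))) → (Tendsto (ext τ ξ (-g, -q)) 𝒰 atTop ∧
          Tendsto (ext τ' (fun j => ξ j * κ j (ξ j)) (-g, -q)) 𝒰 atTop ∧
          ∀ ε : ℝ, 0 < ε → ∀ᶠ j in (𝒰 : Filter ℕ),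
            ext τ' (fun j => ξ j * κ j (ξ j)) (-g, -q) j ≤ (1 + ε) * ext τ ξ (-g, -q) j)) := by
      intro g q hq
      have hq' : (0 : ℝ) < (q : ℝ) := by exact_mod_cast hq
      set p := -(q⁻¹ • g) with hpdef
      constructor
      · intro h
        obtain ⟨h1, h2, h3⟩ := ft12_A 𝒰 τ τ' hS κ hκ ξ hξ0 hξ p h
        obtain ⟨h4, h5, h6⟩ := ft12_pow 𝒰 _ _ (fun j => div_pos (hξ0 j) (hS.pos p j))
          (fun j => div_pos (hx0 j) (hS.pos' p j)) h1 h2 h3 (q : ℝ) hq'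
        have e1 : ext τ ξ (g, q) = fun j => (ξ j / τ p j) ^ (q : ℝ) := by
          funext j
          exact ft12_ext τ hS.pos hS.add ξ hξ0 g q hq.ne' j
        have e2 : ext τ' (fun j => ξ j * κ j (ξ j)) (g, q) =
            fun j => (ξ j * κ j (ξ j) / τ' p j) ^ (q : ℝ) := by
          funext j
          exact ft12_ext τ' hS.pos' hS.add' _ hx0 g q hq.ne' j
        rw [e1, e2]
        exact ⟨h4, h5, h6⟩
      · intro h
        obtain ⟨h1, h2, h3⟩ := ft12_B 𝒰 τ τ' hS κ hκ ξ hξ0 hξ p h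
        obtain ⟨h4, h5, h6⟩ := ft12_pow 𝒰 _ _ (fun j => div_pos (hS.pos p j) (hξ0 j))
          (fun j => div_pos (hS.pos' p j) (hx0 j)) h1 h2 h3 (q : ℝ) hq'
        have hpp : -((-q)⁻¹ • (-g)) = p := by
          rw [hpdef, inv_neg, neg_smul_neg]
        have e1 : ext τ ξ (-g, -q) = fun j => (τ p j / ξ j) ^ (q : ℝ) := by
          funext j
          rw [ft12_ext τ hS.pos hS.add ξ hξ0 (-g) (-q) (neg_ne_zero.2 hq.ne') j, hpp,
            ft12_div_neg _ _ _ (hξ0 j) (hS.pos p j)]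
          push_cast
          rw [neg_neg]
        have e2 : ext τ' (fun j => ξ j * κ j (ξ j)) (-g, -q) =
            fun j => (τ' p j / (ξ j * κ j (ξ j))) ^ (q : ℝ) := by
          funext j
          rw [ft12_ext τ' hS.pos' hS.add' _ hx0 (-g) (-q) (neg_ne_zero.2 hq.ne') j, hpp,
            ft12_div_neg _ _ _ (hx0 j) (hS.pos' p j)]
          push_cast
          rw [neg_neg]
        rw [e1, e2]
        exact ⟨h4, h5, h6⟩
    rcases lt_or_gt_of_ne hq with hneg | hposq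
    · have hq2 : 0 < -q := by linarith
      obtain ⟨hA, hB⟩ := hmain (-g) (-q) hq2
      rw [neg_neg, neg_neg] at hB
      rcases hex (-((-q)⁻¹ • (-g))) with h | h
      · right
        obtain ⟨h1, h2, -⟩ := hA h
        exact ⟨h1, h2⟩
      · left
        exact hB h
    · obtain ⟨hA, hB⟩ := hmain g q hposq
      rcases hex (-(q⁻¹ • g)) with h | h
      · left
        exact hA h
      · right
        obtain ⟨h1, h2, -⟩ := hB h
        exact ⟨h1, h2⟩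
  have hpos : ∀ g j, 0 < ext τ ξ g j := fun g j =>
    mul_pos (hS.pos _ j) (Real.rpow_pos_of_pos (hξ0 j) _)
  have hpos' : ∀ g j, 0 < ext τ' (fun j => ξ j * κ j (ξ j)) g j := fun g j =>
    mul_pos (hS.pos' _ j) (Real.rpow_pos_of_pos (hx0 j) _)
  have hadd : ∀ g h j, ext τ ξ (g + h) j = ext τ ξ g j * ext τ ξ h j := by
    intro g h j
    simp only [ext, Prod.fst_add, Prod.snd_add]
    rw [hS.add]
    push_cast
    rw [Real.rpow_add (hξ0 j)]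
    ring
  have hadd' : ∀ g h j, ext τ' (fun j => ξ j * κ j (ξ j)) (g + h) j =
      ext τ' (fun j => ξ j * κ j (ξ j)) g j * ext τ' (fun j => ξ j * κ j (ξ j)) h j := by
    intro g h j
    simp only [ext, Prod.fst_add, Prod.snd_add]
    rw [hS.add']
    push_cast
    rw [Real.rpow_add (hx0 j)]
    ring
  have hz : ∀ g : Γ, ext τ ξ (g, 0) = τ g := by
    intro g
    funext j
    simp [ext]
  have hz' : ∀ g : Γ, ext τ' (fun j => ξ j * κ j (ξ j)) (g, 0) = τ' g := by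
    intro g
    funext j
    simp [ext]
  refine ⟨hpos, hpos', hadd, hadd', ?_, ?_⟩
  · rintro ⟨g, q⟩ hgq
    rcases eq_or_ne q 0 with rfl | hq
    · have hg : g ≠ 0 := by
        rintro rfl
        exact hgq rfl
      have h1 : -((g, 0) : Γ × ℚ) = (-g, 0) := by simp
      rw [h1, hz, hz', hz, hz']
      exact hS.dich g hg
    · rcases key g q hq with ⟨h1, h2, -⟩ | h
      · exact Or.inl ⟨h1, h2⟩
      · exact Or.inr h
  · rintro ⟨g, q⟩ hgq ε hε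
    rcases eq_or_ne q 0 with rfl | hq
    · rw [hz] at hgq
      have h1 := hS.le g hgq ε hε
      rw [hz, hz']
      exact h1
    · rcases key g q hq with ⟨-, -, h⟩ | ⟨h1, -⟩
      · exact h ε hε
      · exact (ft12_not_both 𝒰 (ext τ ξ) hpos hadd (g, q) hgq h1).elim

end Pool.Agent.H43.FT
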