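import Pool.Agent.H43.FT.Defs
import Pool.Agent.H43.FT.Sat
import Pool.Agent.H43.FT.AStepV
import Pool.Agent.H43.FT.Half

/-!
FT-14: the A-step for sequences.
-/

set_option autoImplicit false

open MvPolynomial Filter Topology Pool.Agent.H77.FB Pool.Agent.H60.FB Pool.Agent.H77.N2

namespace Pool.Agent.H43.FT

open scoped InnerProductSpace

variable {n : ℕ}

/-! ### Calculus of `LL` -/

lemma ft14_mono {𝒰 : Ultrafilter ℕ} {x x' y : ℕ → ℝ} (h : LL 𝒰 x' y)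
    (hx : ∀ᶠ j in (𝒰 : Filter ℕ), x j ≤ x' j) : LL 𝒰 x y := by
  intro m hm
  filter_upwards [h m hm, hx] with j h1 h2
  exact (mul_le_mul_of_nonneg_left h2 hm.le).trans h1

lemma ft14_le {𝒰 : Ultrafilter ℕ} {x y y' : ℕ → ℝ} (h : LL 𝒰 x y)
    (hy : ∀ᶠ j in (𝒰 : Filter ℕ), y j ≤ y' j) : LL 𝒰 x y' := by
  intro m hm
  filter_upwards [h m hm, hy] with j h1 h2
  exact h1.trans h2

lemma ft14_add {𝒰 : Ultrafilter ℕ} {x x' y : ℕ → ℝ} (h : LL 𝒰 x y) (h' : LL 𝒰 x' y) :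
    LL 𝒰 (fun j => x j + x' j) y := by
  intro m hm
  filter_upwards [h (2 * m) (by positivity), h' (2 * m) (by positivity)] with j h1 h2
  linarith

lemma ft14_smul {𝒰 : Ultrafilter ℕ} {x y : ℕ → ℝ} {c : ℝ} (hc : 0 < c) (h : LL 𝒰 x y) :
    LL 𝒰 (fun j => c * x j) y := by
  intro m hm
  filter_upwards [h (m * c) (by positivity)] with j h1
  linarith

lemma ft14_small {𝒰 : Ultrafilter ℕ} {δ x y : ℕ → ℝ} (hδ : Tendsto δ 𝒰 (𝓝 0))
    (hy : ∀ j, 0 ≤ y j) (hx : ∀ᶠ j in (𝒰 : Filter ℕ), x j ≤ δ j * y j) : LL 𝒰 x y := by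
  intro m hm
  have h1 : ∀ᶠ j in (𝒰 : Filter ℕ), δ j < 1 / m :=
    hδ.eventually_lt_const (by positivity)
  filter_upwards [h1, hx] with j h2 h3
  have h4 : x j ≤ 1 / m * y j := h3.trans (mul_le_mul_of_nonneg_right h2.le (hy j))
  calc m * x j ≤ m * (1 / m * y j) := mul_le_mul_of_nonneg_left h4 hm.le
    _ = y j := by field_simp

/-- A touching paraboloid stays one when the curvature grows. -/
lemma ft14_touch {M : V n → ℝ} {b Y : V n} {H H' r : ℝ} (hM : 0 ≤ M b) (h : Touch M b Y H r)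
    (hH : H ≤ H') : Touch M b Y H' r := by
  intro z hz
  refine (h z hz).trans (mul_le_mul_of_nonneg_left (Real.exp_le_exp.2 ?_) hM)
  have : H / 2 * ‖z - b‖ ^ 2 ≤ H' / 2 * ‖z - b‖ ^ 2 :=
    mul_le_mul_of_nonneg_right (by linarith) (by positivity)
  linarith

lemma ft14_cont {h : (Fin n → ℂ) → ℂ} (hd : Differentiable ℂ h) : Continuous (MM h) := by
  unfold MM
  exact (hd.continuous.comp (PiLp.continuous_ofLp 2 _)).norm

/-- `κ(ρ) ρ` is small with respect to `R'`. -/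
lemma ft14_kr {𝒰 : Ultrafilter ℕ} {κ : ℕ → ℝ → ℝ} {ρ R R' : ℕ → ℝ}
    (hmono : ∀ j R T, 0 ≤ R → R ≤ T → R * κ j R ≤ T * κ j T)
    (hR0 : ∀ j, 0 < R j ∧ 0 < R' j)
    (winR : ∀ m : ℝ, 0 < m → Tendsto (fun j => κ j (R j / m) * R j / R' j) 𝒰 (𝓝 1))
    (hρ0 : ∀ j, 0 < ρ j) (hρR : LL 𝒰 ρ R) : LL 𝒰 (fun j => κ j (ρ j) * ρ j) R' := by
  intro m hm
  have h1 : ∀ᶠ j in (𝒰 : Filter ℕ), κ j (R j / (2 * m)) * R j / R' j < 2 :=
    (winR (2 * m) (by positivity)).eventually_lt_const (by norm_num)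
  filter_upwards [h1, hρR (2 * m) (by positivity)] with j h2 h3
  have hR' := (hR0 j).2
  rw [div_lt_iff₀ hR'] at h2
  have h4 : ρ j ≤ R j / (2 * m) := by
    rw [le_div_iff₀ (by positivity)]
    linarith
  have h5 := hmono j (ρ j) (R j / (2 * m)) (hρ0 j).le h4
  have h6 : m * (R j / (2 * m) * κ j (R j / (2 * m))) = κ j (R j / (2 * m)) * R j / 2 := by
    field_simp
  have h7 := mul_le_mul_of_nonneg_left h5 hm.le
  rw [h6] at h7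
  linarith

/-- The points of the ball of radius `4 ρ` are in the half domain. -/
lemma ft14_dom {𝒰 : Ultrafilter ℕ} (E : Submodule ℂ (V n)) {b b₁ : ℕ → V n} {ρ R : ℕ → ℝ}
    (hR0 : ∀ j, 0 < R j) (hρR : LL 𝒰 ρ R)
    (hb : LL 𝒰 (fun j => ‖E.starProjection (b j - b₁ j)‖) R) :
    ∀ᶠ j in (𝒰 : Filter ℕ), ∀ z, ‖E.starProjection (z - b j)‖ < 4 * ρ j →
      ‖E.starProjection (z - b₁ j)‖ < R j / 2 := by
  filter_upwards [hρR 16 (by norm_num), hb 8 (by norm_num)] with j h1 h2 z hz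
  have h3 : E.starProjection (z - b₁ j) = E.starProjection (z - b j)
      + E.starProjection (b j - b₁ j) := by
    rw [← map_add]
    congr 1
    abel
  rw [h3]
  have h4 := norm_add_le (E.starProjection (z - b j)) (E.starProjection (b j - b₁ j))
  have h5 := hR0 j
  linarith

lemma ft14_diff {h : Fin n → (V n → ℂ)} {S : Set (V n)} (hd : ∀ i, DifferentiableOn ℂ (h i) S) :
    DifferentiableOn ℂ (fun z => (WithLp.toLp 2 (fun i => h i z) : V n)) S := by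
  rw [differentiableOn_euclidean]
  exact hd

/-! ### The step -/

theorem step_seq (𝒰 : Ultrafilter ℕ) (h𝒰 : (𝒰 : Filter ℕ) ≤ atTop)
    (P : MvPolynomial (Fin n) ℂ) (h : ℕ → (Fin n → ℂ) → ℂ) (A : ℕ → ℝ) (B : ℝ)
    (b₀ Y₀ : ℕ → V n) (hI : Inst 𝒰 P h A B b₀ Y₀)
    {Γ : Type} [AddCommGroup Γ] [Module ℚ Γ] (τ τ' : Γ → ℕ → ℝ)
    (E : Submodule ℂ (V n)) (b₁ Y₁ : ℕ → V n) (R R' : ℕ → ℝ) (κ : ℕ → ℝ → ℝ)
    (𝓕 : Subring (Pr n)) (a : Fin n → Pr n)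
    (hst : Stage 𝒰 h A b₀ Y₀ τ τ' E b₁ Y₁ R R' κ 𝓕 a)
    (c : Fin n → Pr n) (b Y : ℕ → V n) (ρ : ℕ → ℝ)
    (hc : IsCen 𝒰 (stDm E b₁ Y₁ R R') 𝓕 c)
    (hca : ∀ i, Sm 𝒰 (stDm E b₁ Y₁ R R') (c i - a i) R R')
    (hcon : Cont 𝒰 h A b₀ Y₀ b Y)
    (hb : LL 𝒰 (fun j => ‖E.starProjection (b j - b₁ j)‖) R)
    (hY : LL 𝒰 (fun j => ‖E.starProjection (Y j - Y₁ j)‖) R')
    (hρ0 : ∀ j, 0 < ρ j) (hρR : LL 𝒰 ρ R) (ht : TouchS 𝒰 h b Y κ ρ)
    (hu : LL 𝒰 (fun j => ‖b j - pt c j (b j)‖) ρ)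
    (hU : LL 𝒰 (fun j => ‖Y j - fr c j (Y j)‖) (fun j => κ j (ρ j) * ρ j)) :
    ∃ (b' Y' : ℕ → V n), Cont 𝒰 h A b₀ Y₀ b' Y' ∧
      LL 𝒰 (fun j => ‖E.starProjection (b' j - b₁ j)‖) R ∧
      LL 𝒰 (fun j => ‖E.starProjection (Y' j - Y₁ j)‖) R' ∧
      LL 𝒰 (fun j => ‖b' j - pt c j (b' j)‖) ρ ∧
      (∀ ε : ℝ, 0 < ε → ∀ᶠ j in (𝒰 : Filter ℕ), Touch (MM (h j)) (b' j) (Y' j)
        ((1 + ε) * κ j ‖b' j - pt c j (b' j)‖) (ρ j / 8)) ∧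
      ∀ ε : ℝ, 0 < ε → ∀ᶠ j in (𝒰 : Filter ℕ),
        ‖(Y' j - fr c j (Y' j)) - (κ j ‖b' j - pt c j (b' j)‖ : ℂ) • (b' j - pt c j (b' j))‖
          ≤ ε * (κ j ‖b' j - pt c j (b' j)‖ * ‖b' j - pt c j (b' j)‖) := by
  have hpos := hst.prof.pos
  have hanti := hst.prof.anti
  have hmono := hst.prof.mono
  have hR0 := hst.hR0
  have hk0 : ∀ j, 0 < κ j (ρ j) * ρ j := fun j => mul_pos (hpos j _) (hρ0 j)
  have hkR : LL 𝒰 (fun j => κ j (ρ j) * ρ j) R' := ft14_kr hmono hR0 hst.winR hρ0 hρR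
  have holc : ∀ i, Hol 𝒰 (stDm E b₁ Y₁ R R') (c i) := fun i => (hst.ring.good _ (hc.mem i)).1
  have hola : ∀ i, Hol 𝒰 (stDm E b₁ Y₁ R R') (a i) := fun i =>
    (hst.ring.good _ (hst.cen.mem i)).1
  have hslp := slp_half 𝒰 E b₁ Y₁ R R' hR0 a c hola holc hst.slp hca
  -- the choice of `δ`
  have hp : ∀ ε : ℝ, 0 < ε → ∀ᶠ j in (𝒰 : Filter ℕ),
      Touch (MM (h j)) (b j) (Y j) ((1 + ε) * κ j (ρ j)) (ρ j) ∧
      ‖b j - pt c j (b j)‖ ≤ ε ^ 4 * ρ j ∧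
      ‖Y j - fr c j (Y j)‖ ≤ ε ^ 4 * (κ j (ρ j) * ρ j) ∧
      ((∀ z ∈ {z | ‖E.starProjection (z - b₁ j)‖ < R j / 2},
        ∀ w ∈ {z | ‖E.starProjection (z - b₁ j)‖ < R j / 2},
        ‖(pt c j z - pt c j w) - (E.starProjection z - E.starProjection w)‖
          ≤ ε ^ 2 / 8 * ‖E.starProjection z - E.starProjection w‖) ∧
      ∀ z ∈ {z | ‖E.starProjection (z - Y₁ j)‖ < R' j / 2},
        ∀ w ∈ {z | ‖E.starProjection (z - Y₁ j)‖ < R' j / 2},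
        ‖(fr c j z - fr c j w) - (E.starProjection z - E.starProjection w)‖
          ≤ ε ^ 2 / 8 * ‖E.starProjection z - E.starProjection w‖) := by
    intro ε hε
    filter_upwards [ht ε hε, hu (1 / ε ^ 4) (by positivity), hU (1 / ε ^ 4) (by positivity),
      hslp (ε ^ 2 / 8) (by positivity)] with j h1 h2 h3 h4
    refine ⟨h1, ?_, ?_, h4⟩
    · rw [one_div, inv_mul_le_iff₀ (by positivity)] at h2
      exact h2
    · rw [one_div, inv_mul_le_iff₀ (by positivity)] at h3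
      exact h3
  obtain ⟨δ, hδ0, hδt, hδp⟩ := sat_eps 𝒰 h𝒰 _ hp
  have hδ1 : ∀ᶠ j in (𝒰 : Filter ℕ), δ j < 1 / 100 := hδt.eventually_lt_const (by norm_num)
  have hdom := ft14_dom E (b := b) (b₁ := b₁) (fun j => (hR0 j).1) hρR hb
  have hdom' := ft14_dom E (b := Y) (b₁ := Y₁) (fun j => (hR0 j).2) hkR hY
  have hbig : ∀ᶠ j in (𝒰 : Filter ℕ), 0 < MM (h j) (b j) := by
    filter_upwards [hcon.big 1 one_pos] with j hj
    exact lt_of_lt_of_le (mul_pos (hI.apos j) (Real.exp_pos _)) hj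
  have hholall : ∀ᶠ j in (𝒰 : Filter ℕ), ∀ i : Fin n,
      (DifferentiableOn ℂ ((c i).1 j) {z | ‖E.starProjection (z - b₁ j)‖ < R j} ∧
        ∀ z ∈ {z | ‖E.starProjection (z - b₁ j)‖ < R j},
          (c i).1 j (E.starProjection z) = (c i).1 j z) ∧
      (DifferentiableOn ℂ ((c i).2 j) {z | ‖E.starProjection (z - Y₁ j)‖ < R' j} ∧
        ∀ z ∈ {z | ‖E.starProjection (z - Y₁ j)‖ < R' j},
          (c i).2 j (E.starProjection z) = (c i).2 j z) := by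
    rw [Filter.eventually_all]
    exact holc
  have hmain : ∀ᶠ j in (𝒰 : Filter ℕ), ∃ b' Y' : V n, ‖b' - b j‖ ≤ δ j * ρ j ∧
      ‖Y' - Y j‖ ≤ 3 * (κ j (ρ j) * ρ j) ∧ ‖b' - pt c j b'‖ ≤ δ j * ρ j ∧
      MM (h j) (b j) * Real.exp ((⟪Y j, b' - b j⟫_ℂ).re - δ j ^ 3 * (κ j (ρ j) * ρ j ^ 2))
        ≤ MM (h j) b' ∧
      ‖(Y' - fr c j Y') - (κ j ‖b' - pt c j b'‖ : ℂ) • (b' - pt c j b')‖
        ≤ 50 * δ j * (κ j ‖b' - pt c j b'‖ * ‖b' - pt c j b'‖) ∧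
      Touch (MM (h j)) b' Y' ((1 + 50 * δ j) * κ j ‖b' - pt c j b'‖) (ρ j / 8) := by
    filter_upwards [hδp, hδ1, hdom, hdom', hbig, hholall, hc.proj] with
      j ⟨p1, p2, p3, p4, p5⟩ hδj hd hd' hMb hhol hproj
    refine astepV E (hδ0 j) hδj.le (sq_nonneg (δ j)) le_rfl (hρ0 j) (κ j) (hpos j) (hanti j)
      (hmono j) (b j) (Y j) (pt c j) (fr c j) ?_ ?_ ?_ ?_ ?_ (MM (h j)) (ft14_cont (hI.diff j))
      (fun z => norm_nonneg _) hMb p1 p2 p3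
    · refine ft14_diff fun i => (hhol i).1.1.mono fun z hz => ?_
      have h1 := hd z hz
      have h2 := (hR0 j).1
      show ‖E.starProjection (z - b₁ j)‖ < R j
      linarith
    · intro z hz
      have h1 : ‖E.starProjection (z - b₁ j)‖ < R j := by
        have h1 := hd z hz
        have h2 := (hR0 j).1
        linarith
      refine ⟨?_, hproj.1 z h1⟩
      unfold pt
      congr 1
      funext i
      exact (hhol i).1.2 z h1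
    · intro z hz
      have h1 : ‖E.starProjection (z - Y₁ j)‖ < R' j := by
        have h1 := hd' z hz
        have h2 := (hR0 j).2
        linarith
      refine ⟨?_, hproj.2 z h1⟩
      unfold fr
      congr 1
      funext i
      exact (hhol i).2.2 z h1
    · intro z w hz hw
      exact p4 z (hd z hz) w (hd w hw)
    · intro z w hz hw
      refine (p5 z (hd' z hz) w (hd' w hw)).trans ?_
      apply mul_le_mul_of_nonneg_right _ (norm_nonneg _)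
      have := sq_nonneg (δ j)
      linarith
  -- choice of the new contact
  have hch : ∀ j, ∃ x : V n × V n, (∃ b' Y' : V n, ‖b' - b j‖ ≤ δ j * ρ j ∧
      ‖Y' - Y j‖ ≤ 3 * (κ j (ρ j) * ρ j) ∧ ‖b' - pt c j b'‖ ≤ δ j * ρ j ∧
      MM (h j) (b j) * Real.exp ((⟪Y j, b' - b j⟫_ℂ).re - δ j ^ 3 * (κ j (ρ j) * ρ j ^ 2))
        ≤ MM (h j) b' ∧
      ‖(Y' - fr c j Y') - (κ j ‖b' - pt c j b'‖ : ℂ) • (b' - pt c j b')‖
        ≤ 50 * δ j * (κ j ‖b' - pt c j b'‖ * ‖b' - pt c j b'‖) ∧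
      Touch (MM (h j)) b' Y' ((1 + 50 * δ j) * κ j ‖b' - pt c j b'‖) (ρ j / 8)) →
      (‖x.1 - b j‖ ≤ δ j * ρ j ∧
      ‖x.2 - Y j‖ ≤ 3 * (κ j (ρ j) * ρ j) ∧ ‖x.1 - pt c j x.1‖ ≤ δ j * ρ j ∧
      MM (h j) (b j) * Real.exp ((⟪Y j, x.1 - b j⟫_ℂ).re - δ j ^ 3 * (κ j (ρ j) * ρ j ^ 2))
        ≤ MM (h j) x.1 ∧
      ‖(x.2 - fr c j x.2) - (κ j ‖x.1 - pt c j x.1‖ : ℂ) • (x.1 - pt c j x.1)‖
        ≤ 50 * δ j * (κ j ‖x.1 - pt c j x.1‖ * ‖x.1 - pt c j x.1‖) ∧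
      Touch (MM (h j)) x.1 x.2 ((1 + 50 * δ j) * κ j ‖x.1 - pt c j x.1‖) (ρ j / 8)) := by
    intro j
    by_cases hex : ∃ b' Y' : V n, ‖b' - b j‖ ≤ δ j * ρ j ∧
      ‖Y' - Y j‖ ≤ 3 * (κ j (ρ j) * ρ j) ∧ ‖b' - pt c j b'‖ ≤ δ j * ρ j ∧
      MM (h j) (b j) * Real.exp ((⟪Y j, b' - b j⟫_ℂ).re - δ j ^ 3 * (κ j (ρ j) * ρ j ^ 2))
        ≤ MM (h j) b' ∧
      ‖(Y' - fr c j Y') - (κ j ‖b' - pt c j b'‖ : ℂ) • (b' - pt c j b')‖
        ≤ 50 * δ j * (κ j ‖b' - pt c j b'‖ * ‖b' - pt c j b'‖) ∧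
      Touch (MM (h j)) b' Y' ((1 + 50 * δ j) * κ j ‖b' - pt c j b'‖) (ρ j / 8)
    · obtain ⟨b', Y', hx⟩ := hex
      exact ⟨(b', Y'), fun _ => hx⟩
    · exact ⟨0, fun h => absurd h hex⟩
  choose x hx using hch
  have hx' := hmain.mono fun j hj => hx j hj
  clear hx hmain
  have hδn : ∀ j, 0 ≤ δ j := fun j => (hδ0 j).le
  -- smallness
  have s1 : ∀ᶠ j in (𝒰 : Filter ℕ), ‖(x j).1 - b j‖ ≤ ρ j := by
    filter_upwards [hx', hδ1] with j hj h1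
    have := hρ0 j
    nlinarith [hj.1]
  have hRb : ∀ᶠ j in (𝒰 : Filter ℕ), R j ≤ ‖b₀ j‖ := hst.leR.mono fun j hj => hj.1
  have hRY : ∀ᶠ j in (𝒰 : Filter ℕ), R' j ≤ ‖Y₀ j‖ := hst.leR.mono fun j hj => hj.2
  have hρb : LL 𝒰 ρ (fun j => ‖b₀ j‖) := ft14_le hρR hRb
  have hkY : LL 𝒰 (fun j => κ j (ρ j) * ρ j) (fun j => ‖Y₀ j‖) := ft14_le hkR hRY
  refine ⟨fun j => (x j).1, fun j => (x j).2, ⟨?_, ?_, ?_⟩, ?_, ?_, ?_, ?_, ?_⟩
  · refine ft14_mono (ft14_add hρb hcon.nb) ?_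
    filter_upwards [s1] with j hj
    have h1 : (x j).1 - b₀ j = ((x j).1 - b j) + (b j - b₀ j) := by abel
    rw [h1]
    exact (norm_add_le _ _).trans (by linarith)
  · refine ft14_mono (ft14_add (ft14_smul (c := 3) (by norm_num) hkY) hcon.nY) ?_
    filter_upwards [hx'] with j hj
    have h1 : (x j).2 - Y₀ j = ((x j).2 - Y j) + (Y j - Y₀ j) := by abel
    rw [h1]
    exact (norm_add_le _ _).trans (by linarith [hj.2.1])
  · intro ε hε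
    have hnY : ∀ᶠ j in (𝒰 : Filter ℕ), ‖Y j‖ ≤ 2 * ‖Y₀ j‖ := by
      filter_upwards [hcon.nY 1 one_pos] with j hj
      have h1 : Y j = (Y j - Y₀ j) + Y₀ j := by abel
      rw [h1]
      exact (norm_add_le _ _).trans (by linarith)
    filter_upwards [hx', s1, hnY, hcon.big (ε / 2) (by positivity), hρb (8 / ε) (by positivity),
      hkY 1 one_pos, hδ1] with j hj hs1 hnYj hbigj hρbj hkYj hδj
    refine le_trans ?_ hj.2.2.2.1
    have hb0 : 0 ≤ ‖b₀ j‖ := norm_nonneg _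
    have hY0 : 0 ≤ ‖Y₀ j‖ := norm_nonneg _
    have h1 : ρ j ≤ ε / 8 * ‖b₀ j‖ := by
      rw [div_mul_eq_mul_div, div_le_iff₀ hε] at hρbj
      linarith
    have h2 : -(2 * ‖Y₀ j‖ * ρ j) ≤ (⟪Y j, (x j).1 - b j⟫_ℂ).re := by
      have h3 := (Complex.abs_re_le_norm (⟪Y j, (x j).1 - b j⟫_ℂ)).trans (norm_inner_le_norm _ _)
      have h4 : ‖Y j‖ * ‖(x j).1 - b j‖ ≤ 2 * ‖Y₀ j‖ * ρ j :=
        mul_le_mul hnYj hs1 (norm_nonneg _) (by positivity)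
      have h5 := neg_abs_le ((⟪Y j, (x j).1 - b j⟫_ℂ).re)
      linarith
    have h3 : 2 * ‖Y₀ j‖ * ρ j ≤ ε / 4 * (‖b₀ j‖ * ‖Y₀ j‖) := by
      have := mul_le_mul_of_nonneg_left h1 hY0
      nlinarith
    have h4 : δ j ^ 3 * (κ j (ρ j) * ρ j ^ 2) ≤ ε / 8 * (‖b₀ j‖ * ‖Y₀ j‖) := by
      have h5 : κ j (ρ j) * ρ j ^ 2 = (κ j (ρ j) * ρ j) * ρ j := by ring
      have h6 : (κ j (ρ j) * ρ j) * ρ j ≤ ‖Y₀ j‖ * (ε / 8 * ‖b₀ j‖) :=
        mul_le_mul (by linarith) h1 (hρ0 j).le hY0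
      have h7 : δ j ^ 3 ≤ 1 := pow_le_one₀ (hδn j) (by linarith)
      have h8 : 0 ≤ κ j (ρ j) * ρ j ^ 2 := by
        have := hpos j (ρ j)
        positivity
      calc δ j ^ 3 * (κ j (ρ j) * ρ j ^ 2) ≤ 1 * (κ j (ρ j) * ρ j ^ 2) :=
            mul_le_mul_of_nonneg_right h7 h8
        _ ≤ _ := by rw [one_mul, h5]; linarith
    have h5 : (1 / 4 - ε) * (‖b₀ j‖ * ‖Y₀ j‖) ≤ (1 / 4 - ε / 2) * (‖b₀ j‖ * ‖Y₀ j‖)
        + ((⟪Y j, (x j).1 - b j⟫_ℂ).re - δ j ^ 3 * (κ j (ρ j) * ρ j ^ 2)) := by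
      have h6 : 0 ≤ ‖b₀ j‖ * ‖Y₀ j‖ := by positivity
      have h7 : 0 ≤ ε * (‖b₀ j‖ * ‖Y₀ j‖) := by positivity
      nlinarith
    calc A j * Real.exp ((1 / 4 - ε) * (‖b₀ j‖ * ‖Y₀ j‖))
        ≤ A j * Real.exp ((1 / 4 - ε / 2) * (‖b₀ j‖ * ‖Y₀ j‖)
        + ((⟪Y j, (x j).1 - b j⟫_ℂ).re - δ j ^ 3 * (κ j (ρ j) * ρ j ^ 2))) :=
          mul_le_mul_of_nonneg_left (Real.exp_le_exp.2 h5) (hI.apos j).le
      _ = A j * Real.exp ((1 / 4 - ε / 2) * (‖b₀ j‖ * ‖Y₀ j‖))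
        * Real.exp ((⟪Y j, (x j).1 - b j⟫_ℂ).re - δ j ^ 3 * (κ j (ρ j) * ρ j ^ 2)) := by
          rw [Real.exp_add]; ring
      _ ≤ _ := mul_le_mul_of_nonneg_right hbigj (Real.exp_pos _).le
  · refine ft14_mono (ft14_add hρR hb) ?_
    filter_upwards [s1] with j hj
    have h1 : E.starProjection ((x j).1 - b₁ j) = E.starProjection ((x j).1 - b j)
        + E.starProjection (b j - b₁ j) := by
      rw [← map_add]; congr 1; abel
    rw [h1]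
    refine (norm_add_le _ _).trans (add_le_add ?_ le_rfl)
    exact (E.norm_starProjection_apply_le _).trans hj
  · refine ft14_mono (ft14_add (ft14_smul (c := 3) (by norm_num) hkR) hY) ?_
    filter_upwards [hx'] with j hj
    have h1 : E.starProjection ((x j).2 - Y₁ j) = E.starProjection ((x j).2 - Y j)
        + E.starProjection (Y j - Y₁ j) := by
      rw [← map_add]; congr 1; abel
    rw [h1]
    refine (norm_add_le _ _).trans (add_le_add ?_ le_rfl)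
    exact (E.norm_starProjection_apply_le _).trans hj.2.1
  · exact ft14_small hδt (fun j => (hρ0 j).le) (hx'.mono fun j hj => hj.2.2.1)
  · intro ε hε
    have h1 : ∀ᶠ j in (𝒰 : Filter ℕ), δ j < ε / 50 := hδt.eventually_lt_const (by positivity)
    filter_upwards [hx', h1] with j hj h2
    refine ft14_touch (norm_nonneg _) hj.2.2.2.2.2 ?_
    exact mul_le_mul_of_nonneg_right (by linarith) (hpos j _).le
  · intro ε hε
    have h1 : ∀ᶠ j in (𝒰 : Filter ℕ), δ j < ε / 50 := hδt.eventually_lt_const (by positivity)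
    filter_upwards [hx', h1] with j hj h2
    refine hj.2.2.2.2.1.trans ?_
    exact mul_le_mul_of_nonneg_right (by linarith)
      (mul_nonneg (hpos j _).le (norm_nonneg _))

end Pool.Agent.H43.FT
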