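import Pool.Agent.H43.FT.Defs

/-!
Injective pairs and reduction of the number of variables (MP_6e521b_an, project FT).
-/

set_option autoImplicit false

open MvPolynomial Filter Topology Pool.Agent.H77.FB Pool.Agent.H60.FB Pool.Agent.H77.N2

namespace Pool.Agent.H43.FT

variable {n : ℕ}

theorem injPair_of_est (p : MvPolynomial (Fin n) ℂ) (hp : p ≠ 0) (h : Est p) :
    InjPair p (star' p) := by
  intro F hF hz
  refine ijEval_mul p hp F hF.continuous fun z => ?_
  obtain ⟨ρ', K, hE⟩ := h ‖z‖
  have h1 := hE F hF 0 (fun w _ => by rw [hz w, norm_zero]) z le_rfl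
  rw [mul_zero] at h1
  exact norm_le_zero_iff.1 h1

theorem est_of_period (ih : ∀ k < n, ∀ Q : MvPolynomial (Fin k) ℂ, Est Q)
    (P : MvPolynomial (Fin n) ℂ) (v : Fin n → ℂ) (hv : v ≠ 0)
    (hP : ∀ z, eval (z + v) P = eval z P) : Est P := by
  obtain ⟨k, Q, L, hL, hQ, hPL, -, -, horth⟩ := exists_reduction P
  have hvP : v ∈ Prd P := hP
  have hk : k < n := by
    have hinj : Function.Injective L.conjTranspose.mulVecLin := by
      rw [injective_iff_map_eq_zero]
      intro y hy
      have h1 : L.mulVec (L.conjTranspose.mulVec y) = y := by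
        rw [Matrix.mulVec_mulVec, hL, Matrix.one_mulVec]
      rw [Matrix.mulVecLin_apply] at hy
      rw [← h1, hy, Matrix.mulVec_zero]
    have hle := LinearMap.finrank_le_finrank_of_injective hinj
    rw [Module.finrank_fin_fun, Module.finrank_fin_fun] at hle
    refine lt_of_le_of_ne hle fun hkn => hv ?_
    subst hkn
    have h1 : L.conjTranspose * L = 1 := mul_eq_one_comm.1 hL
    have h2 := horth (L.mulVec v) v hvP
    rw [Matrix.mulVec_mulVec, h1, Matrix.one_mulVec] at h2
    have h3 : ((∑ j, ‖v j‖ ^ 2 : ℝ) : ℂ) = 0 := by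
      push_cast
      rw [← h2]
      refine Finset.sum_congr rfl fun j _ => ?_
      rw [Complex.mul_conj, Complex.normSq_eq_norm_sq]
      push_cast
      rfl
    have h4 : ∑ j, ‖v j‖ ^ 2 = 0 := by exact_mod_cast h3
    funext j
    have h5 := (Finset.sum_eq_zero_iff_of_nonneg fun j _ => sq_nonneg _).1 h4 j
      (Finset.mem_univ j)
    exact norm_eq_zero.1 (pow_eq_zero_iff (two_ne_zero)|>.1 h5)
  exact est_slice P Q L hL hQ hPL (ih k hk Q)

end Pool.Agent.H43.FT
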