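import Pool.Agent.H43.FT.Defs

/-!
# Project FT, row FT-18: the zoom of `P` at a centre
-/

set_option autoImplicit false

open MvPolynomial Filter Topology Pool.Agent.H77.FB Pool.Agent.H60.FB Pool.Agent.H77.N2

namespace Pool.Agent.H43.FT

open scoped InnerProductSpace

variable {n : ℕ}

/-! ### Taylor expansion over a ring -/

section Taylor

variable {A : Type*} [CommRing A] (κ : ℂ →+* A) (a : Fin n → A)

/-- The substitution `X ↦ a + X`. -/
noncomputable def ft18Q : MvPolynomial (Fin n) ℂ →+* MvPolynomial (Fin n) A :=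
  eval₂Hom (MvPolynomial.C.comp κ) (fun i => MvPolynomial.C (a i) + MvPolynomial.X i)

theorem ft18_Q_C (c : ℂ) : ft18Q κ a (C c) = C (κ c) := by
  simp [ft18Q]

theorem ft18_Q_X (i : Fin n) : ft18Q κ a (X i) = C (a i) + X i := by
  simp [ft18Q]

theorem ft18_eval {e : A →+* ℂ} (he : ∀ c, e (κ c) = c) (w : Fin n → ℂ)
    (P : MvPolynomial (Fin n) ℂ) :
    eval (fun i => e (a i) + w i) P = ∑ β ∈ (ft18Q κ a P).support,
      e ((ft18Q κ a P).coeff β) * ∏ i, w i ^ β i := by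
  rw [← eval₂_eq']
  have h : (eval (fun i => e (a i) + w i) : MvPolynomial (Fin n) ℂ →+* ℂ) =
      (eval₂Hom e w).comp (ft18Q κ a) := by
    apply MvPolynomial.ringHom_ext
    · intro c
      rw [RingHom.comp_apply, ft18_Q_C]
      simp [he]
    · intro i
      rw [RingHom.comp_apply, ft18_Q_X]
      simp
  exact congrArg (fun f : MvPolynomial (Fin n) ℂ →+* ℂ => f P) h

/-- All the monomials have degree less than `D`. -/
def ft18Lo {R : Type*} [CommRing R] (D : ℕ) (q : MvPolynomial (Fin n) R) : Prop :=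
  ∀ β : Fin n →₀ ℕ, D ≤ β.degree → q.coeff β = 0

theorem ft18_lo_add {R : Type*} [CommRing R] {D : ℕ} {p q : MvPolynomial (Fin n) R}
    (hp : ft18Lo D p) (hq : ft18Lo D q) : ft18Lo D (p + q) := fun β hβ => by
  rw [coeff_add, hp β hβ, hq β hβ, add_zero]

theorem ft18_lo_mul {R : Type*} [CommRing R] {D D' : ℕ} {p q : MvPolynomial (Fin n) R}
    (hp : ft18Lo D p) (hq : ft18Lo (D' + 1) q) : ft18Lo (D + D') (p * q) := fun β hβ => by
  classical
  rw [coeff_mul]
  refine Finset.sum_eq_zero fun x hx => ?_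
  rw [Finset.HasAntidiagonal.mem_antidiagonal] at hx
  have h1 : x.1.degree + x.2.degree = β.degree := by rw [← hx, map_add]
  by_cases h2 : D ≤ x.1.degree
  · rw [hp _ h2, zero_mul]
  · rw [hq x.2 (by omega), mul_zero]

theorem ft18_lo_C {R : Type*} [CommRing R] (c : R) : ft18Lo (n := n) 1 (C c) := fun β hβ => by
  classical
  rw [coeff_C, if_neg]
  rintro rfl
  simp at hβ

theorem ft18_lo_X {R : Type*} [CommRing R] (i : Fin n) : ft18Lo (n := n) (R := R) 2 (X i) :=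
  fun β hβ => by
  classical
  rw [coeff_X', if_neg]
  rintro rfl
  simp at hβ

theorem ft18_lo_mono {R : Type*} [CommRing R] {D D' : ℕ} (h : D ≤ D')
    {p : MvPolynomial (Fin n) R} (hp : ft18Lo D p) : ft18Lo D' p :=
  fun β hβ => hp β (h.trans hβ)

theorem ft18_lo_map (m : Fin n →₀ ℕ) (c : ℂ) :
    ft18Lo (m.degree + 1) (map κ (monomial m c)) := fun β hβ => by
  classical
  rw [map_monomial, coeff_monomial, if_neg]
  rintro rfl
  omega

theorem ft18_mono_add {f g : Fin n →₀ ℕ}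
    (hf : ∀ c, ft18Lo f.degree (ft18Q κ a (monomial f c) - map κ (monomial f c)))
    (hg : ∀ c, ft18Lo g.degree (ft18Q κ a (monomial g c) - map κ (monomial g c))) (c : ℂ) :
    ft18Lo (f + g).degree
      (ft18Q κ a (monomial (f + g) c) - map κ (monomial (f + g) c)) := by
  have h1 : monomial (f + g) c = monomial f c * monomial g (1 : ℂ) := by
    rw [monomial_mul, mul_one]
  rw [h1, map_mul, map_mul]
  have h2 : ft18Lo (g.degree + 1) (ft18Q κ a (monomial g 1)) := by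
    have h3 := ft18_lo_add (ft18_lo_mono (Nat.le_succ _) (hg 1)) (ft18_lo_map κ g 1)
    rwa [sub_add_cancel] at h3
  have h4 : ft18Q κ a (monomial f c) * ft18Q κ a (monomial g 1) -
      map κ (monomial f c) * map κ (monomial g 1) =
      (ft18Q κ a (monomial f c) - map κ (monomial f c)) * ft18Q κ a (monomial g 1) +
        (ft18Q κ a (monomial g 1) - map κ (monomial g 1)) * map κ (monomial f c) := by ring
  rw [h4, map_add]
  refine ft18_lo_add (ft18_lo_mul (hf c) h2) ?_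
  rw [add_comm]
  exact ft18_lo_mul (hg 1) (ft18_lo_map κ f c)

theorem ft18_mono (m : Fin n →₀ ℕ) : ∀ c : ℂ,
    ft18Lo m.degree (ft18Q κ a (monomial m c) - map κ (monomial m c)) := by
  classical
  have h0 : ∀ c : ℂ, ft18Lo (0 : Fin n →₀ ℕ).degree
      (ft18Q κ a (monomial 0 c) - map κ (monomial 0 c)) := by
    intro c
    have : (monomial 0 c : MvPolynomial (Fin n) ℂ) = C c := rfl
    rw [this, ft18_Q_C, map_C, sub_self]
    intro β _
    simp
  induction m using Finsupp.induction_linear with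
  | zero => exact h0
  | add f g hf hg => exact ft18_mono_add κ a hf hg
  | single i k =>
    induction k with
    | zero =>
      rw [Finsupp.single_zero]
      exact h0
    | succ k ih =>
      rw [Finsupp.single_add]
      refine ft18_mono_add κ a ih ?_
      intro c
      have h1 : (monomial (Finsupp.single i 1) c : MvPolynomial (Fin n) ℂ) = C c * X i := by
        rw [C_mul_X_eq_monomial]
      rw [h1, map_mul, ft18_Q_C, ft18_Q_X, map_mul, map_C, map_X]
      have h2 : C (κ c) * (C (a i) + X i) - C (κ c) * X i =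
          (C (κ c * a i) : MvPolynomial (Fin n) A) := by
        rw [map_mul]; ring
      rw [h2]
      refine ft18_lo_mono ?_ (ft18_lo_C _)
      simp

/-- the coefficients of top degree are constant -/
theorem ft18_top (P : MvPolynomial (Fin n) ℂ) (D : ℕ) (hD : ∀ m ∈ P.support, m.degree ≤ D)
    (β : Fin n →₀ ℕ) (hβ : β.degree = D) :
    (ft18Q κ a P).coeff β = κ (P.coeff β) := by
  classical
  have h : ft18Lo D (ft18Q κ a P - map κ P) := by
    have h1 : ft18Q κ a P - map κ P = ∑ m ∈ P.support,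
        (ft18Q κ a (monomial m (P.coeff m)) - map κ (monomial m (P.coeff m))) := by
      rw [Finset.sum_sub_distrib, ← map_sum, ← map_sum, ← MvPolynomial.as_sum P]
    rw [h1]
    intro β' hβ'
    rw [coeff_sum]
    refine Finset.sum_eq_zero fun m hm => ?_
    exact ft18_mono κ a m _ β' ((hD m hm).trans hβ')
  have h2 := h β hβ.ge
  rw [coeff_sub, sub_eq_zero, coeff_map] at h2
  exact h2

end Taylor

/-! ### Leading terms -/

section

variable {𝒰 : Ultrafilter ℕ} {D : Dm n} {Γ : Type} [AddCommGroup Γ] [Module ℚ Γ]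
  {τ τ' : Γ → ℕ → ℝ}

theorem ft18_nul (hS : Scl 𝒰 τ τ') {s : Pr n} (hs : Nul 𝒰 D s) (g : Γ) :
    LT 𝒰 D s 0 (τ g) (τ' g) := by
  intro ε hε
  filter_upwards [hs] with j hj
  refine ⟨fun z hz => ?_, fun z hz => ?_⟩
  · have h1 : (s - sc 0 (τ g) (τ' g)).1 j z = s.1 j z - 0 * (τ g j : ℂ) := rfl
    rw [h1, hj.1 z hz, zero_mul, sub_zero, norm_zero]
    exact mul_nonneg hε.le (hS.pos g j).le
  · have h1 : (s - sc 0 (τ g) (τ' g)).2 j z = s.2 j z - 0 * (τ' g j : ℂ) := rfl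
    rw [h1, hj.2 z hz, zero_mul, sub_zero, norm_zero]
    exact mul_nonneg hε.le (hS.pos' g j).le

theorem ft18_small (hS : Scl 𝒰 τ τ') {s : Pr n} {c : ℂ} {g h : Γ}
    (hs : LT 𝒰 D s c (τ g) (τ' g))
    (hg : Tendsto (τ (h - g)) 𝒰 atTop ∧ Tendsto (τ' (h - g)) 𝒰 atTop) :
    LT 𝒰 D s 0 (τ h) (τ' h) := by
  intro ε hε
  have hc : 0 < ‖c‖ + 1 := by positivity
  filter_upwards [hs 1 one_pos, hg.1.eventually_ge_atTop ((‖c‖ + 1) / ε),
    hg.2.eventually_ge_atTop ((‖c‖ + 1) / ε)] with j hj h1 h2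
  have e1 : τ h j = τ (h - g) j * τ g j := by rw [← hS.add, sub_add_cancel]
  have e2 : τ' h j = τ' (h - g) j * τ' g j := by rw [← hS.add', sub_add_cancel]
  have key : ∀ (x : ℂ) (t u : ℝ), 0 < t → ‖x - c * (t : ℂ)‖ ≤ 1 * t → (‖c‖ + 1) / ε ≤ u →
      ‖x - 0 * ((u * t : ℝ) : ℂ)‖ ≤ ε * (u * t) := by
    intro x t u ht hx hu
    rw [zero_mul, sub_zero]
    have h3 : ‖x‖ ≤ (‖c‖ + 1) * t := by
      calc ‖x‖ = ‖(x - c * (t : ℂ)) + c * (t : ℂ)‖ := by rw [sub_add_cancel]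
        _ ≤ ‖x - c * (t : ℂ)‖ + ‖c * (t : ℂ)‖ := norm_add_le _ _
        _ ≤ 1 * t + ‖c‖ * t := by
          rw [norm_mul, Complex.norm_real, Real.norm_of_nonneg ht.le]
          linarith
        _ = _ := by ring
    refine h3.trans ?_
    rw [div_le_iff₀ hε] at hu
    nlinarith
  refine ⟨fun z hz => ?_, fun z hz => ?_⟩
  · have h3 : (s - sc 0 (τ h) (τ' h)).1 j z = s.1 j z - 0 * (τ h j : ℂ) := rfl
    rw [h3, e1]
    exact key _ _ _ (hS.pos g j) (hj.1 z hz) h1
  · have h3 : (s - sc 0 (τ h) (τ' h)).2 j z = s.2 j z - 0 * (τ' h j : ℂ) := rfl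
    rw [h3, e2]
    exact key _ _ _ (hS.pos' g j) (hj.2 z hz) h2

/-- the dominating scale of a finite family of good pairs -/
theorem ft18_max (hS : Scl 𝒰 τ τ') {ι : Type*} [DecidableEq ι] (s : ι → Pr n) (T : Finset ι)
    (hT : ∀ β ∈ T, Nul 𝒰 D (s β) ∨ ∃ c : ℂ, c ≠ 0 ∧ ∃ g, LT 𝒰 D (s β) c (τ g) (τ' g)) :
    (∀ β ∈ T, Nul 𝒰 D (s β)) ∨ ∃ (g : Γ) (d : ι → ℂ), (∃ β ∈ T, d β ≠ 0) ∧
      ∀ β ∈ T, LT 𝒰 D (s β) (d β) (τ g) (τ' g) := by
  induction T using Finset.induction_on with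
  | empty => exact Or.inl (by simp)
  | insert b T hb ih =>
    have hupd : ∀ (d : ι → ℂ) (c : ℂ), ∀ β ∈ T, Function.update d b c β = d β :=
      fun d c β hβ => Function.update_of_ne (fun h : β = b => hb (by rw [← h]; exact hβ)) _ _
    rcases ih (fun β hβ => hT β (Finset.mem_insert_of_mem hβ)) with h1 | ⟨g, d, ⟨β₀, hβ₀, hd⟩, h1⟩
    · rcases hT b (Finset.mem_insert_self b T) with h2 | ⟨c, hc, g', h2⟩
      · left
        intro β hβ
        rcases Finset.mem_insert.mp hβ with rfl | hβ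
        · exact h2
        · exact h1 β hβ
      · right
        refine ⟨g', Function.update 0 b c, ⟨b, Finset.mem_insert_self b T, by simpa using hc⟩, ?_⟩
        intro β hβ
        rcases Finset.mem_insert.mp hβ with rfl | hβ
        · rw [Function.update_self]; exact h2
        · rw [hupd 0 c β hβ]
          exact ft18_nul hS (h1 β hβ) g'
    · right
      rcases hT b (Finset.mem_insert_self b T) with h2 | ⟨c, hc, g', h2⟩
      · refine ⟨g, Function.update d b 0, ⟨β₀, Finset.mem_insert_of_mem hβ₀, ?_⟩, ?_⟩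
        · rw [hupd d 0 β₀ hβ₀]; exact hd
        · intro β hβ
          rcases Finset.mem_insert.mp hβ with rfl | hβ
          · rw [Function.update_self]; exact ft18_nul hS h2 g
          · rw [hupd d 0 β hβ]; exact h1 β hβ
      · by_cases hgg : g' = g
        · subst hgg
          refine ⟨g', Function.update d b c, ⟨b, Finset.mem_insert_self b T, by simpa using hc⟩, ?_⟩
          intro β hβ
          rcases Finset.mem_insert.mp hβ with rfl | hβ
          · rw [Function.update_self]; exact h2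
          · rw [hupd d c β hβ]; exact h1 β hβ
        · rcases hS.dich (g' - g) (sub_ne_zero.mpr hgg) with h3 | h3
          · refine ⟨g', Function.update 0 b c,
              ⟨b, Finset.mem_insert_self b T, by simpa using hc⟩, ?_⟩
            intro β hβ
            rcases Finset.mem_insert.mp hβ with rfl | hβ
            · rw [Function.update_self]; exact h2
            · rw [hupd 0 c β hβ]
              exact ft18_small hS (h1 β hβ) h3
          · rw [neg_sub] at h3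
            refine ⟨g, Function.update d b 0, ⟨β₀, Finset.mem_insert_of_mem hβ₀, ?_⟩, ?_⟩
            · rw [hupd d 0 β₀ hβ₀]; exact hd
            · intro β hβ
              rcases Finset.mem_insert.mp hβ with rfl | hβ
              · rw [Function.update_self]; exact ft18_small hS h2 h3
              · rw [hupd d 0 β hβ]; exact h1 β hβ

/-- a constant different from zero is not dominated by a small scale -/
theorem ft18_const (hD : DmOK 𝒰 D) (hS : Scl 𝒰 τ τ') {c d : ℂ} (hc : c ≠ 0) {g : Γ}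
    (h : LT 𝒰 D (cst c) d (τ g) (τ' g)) : ¬ Tendsto (τ (-g)) 𝒰 atTop := by
  intro hg
  have hc' : 0 < ‖c‖ := norm_pos_iff.mpr hc
  obtain ⟨j, hj, hne, h1⟩ := ((h 1 one_pos).and (hD.ne.and
    (hg.eventually_gt_atTop ((‖d‖ + 1) / ‖c‖)))).exists
  obtain ⟨z, hz⟩ := hne.1
  have h2 := hj.1 z hz
  have h3 : (cst c - sc d (τ g) (τ' g) : Pr n).1 j z = c - d * (τ g j : ℂ) := rfl
  rw [h3] at h2
  have h4 : τ (-g) j * τ g j = 1 := by
    rw [← hS.add, neg_add_cancel]
    have h5 := hS.add 0 0 j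
    rw [add_zero] at h5
    have h6 := hS.pos 0 j
    nlinarith [mul_self_nonneg (τ 0 j - 1)]
  have h5 : ‖c‖ ≤ (‖d‖ + 1) * τ g j := by
    calc ‖c‖ = ‖(c - d * (τ g j : ℂ)) + d * (τ g j : ℂ)‖ := by rw [sub_add_cancel]
      _ ≤ ‖c - d * (τ g j : ℂ)‖ + ‖d * (τ g j : ℂ)‖ := norm_add_le _ _
      _ ≤ 1 * τ g j + ‖d‖ * τ g j := by
        rw [norm_mul, Complex.norm_real, Real.norm_of_nonneg (hS.pos g j).le]
        linarith
      _ = _ := by ring
  rw [div_lt_iff₀ hc'] at h1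
  have h6 := hS.pos g j
  have h7 : (‖d‖ + 1) * τ g j < (τ (-g) j * ‖c‖) * τ g j := mul_lt_mul_of_pos_right h1 h6
  have h8 : (τ (-g) j * ‖c‖) * τ g j = ‖c‖ * (τ (-g) j * τ g j) := by ring
  rw [h8, h4, mul_one] at h7
  linarith

end

theorem ft18_prod (β : Fin n →₀ ℕ) (w : Fin n → ℂ) (R : ℝ) (hw : ∀ i, ‖w i‖ ≤ R) :
    ‖∏ i, w i ^ β i‖ ≤ R ^ β.degree := by
  rw [norm_prod, Finsupp.degree_eq_sum, ← Finset.prod_pow_eq_pow_sum]
  refine Finset.prod_le_prod (fun i _ => norm_nonneg _) fun i _ => ?_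
  rw [norm_pow]
  exact pow_le_pow_left₀ (norm_nonneg _) (hw i) _

theorem ft18_sum (T : Finset (Fin n →₀ ℕ)) (f d : (Fin n →₀ ℕ) → ℂ) (t η R : ℝ)
    (w : Fin n → ℂ) (hw : ∀ i, ‖w i‖ ≤ R) (hf : ∀ β ∈ T, ‖f β - d β * (t : ℂ)‖ ≤ η * t) :
    ‖(∑ β ∈ T, f β * ∏ i, w i ^ β i) - (t : ℂ) * ∑ β ∈ T, d β * ∏ i, w i ^ β i‖ ≤
      (η * t) * ∑ β ∈ T, R ^ β.degree := by
  have h1 : (∑ β ∈ T, f β * ∏ i, w i ^ β i) - (t : ℂ) * ∑ β ∈ T, d β * ∏ i, w i ^ β i =
      ∑ β ∈ T, (f β - d β * (t : ℂ)) * ∏ i, w i ^ β i := by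
    rw [Finset.mul_sum, ← Finset.sum_sub_distrib]
    exact Finset.sum_congr rfl fun β _ => by ring
  rw [h1, Finset.mul_sum]
  refine (norm_sum_le _ _).trans (Finset.sum_le_sum fun β hβ => ?_)
  rw [norm_mul]
  exact mul_le_mul (hf β hβ) (ft18_prod β w R hw) (norm_nonneg _)
    ((norm_nonneg _).trans (hf β hβ))

theorem zoom (𝒰 : Ultrafilter ℕ) (D : Dm n) (hD : DmOK 𝒰 D)
    {Γ : Type} [AddCommGroup Γ] [Module ℚ Γ] (τ τ' : Γ → ℕ → ℝ) (hS : Scl 𝒰 τ τ')
    (𝓕 : Subring (Pr n)) (h𝓕 : GoodRing 𝒰 D τ τ' 𝓕) (a : Fin n → Pr n) (ha : ∀ i, a i ∈ 𝓕)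
    (P : MvPolynomial (Fin n) ℂ) (hP : P ≠ 0) :
    ∃ (p : MvPolynomial (Fin n) ℂ) (g : Γ), p ≠ 0 ∧
      (g = 0 ∨ (Tendsto (τ g) 𝒰 atTop ∧ Tendsto (τ' g) 𝒰 atTop)) ∧
      ∀ r ε : ℝ, 0 < ε → ∀ᶠ j in (𝒰 : Filter ℕ),
        (∀ z ∈ D.C j, ∀ w : V n, ‖w‖ ≤ r →
          ‖eval (WithLp.ofLp (pt a j z + w)) P - (τ g j : ℂ) * eval (WithLp.ofLp w) p‖
            ≤ ε * τ g j) ∧
        ∀ z ∈ D.C' j, ∀ w : V n, ‖w‖ ≤ r →
          ‖eval (WithLp.ofLp (fr a j z + w)) P - (τ' g j : ℂ) * eval (WithLp.ofLp w) p‖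
            ≤ ε * τ' g j := by
  classical
  let κ₀ : ℂ →+* 𝓕 := RingHom.codRestrict (algebraMap ℂ (Pr n)) 𝓕 (fun c => h𝓕.cst c)
  have hκ : ∀ c, ((κ₀ c : 𝓕) : Pr n) = cst c := fun c => rfl
  let a' : Fin n → 𝓕 := fun i => ⟨a i, ha i⟩
  obtain ⟨Q, hQ⟩ : ∃ Q, Q = ft18Q κ₀ a' P := ⟨_, rfl⟩
  obtain ⟨s, hs⟩ : ∃ s : (Fin n →₀ ℕ) → Pr n, s = fun β => ((Q.coeff β : 𝓕) : Pr n) := ⟨_, rfl⟩
  have hgood : ∀ β ∈ Q.support, Nul 𝒰 D (s β) ∨
      ∃ c : ℂ, c ≠ 0 ∧ ∃ g, LT 𝒰 D (s β) c (τ g) (τ' g) := fun β _ => by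
    rw [hs]
    exact (h𝓕.good _ (Q.coeff β).2).2
  -- the top coefficient
  obtain ⟨β₁, hβ₁, hmax⟩ := Finset.exists_max_image P.support (fun m => m.degree)
    (MvPolynomial.support_nonempty.mpr hP)
  have hc : P.coeff β₁ ≠ 0 := MvPolynomial.mem_support_iff.mp hβ₁
  have htopQ : Q.coeff β₁ = κ₀ (P.coeff β₁) := by
    rw [hQ]
    exact ft18_top κ₀ a' P _ hmax β₁ rfl
  have htop : s β₁ = cst (P.coeff β₁) := by
    rw [hs]
    change ((Q.coeff β₁ : 𝓕) : Pr n) = _
    rw [htopQ]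
    exact hκ _
  have hnn : ¬ Nul 𝒰 D (s β₁) := by
    intro h
    obtain ⟨j, h1, h2⟩ := (h.and hD.ne).exists
    obtain ⟨z, hz⟩ := h2.1
    have h3 := h1.1 z hz
    rw [htop] at h3
    exact hc h3
  have hβQ : β₁ ∈ Q.support := by
    rw [MvPolynomial.mem_support_iff]
    intro h
    apply hnn
    rw [hs]
    change Nul 𝒰 D ((Q.coeff β₁ : 𝓕) : Pr n)
    rw [h]
    exact Filter.Eventually.of_forall fun j => ⟨fun z _ => rfl, fun z _ => rfl⟩
  rcases ft18_max hS s Q.support hgood with h1 | ⟨g, d, ⟨β₀, hβ₀, hd⟩, hLT⟩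
  · exact absurd (h1 β₁ hβQ) hnn
  · obtain ⟨p, hp⟩ : ∃ p : MvPolynomial (Fin n) ℂ, p = ∑ β ∈ Q.support, monomial β (d β) :=
      ⟨_, rfl⟩
    have hp0 : p ≠ 0 := by
      intro h
      apply hd
      have h2 : p.coeff β₀ = d β₀ := by
        rw [hp, coeff_sum]
        simp only [coeff_monomial]
        rw [Finset.sum_ite_eq' Q.support β₀ d, if_pos hβ₀]
      rw [← h2, h, coeff_zero]
    have hpe : ∀ w : Fin n → ℂ, eval w p = ∑ β ∈ Q.support, d β * ∏ i, w i ^ β i := by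
      intro w
      rw [hp, map_sum]
      refine Finset.sum_congr rfl fun β _ => ?_
      rw [eval_monomial, Finsupp.prod_fintype _ _ (fun i => pow_zero _)]
    refine ⟨p, g, hp0, ?_, ?_⟩
    · by_cases hg : g = 0
      · exact Or.inl hg
      · right
        rcases hS.dich g hg with h2 | h2
        · exact h2
        · exfalso
          have h3 := hLT β₁ hβQ
          rw [htop] at h3
          exact ft18_const hD hS hc h3 h2.1
    · intro r ε hε
      set R : ℝ := max r 1 with hR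
      have hR1 : 1 ≤ R := le_max_right _ _
      set B : ℝ := ∑ β ∈ Q.support, R ^ β.degree with hB
      have hB0 : 0 ≤ B := Finset.sum_nonneg fun β _ => by positivity
      have hη : 0 < ε / (B + 1) := by positivity
      have hall : ∀ᶠ j in (𝒰 : Filter ℕ), ∀ β ∈ Q.support,
          (∀ z ∈ D.C j, ‖(s β - sc (d β) (τ g) (τ' g)).1 j z‖ ≤ ε / (B + 1) * τ g j) ∧
          ∀ z ∈ D.C' j, ‖(s β - sc (d β) (τ g) (τ' g)).2 j z‖ ≤ ε / (B + 1) * τ' g j :=
        (Finset.eventually_all Q.support).mpr fun β hβ => hLT β hβ _ hη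
      have hfin : ∀ t : ℝ, 0 < t → (ε / (B + 1) * t) * B ≤ ε * t := by
        intro t ht
        have h2 : ε / (B + 1) * B ≤ ε := by
          rw [div_mul_eq_mul_div, div_le_iff₀ (by linarith)]
          nlinarith
        nlinarith [mul_le_mul_of_nonneg_right h2 ht.le]
      filter_upwards [hall] with j hj
      refine ⟨fun z hz w hw => ?_, fun z hz w hw => ?_⟩
      · let e : 𝓕 →+* ℂ := ((Pi.evalRingHom (fun _ : V n => ℂ) z).comp
          ((Pi.evalRingHom (fun _ : ℕ => V n → ℂ) j).comp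
            (RingHom.fst (ℕ → V n → ℂ) (ℕ → V n → ℂ)))).comp 𝓕.subtype
        have he : ∀ c, e (κ₀ c) = c := fun c => rfl
        have h2 : WithLp.ofLp (pt a j z + w) = fun i => e (a' i) + WithLp.ofLp w i := rfl
        rw [h2, ft18_eval κ₀ a' he (WithLp.ofLp w) P, ← hQ, hpe]
        refine (ft18_sum Q.support (fun β => e (Q.coeff β)) d (τ g j) (ε / (B + 1)) R
          (WithLp.ofLp w) (fun i => (PiLp.norm_apply_le w i).trans (hw.trans (le_max_left _ _)))
          (fun β hβ => ?_)).trans (hfin _ (hS.pos g j))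
        have h3 := (hj β hβ).1 z hz
        rw [hs] at h3
        exact h3
      · let e : 𝓕 →+* ℂ := ((Pi.evalRingHom (fun _ : V n => ℂ) z).comp
          ((Pi.evalRingHom (fun _ : ℕ => V n → ℂ) j).comp
            (RingHom.snd (ℕ → V n → ℂ) (ℕ → V n → ℂ)))).comp 𝓕.subtype
        have he : ∀ c, e (κ₀ c) = c := fun c => rfl
        have h2 : WithLp.ofLp (fr a j z + w) = fun i => e (a' i) + WithLp.ofLp w i := rfl
        rw [h2, ft18_eval κ₀ a' he (WithLp.ofLp w) P, ← hQ, hpe]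
        refine (ft18_sum Q.support (fun β => e (Q.coeff β)) d (τ' g j) (ε / (B + 1)) R
          (WithLp.ofLp w) (fun i => (PiLp.norm_apply_le w i).trans (hw.trans (le_max_left _ _)))
          (fun β hβ => ?_)).trans (hfin _ (hS.pos' g j))
        have h3 := (hj β hβ).2 z hz
        rw [hs] at h3
        exact h3

end Pool.Agent.H43.FT
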