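import Pool.Agent.H43.FT.Defs
import Pool.Agent.H43.FT.Inj
import Pool.Agent.H43.FT.Res
import Pool.Agent.H43.FT.Zoom
import Pool.Agent.H77.N2.Core

/-!
# Project FT, row FT-19: the terminal stage gives a contradiction
-/

set_option autoImplicit false

open MvPolynomial Filter Topology Pool.Agent.H77.FB Pool.Agent.H60.FB Pool.Agent.H77.N2

namespace Pool.Agent.H43.FT

open scoped InnerProductSpace

variable {n : ℕ}

private theorem ft19_inner (Y w : V n) :
    ⟪Y, w⟫_ℂ = dt (cj (WithLp.ofLp Y)) (WithLp.ofLp w) := by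
  rw [PiLp.inner_apply]
  unfold dt cj
  refine Finset.sum_congr rfl fun i _ => ?_
  rw [RCLike.inner_apply, mul_comm]

private theorem ft19_ofLp (w : V n) : ‖WithLp.ofLp w‖ ≤ ‖w‖ := by
  refine (pi_norm_le_iff_of_nonneg (norm_nonneg _)).2 fun i => ?_
  exact PiLp.norm_apply_le w i

private theorem ft19_toLp (w : Fin n → ℂ) : ‖(WithLp.toLp 2 w : V n)‖ ≤ (n + 1) * ‖w‖ := by
  rw [EuclideanSpace.norm_eq]
  refine Real.sqrt_le_iff.2 ⟨by positivity, ?_⟩
  calc ∑ i, ‖(WithLp.toLp 2 w : V n) i‖ ^ 2 ≤ ∑ _i : Fin n, ‖w‖ ^ 2 :=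
        Finset.sum_le_sum fun i _ => pow_le_pow_left₀ (norm_nonneg _) (norm_le_pi_norm w i) 2
    _ = n * ‖w‖ ^ 2 := by simp
    _ ≤ ((n + 1) * ‖w‖) ^ 2 := by
        rw [mul_pow]
        refine mul_le_mul_of_nonneg_right ?_ (by positivity)
        have : (0 : ℝ) ≤ n := Nat.cast_nonneg n
        nlinarith

private theorem ft19_lim (𝒰 : Ultrafilter ℕ) (q : ℕ → V n → ℂ) (T : ℕ → ℝ) (hT : ∀ j, 0 < T j)
    (p : MvPolynomial (Fin n) ℂ)
    (H : ∀ r ε : ℝ, 0 < ε → ∀ᶠ j in (𝒰 : Filter ℕ), ∀ w : V n, ‖w‖ ≤ r →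
      ‖q j w - (T j : ℂ) * eval (WithLp.ofLp w) p‖ ≤ ε * T j)
    (v : ℕ → V n) (v₀ : V n) (hv : Tendsto v 𝒰 (𝓝 v₀)) :
    Tendsto (fun j => q j (v j) / (T j : ℂ)) 𝒰 (𝓝 (eval (WithLp.ofLp v₀) p)) := by
  have h1 : Tendsto (fun j => eval (WithLp.ofLp (v j)) p) 𝒰 (𝓝 (eval (WithLp.ofLp v₀) p)) := by
    have hc : Continuous (fun w : V n => eval (WithLp.ofLp w) p) :=
      (MvPolynomial.continuous_eval p).comp (PiLp.continuous_ofLp 2 _)
    exact (hc.tendsto v₀).comp hv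
  have h2 : Tendsto (fun j => q j (v j) / (T j : ℂ) - eval (WithLp.ofLp (v j)) p) 𝒰 (𝓝 0) := by
    rw [Metric.tendsto_nhds]
    intro ε hε
    have h3 : ∀ᶠ j in (𝒰 : Filter ℕ), ‖v j‖ ≤ ‖v₀‖ + 1 :=
      hv.norm.eventually_le_const (lt_add_one _)
    filter_upwards [h3, H (‖v₀‖ + 1) (ε / 2) (by positivity)] with j h4 h5
    rw [dist_zero_right]
    have h6 := h5 _ h4
    have hTj : (T j : ℂ) ≠ 0 := by exact_mod_cast (hT j).ne'
    have h7 : q j (v j) / (T j : ℂ) - eval (WithLp.ofLp (v j)) p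
        = (q j (v j) - (T j : ℂ) * eval (WithLp.ofLp (v j)) p) / (T j : ℂ) := by
      field_simp
    rw [h7, norm_div, Complex.norm_real, Real.norm_of_nonneg (hT j).le, div_lt_iff₀ (hT j)]
    have h8 := hT j
    nlinarith
  have h3 := h2.add h1
  rw [zero_add] at h3
  refine h3.congr fun j => ?_
  ring

theorem terminal (𝒰 : Ultrafilter ℕ) (h𝒰 : (𝒰 : Filter ℕ) ≤ atTop)
    (ih : ∀ k < n, ∀ Q : MvPolynomial (Fin k) ℂ, Est Q)
    (P : MvPolynomial (Fin n) ℂ) (h : ℕ → (Fin n → ℂ) → ℂ) (A : ℕ → ℝ) (B : ℝ)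
    (b₀ Y₀ : ℕ → V n) (hI : Inst 𝒰 P h A B b₀ Y₀)
    {Γ : Type} [AddCommGroup Γ] [Module ℚ Γ] (τ τ' : Γ → ℕ → ℝ) (hS : Scl 𝒰 τ τ')
    (E : Submodule ℂ (V n)) (hE : E ≠ ⊥) (b₁ Y₁ : ℕ → V n) (R R' : ℕ → ℝ)
    (h0 : ∀ j, 0 < R j ∧ 0 < R' j) (hR : Tendsto R 𝒰 atTop) (hR' : Tendsto R' 𝒰 atTop)
    (𝓕 : Subring (Pr n)) (h𝓕 : GoodRing 𝒰 (stDm E b₁ Y₁ R R') τ τ' 𝓕) (a : Fin n → Pr n)
    (ha : IsCen 𝒰 (stDm E b₁ Y₁ R R') 𝓕 a) (hs : Slp 𝒰 (stDm E b₁ Y₁ R R') a)
    (b Y : ℕ → V n) (hc : Cont 𝒰 h A b₀ Y₀ b Y)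
    (hb : LL 𝒰 (fun j => ‖E.starProjection (b j - b₁ j)‖) R)
    (hY : LL 𝒰 (fun j => ‖E.starProjection (Y j - Y₁ j)‖) R')
    (u : V n) (hu : Tendsto (fun j => b j - pt a j (b j)) 𝒰 (𝓝 u))
    (hU : Tendsto (fun j => Y j - fr a j (Y j)) 𝒰 (𝓝 u))
    (ht : ∀ r : ℝ, ∀ᶠ j in (𝒰 : Filter ℕ), Touch (MM (h j)) (b j) (Y j) 2 r) : False := by
  obtain ⟨p₀, g, hp₀, hg, hz⟩ := zoom 𝒰 (stDm E b₁ Y₁ R R') (stDm_ok 𝒰 E b₁ Y₁ R R' h0) τ τ' hS
    𝓕 h𝓕 a ha.mem P hI.hP
  -- the points are in the domains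
  have hbC : ∀ᶠ j in (𝒰 : Filter ℕ), b j ∈ (stDm E b₁ Y₁ R R').C j := by
    filter_upwards [hb 2 two_pos] with j hj
    change ‖E.starProjection (b j - b₁ j)‖ < R j
    have := (h0 j).1
    linarith
  have hYC : ∀ᶠ j in (𝒰 : Filter ℕ), Y j ∈ (stDm E b₁ Y₁ R R').C' j := by
    filter_upwards [hY 2 two_pos] with j hj
    change ‖E.starProjection (Y j - Y₁ j)‖ < R' j
    have := (h0 j).2
    linarith
  have hbeC : ∀ e : V n, ∀ᶠ j in (𝒰 : Filter ℕ), b j + e ∈ (stDm E b₁ Y₁ R R').C j := by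
    intro e
    filter_upwards [hb 2 two_pos, hR.eventually_gt_atTop (2 * ‖E.starProjection e‖)] with j hj hj2
    change ‖E.starProjection (b j + e - b₁ j)‖ < R j
    have h1 : b j + e - b₁ j = (b j - b₁ j) + e := by abel
    rw [h1, map_add]
    have h2 := norm_add_le (E.starProjection (b j - b₁ j)) (E.starProjection e)
    linarith
  -- periodicity
  have hper : ∀ e ∈ E, ∀ w : V n, eval (WithLp.ofLp (e + w)) p₀ = eval (WithLp.ofLp w) p₀ := by
    intro e he w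
    have h1 := ft19_lim 𝒰 (fun j w' => eval (WithLp.ofLp (pt a j (b j) + w')) P) (τ g)
      (hS.pos g) p₀ (fun r ε hε => by
        filter_upwards [hz r ε hε, hbC] with j hj hj2
        exact hj.1 _ hj2) (fun j => (pt a j (b j + e) - pt a j (b j)) + w) (e + w) (by
        refine Tendsto.add_const w ?_
        rw [tendsto_iff_norm_sub_tendsto_zero, Metric.tendsto_nhds]
        intro ε hε
        filter_upwards [hs (ε / (‖e‖ + 1)) (by positivity), hbC, hbeC e] with j hj hj2 hj3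
        have h2 := hj.1 _ hj3 _ hj2
        have h3 : (stDm E b₁ Y₁ R R').pr (b j + e) - (stDm E b₁ Y₁ R R').pr (b j) = e := by
          change E.starProjection (b j + e) - E.starProjection (b j) = e
          rw [map_add, add_sub_cancel_left]
          exact Submodule.starProjection_eq_self_iff.2 he
        rw [h3] at h2
        rw [Real.dist_eq, sub_zero, abs_norm]
        refine h2.trans_lt ?_
        rw [div_mul_eq_mul_div, div_lt_iff₀ (by positivity)]
        nlinarith [norm_nonneg e])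
    have h2 := ft19_lim 𝒰 (fun j w' => eval (WithLp.ofLp (pt a j (b j + e) + w')) P) (τ g)
      (hS.pos g) p₀ (fun r ε hε => by
        filter_upwards [hz r ε hε, hbeC e] with j hj hj2
        exact hj.1 _ hj2) (fun _ => w) w tendsto_const_nhds
    refine tendsto_nhds_unique h1 (h2.congr fun j => ?_)
    congr 4
    abel
  -- the limit polynomials
  set p : MvPolynomial (Fin n) ℂ := shf (WithLp.ofLp u) p₀ with hp
  have hpe : ∀ w : Fin n → ℂ, eval w p = eval (WithLp.ofLp u + w) p₀ := fun w => eval_shf _ _ _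
  have hp0 : p ≠ 0 := by
    intro h1
    apply hp₀
    refine MvPolynomial.funext fun z => ?_
    have h2 := hpe (z - WithLp.ofLp u)
    rw [h1, add_sub_cancel] at h2
    rw [← h2]
    simp
  have hgood : GoodSeq P 𝒰 (fun j => WithLp.ofLp (b j)) (fun j => cj (WithLp.ofLp (Y j))) := by
    refine ⟨p, star' p, fun j => (τ g j : ℂ), fun j => (τ' g j : ℂ), 1, one_pos, ?_, ?_, ?_, ?_⟩
    · have hone : ∀ x : ℝ, 1 ≤ x → 1 ≤ ‖(x : ℂ)‖ := by
        intro x hx
        rw [Complex.norm_real, Real.norm_of_nonneg (by linarith)]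
        exact hx
      rcases hg with hg | hg
      · subst hg
        refine Eventually.of_forall fun j => ⟨hone _ ?_, hone _ ?_⟩
        · have h1 := hS.add 0 0 j
          rw [add_zero] at h1
          have h2 := hS.pos 0 j
          have h3 : τ 0 j = 1 := by
            have : τ 0 j * (τ 0 j - 1) = 0 := by linarith
            rcases mul_eq_zero.1 this with h4 | h4
            · exact absurd h4 h2.ne'
            · linarith
          exact h3.ge
        · have h1 := hS.add' 0 0 j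
          rw [add_zero] at h1
          have h2 := hS.pos' 0 j
          have h3 : τ' 0 j = 1 := by
            have : τ' 0 j * (τ' 0 j - 1) = 0 := by linarith
            rcases mul_eq_zero.1 this with h4 | h4
            · exact absurd h4 h2.ne'
            · linarith
          exact h3.ge
      · filter_upwards [hg.1.eventually_ge_atTop 1, hg.2.eventually_ge_atTop 1] with j h1 h2
        exact ⟨hone _ h1, hone _ h2⟩
    · intro w
      have h1 := ft19_lim 𝒰 (fun j w' => eval (WithLp.ofLp (pt a j (b j) + w')) P) (τ g)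
        (hS.pos g) p₀ (fun r ε hε => by
          filter_upwards [hz r ε hε, hbC] with j hj hj2
          exact hj.1 _ hj2) (fun j => (b j - pt a j (b j)) + WithLp.toLp 2 w)
        (u + WithLp.toLp 2 w) (hu.add_const _)
      rw [hpe]
      refine h1.congr fun j => ?_
      congr 3
      have h2 : pt a j (b j) + (b j - pt a j (b j) + WithLp.toLp 2 w) = b j + WithLp.toLp 2 w := by
        abel
      rw [h2]
      rfl
    · intro w
      have h1 := ft19_lim 𝒰 (fun j w' => eval (WithLp.ofLp (fr a j (Y j) + w')) P) (τ' g)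
        (hS.pos' g) p₀ (fun r ε hε => by
          filter_upwards [hz r ε hε, hYC] with j hj hj2
          exact hj.2 _ hj2) (fun j => (Y j - fr a j (Y j)) + WithLp.toLp 2 (cj w))
        (u + WithLp.toLp 2 (cj w)) (hU.add_const _)
      have h2 := (Complex.continuous_conj.tendsto _).comp h1
      rw [eval_star', hpe]
      refine h2.congr fun j => ?_
      have h3 : fr a j (Y j) + (Y j - fr a j (Y j) + WithLp.toLp 2 (cj w))
          = Y j + WithLp.toLp 2 (cj w) := by abel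
      have h4 : cj (cj (WithLp.ofLp (Y j)) + w) = WithLp.ofLp (Y j + WithLp.toLp 2 (cj w)) := by
        funext i
        simp [cj]
      simp only [Function.comp_apply]
      rw [map_div₀, Complex.conj_ofReal, eval_star', h3, h4]
    · obtain ⟨e, he, he0⟩ := Submodule.exists_mem_ne_zero_of_ne_bot hE
      refine injPair_of_est p hp0 (est_of_period ih p (WithLp.ofLp e) ?_ fun z => ?_)
      · intro h1
        apply he0
        have h2 : e = WithLp.toLp 2 (WithLp.ofLp e) := rfl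
        rw [h2, h1]
        rfl
      · rw [hpe, hpe]
        have h1 := hper e he (u + WithLp.toLp 2 z)
        have h2 : WithLp.ofLp (e + (u + WithLp.toLp 2 z)) = WithLp.ofLp u + (z + WithLp.ofLp e) := by
          funext i
          simp
          ring
        rw [h2] at h1
        exact h1
  -- the contradiction
  have hpos : ∀ᶠ j in (𝒰 : Filter ℕ), h j (WithLp.ofLp (b j)) ≠ 0 := by
    filter_upwards [hc.big (1 / 8) (by norm_num)] with j hj h1
    have h2 : MM (h j) (b j) = 0 := by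
      unfold MM
      rw [h1, norm_zero]
    rw [h2] at hj
    have h3 : 0 < A j * Real.exp ((1 / 4 - 1 / 8) * (‖b₀ j‖ * ‖Y₀ j‖)) :=
      mul_pos (hI.apos j) (Real.exp_pos _)
    linarith
  classical
  set h' : ℕ → (Fin n → ℂ) → ℂ := fun j =>
    if h j (WithLp.ofLp (b j)) ≠ 0 then h j else fun _ => 1 with hh'
  have heq : ∀ᶠ j in (𝒰 : Filter ℕ), h' j = h j := by
    filter_upwards [hpos] with j hj
    rw [hh']
    simp only
    rw [if_pos hj]
  refine core 𝒰 (fun j => WithLp.ofLp (b j)) (fun j => cj (WithLp.ofLp (Y j))) hgood h' ?_ ?_ ?_ ?_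
  · intro k
    rw [hh']
    simp only
    split_ifs
    · exact hI.diff k
    · exact differentiable_const _
  · intro k
    rw [hh']
    simp only
    split_ifs with h1
    · exact h1
    · exact one_ne_zero
  · intro r
    refine ⟨Real.exp (((n + 1) * |r|) ^ 2), ?_⟩
    filter_upwards [heq, ht ((n + 1) * |r|)] with j hj1 hj2 w hw
    rw [hj1]
    have hw2 : ‖(WithLp.toLp 2 w : V n)‖ ≤ (n + 1) * |r| := by
      refine (ft19_toLp w).trans ?_
      exact mul_le_mul_of_nonneg_left (hw.trans (le_abs_self r)) (by positivity)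
    have h1 := hj2 (b j + WithLp.toLp 2 w) (by rwa [add_sub_cancel_left])
    rw [add_sub_cancel_left, ft19_inner] at h1
    have h2 : MM (h j) (b j + WithLp.toLp 2 w) = ‖h j (WithLp.ofLp (b j) + w)‖ := rfl
    have h3 : MM (h j) (b j) = ‖h j (WithLp.ofLp (b j))‖ := rfl
    rw [h2, h3, Real.exp_add] at h1
    have h4 : Real.exp (2 / 2 * ‖(WithLp.toLp 2 w : V n)‖ ^ 2) ≤
        Real.exp (((n + 1) * |r|) ^ 2) := by
      refine Real.exp_le_exp.2 ?_
      rw [div_self two_ne_zero, one_mul]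
      exact pow_le_pow_left₀ (norm_nonneg _) hw2 2
    set X := Real.exp (dt (cj (WithLp.ofLp (Y j))) w).re with hX
    have hX0 : 0 < X := Real.exp_pos _
    have h5 : Real.exp (-(dt (cj (WithLp.ofLp (Y j))) w).re) = X⁻¹ := Real.exp_neg _
    rw [h5, ← div_eq_mul_inv, div_le_iff₀ hX0]
    calc ‖h j (WithLp.ofLp (b j) + w)‖
        ≤ ‖h j (WithLp.ofLp (b j))‖ * (X * Real.exp (2 / 2 * ‖(WithLp.toLp 2 w : V n)‖ ^ 2)) := h1
      _ ≤ ‖h j (WithLp.ofLp (b j))‖ * (X * Real.exp (((n + 1) * |r|) ^ 2)) := by gcongr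
      _ = _ := by ring
  · intro z
    have hlim : Tendsto (fun j => Real.exp (|B| * ‖z‖ - ‖b₀ j‖ * ‖Y₀ j‖ / 24)) 𝒰 (𝓝 0) := by
      refine Real.tendsto_exp_atBot.comp ?_
      refine tendsto_atBot_add_const_left _ _ ?_
      have h1 : Tendsto (fun j => ‖b₀ j‖ * ‖Y₀ j‖ / 24) 𝒰 atTop :=
        (hI.hb.atTop_mul_atTop₀ hI.hY).atTop_div_const (by norm_num)
      exact tendsto_neg_atTop_atBot.comp h1
    refine squeeze_zero' (Eventually.of_forall fun j => by positivity) ?_ hlim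
    filter_upwards [heq, hpos, hc.big (1 / 8) (by norm_num), hc.nb 1 one_pos, hc.nY 1 one_pos,
      hI.hb.eventually_ge_atTop (48 * ‖z‖ * (n + 1)), hI.hY.eventually_ge_atTop (48 * |B|)]
      with j hj1 hj2 hj3 hj4 hj5 hj6 hj7
    rw [hj1]
    rw [one_mul] at hj4 hj5
    have hM : 0 < ‖h j (WithLp.ofLp (b j))‖ := norm_pos_iff.2 hj2
    have hM2 : MM (h j) (b j) = ‖h j (WithLp.ofLp (b j))‖ := rfl
    rw [hM2] at hj3
    have hA := hI.apos j
    rw [div_le_iff₀ hM]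
    have h1 := hI.tt j (WithLp.ofLp (b j) + z)
    have hbn : ‖b j‖ ≤ 2 * ‖b₀ j‖ := by
      have := norm_le_norm_add_norm_sub' (b j) (b₀ j)
      linarith
    have hYn : ‖Y j‖ ≤ 2 * ‖Y₀ j‖ := by
      have := norm_le_norm_add_norm_sub' (Y j) (Y₀ j)
      linarith
    have h2 : B * ‖WithLp.ofLp (b j) + z‖ ≤ |B| * (2 * ‖b₀ j‖ + ‖z‖) := by
      have h3 : ‖WithLp.ofLp (b j) + z‖ ≤ 2 * ‖b₀ j‖ + ‖z‖ :=
        (norm_add_le _ _).trans (add_le_add ((ft19_ofLp _).trans hbn) le_rfl)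
      exact mul_le_mul (le_abs_self B) h3 (norm_nonneg _) (abs_nonneg B)
    have h4 : -(dt (cj (WithLp.ofLp (Y j))) z).re ≤ 2 * ‖Y₀ j‖ * ((n + 1) * ‖z‖) := by
      have h5 : dt (cj (WithLp.ofLp (Y j))) z = ⟪Y j, (WithLp.toLp 2 z : V n)⟫_ℂ :=
        (ft19_inner (Y j) (WithLp.toLp 2 z)).symm
      rw [h5]
      have h6 : -(⟪Y j, (WithLp.toLp 2 z : V n)⟫_ℂ).re ≤ ‖⟪Y j, (WithLp.toLp 2 z : V n)⟫_ℂ‖ :=
        (neg_le_abs _).trans (Complex.abs_re_le_norm _)
      refine h6.trans ((norm_inner_le_norm _ _).trans ?_)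
      exact mul_le_mul hYn (ft19_toLp z) (norm_nonneg _) (by positivity)
    have h5 : Real.exp (B * ‖WithLp.ofLp (b j) + z‖) *
        Real.exp (-(dt (cj (WithLp.ofLp (Y j))) z).re) ≤
        Real.exp (|B| * ‖z‖ - ‖b₀ j‖ * ‖Y₀ j‖ / 24) *
          Real.exp ((1 / 4 - 1 / 8) * (‖b₀ j‖ * ‖Y₀ j‖)) := by
      rw [← Real.exp_add, ← Real.exp_add]
      refine Real.exp_le_exp.2 ?_
      have e1 : |B| * (2 * ‖b₀ j‖) ≤ ‖b₀ j‖ * ‖Y₀ j‖ / 24 := by
        have := mul_le_mul_of_nonneg_left hj7 (norm_nonneg (b₀ j))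
        linarith
      have e2 : 2 * ‖Y₀ j‖ * ((n + 1) * ‖z‖) ≤ ‖b₀ j‖ * ‖Y₀ j‖ / 24 := by
        have := mul_le_mul_of_nonneg_right hj6 (norm_nonneg (Y₀ j))
        linarith
      linarith
    calc ‖TT P (h j) (WithLp.ofLp (b j) + z)‖ * Real.exp (-(dt (cj (WithLp.ofLp (Y j))) z).re)
        ≤ A j * Real.exp (B * ‖WithLp.ofLp (b j) + z‖) *
          Real.exp (-(dt (cj (WithLp.ofLp (Y j))) z).re) := by gcongr
      _ = A j * (Real.exp (B * ‖WithLp.ofLp (b j) + z‖) *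
          Real.exp (-(dt (cj (WithLp.ofLp (Y j))) z).re)) := by ring
      _ ≤ A j * (Real.exp (|B| * ‖z‖ - ‖b₀ j‖ * ‖Y₀ j‖ / 24) *
          Real.exp ((1 / 4 - 1 / 8) * (‖b₀ j‖ * ‖Y₀ j‖))) := by gcongr
      _ = Real.exp (|B| * ‖z‖ - ‖b₀ j‖ * ‖Y₀ j‖ / 24) *
          (A j * Real.exp ((1 / 4 - 1 / 8) * (‖b₀ j‖ * ‖Y₀ j‖))) := by ring
      _ ≤ _ := by gcongr

end Pool.Agent.H43.FT
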