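import Pool.Agent.H43.FT.Sat
import Pool.Agent.H43.FT.Res
import Pool.Agent.H43.FT.Sc
import Pool.Agent.H43.FT.Half
import Pool.Agent.H43.FT.StepS
import Pool.Agent.H43.FT.Exh
import Pool.Agent.H43.FT.NoA
import Pool.Agent.H43.FT.Term

/-!
# Project FT (MP_6e521b), row 20: from a stage to an exit
-/

set_option autoImplicit false

open MvPolynomial Filter Topology Pool.Agent.H77.FB Pool.Agent.H60.FB Pool.Agent.H77.N2

namespace Pool.Agent.H43.FT

open scoped InnerProductSpace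

variable {n : ℕ}

theorem ft20_ll_half {𝒰 : Ultrafilter ℕ} {x y : ℕ → ℝ} (h : LL 𝒰 x y) :
    LL 𝒰 x (fun j => y j / 2) := by
  intro m hm
  filter_upwards [h (2 * m) (by positivity)] with j hj
  linarith

theorem ft20_tendsto_half {𝒰 : Ultrafilter ℕ} {x : ℕ → ℝ} (h : Tendsto x 𝒰 atTop) :
    Tendsto (fun j => x j / 2) 𝒰 atTop :=
  h.atTop_div_const (by norm_num)

theorem ft20_alg (D w ω : V n) (k ξ : ℝ) : D - ((ξ * k : ℝ) : ℂ) • ω =
    (D - (k : ℂ) • w) + (k : ℂ) • (w - (ξ : ℂ) • ω) := by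
  rw [smul_sub, smul_smul, Complex.ofReal_mul, mul_comm (ξ : ℂ)]
  abel

theorem stage_exit (𝒰 : Ultrafilter ℕ) (h𝒰 : (𝒰 : Filter ℕ) ≤ atTop)
    (ih : ∀ k < n, ∀ Q : MvPolynomial (Fin k) ℂ, Est Q)
    (P : MvPolynomial (Fin n) ℂ) (h : ℕ → (Fin n → ℂ) → ℂ) (A : ℕ → ℝ) (B : ℝ)
    (b₀ Y₀ : ℕ → V n) (hI : Inst 𝒰 P h A B b₀ Y₀)
    {Γ : Type} [AddCommGroup Γ] [Module ℚ Γ] (τ τ' : Γ → ℕ → ℝ)
    (E : Submodule ℂ (V n)) (hE : E ≠ ⊥) (b₁ Y₁ : ℕ → V n) (R R' : ℕ → ℝ) (κ : ℕ → ℝ → ℝ)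
    (𝓕 : Subring (Pr n)) (a : Fin n → Pr n)
    (hst : Stage 𝒰 h A b₀ Y₀ τ τ' E b₁ Y₁ R R' κ 𝓕 a) :
    ∃ (R₂ R₂' : ℕ → ℝ) (c : Fin n → Pr n) (b Y : ℕ → V n) (ω : V n) (ξ ξ' : ℕ → ℝ),
      Exit 𝒰 h A b₀ Y₀ τ τ' E b₁ Y₁ R₂ R₂' 𝓕 c b Y ω ξ ξ' := by
  classical
  obtain ⟨c, b, Y, ρ, hc, hca, hcon, hb, hY, hρ0, hρ, hρR, ht, hu, hU, hmax⟩ :=
    exhaust 𝒰 h𝒰 h A b₀ Y₀ τ τ' E b₁ Y₁ R R' κ 𝓕 a hst
  obtain ⟨b', Y', hcon', hb', hY', hu', ht', hU'⟩ :=
    step_seq 𝒰 h𝒰 P h A B b₀ Y₀ hI τ τ' E b₁ Y₁ R R' κ 𝓕 a hst c b Y ρ hc hca hcon hb hY hρ0 hρR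
      ht hu hU
  have hprof := hst.prof
  have hR0 := hst.hR0
  -- the half cylinders
  have hR0' : ∀ j, 0 < R j / 2 ∧ 0 < R' j / 2 := fun j => ⟨half_pos (hR0 j).1, half_pos (hR0 j).2⟩
  have hin : ∀ᶠ j in (𝒰 : Filter ℕ), ‖E.starProjection (b₁ j - b₁ j)‖ + R j / 2 ≤ R j := by
    refine Eventually.of_forall fun j => ?_
    rw [sub_self, map_zero, norm_zero, zero_add]
    exact half_le_self (hR0 j).1.le
  have hin' : ∀ᶠ j in (𝒰 : Filter ℕ), ‖E.starProjection (Y₁ j - Y₁ j)‖ + R' j / 2 ≤ R' j := by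
    refine Eventually.of_forall fun j => ?_
    rw [sub_self, map_zero, norm_zero, zero_add]
    exact half_le_self (hR0 j).2.le
  have hring : GoodRing 𝒰 (stDm E b₁ Y₁ (fun j => R j / 2) (fun j => R' j / 2)) τ τ' 𝓕 :=
    ring_res 𝒰 E E le_rfl b₁ Y₁ b₁ Y₁ R R' _ _ hin hin' τ τ' 𝓕 hst.ring
  have hcen : IsCen 𝒰 (stDm E b₁ Y₁ (fun j => R j / 2) (fun j => R' j / 2)) 𝓕 c :=
    cen_res 𝒰 E b₁ Y₁ b₁ Y₁ R R' _ _ hin hin' 𝓕 c hc
  have hslp : Slp 𝒰 (stDm E b₁ Y₁ (fun j => R j / 2) (fun j => R' j / 2)) c :=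
    slp_half 𝒰 E b₁ Y₁ R R' hR0 a c (fun i => (hst.ring.good _ (hst.cen.mem i)).1)
      (fun i => (hst.ring.good _ (hc.mem i)).1) hst.slp hca
  -- the displacement
  set x : ℕ → V n := fun j => b' j - pt c j (b' j) with hx
  set r : ℕ → ℝ := fun j => ‖x j‖ with hr
  have hr0 : ∀ j, 0 ≤ r j := fun j => norm_nonneg _
  by_cases hbd : ∃ C : ℝ, ∀ᶠ j in (𝒰 : Filter ℕ), r j ≤ C
  · exfalso
    obtain ⟨C, hC⟩ := hbd
    obtain ⟨u, hxu⟩ := ultra_conv 𝒰 x C hC
    have hκ : ∀ᶠ j in (𝒰 : Filter ℕ), κ j (r j) = 1 := by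
      filter_upwards [hC, hprof.one C] with j hj hj1
      refine le_antisymm (hprof.le1 j _) ?_
      rw [← hj1]
      exact hprof.anti j _ _ (hr0 j) hj
    have hyu : Tendsto (fun j => Y' j - fr c j (Y' j)) 𝒰 (𝓝 u) := by
      have h1 : Tendsto (fun j => (Y' j - fr c j (Y' j)) - x j) 𝒰 (𝓝 0) := by
        rw [Metric.tendsto_nhds]
        intro ε hε
        have hC0 : 0 < |C| + 1 := by positivity
        filter_upwards [hU' (ε / 2 / (|C| + 1)) (by positivity), hκ, hC] with j hj hκj hCj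
        rw [dist_zero_right]
        change ‖(Y' j - fr c j (Y' j)) - (κ j (r j) : ℂ) • (x j)‖
          ≤ ε / 2 / (|C| + 1) * (κ j (r j) * r j) at hj
        rw [hκj, Complex.ofReal_one, one_smul, one_mul] at hj
        refine hj.trans_lt ?_
        have h2 : r j ≤ |C| + 1 := by
          have := le_abs_self C
          linarith
        calc ε / 2 / (|C| + 1) * r j ≤ ε / 2 / (|C| + 1) * (|C| + 1) :=
              mul_le_mul_of_nonneg_left h2 (by positivity)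
          _ = ε / 2 := by field_simp
          _ < ε := by linarith
      have h2 := h1.add hxu
      rw [zero_add] at h2
      refine h2.congr fun j => ?_
      abel
    refine terminal 𝒰 h𝒰 ih P h A B b₀ Y₀ hI τ τ' hst.scl E hE b₁ Y₁ _ _ hR0'
      (ft20_tendsto_half hst.hR) (ft20_tendsto_half hst.hR') 𝓕 hring c hcen hslp b' Y' hcon'
      (ft20_ll_half hb') (ft20_ll_half hY') u hxu hyu ?_
    intro s
    filter_upwards [ht' 1 one_pos, hκ, hρ.eventually_ge_atTop (8 * s)] with j hj hκj hρj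
    intro z hz
    have h3 := hj z (by linarith)
    change MM (h j) z ≤ MM (h j) (b' j) * Real.exp ((⟪Y' j, z - b' j⟫_ℂ).re
      + ((1 + 1) * κ j (r j)) / 2 * ‖z - b' j‖ ^ 2) at h3
    have h4 : ((1 : ℝ) + 1) * 1 / 2 = 2 / 2 := by norm_num
    rw [hκj, h4] at h3
    exact h3
  · -- the displacement tends to infinity
    have hinf : Tendsto r 𝒰 atTop := by
      rw [tendsto_atTop]
      intro C
      have h1 : ¬ ∀ᶠ j in (𝒰 : Filter ℕ), r j ≤ C := fun h2 => hbd ⟨C, h2⟩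
      rw [← Ultrafilter.eventually_not] at h1
      filter_upwards [h1] with j hj
      exact (not_le.mp hj).le
    set ξ : ℕ → ℝ := fun j => max (r j) 1 with hξd
    set ξ' : ℕ → ℝ := fun j => ξ j * κ j (ξ j) with hξd'
    have hξ0 : ∀ j, 0 < ξ j := fun j => lt_of_lt_of_le one_pos (le_max_right _ _)
    have hξ0' : ∀ j, 0 < ξ' j := fun j => mul_pos (hξ0 j) (hprof.pos j _)
    have hξr : ∀ᶠ j in (𝒰 : Filter ℕ), ξ j = r j := by
      filter_upwards [hinf.eventually_ge_atTop 1] with j hj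
      exact max_eq_left hj
    have hξ : Tendsto ξ 𝒰 atTop := tendsto_atTop_mono (fun j => le_max_left _ _) hinf
    have hξ' : Tendsto ξ' 𝒰 atTop := by
      rw [tendsto_atTop]
      intro C
      have hC0 : 0 ≤ max C 0 := le_max_right _ _
      filter_upwards [hξ.eventually_ge_atTop (max C 0), hprof.one (max C 0)] with j hj hj1
      have h1 := hprof.mono j _ _ hC0 hj
      rw [hj1, mul_one] at h1
      exact (le_max_left _ _).trans h1
    -- the direction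
    obtain ⟨ω, hω⟩ := ultra_conv 𝒰 (fun j => ((ξ j)⁻¹ : ℂ) • x j) 1 (by
      filter_upwards [hξr] with j hj
      rw [norm_smul, norm_inv, Complex.norm_real, Real.norm_of_nonneg (hξ0 j).le]
      change (ξ j)⁻¹ * r j ≤ 1
      rw [← hj, inv_mul_cancel₀ (hξ0 j).ne'])
    have hωn : ‖ω‖ = 1 := by
      have h1 := hω.norm
      refine tendsto_nhds_unique h1 (tendsto_const_nhds.congr' ?_)
      filter_upwards [hξr] with j hj
      rw [norm_smul, norm_inv, Complex.norm_real, Real.norm_of_nonneg (hξ0 j).le]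
      change (1 : ℝ) = (ξ j)⁻¹ * r j
      rw [← hj, inv_mul_cancel₀ (hξ0 j).ne']
    have hx0 : ∀ᶠ j in (𝒰 : Filter ℕ), E.starProjection (x j) = 0 := by
      filter_upwards [hc.proj, hb' 2 two_pos] with j hj hbj
      have h1 : b' j ∈ (stDm E b₁ Y₁ R R').C j := by
        change ‖E.starProjection (b' j - b₁ j)‖ < R j
        have := (hR0 j).1
        have h2 := norm_nonneg (E.starProjection (b' j - b₁ j))
        have h3 : 2 * ‖E.starProjection (b' j - b₁ j)‖ ≤ R j := hbj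
        linarith
      have h2 : E.starProjection (pt c j (b' j)) = E.starProjection (b' j) := hj.1 _ h1
      rw [hx]
      change E.starProjection (b' j - pt c j (b' j)) = 0
      rw [map_sub, h2, sub_self]
    have hωE : ω ∈ Eᗮ := by
      have h1 : Tendsto (fun j => E.starProjection (((ξ j)⁻¹ : ℂ) • x j)) 𝒰
          (𝓝 (E.starProjection ω)) := (E.starProjection.continuous.tendsto ω).comp hω
      have h2 : E.starProjection ω = 0 := by
        refine tendsto_nhds_unique h1 (tendsto_const_nhds.congr' ?_)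
        filter_upwards [hx0] with j hj
        rw [map_smul, hj, smul_zero]
      rwa [Submodule.starProjection_apply_eq_zero_iff] at h2
    -- comparison with the radii
    have hξρ : LL 𝒰 ξ ρ := by
      intro m hm
      filter_upwards [hu' m hm, hξr] with j hj hjr
      rw [hjr]
      exact hj
    have hξR : LL 𝒰 ξ R := by
      intro m hm
      filter_upwards [hξρ 1 one_pos, hρR m hm] with j hj1 hj2
      rw [one_mul] at hj1
      exact (mul_le_mul_of_nonneg_left hj1 hm.le).trans hj2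
    have hξR' : ∀ᶠ j in (𝒰 : Filter ℕ), ξ' j ≤ R' j / 2 := by
      have h1 : ∀ᶠ j in (𝒰 : Filter ℕ), κ j (R j / 4) * R j / R' j < 2 :=
        (hst.winR 4 (by norm_num)).eventually_lt_const (by norm_num)
      filter_upwards [h1, hξR 4 (by norm_num)] with j hj1 hj2
      have h2 : ξ j ≤ R j / 4 := by linarith
      have h3 := hprof.mono j _ _ (hξ0 j).le h2
      rw [div_lt_iff₀ (hR0 j).2] at hj1
      change ξ j * κ j (ξ j) ≤ R' j / 2
      linarith
    have hleb : ∀ᶠ j in (𝒰 : Filter ℕ), ξ j ≤ 2 * ‖b₀ j‖ ∧ ξ' j ≤ 2 * ‖Y₀ j‖ := by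
      filter_upwards [hst.leR, hξR 1 one_pos, hξR'] with j hj hj1 hj2
      have h1 := norm_nonneg (b₀ j)
      have h2 := norm_nonneg (Y₀ j)
      constructor
      · linarith [hj.1]
      · linarith [hj.2]
    -- the extended scales
    have hex : ∀ g, LL 𝒰 (τ g) ξ ∨ LL 𝒰 ξ (τ g) := by
      intro g
      rcases ll_tri 𝒰 (τ g) ξ (hst.scl.pos g) hξ0 with h1 | h1 | ⟨y, hy, hy1⟩
      · exact Or.inl h1
      · exact Or.inr h1
      · exfalso
        have hτ : Tendsto (τ g) 𝒰 atTop := by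
          have h2 := Filter.Tendsto.pos_mul_atTop hy hy1 hξ
          refine h2.congr fun j => ?_
          rw [div_mul_cancel₀ _ (hξ0 j).ne']
        have h3 : Tendsto (fun j => r j / τ g j) 𝒰 (𝓝 y⁻¹) := by
          refine (hy1.inv₀ hy.ne').congr' ?_
          filter_upwards [hξr] with j hj
          rw [inv_div, hj]
        exact no_a2 𝒰 h𝒰 h A b₀ Y₀ τ τ' E b₁ Y₁ R R' κ 𝓕 a hst c ρ hc hca hρ0 hρR hmax b' Y' hcon'
          hb' hY' hu' ht' hU' g hτ y⁻¹ (inv_pos.mpr hy) h3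
    have hxω : ∀ ε : ℝ, 0 < ε → ∀ᶠ j in (𝒰 : Filter ℕ), ‖x j - (ξ j : ℂ) • ω‖ ≤ ε * ξ j := by
      intro ε hε
      have h1 : Tendsto (fun j => ‖((ξ j)⁻¹ : ℂ) • x j - ω‖) 𝒰 (𝓝 0) := by
        rw [← norm_zero (E := V n), ← sub_self ω]
        exact (hω.sub_const ω).norm
      filter_upwards [h1.eventually_lt_const hε] with j hj
      have h2 : x j - (ξ j : ℂ) • ω = (ξ j : ℂ) • (((ξ j)⁻¹ : ℂ) • x j - ω) := by
        rw [smul_sub, smul_smul, mul_inv_cancel₀ (by exact_mod_cast (hξ0 j).ne'), one_smul]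
      rw [h2, norm_smul, Complex.norm_real, Real.norm_of_nonneg (hξ0 j).le, mul_comm]
      exact mul_le_mul_of_nonneg_right hj.le (hξ0 j).le
    refine ⟨fun j => R j / 2, fun j => R' j / 2, c, b', Y', ω, ξ, ξ', ?_⟩
    refine
      { cnt := hst.cnt
        ring := hring
        cen := hcen
        slp := hslp
        con := hcon'
        inb := ft20_ll_half hb'
        inY := ft20_ll_half hY'
        hω := hωn
        hωE := hωE
        hξ0 := fun j => ⟨hξ0 j, hξ0' j⟩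
        hξ := hξ
        hξ' := hξ'
        ξR := ft20_ll_half hξR
        ξR' := hξR'
        leb := hleb
        scl := scl_ext 𝒰 h𝒰 τ τ' hst.scl κ hprof ξ hξ0 hξ hex
        hu := ?_
        hU := ?_
        tch := ?_ }
    · intro m hm
      filter_upwards [hxω m⁻¹ (inv_pos.mpr hm)] with j hj
      change m * ‖x j - (ξ j : ℂ) • ω‖ ≤ ξ j
      calc m * ‖x j - (ξ j : ℂ) • ω‖ ≤ m * (m⁻¹ * ξ j) := mul_le_mul_of_nonneg_left hj hm.le
        _ = ξ j := by rw [← mul_assoc, mul_inv_cancel₀ hm.ne', one_mul]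
    · intro m hm
      filter_upwards [hxω (2 * m)⁻¹ (by positivity), hU' (2 * m)⁻¹ (by positivity), hξr]
        with j hj1 hj2 hjr
      change ‖(Y' j - fr c j (Y' j)) - (κ j (r j) : ℂ) • (x j)‖
        ≤ (2 * m)⁻¹ * (κ j (r j) * r j) at hj2
      rw [← hjr] at hj2
      change m * ‖Y' j - fr c j (Y' j) - ((ξ j * κ j (ξ j) : ℝ) : ℂ) • ω‖ ≤ ξ j * κ j (ξ j)
      have h1 : Y' j - fr c j (Y' j) - ((ξ j * κ j (ξ j) : ℝ) : ℂ) • ω =
          ((Y' j - fr c j (Y' j)) - (κ j (ξ j) : ℂ) • (x j)) +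
            (κ j (ξ j) : ℂ) • (x j - (ξ j : ℂ) • ω) := ft20_alg _ _ _ _ _
      have h2 : ‖(κ j (ξ j) : ℂ) • (x j - (ξ j : ℂ) • ω)‖ ≤ κ j (ξ j) * ((2 * m)⁻¹ * ξ j) := by
        rw [norm_smul, Complex.norm_real, Real.norm_of_nonneg (hprof.pos j _).le]
        exact mul_le_mul_of_nonneg_left hj1 (hprof.pos j _).le
      rw [h1]
      calc m * ‖((Y' j - fr c j (Y' j)) - (κ j (ξ j) : ℂ) • (x j)) +
            (κ j (ξ j) : ℂ) • (x j - (ξ j : ℂ) • ω)‖
          ≤ m * ((2 * m)⁻¹ * (κ j (ξ j) * ξ j) + κ j (ξ j) * ((2 * m)⁻¹ * ξ j)) :=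
            mul_le_mul_of_nonneg_left ((norm_add_le _ _).trans (add_le_add hj2 h2)) hm.le
        _ = ξ j * κ j (ξ j) := by field_simp; ring
    · intro ε hε
      refine ⟨1, one_pos, ?_⟩
      filter_upwards [ht' ε hε, hξr, hξρ 8 (by norm_num)] with j hj1 hjr hj2
      intro z hz
      have h1 := hj1 z (by linarith)
      change MM (h j) z ≤ MM (h j) (b' j) * Real.exp ((⟪Y' j, z - b' j⟫_ℂ).re
        + ((1 + ε) * κ j (r j)) / 2 * ‖z - b' j‖ ^ 2) at h1
      have h2 : ξ' j / ξ j = κ j (r j) := by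
        rw [← hjr]
        exact mul_div_cancel_left₀ _ (hξ0 j).ne'
      rw [h2]
      exact h1

end Pool.Agent.H43.FT
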