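import Pool.Agent.H43.FT.StartA
import Pool.Agent.H30.FTW.Pack

/-!
First contact.
-/

set_option autoImplicit false

open MvPolynomial Filter Topology Pool.Agent.H77.FB Pool.Agent.H60.FB Pool.Agent.H77.N2

namespace Pool.Agent.H43.FT

open scoped InnerProductSpace

variable {n : ℕ}

theorem start (P : MvPolynomial (Fin n) ℂ) (hP : P ≠ 0) (B₀ c : ℝ) (hc : 0 < c)
    (hcon : ¬ ∃ B C : ℝ, ∀ (h : (Fin n → ℂ) → ℂ) (A : ℝ),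
      Differentiable ℂ h → (∀ z, ‖h z‖ ≤ c * A * Real.exp (Pool.Agent.H60.FB.sq z / 2)) →
      (∀ z, ‖TT P h z‖ ≤ A * Real.exp (B₀ * ‖z‖)) →
      ∀ z, ‖h z‖ ≤ C * A * Real.exp (B * ‖z‖)) :
    ∃ (𝒰 : Ultrafilter ℕ) (h : ℕ → (Fin n → ℂ) → ℂ) (A : ℕ → ℝ) (b₀ Y₀ : ℕ → V n)
      (b₁ Y₁ : ℕ → V n) (R R' : ℕ → ℝ) (𝓕 : Subring (Pr n)) (a : Fin n → Pr n) (ω : V n)
      (ξ ξ' : ℕ → ℝ), (𝒰 : Filter ℕ) ≤ atTop ∧ Inst 𝒰 P h A B₀ b₀ Y₀ ∧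
      Exit 𝒰 h A b₀ Y₀ (fun (_ : PUnit) _ => (1 : ℝ)) (fun (_ : PUnit) _ => (1 : ℝ)) ⊥
        b₁ Y₁ R R' 𝓕 a b₀ Y₀ ω ξ ξ' := by
  have key : ∀ j : ℕ, ∃ (h : (Fin n → ℂ) → ℂ) (A : ℝ) (b : V n) (q : ℝ), 0 < q ∧ 0 < A ∧
      Differentiable ℂ h ∧ (∀ z, ‖TT P h z‖ ≤ A * Real.exp (B₀ * ‖z‖)) ∧ 0 < MM h b ∧
      (∀ z, MM h z * Real.exp (-(ft22W ((j : ℝ) + 1) (1 / ((j : ℝ) + 1)) q z)) ≤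
        MM h b * Real.exp (-(ft22W ((j : ℝ) + 1) (1 / ((j : ℝ) + 1)) q b))) ∧
      ((j : ℝ) + 1) ^ 2 ≤ ‖b‖ ∧
      A * Real.exp (ft22W ((j : ℝ) + 1) (1 / ((j : ℝ) + 1)) q b) ≤ MM h b ∧
      ft22W ((j : ℝ) + 1) (1 / ((j : ℝ) + 1)) q b ≤ ‖b‖ ^ 2 / 2 := by
    intro j
    have h0 : (0 : ℝ) ≤ j := j.cast_nonneg
    exact ft22_one P B₀ c hc hcon ((j : ℝ) + 1) (by linarith)
  choose h A b q hq hA hd hT _hM hmax hb hbig hPh using key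
  obtain ⟨𝒰, Y₀, b₁, Y₁, R, R', 𝓕, a, ω, ξ, ξ', h1, h2, h3⟩ :=
    Pool.Agent.H30.FTW.start_pack P hP B₀ h A q b hd hA (fun j => (hq j).le) hT hb hPh hbig hmax
  exact ⟨𝒰, h, A, b, Y₀, b₁, Y₁, R, R', 𝓕, a, ω, ξ, ξ', h1, h2, h3⟩

end Pool.Agent.H43.FT
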