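import Pool.Agent.H43.FT.Defs
import Pool.Agent.H43.FT.StEx
import Pool.Agent.H43.FT.ExSt
import Pool.Agent.H43.FT.Start
import Pool.Agent.H43.FT.EstM

/-!
Project FT, last part: the a priori estimate `Est P` for every polynomial `P` in every number of
variables, by induction on the number of variables and on the dimension of the space of stages.
-/

open MvPolynomial Filter Topology Pool.Agent.H77.FB Pool.Agent.H60.FB Pool.Agent.H77.N2

namespace Pool.Agent.H43.FT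

open scoped InnerProductSpace

variable {n : ℕ}

theorem no_exit (𝒰 : Ultrafilter ℕ) (h𝒰 : (𝒰 : Filter ℕ) ≤ atTop)
    (ih : ∀ k < n, ∀ Q : MvPolynomial (Fin k) ℂ, Est Q)
    (P : MvPolynomial (Fin n) ℂ) (h : ℕ → (Fin n → ℂ) → ℂ) (A : ℕ → ℝ) (B : ℝ)
    (b₀ Y₀ : ℕ → V n) (hI : Inst 𝒰 P h A B b₀ Y₀) (m : ℕ) :
    ∀ {Γ : Type} [AddCommGroup Γ] [Module ℚ Γ] (τ τ' : Γ → ℕ → ℝ)
    (E : Submodule ℂ (V n)) (b₁ Y₁ : ℕ → V n) (R R' : ℕ → ℝ)
    (𝓕 : Subring (Pr n)) (c : Fin n → Pr n) (b Y : ℕ → V n) (ω : V n) (ξ ξ' : ℕ → ℝ),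
    Exit 𝒰 h A b₀ Y₀ τ τ' E b₁ Y₁ R R' 𝓕 c b Y ω ξ ξ' → n ≤ Module.finrank ℂ E + m → False := by
  induction m with
  | zero =>
    intro Γ _ _ τ τ' E b₁ Y₁ R R' 𝓕 c b Y ω ξ ξ' hex hm
    have h1 : Module.finrank ℂ (V n) = n := by simp
    have h2 : E = ⊤ := by
      apply Submodule.eq_top_of_finrank_eq
      have := Submodule.finrank_le E
      omega
    have h3 := hex.hωE
    rw [h2, Submodule.top_orthogonal_eq_bot, Submodule.mem_bot] at h3
    have h4 := hex.hω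
    rw [h3, norm_zero] at h4
    norm_num at h4
  | succ m ihm =>
    intro Γ _ _ τ τ' E b₁ Y₁ R R' 𝓕 c b Y ω ξ ξ' hex hm
    obtain ⟨R₂, R₂', κ, 𝓕₂, a, hst⟩ := exit_stage 𝒰 h𝒰 h A b₀ Y₀ τ τ' E b₁ Y₁ R R' 𝓕 c b Y ω ξ ξ'
      hex
    have hω0 : ω ≠ 0 := by
      intro h0
      have h4 := hex.hω
      rw [h0, norm_zero] at h4
      norm_num at h4
    have hωE : ω ∉ E := by
      intro h5
      have h6 := Submodule.inner_right_of_mem_orthogonal h5 hex.hωE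
      exact hω0 (inner_self_eq_zero.1 h6)
    have hne : E ⊔ ℂ ∙ ω ≠ ⊥ := by
      intro h5
      have : ω ∈ E ⊔ ℂ ∙ ω := Submodule.mem_sup_right (Submodule.mem_span_singleton_self ω)
      rw [h5, Submodule.mem_bot] at this
      exact hω0 this
    have hlt : E < E ⊔ ℂ ∙ ω := by
      refine lt_of_le_of_ne le_sup_left fun h5 => hωE ?_
      rw [h5]
      exact Submodule.mem_sup_right (Submodule.mem_span_singleton_self ω)
    have h7 := Submodule.finrank_lt_finrank_of_lt hlt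
    obtain ⟨_, _, c', b', Y', ω', ζ, ζ', hex'⟩ := stage_exit 𝒰 h𝒰 ih P h A B b₀ Y₀ hI (ext τ ξ)
      (ext τ' ξ') (E ⊔ ℂ ∙ ω) hne b Y R₂ R₂' κ 𝓕₂ a hst
    exact ihm _ _ _ _ _ _ _ _ _ _ _ _ _ _ hex' (by omega)

theorem main_all (ih : ∀ k < n, ∀ Q : MvPolynomial (Fin k) ℂ, Est Q)
    (P : MvPolynomial (Fin n) ℂ) (hP : P ≠ 0) (B₀ c : ℝ) (hc : 0 < c) :
    ∃ B C : ℝ, ∀ (h : (Fin n → ℂ) → ℂ) (A : ℝ),
      Differentiable ℂ h → (∀ z, ‖h z‖ ≤ c * A * Real.exp (Pool.Agent.H60.FB.sq z / 2)) →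
      (∀ z, ‖TT P h z‖ ≤ A * Real.exp (B₀ * ‖z‖)) →
      ∀ z, ‖h z‖ ≤ C * A * Real.exp (B * ‖z‖) := by
  by_contra hcon
  obtain ⟨𝒰, h, A, b₀, Y₀, b₁, Y₁, R, R', 𝓕, a, ω, ξ, ξ', h𝒰, hI, hex⟩ := start P hP B₀ c hc hcon
  exact no_exit 𝒰 h𝒰 ih P h A B₀ b₀ Y₀ hI n _ _ _ _ _ _ _ _ _ _ _ _ _ _ hex (by omega)

theorem est_all (n : ℕ) : ∀ P : MvPolynomial (Fin n) ℂ, Est P := by
  induction n using Nat.strong_induction_on with
  | _ n ih =>
    intro P
    by_cases hP : P = 0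
    · rw [hP]
      exact Pool.Agent.H5.LF.est_zero'
    · have hstar : star' P ≠ 0 := by
        intro h0
        apply hP
        rw [← Pool.Agent.H77.N2.star_star P, h0]
        refine MvPolynomial.funext fun z => ?_
        rw [eval_star']
        simp
      exact est_of_main P hP fun B₀ c hc => main_all ih (star' P) hstar B₀ c hc

theorem surj_all {n : ℕ} (P : MvPolynomial (Fin n) ℂ) : PhiSurjective P := by
  by_cases hP : P = 0
  · rw [hP]
    exact phiSurj_zero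
  · have hstar : star' P ≠ 0 := by
      intro h0
      apply hP
      rw [← Pool.Agent.H77.N2.star_star P, h0]
      refine MvPolynomial.funext fun z => ?_
      rw [eval_star']
      simp
    exact surj_of_main P hP fun B₀ c hc => main_all (fun k _ => est_all k) (star' P) hstar B₀ c hc

end Pool.Agent.H43.FT
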