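import Pool.Agent.H5.LF.Main

/-!
Surjectivity of `Φ_P` for every `n` and every `P` (MP_6e521b_an): definitions.
All objects are sequences along an ultrafilter on `ℕ`.
-/

set_option autoImplicit false

open MvPolynomial Filter Topology Pool.Agent.H77.FB Pool.Agent.H60.FB Pool.Agent.H77.N2

namespace Pool.Agent.H43.FT

open scoped InnerProductSpace

/-- The euclidean space. -/
abbrev V (n : ℕ) := EuclideanSpace ℂ (Fin n)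

/-- `x` is infinitely small with respect to `y` (for nonnegative sequences). -/
def LL (𝒰 : Ultrafilter ℕ) (x y : ℕ → ℝ) : Prop :=
  ∀ m : ℝ, 0 < m → ∀ᶠ j in (𝒰 : Filter ℕ), m * x j ≤ y j

/-! ### Pairs of sequences of functions -/

/-- A pair of sequences of functions: the first one for positions, the second one for conjugate
frequencies. -/
abbrev Pr (n : ℕ) := (ℕ → V n → ℂ) × (ℕ → V n → ℂ)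

variable {n : ℕ}

/-- The constants. -/
def cst (c : ℂ) : Pr n := (fun _ _ => c, fun _ _ => c)

/-- The pair of sequences of constants `c x`, `c x'`. -/
noncomputable def sc (c : ℂ) (x x' : ℕ → ℝ) : Pr n :=
  (fun j _ => c * (x j : ℂ), fun j _ => c * (x' j : ℂ))

/-- The domains. -/
structure Dm (n : ℕ) where
  /-- the domain of the positions -/
  C : ℕ → Set (V n)
  /-- the domain of the frequencies -/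
  C' : ℕ → Set (V n)
  /-- the projection on the leaf directions -/
  pr : V n → V n

/-- Uniform bounds on the domains. -/
def Le (𝒰 : Ultrafilter ℕ) (D : Dm n) (s : Pr n) (x x' : ℕ → ℝ) : Prop :=
  ∀ᶠ j in (𝒰 : Filter ℕ), (∀ z ∈ D.C j, ‖s.1 j z‖ ≤ x j) ∧ ∀ z ∈ D.C' j, ‖s.2 j z‖ ≤ x' j

/-- `s = o(x)` on the positions and `s = o(x')` on the frequencies. -/
def Sm (𝒰 : Ultrafilter ℕ) (D : Dm n) (s : Pr n) (x x' : ℕ → ℝ) : Prop :=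
  ∀ ε : ℝ, 0 < ε → Le 𝒰 D s (fun j => ε * x j) (fun j => ε * x' j)

/-- `s` is zero on the domains. -/
def Nul (𝒰 : Ultrafilter ℕ) (D : Dm n) (s : Pr n) : Prop :=
  ∀ᶠ j in (𝒰 : Filter ℕ), (∀ z ∈ D.C j, s.1 j z = 0) ∧ ∀ z ∈ D.C' j, s.2 j z = 0

/-- `s` is holomorphic on the domains, and a function of the projection. -/
def Hol (𝒰 : Ultrafilter ℕ) (D : Dm n) (s : Pr n) : Prop :=
  ∀ᶠ j in (𝒰 : Filter ℕ), (DifferentiableOn ℂ (s.1 j) (D.C j) ∧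
    ∀ z ∈ D.C j, s.1 j (D.pr z) = s.1 j z) ∧
    (DifferentiableOn ℂ (s.2 j) (D.C' j) ∧ ∀ z ∈ D.C' j, s.2 j (D.pr z) = s.2 j z)

/-- The leading term of `s` is `c` times the scale `(x, x')`. -/
def LT (𝒰 : Ultrafilter ℕ) (D : Dm n) (s : Pr n) (c : ℂ) (x x' : ℕ → ℝ) : Prop :=
  Sm 𝒰 D (s - sc c x x') x x'

/-- Reasonable domains. -/
structure DmOK (𝒰 : Ultrafilter ℕ) (D : Dm n) : Prop where
  op : ∀ j, IsOpen (D.C j)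
  op' : ∀ j, IsOpen (D.C' j)
  ne : ∀ᶠ j in (𝒰 : Filter ℕ), (D.C j).Nonempty ∧ (D.C' j).Nonempty
  maps : ∀ j, ∀ z ∈ D.C j, D.pr z ∈ D.C j
  maps' : ∀ j, ∀ z ∈ D.C' j, D.pr z ∈ D.C' j

/-! ### Scales -/

/-- A `ℚ`-vector space of scales. -/
structure Scl (𝒰 : Ultrafilter ℕ) {Γ : Type} [AddCommGroup Γ] [Module ℚ Γ]
    (τ τ' : Γ → ℕ → ℝ) : Prop where
  pos : ∀ g j, 0 < τ g j
  pos' : ∀ g j, 0 < τ' g j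
  add : ∀ g h j, τ (g + h) j = τ g j * τ h j
  add' : ∀ g h j, τ' (g + h) j = τ' g j * τ' h j
  dich : ∀ g, g ≠ 0 → (Tendsto (τ g) 𝒰 atTop ∧ Tendsto (τ' g) 𝒰 atTop) ∨
    (Tendsto (τ (-g)) 𝒰 atTop ∧ Tendsto (τ' (-g)) 𝒰 atTop)
  le : ∀ g, Tendsto (τ g) 𝒰 atTop → ∀ ε : ℝ, 0 < ε →
    ∀ᶠ j in (𝒰 : Filter ℕ), τ' g j ≤ (1 + ε) * τ g j

/-- The scales extended by `ξ`. -/
noncomputable def ext {Γ : Type} (τ : Γ → ℕ → ℝ) (ξ : ℕ → ℝ) (g : Γ × ℚ) (j : ℕ) : ℝ :=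
  τ g.1 j * ξ j ^ (g.2 : ℝ)

/-- Good pairs: zero, or with a leading term. -/
def Good (𝒰 : Ultrafilter ℕ) (D : Dm n) {Γ : Type} (τ τ' : Γ → ℕ → ℝ) (s : Pr n) : Prop :=
  Hol 𝒰 D s ∧ (Nul 𝒰 D s ∨ ∃ c : ℂ, c ≠ 0 ∧ ∃ g, LT 𝒰 D s c (τ g) (τ' g))

/-- A ring of good pairs. -/
structure GoodRing (𝒰 : Ultrafilter ℕ) (D : Dm n) {Γ : Type} (τ τ' : Γ → ℕ → ℝ)
    (𝓕 : Subring (Pr n)) : Prop where
  good : ∀ s ∈ 𝓕, Good 𝒰 D τ τ' s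
  cst : ∀ c, cst c ∈ 𝓕
  mono : ∀ g, ∃ t ∈ 𝓕, LT 𝒰 D t 1 (τ g) (τ' g)

/-- Spherical completeness. -/
def Sph (𝒰 : Ultrafilter ℕ) (D : Dm n) {Γ : Type} (τ τ' : Γ → ℕ → ℝ)
    (𝓕 : Subring (Pr n)) : Prop :=
  ∀ (a : ℕ → Pr n) (g : ℕ → Γ), (∀ i, a i ∈ 𝓕) →
    (∀ i, (a (i + 1) = a i ∧ g (i + 1) = g i) ∨ (LL 𝒰 (τ (g (i + 1))) (τ (g i)) ∧
      Sm 𝒰 D (a (i + 1) - a i) (τ (g i)) (τ' (g i)))) →
    ∃ b ∈ 𝓕, ∀ i, Sm 𝒰 D (b - a i) (τ (g i)) (τ' (g i))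

/-! ### Profiles -/

/-- Profiles adapted to the scales. -/
structure Prof (𝒰 : Ultrafilter ℕ) {Γ : Type} (τ τ' : Γ → ℕ → ℝ) (κ : ℕ → ℝ → ℝ) : Prop where
  pos : ∀ j R, 0 < κ j R
  le1 : ∀ j R, κ j R ≤ 1
  anti : ∀ j R T, 0 ≤ R → R ≤ T → κ j T ≤ κ j R
  mono : ∀ j R T, 0 ≤ R → R ≤ T → R * κ j R ≤ T * κ j T
  one : ∀ C : ℝ, ∀ᶠ j in (𝒰 : Filter ℕ), κ j C = 1
  win : ∀ g, Tendsto (τ g) 𝒰 atTop → ∀ c : ℝ, 0 < c →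
    Tendsto (fun j => κ j (c * τ g j) * τ g j / τ' g j) 𝒰 (𝓝 1)

/-- The radial function. -/
noncomputable def FF (κ : ℝ → ℝ) (R : ℝ) : ℝ := ∫ r in (0 : ℝ)..R, r * κ r

/-! ### Contacts -/

/-- The modulus of `h` on the euclidean space. -/
noncomputable def MM (h : (Fin n → ℂ) → ℂ) (z : V n) : ℝ := ‖h (WithLp.ofLp z)‖

/-- `M` is touched at `b` by a paraboloid with conjugate frequency `Y`, in the ball of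
radius `r`. -/
def Touch (M : V n → ℝ) (b Y : V n) (H r : ℝ) : Prop :=
  ∀ z, ‖z - b‖ ≤ r → M z ≤ M b * Real.exp ((⟪Y, z - b⟫_ℂ).re + H / 2 * ‖z - b‖ ^ 2)

/-- A touched sequence, for the profile `κ` at the scale `ρ`. -/
def TouchS (𝒰 : Ultrafilter ℕ) (h : ℕ → (Fin n → ℂ) → ℂ) (b Y : ℕ → V n) (κ : ℕ → ℝ → ℝ)
    (ρ : ℕ → ℝ) : Prop :=
  ∀ ε : ℝ, 0 < ε → ∀ᶠ j in (𝒰 : Filter ℕ),
    Touch (MM (h j)) (b j) (Y j) ((1 + ε) * κ j (ρ j)) (ρ j)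

/-- The counterexample sequence. -/
structure Inst (𝒰 : Ultrafilter ℕ) (P : MvPolynomial (Fin n) ℂ) (h : ℕ → (Fin n → ℂ) → ℂ)
    (A : ℕ → ℝ) (B : ℝ) (b₀ Y₀ : ℕ → V n) : Prop where
  hP : P ≠ 0
  diff : ∀ j, Differentiable ℂ (h j)
  apos : ∀ j, 0 < A j
  tt : ∀ j z, ‖TT P (h j) z‖ ≤ A j * Real.exp (B * ‖z‖)
  hb : Tendsto (fun j => ‖b₀ j‖) 𝒰 atTop
  hY : Tendsto (fun j => ‖Y₀ j‖) 𝒰 atTop

/-- The contacts `(b, Y)` which are near the first contact, with the lower bound. -/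
structure Cont (𝒰 : Ultrafilter ℕ) (h : ℕ → (Fin n → ℂ) → ℂ) (A : ℕ → ℝ) (b₀ Y₀ : ℕ → V n)
    (b Y : ℕ → V n) : Prop where
  nb : LL 𝒰 (fun j => ‖b j - b₀ j‖) (fun j => ‖b₀ j‖)
  nY : LL 𝒰 (fun j => ‖Y j - Y₀ j‖) (fun j => ‖Y₀ j‖)
  big : ∀ ε : ℝ, 0 < ε → ∀ᶠ j in (𝒰 : Filter ℕ),
    A j * Real.exp ((1 / 4 - ε) * (‖b₀ j‖ * ‖Y₀ j‖)) ≤ MM (h j) (b j)

/-! ### Stages -/

/-- The domains of a stage. -/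
noncomputable def stDm (E : Submodule ℂ (V n)) (b Y : ℕ → V n) (R R' : ℕ → ℝ) : Dm n where
  C := fun j => {z | ‖E.starProjection (z - b j)‖ < R j}
  C' := fun j => {z | ‖E.starProjection (z - Y j)‖ < R' j}
  pr := fun z => E.starProjection z

/-- The position of the centre. -/
noncomputable def pt (a : Fin n → Pr n) (j : ℕ) (z : V n) : V n :=
  WithLp.toLp 2 (fun i => (a i).1 j z)

/-- The frequency of the centre. -/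
noncomputable def fr (a : Fin n → Pr n) (j : ℕ) (z : V n) : V n :=
  WithLp.toLp 2 (fun i => (a i).2 j z)

/-- `a` is a centre over `E` with components in `𝓕`. -/
structure IsCen (𝒰 : Ultrafilter ℕ) (D : Dm n) (𝓕 : Subring (Pr n)) (a : Fin n → Pr n) :
    Prop where
  mem : ∀ i, a i ∈ 𝓕
  proj : ∀ᶠ j in (𝒰 : Filter ℕ), (∀ z ∈ D.C j, D.pr (pt a j z) = D.pr z) ∧
    ∀ z ∈ D.C' j, D.pr (fr a j z) = D.pr z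

/-- The slopes of the leaf of `a` tend to zero. -/
def Slp (𝒰 : Ultrafilter ℕ) (D : Dm n) (a : Fin n → Pr n) : Prop :=
  ∀ ε : ℝ, 0 < ε → ∀ᶠ j in (𝒰 : Filter ℕ),
    (∀ z ∈ D.C j, ∀ w ∈ D.C j, ‖(pt a j z - pt a j w) - (D.pr z - D.pr w)‖
      ≤ ε * ‖D.pr z - D.pr w‖) ∧
    ∀ z ∈ D.C' j, ∀ w ∈ D.C' j, ‖(fr a j z - fr a j w) - (D.pr z - D.pr w)‖
      ≤ ε * ‖D.pr z - D.pr w‖

/-- A stage with leaf space `E`. -/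
structure Stage (𝒰 : Ultrafilter ℕ) (h : ℕ → (Fin n → ℂ) → ℂ)
    (A : ℕ → ℝ) (b₀ Y₀ : ℕ → V n) {Γ : Type} [AddCommGroup Γ] [Module ℚ Γ]
    (τ τ' : Γ → ℕ → ℝ) (E : Submodule ℂ (V n)) (b Y : ℕ → V n) (R R' : ℕ → ℝ)
    (κ : ℕ → ℝ → ℝ) (𝓕 : Subring (Pr n)) (a : Fin n → Pr n) : Prop where
  cnt : Countable Γ
  scl : Scl 𝒰 τ τ'
  prof : Prof 𝒰 τ τ' κ
  hR : Tendsto R 𝒰 atTop
  hR' : Tendsto R' 𝒰 atTop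
  hR0 : ∀ j, 0 < R j ∧ 0 < R' j
  leR : ∀ᶠ j in (𝒰 : Filter ℕ), R j ≤ ‖b₀ j‖ ∧ R' j ≤ ‖Y₀ j‖
  winR : ∀ m : ℝ, 0 < m → Tendsto (fun j => κ j (R j / m) * R j / R' j) 𝒰 (𝓝 1)
  ring : GoodRing 𝒰 (stDm E b Y R R') τ τ' 𝓕
  sph : Sph 𝒰 (stDm E b Y R R') τ τ' 𝓕
  cen : IsCen 𝒰 (stDm E b Y R R') 𝓕 a
  slp : Slp 𝒰 (stDm E b Y R R') a
  con : Cont 𝒰 h A b₀ Y₀ b Y
  tch : TouchS 𝒰 h b Y κ R
  hu : LL 𝒰 (fun j => ‖b j - pt a j (b j)‖) R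
  hU : LL 𝒰 (fun j => ‖Y j - fr a j (Y j)‖) R'

/-- The exit data of a stage with leaf space `E`, in the direction `ω`. The contact is
`(b, Y)`. -/
structure Exit (𝒰 : Ultrafilter ℕ) (h : ℕ → (Fin n → ℂ) → ℂ)
    (A : ℕ → ℝ) (b₀ Y₀ : ℕ → V n) {Γ : Type} [AddCommGroup Γ] [Module ℚ Γ]
    (τ τ' : Γ → ℕ → ℝ) (E : Submodule ℂ (V n)) (b₁ Y₁ : ℕ → V n) (R R' : ℕ → ℝ)
    (𝓕 : Subring (Pr n)) (a : Fin n → Pr n) (b Y : ℕ → V n) (ω : V n) (ξ ξ' : ℕ → ℝ) :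
    Prop where
  cnt : Countable Γ
  ring : GoodRing 𝒰 (stDm E b₁ Y₁ R R') τ τ' 𝓕
  cen : IsCen 𝒰 (stDm E b₁ Y₁ R R') 𝓕 a
  slp : Slp 𝒰 (stDm E b₁ Y₁ R R') a
  con : Cont 𝒰 h A b₀ Y₀ b Y
  inb : LL 𝒰 (fun j => ‖E.starProjection (b j - b₁ j)‖) R
  inY : LL 𝒰 (fun j => ‖E.starProjection (Y j - Y₁ j)‖) R'
  hω : ‖ω‖ = 1
  hωE : ω ∈ Eᗮ
  hξ0 : ∀ j, 0 < ξ j ∧ 0 < ξ' j
  hξ : Tendsto ξ 𝒰 atTop
  hξ' : Tendsto ξ' 𝒰 atTop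
  ξR : LL 𝒰 ξ R
  ξR' : ∀ᶠ j in (𝒰 : Filter ℕ), ξ' j ≤ R' j
  leb : ∀ᶠ j in (𝒰 : Filter ℕ), ξ j ≤ 2 * ‖b₀ j‖ ∧ ξ' j ≤ 2 * ‖Y₀ j‖
  scl : Scl 𝒰 (ext τ ξ) (ext τ' ξ')
  hu : LL 𝒰 (fun j => ‖b j - pt a j (b j) - (ξ j : ℂ) • ω‖) ξ
  hU : LL 𝒰 (fun j => ‖Y j - fr a j (Y j) - (ξ' j : ℂ) • ω‖) ξ'
  tch : ∀ ε : ℝ, 0 < ε → ∃ c : ℝ, 0 < c ∧ ∀ᶠ j in (𝒰 : Filter ℕ),
    Touch (MM (h j)) (b j) (Y j) ((1 + ε) * (ξ' j / ξ j)) (c * ξ j)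

/-- The balls (centre `c`, scale `g`) attained by the contact `(b, Y)` in a stage. -/
structure Att (𝒰 : Ultrafilter ℕ) (h : ℕ → (Fin n → ℂ) → ℂ)
    (A : ℕ → ℝ) (b₀ Y₀ : ℕ → V n) {Γ : Type}
    (τ τ' : Γ → ℕ → ℝ) (E : Submodule ℂ (V n)) (b₁ Y₁ : ℕ → V n) (R R' : ℕ → ℝ)
    (κ : ℕ → ℝ → ℝ) (𝓕 : Subring (Pr n)) (a : Fin n → Pr n) (c : Fin n → Pr n) (g : Γ)
    (b Y : ℕ → V n) : Prop where
  cen : IsCen 𝒰 (stDm E b₁ Y₁ R R') 𝓕 c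
  near : ∀ i, Sm 𝒰 (stDm E b₁ Y₁ R R') (c i - a i) R R'
  hg : Tendsto (τ g) 𝒰 atTop
  gR : LL 𝒰 (τ g) R
  con : Cont 𝒰 h A b₀ Y₀ b Y
  inb : LL 𝒰 (fun j => ‖E.starProjection (b j - b₁ j)‖) R
  inY : LL 𝒰 (fun j => ‖E.starProjection (Y j - Y₁ j)‖) R'
  tch : TouchS 𝒰 h b Y κ (τ g)
  hu : LL 𝒰 (fun j => ‖b j - pt c j (b j)‖) (τ g)
  hU : LL 𝒰 (fun j => ‖Y j - fr c j (Y j)‖) (τ' g)

/-- The component of `z - a(z)` in the direction `ω`. -/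
noncomputable def uu (a : Fin n → Pr n) (ω : V n) : Pr n :=
  (fun j z => ⟪ω, z - pt a j z⟫_ℂ, fun j z => ⟪ω, z - fr a j z⟫_ℂ)

/-- The new centre. -/
noncomputable def newc (a : Fin n → Pr n) (ω : V n) (i : Fin n) : Pr n :=
  a i + uu a ω * cst (ω i)

/-! ### Abstract rings with leading terms -/

/-- Abstract rings with leading terms. `𝔪` is the set of the infinitesimal elements, `e g` the
scale `g`, `k c` the constant `c`. -/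
structure LTR (𝒪 : Type) [CommRing 𝒪] (Γ : Type) [AddCommGroup Γ] [LinearOrder Γ]
    [IsOrderedAddMonoid Γ] (𝔪 : Set 𝒪) (e : Γ → 𝒪) (k : ℂ →+* 𝒪) : Prop where
  e_add : ∀ g h, e (g + h) = e g * e h
  e_zero : e 0 = 1
  zero : (0 : 𝒪) ∈ 𝔪
  add : ∀ a ∈ 𝔪, ∀ b ∈ 𝔪, a + b ∈ 𝔪
  neg : ∀ a ∈ 𝔪, -a ∈ 𝔪
  mul : ∀ a ∈ 𝔪, ∀ b ∈ 𝔪, a * b ∈ 𝔪
  smul : ∀ c, ∀ a ∈ 𝔪, k c * a ∈ 𝔪
  e_neg : ∀ g, g < 0 → e g ∈ 𝔪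
  inv : ∀ a ∈ 𝔪, ∃ b ∈ 𝔪, (1 + a) * (1 + b) = 1
  k_mem : ∀ c, k c ∈ 𝔪 → c = 0
  newton : ∀ (d : ℕ) (ρ : ℕ → 𝒪), (∀ i, ρ i ∈ 𝔪) →
    ∃ w ∈ 𝔪, w + ρ 0 + ∑ i ∈ Finset.range d, ρ (i + 1) * w ^ (i + 2) = 0
  sat : ∀ (a : ℕ → 𝒪) (g : ℕ → Γ), StrictAnti g → (∀ i, (a (i + 1) - a i) * e (-g i) ∈ 𝔪) →
    ∃ s, ∀ i, (s - a i) * e (-g i) ∈ 𝔪

/-- Zero, or with a leading term. -/
def Gd {𝒪 : Type} [CommRing 𝒪] {Γ : Type} [AddCommGroup Γ] (𝔪 : Set 𝒪) (e : Γ → 𝒪)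
    (k : ℂ →+* 𝒪) (a : 𝒪) : Prop :=
  a = 0 ∨ ∃ c : ℂ, c ≠ 0 ∧ ∃ g, a * e (-g) - k c ∈ 𝔪

end Pool.Agent.H43.FT
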