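import Pool.Agent.H43.FT.Defs

/-!
# Project FT (MP_6e521b), row FT-2: the radial function
-/

set_option autoImplicit false

open MvPolynomial Filter Topology

namespace Pool.Agent.H43.FT

section Rad

theorem ft2_int (κ : ℝ → ℝ) (hmono : ∀ R T, 0 ≤ R → R ≤ T → R * κ R ≤ T * κ T) (a b : ℝ)
    (ha : 0 ≤ a) (hb : 0 ≤ b) :
    IntervalIntegrable (fun r => r * κ r) MeasureTheory.volume a b := by
  refine MonotoneOn.intervalIntegrable fun x hx y _ hxy => ?_
  refine hmono x y ?_ hxy
  exact (le_min ha hb).trans hx.1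

theorem ft2_sub (κ : ℝ → ℝ) (hmono : ∀ R T, 0 ≤ R → R ≤ T → R * κ R ≤ T * κ T) (a b : ℝ)
    (ha : 0 ≤ a) (hb : 0 ≤ b) :
    FF κ b - FF κ a = ∫ r in a..b, r * κ r := by
  unfold FF
  exact intervalIntegral.integral_interval_sub_left (ft2_int κ hmono 0 b le_rfl hb)
    (ft2_int κ hmono 0 a le_rfl ha)

theorem ft2_const (c a b : ℝ) : ∫ r in a..b, r * c = c / 2 * (b ^ 2 - a ^ 2) := by
  rw [intervalIntegral.integral_mul_const, integral_id]
  ring

end Rad

theorem FF_props (κ : ℝ → ℝ) (hpos : ∀ R, 0 < κ R)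
    (hanti : ∀ R T, 0 ≤ R → R ≤ T → κ T ≤ κ R)
    (hmono : ∀ R T, 0 ≤ R → R ≤ T → R * κ R ≤ T * κ T) :
    FF κ 0 = 0 ∧ ContinuousOn (FF κ) (Set.Ici 0) ∧
    (∀ R T, 0 ≤ R → 0 ≤ T → FF κ T ≤ FF κ R + κ R / 2 * (T ^ 2 - R ^ 2)) ∧
    ∀ R, 0 ≤ R → FF κ R ≤ R ^ 2 * κ R := by
  have _h0 := hpos
  refine ⟨by simp [FF], ?_, ?_, ?_⟩
  · intro R hR
    have hR0 : (0 : ℝ) ≤ R := hR
    have h1 : ContinuousOn (FF κ) (Set.uIcc 0 (R + 1)) :=
      intervalIntegral.continuousOn_primitive_interval'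
        (ft2_int κ hmono 0 (R + 1) le_rfl (by linarith)) Set.left_mem_uIcc
    have h2 : R ∈ Set.uIcc 0 (R + 1) := by
      rw [Set.uIcc_of_le (by linarith)]
      exact ⟨hR0, by linarith⟩
    refine (h1 R h2).mono_of_mem_nhdsWithin ?_
    rw [Set.uIcc_of_le (by linarith)]
    refine mem_nhdsWithin.mpr ⟨Set.Iio (R + 1), isOpen_Iio, by simp, ?_⟩
    rintro x ⟨hx1, hx2⟩
    exact ⟨hx2, le_of_lt hx1⟩
  · intro R T hR hT
    have hs := ft2_sub κ hmono R T hR hT
    have hc := ft2_const (κ R) R T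
    rcases le_total R T with h | h
    · have h1 : ∫ r in R..T, r * κ r ≤ ∫ r in R..T, r * κ R := by
        refine intervalIntegral.integral_mono_on h (ft2_int κ hmono R T hR hT)
          ((continuous_id.mul continuous_const).intervalIntegrable _ _) fun x hx => ?_
        exact mul_le_mul_of_nonneg_left (hanti R x hR hx.1) (hR.trans hx.1)
      linarith
    · have h1 : ∫ r in T..R, r * κ R ≤ ∫ r in T..R, r * κ r := by
        refine intervalIntegral.integral_mono_on h
          ((continuous_id.mul continuous_const).intervalIntegrable _ _)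
          (ft2_int κ hmono T R hT hR) fun x hx => ?_
        exact mul_le_mul_of_nonneg_left (hanti x R (hT.trans hx.1) hx.2) (hT.trans hx.1)
      have h2 := intervalIntegral.integral_symm (μ := MeasureTheory.volume)
        (f := fun r => r * κ r) R T
      have h3 := ft2_const (κ R) T R
      linarith
  · intro R hR
    have h1 : ∫ r in (0 : ℝ)..R, r * κ r ≤ ∫ r in (0 : ℝ)..R, R * κ R := by
      refine intervalIntegral.integral_mono_on hR (ft2_int κ hmono 0 R le_rfl hR)
        (continuous_const.intervalIntegrable _ _) fun x hx => ?_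
      exact hmono x R hx.1 hx.2
    rw [intervalIntegral.integral_const, smul_eq_mul] at h1
    unfold FF
    linarith

end Pool.Agent.H43.FT
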