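import Pool.Agent.H43.FT.Sat

/-!
First contact: the maximum of `|h| exp(-Φ)`.
-/

set_option autoImplicit false

open MvPolynomial Filter Topology Pool.Agent.H77.FB Pool.Agent.H60.FB Pool.Agent.H77.N2

namespace Pool.Agent.H43.FT

open scoped InnerProductSpace

variable {n : ℕ}

/-- The radial weight. -/
noncomputable def ft22W (B γ q : ℝ) (z : V n) : ℝ := B * ‖z‖ + q * ‖z‖ ^ (2 + 2 * γ)

lemma ft22_sq (z : V n) : Pool.Agent.H60.FB.sq (WithLp.ofLp z) = ‖z‖ ^ 2 := by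
  rw [EuclideanSpace.norm_sq_eq]
  rfl

lemma ft22_norm (z : Fin n → ℂ) : ‖(WithLp.toLp 2 z : V n)‖ ≤ (n + 1) * ‖z‖ := by
  have h0 : ‖(WithLp.toLp 2 z : V n)‖ ^ 2 ≤ ((n + 1) * ‖z‖) ^ 2 := by
    rw [EuclideanSpace.norm_sq_eq]
    have h1 : ∑ i, ‖(WithLp.toLp 2 z : V n) i‖ ^ 2 ≤ ∑ _i : Fin n, ‖z‖ ^ 2 := by
      refine Finset.sum_le_sum fun i _ => ?_
      exact pow_le_pow_left₀ (norm_nonneg _) (norm_le_pi_norm z i) 2
    refine h1.trans ?_
    rw [Finset.sum_const, Finset.card_univ, Fintype.card_fin, nsmul_eq_mul, mul_pow]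
    have h2 : (n : ℝ) ≤ (n + 1) ^ 2 := by
      have : (0 : ℝ) ≤ n := n.cast_nonneg
      nlinarith
    exact mul_le_mul_of_nonneg_right h2 (by positivity)
  exact le_of_sq_le_sq h0 (by positivity)

lemma ft22_max (B γ q c a : ℝ) (hB : 0 ≤ B) (hγ : 0 < γ) (hq : 0 < q)
    (h : (Fin n → ℂ) → ℂ) (hd : Differentiable ℂ h)
    (hh : ∀ z, ‖h z‖ ≤ c * a * Real.exp (Pool.Agent.H60.FB.sq z / 2)) (z₀ : V n)
    (hz₀ : 0 < MM h z₀) :
    ∃ b : V n, ∀ z : V n, MM h z * Real.exp (-(ft22W B γ q z)) ≤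
      MM h b * Real.exp (-(ft22W B γ q b)) := by
  have hcont : Continuous (fun z : V n => MM h z * Real.exp (-(ft22W B γ q z))) := by
    unfold MM ft22W
    have h1 : Continuous (fun z : V n => h (WithLp.ofLp z)) :=
      hd.continuous.comp (PiLp.continuous_ofLp 2 _)
    have h2 : Continuous (fun z : V n => ‖z‖ ^ (2 + 2 * γ)) :=
      continuous_norm.rpow_const fun x => Or.inr (by positivity)
    exact h1.norm.mul (Real.continuous_exp.comp
      ((continuous_const.mul continuous_norm).add (continuous_const.mul h2)).neg)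
  refine hcont.exists_forall_ge' z₀ ?_
  set s := MM h z₀ * Real.exp (-(ft22W B γ q z₀)) with hs
  have hs0 : 0 < s := mul_pos hz₀ (Real.exp_pos _)
  have h1 : Tendsto (fun x : ℝ => x ^ (2 * γ)) atTop atTop := tendsto_rpow_atTop (by positivity)
  have h2 : ∀ᶠ x : ℝ in atTop, 1 / q ≤ x ^ (2 * γ) := h1.eventually_ge_atTop _
  have h3 : Tendsto (fun x : ℝ => c * a * Real.exp (-x)) atTop (𝓝 0) := by
    simpa using (Real.tendsto_exp_neg_atTop_nhds_zero).const_mul (c * a)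
  have h4 : ∀ᶠ x : ℝ in atTop, c * a * Real.exp (-x) < s := h3.eventually_lt_const hs0
  have hca : 0 ≤ c * a := by
    have h5 := (norm_nonneg _).trans (hh 0)
    exact nonneg_of_mul_nonneg_left h5 (Real.exp_pos _)
  filter_upwards [(tendsto_norm_cocompact_atTop (E := V n)).eventually
    (h2.and (h4.and (eventually_ge_atTop 2)))] with z hz
  obtain ⟨hz1, hz2, hz3⟩ := hz
  refine le_trans ?_ hz2.le
  have h5 : MM h z ≤ c * a * Real.exp (‖z‖ ^ 2 / 2) := by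
    have h6 := hh (WithLp.ofLp z)
    rw [ft22_sq] at h6
    exact h6
  calc MM h z * Real.exp (-(ft22W B γ q z))
      ≤ c * a * Real.exp (‖z‖ ^ 2 / 2) * Real.exp (-(ft22W B γ q z)) :=
        mul_le_mul_of_nonneg_right h5 (Real.exp_pos _).le
    _ = c * a * Real.exp (‖z‖ ^ 2 / 2 + -(ft22W B γ q z)) := by rw [mul_assoc, ← Real.exp_add]
    _ ≤ c * a * Real.exp (-‖z‖) := by
        refine mul_le_mul_of_nonneg_left (Real.exp_le_exp.2 ?_) hca
        have h7 : ‖z‖ ^ (2 + 2 * γ) = ‖z‖ ^ 2 * ‖z‖ ^ (2 * γ) := by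
          rw [Real.rpow_add (by linarith)]
          norm_num
        have h8 : 1 ≤ q * ‖z‖ ^ (2 * γ) := by
          rw [div_le_iff₀ hq] at hz1
          linarith
        have h9 : 0 ≤ B * ‖z‖ := mul_nonneg hB (norm_nonneg _)
        unfold ft22W
        rw [h7]
        have h10 : q * (‖z‖ ^ 2 * ‖z‖ ^ (2 * γ)) = ‖z‖ ^ 2 * (q * ‖z‖ ^ (2 * γ)) := by ring
        rw [h10]
        have h11 : ‖z‖ ^ 2 * 1 ≤ ‖z‖ ^ 2 * (q * ‖z‖ ^ (2 * γ)) :=
          mul_le_mul_of_nonneg_left h8 (by positivity)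
        nlinarith

/-- One term of the sequence. -/
lemma ft22_one (P : MvPolynomial (Fin n) ℂ) (B₀ c : ℝ) (hc : 0 < c)
    (hcon : ¬ ∃ B C : ℝ, ∀ (h : (Fin n → ℂ) → ℂ) (A : ℝ),
      Differentiable ℂ h → (∀ z, ‖h z‖ ≤ c * A * Real.exp (Pool.Agent.H60.FB.sq z / 2)) →
      (∀ z, ‖TT P h z‖ ≤ A * Real.exp (B₀ * ‖z‖)) →
      ∀ z, ‖h z‖ ≤ C * A * Real.exp (B * ‖z‖)) (B : ℝ) (hB : 1 ≤ B) :
    ∃ (h : (Fin n → ℂ) → ℂ) (A : ℝ) (b : V n) (q : ℝ), 0 < q ∧ 0 < A ∧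
      Differentiable ℂ h ∧ (∀ z, ‖TT P h z‖ ≤ A * Real.exp (B₀ * ‖z‖)) ∧ 0 < MM h b ∧
      (∀ z, MM h z * Real.exp (-(ft22W B (1 / B) q z)) ≤
        MM h b * Real.exp (-(ft22W B (1 / B) q b))) ∧
      B ^ 2 ≤ ‖b‖ ∧ A * Real.exp (ft22W B (1 / B) q b) ≤ MM h b ∧
      ft22W B (1 / B) q b ≤ ‖b‖ ^ 2 / 2 := by
  set γ := 1 / B with hγ
  have hγ0 : 0 < γ := by positivity
  set D : ℝ := max 1 c * Real.exp (B ^ 4 / 2) with hD
  have hD1 : 1 ≤ D := by
    rw [hD]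
    have h1 : (1 : ℝ) ≤ max 1 c := le_max_left _ _
    have h2 : 1 ≤ Real.exp (B ^ 4 / 2) := Real.one_le_exp (by positivity)
    nlinarith
  have hDc : c * Real.exp (B ^ 4 / 2) ≤ D := by
    rw [hD]
    exact mul_le_mul_of_nonneg_right (le_max_right _ _) (Real.exp_pos _).le
  push Not at hcon
  obtain ⟨h, A, hd, hh, hT, z₁, hz₁⟩ := hcon (B * (n + 1)) (D * Real.exp 1)
  have hA : 0 ≤ A := by
    have h1 := (norm_nonneg _).trans (hT 0)
    exact nonneg_of_mul_nonneg_left h1 (Real.exp_pos _)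
  have hA' : 0 < A := by
    rcases hA.eq_or_lt with h0 | h0
    · exfalso
      have h1 := hh z₁
      rw [← h0] at hz₁ h1
      simp only [mul_zero, zero_mul] at hz₁ h1
      linarith
    · exact h0
  set z₀ : V n := WithLp.toLp 2 z₁ with hz₀
  have hz₀' : ‖z₀‖ ≤ (n + 1) * ‖z₁‖ := ft22_norm z₁
  have hz₂ : D * Real.exp 1 * A * Real.exp (B * ‖z₀‖) < MM h z₀ := by
    refine lt_of_le_of_lt ?_ hz₁
    have h1 : 0 ≤ D * Real.exp 1 * A := by positivity
    refine mul_le_mul_of_nonneg_left (Real.exp_le_exp.2 ?_) h1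
    rw [mul_assoc]
    exact mul_le_mul_of_nonneg_left hz₀' (by linarith)
  have hM0 : 0 < MM h z₀ := lt_of_le_of_lt (by positivity) hz₂
  have hr0 : 0 ≤ ‖z₀‖ ^ (2 + 2 * γ) := Real.rpow_nonneg (norm_nonneg _) _
  set q : ℝ := 1 / (1 + ‖z₀‖ ^ (2 + 2 * γ)) with hq
  have hq0 : 0 < q := by positivity
  have hq1 : q * ‖z₀‖ ^ (2 + 2 * γ) ≤ 1 := by
    rw [hq, div_mul_eq_mul_div, one_mul, div_le_one (by positivity)]
    linarith
  obtain ⟨b, hb⟩ := ft22_max B γ q c A (by linarith) hγ0 hq0 h hd hh z₀ hM0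
  have hW0 : ft22W B γ q z₀ ≤ B * ‖z₀‖ + 1 := by
    unfold ft22W
    linarith
  have hbM : D * A * Real.exp (ft22W B γ q b) < MM h b := by
    have h1 : D * A < MM h z₀ * Real.exp (-(ft22W B γ q z₀)) := by
      have h2 : D * A * Real.exp (ft22W B γ q z₀) < MM h z₀ := by
        refine lt_of_le_of_lt ?_ hz₂
        calc D * A * Real.exp (ft22W B γ q z₀) ≤ D * A * Real.exp (B * ‖z₀‖ + 1) :=
              mul_le_mul_of_nonneg_left (Real.exp_le_exp.2 hW0) (by positivity)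
          _ = _ := by rw [Real.exp_add]; ring
      rw [Real.exp_neg, ← div_eq_mul_inv, lt_div_iff₀ (Real.exp_pos _)]
      exact h2
    have h3 := h1.trans_le (hb z₀)
    rw [Real.exp_neg, ← div_eq_mul_inv, lt_div_iff₀ (Real.exp_pos _)] at h3
    exact h3
  have hWb0 : 0 ≤ ft22W B γ q b := by
    unfold ft22W
    have := Real.rpow_nonneg (norm_nonneg b) (2 + 2 * γ)
    positivity
  have hbM0 : 0 < MM h b := lt_of_le_of_lt (by positivity) hbM
  have hbu : MM h b ≤ c * A * Real.exp (‖b‖ ^ 2 / 2) := by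
    have h6 := hh (WithLp.ofLp b)
    rw [ft22_sq] at h6
    exact h6
  have hkey : B ^ 4 / 2 + ft22W B γ q b ≤ ‖b‖ ^ 2 / 2 := by
    have h1 : c * Real.exp (B ^ 4 / 2) * A * Real.exp (ft22W B γ q b)
        ≤ c * A * Real.exp (‖b‖ ^ 2 / 2) := by
      refine le_trans ?_ hbu
      refine le_trans ?_ hbM.le
      refine mul_le_mul_of_nonneg_right (mul_le_mul_of_nonneg_right hDc hA) (Real.exp_pos _).le
    have h2 : c * A * Real.exp (B ^ 4 / 2 + ft22W B γ q b)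
        ≤ c * A * Real.exp (‖b‖ ^ 2 / 2) := by
      rw [Real.exp_add]
      calc c * A * (Real.exp (B ^ 4 / 2) * Real.exp (ft22W B γ q b))
          = c * Real.exp (B ^ 4 / 2) * A * Real.exp (ft22W B γ q b) := by ring
        _ ≤ _ := h1
    exact Real.exp_le_exp.1 (le_of_mul_le_mul_left h2 (by positivity))
  have hB2 : B ^ 2 ≤ ‖b‖ := by
    refine le_of_sq_le_sq ?_ (norm_nonneg _)
    nlinarith
  have hb0 : 0 < ‖b‖ := lt_of_lt_of_le (by positivity) hB2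
  refine ⟨h, A, b, q, hq0, hA', hd, hT, hbM0, hb, hB2, ?_, ?_⟩
  · refine le_trans ?_ hbM.le
    refine mul_le_mul_of_nonneg_right ?_ (Real.exp_pos _).le
    nlinarith
  · have h3 : 0 ≤ B ^ 4 / 2 := by positivity
    linarith

end Pool.Agent.H43.FT
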